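import Mathlib

set_option autoImplicit false
open scoped Classical
open Real

namespace Pool.Agent.MP7a5e6c

/-! ### entropy inequalities -/

lemma negMulLog_half (t : ℝ) (ht : 0 < t) :
    2 * negMulLog (t / 2) = negMulLog t + t * Real.log 2 := by
  unfold negMulLog
  rw [Real.log_div ht.ne' (by norm_num)]
  ring

lemma ent_le {L R : ℝ} (hL : 0 < L) (hR : 0 < R) :
    negMulLog L + negMulLog R - negMulLog (L + R) ≤ (L + R) * Real.log 2 := by
  have h1 := Real.concaveOn_negMulLog.2 (Set.mem_Ici.2 hL.le) (Set.mem_Ici.2 hR.le)
    (show (0:ℝ) ≤ 1/2 by norm_num) (show (0:ℝ) ≤ 1/2 by norm_num) (by norm_num)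
  simp only [smul_eq_mul] at h1
  have h2 := negMulLog_half (L + R) (by linarith)
  have e : (1:ℝ)/2 * L + 1/2 * R = (L + R) / 2 := by ring
  rw [e] at h1
  linarith

lemma ent_eq {L R : ℝ} (hL : 0 < L) (hR : 0 < R)
    (he : (L + R) * Real.log 2 ≤ negMulLog L + negMulLog R - negMulLog (L + R)) : L = R := by
  by_contra hne
  have h1 := Real.strictConcaveOn_negMulLog.2 (Set.mem_Ici.2 hL.le)
    (Set.mem_Ici.2 hR.le) hne (show (0:ℝ) < 1/2 by norm_num) (show (0:ℝ) < 1/2 by norm_num)
    (by norm_num)
  simp only [smul_eq_mul] at h1
  have h2 := negMulLog_half (L + R) (by linarith)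
  have e : (1:ℝ)/2 * L + 1/2 * R = (L + R) / 2 := by ring
  rw [e] at h1
  linarith

lemma ent_bal {L : ℝ} (hL : 0 < L) :
    negMulLog L + negMulLog L - negMulLog (L + L) = (L + L) * Real.log 2 := by
  have h2 := negMulLog_half (L + L) (by linarith)
  have e : (L + L) / 2 = L := by ring
  rw [e] at h2
  linarith

lemma ent_mono {L L' R : ℝ} (hL : 0 < L) (hLL : L ≤ L') (hR : 0 < R) :
    negMulLog L + negMulLog R - negMulLog (L + R) ≤
      negMulLog L' + negMulLog R - negMulLog (L' + R) := by
  have hD : 0 < L' + R - L := by linarith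
  set s := (L' - L) / (L' + R - L) with hs
  have hsD : s * (L' + R - L) = L' - L := by rw [hs]; field_simp
  have hs0 : 0 ≤ s := div_nonneg (by linarith) hD.le
  have hs1 : s ≤ 1 := by rw [hs, div_le_one hD]; linarith
  have hLR : (0:ℝ) ≤ L' + R := by linarith
  have h1 := Real.concaveOn_negMulLog.2 (Set.mem_Ici.2 hL.le) (Set.mem_Ici.2 hLR)
    (show (0:ℝ) ≤ 1 - s by linarith) hs0 (by ring)
  have h2 := Real.concaveOn_negMulLog.2 (Set.mem_Ici.2 hL.le) (Set.mem_Ici.2 hLR)
    hs0 (show (0:ℝ) ≤ 1 - s by linarith) (by ring)
  simp only [smul_eq_mul] at h1 h2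
  have e1 : (1 - s) * L + s * (L' + R) = L' := by linarith
  have e2 : s * L + (1 - s) * (L' + R) = L + R := by linarith
  rw [e1] at h1; rw [e2] at h2
  linarith

/-- monotonicity of the cost of the lower triangle at `w` -/
lemma low_mono {p p' w q q' : ℝ} (h1 : p ≤ p') (h2 : p' < w) (h3 : w < q') (h4 : q' ≤ q) :
    negMulLog (w - p') + Real.log 2 * (w - p') + (negMulLog (q' - w) + Real.log 2 * (q' - w))
      - negMulLog (q' - p') ≤
    negMulLog (w - p) + Real.log 2 * (w - p) + (negMulLog (q - w) + Real.log 2 * (q - w))
      - negMulLog (q - p) := by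
  have a1 := ent_mono (L := w - p') (L' := w - p) (R := q' - w) (by linarith) (by linarith) (by linarith)
  have a2 := ent_mono (L := q' - w) (L' := q - w) (R := w - p) (by linarith) (by linarith) (by linarith)
  have hlog : 0 < Real.log 2 := Real.log_pos (by norm_num)
  have e1 : w - p' + (q' - w) = q' - p' := by ring
  have e2 : w - p + (q' - w) = q' - p := by ring
  have e3 : q' - w + (w - p) = q' - p := by ring
  have e4 : q - w + (w - p) = q - p := by ring
  rw [e1, e2] at a1
  rw [e3, e4] at a2
  nlinarith

lemma low_mono_eq {p p' w q q' : ℝ} (h1 : p ≤ p') (h2 : p' < w) (h3 : w < q') (h4 : q' ≤ q)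
    (he : negMulLog (w - p) + Real.log 2 * (w - p) + (negMulLog (q - w) + Real.log 2 * (q - w))
      - negMulLog (q - p) ≤
     negMulLog (w - p') + Real.log 2 * (w - p') + (negMulLog (q' - w) + Real.log 2 * (q' - w))
      - negMulLog (q' - p')) : p = p' ∧ q = q' := by
  have a1 := ent_mono (L := w - p') (L' := w - p) (R := q' - w) (by linarith) (by linarith) (by linarith)
  have a2 := ent_mono (L := q' - w) (L' := q - w) (R := w - p) (by linarith) (by linarith) (by linarith)
  have hlog : 0 < Real.log 2 := Real.log_pos (by norm_num)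
  have e1 : w - p' + (q' - w) = q' - p' := by ring
  have e2 : w - p + (q' - w) = q' - p := by ring
  have e3 : q' - w + (w - p) = q' - p := by ring
  have e4 : q - w + (w - p) = q - p := by ring
  rw [e1, e2] at a1
  rw [e3, e4] at a2
  have h5 : Real.log 2 * ((p' - p) + (q - q')) ≤ 0 := by nlinarith
  have h6 : (p' - p) + (q - q') ≤ 0 := by
    by_contra hcon
    have := mul_pos hlog (not_le.1 hcon)
    linarith
  constructor <;> linarith

/-! ### lists -/

section
variable {V : Type} (X : V → ℝ)

/-- potential of a chain of vertices -/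
noncomputable def chain : List V → ℝ
  | [] => 0
  | [_] => 0
  | a :: b :: l => negMulLog (X b - X a) + chain (b :: l)

@[simp] lemma chain_nil : chain X [] = 0 := rfl
@[simp] lemma chain_single (a : V) : chain X [a] = 0 := rfl
lemma chain_cons2 (a b : V) (l : List V) :
    chain X (a :: b :: l) = negMulLog (X b - X a) + chain X (b :: l) := rfl

lemma chain_append (A : List V) (u : V) (B : List V) :
    chain X (A ++ u :: B) = chain X (A ++ [u]) + chain X (u :: B) := by
  induction A with
  | nil => simp
  | cons a A ih =>
    cases A with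
    | nil =>
      simp only [List.cons_append, List.nil_append, chain_cons2, chain_single]
      ring
    | cons b A =>
      simp only [List.cons_append, chain_cons2] at ih ⊢
      rw [ih]; ring

/-- the last vertex of a nonempty list `u :: l` -/
def lst (u : V) (l : List V) : V := (u :: l).getLast (by simp)

@[simp] lemma lst_nil (u : V) : lst u [] = u := rfl
@[simp] lemma lst_cons (u b : V) (l : List V) : lst u (b :: l) = lst b l := by
  simp [lst]

lemma lst_mem (u : V) (l : List V) : lst u l ∈ u :: l := List.getLast_mem _

lemma lst_append (u : V) (l : List V) (v : V) : lst u (l ++ [v]) = v := by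
  simp [lst]

variable {X}

lemma le_lst {u : V} {l : List V} (hs : (u :: l).Pairwise (fun a b => X a < X b)) :
    ∀ a ∈ u :: l, X a ≤ X (lst u l) := by
  induction l generalizing u with
  | nil => intro a ha; simp at ha; subst ha; simp
  | cons b l ih =>
    intro a ha
    rw [lst_cons]
    have h2 := ih (List.pairwise_cons.1 hs).2
    rcases List.mem_cons.1 ha with rfl | ha
    · have h3 := (List.pairwise_cons.1 hs).1 b (by simp)
      exact h3.le.trans (h2 b (by simp))
    · exact h2 a ha

lemma lt_lst {u b : V} {l : List V} (hs : (u :: b :: l).Pairwise (fun a b => X a < X b)) :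
    X u < X (lst b l) := by
  have h3 := (List.pairwise_cons.1 hs).1 b (by simp)
  exact h3.trans_le (le_lst (List.pairwise_cons.1 hs).2 b (by simp))

/-- left part -/
lemma gainL (w : V) : ∀ (l : List V) (u : V), (u :: l).Pairwise (fun a b => X a < X b) →
    (∀ a ∈ u :: l, X a < X w) →
    negMulLog (X w - X (lst u l)) + Real.log 2 * (X w - X (lst u l)) ≤
      Real.log 2 * ((u :: l).map (fun a => X w - X a)).sum + negMulLog (X w - X u) - chain X (u :: l)
  | [], u, _, _ => by simp [add_comm]
  | b :: l, u, hs, hw => by
    have ih := gainL w l b (List.pairwise_cons.1 hs).2 (fun a ha => hw a (List.mem_cons_of_mem _ ha))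
    have h1 : X u < X b := (List.pairwise_cons.1 hs).1 b (by simp)
    have h2 : X b < X w := hw b (by simp)
    have h3 := ent_le (L := X b - X u) (R := X w - X b) (by linarith) (by linarith)
    have e : X b - X u + (X w - X b) = X w - X u := by ring
    rw [e] at h3
    rw [lst_cons, chain_cons2, List.map_cons, List.sum_cons]
    nlinarith

lemma gainL_bal (w : V) : ∀ (l : List V) (u : V), (u :: l).Pairwise (fun a b => X a < X b) →
    (∀ a ∈ u :: l, X a < X w) → (u :: l).IsChain (fun a b => X b - X a = X w - X b) →
    negMulLog (X w - X (lst u l)) + Real.log 2 * (X w - X (lst u l)) =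
      Real.log 2 * ((u :: l).map (fun a => X w - X a)).sum + negMulLog (X w - X u) - chain X (u :: l)
  | [], u, _, _, _ => by simp [add_comm]
  | b :: l, u, hs, hw, hb => by
    rw [List.isChain_cons_cons] at hb
    have ih := gainL_bal w l b (List.pairwise_cons.1 hs).2
      (fun a ha => hw a (List.mem_cons_of_mem _ ha)) hb.2
    have h2 : X b < X w := hw b (by simp)
    have h3 := ent_bal (L := X w - X b) (by linarith)
    have e : X w - X b + (X w - X b) = X w - X u := by linarith [hb.1]
    rw [e] at h3
    rw [lst_cons, chain_cons2, List.map_cons, List.sum_cons, hb.1]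
    rw [ih]
    linarith

lemma gainL_eq (w : V) : ∀ (l : List V) (u : V), (u :: l).Pairwise (fun a b => X a < X b) →
    (∀ a ∈ u :: l, X a < X w) → 
    Real.log 2 * ((u :: l).map (fun a => X w - X a)).sum + negMulLog (X w - X u) - chain X (u :: l) ≤
    negMulLog (X w - X (lst u l)) + Real.log 2 * (X w - X (lst u l)) →
      (u :: l).IsChain (fun a b => X b - X a = X w - X b)
  | [], u, _, _, _ => by simp
  | b :: l, u, hs, hw, he => by
    have ih := gainL w l b (List.pairwise_cons.1 hs).2 (fun a ha => hw a (List.mem_cons_of_mem _ ha))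
    have h1 : X u < X b := (List.pairwise_cons.1 hs).1 b (by simp)
    have h2 : X b < X w := hw b (by simp)
    have h3 := ent_le (L := X b - X u) (R := X w - X b) (by linarith) (by linarith)
    have e : X b - X u + (X w - X b) = X w - X u := by ring
    rw [lst_cons, chain_cons2, List.map_cons, List.sum_cons] at he
    rw [List.isChain_cons_cons]
    constructor
    · apply ent_eq (by linarith) (by linarith)
      rw [e] at h3 ⊢
      nlinarith
    · apply gainL_eq w l b (List.pairwise_cons.1 hs).2 (fun a ha => hw a (List.mem_cons_of_mem _ ha))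
      rw [e] at h3
      nlinarith

/-- right part -/
lemma gainR (w : V) : ∀ (l : List V) (q : V), (q :: l).Pairwise (fun a b => X a < X b) →
    (∀ a ∈ q :: l, X w < X a) →
    negMulLog (X q - X w) + Real.log 2 * (X q - X w) ≤
      Real.log 2 * ((q :: l).map (fun a => X a - X w)).sum + negMulLog (X (lst q l) - X w)
        - chain X (q :: l)
  | [], q, _, _ => by simp [add_comm]
  | b :: l, q, hs, hw => by
    have ih := gainR w l b (List.pairwise_cons.1 hs).2 (fun a ha => hw a (List.mem_cons_of_mem _ ha))
    have h1 : X q < X b := (List.pairwise_cons.1 hs).1 b (by simp)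
    have h2 : X w < X q := hw q (by simp)
    have h3 := ent_le (L := X q - X w) (R := X b - X q) (by linarith) (by linarith)
    have e : X q - X w + (X b - X q) = X b - X w := by ring
    rw [e] at h3
    rw [lst_cons, chain_cons2, List.map_cons, List.sum_cons]
    nlinarith

lemma gainR_bal (w : V) : ∀ (l : List V) (q : V), (q :: l).Pairwise (fun a b => X a < X b) →
    (∀ a ∈ q :: l, X w < X a) → (q :: l).IsChain (fun a b => X a - X w = X b - X a) →
    negMulLog (X q - X w) + Real.log 2 * (X q - X w) =
      Real.log 2 * ((q :: l).map (fun a => X a - X w)).sum + negMulLog (X (lst q l) - X w)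
        - chain X (q :: l)
  | [], q, _, _, _ => by simp [add_comm]
  | b :: l, q, hs, hw, hb => by
    rw [List.isChain_cons_cons] at hb
    have ih := gainR_bal w l b (List.pairwise_cons.1 hs).2
      (fun a ha => hw a (List.mem_cons_of_mem _ ha)) hb.2
    have h2 : X w < X q := hw q (by simp)
    have h3 := ent_bal (L := X q - X w) (by linarith)
    have e : X q - X w + (X q - X w) = X b - X w := by linarith [hb.1]
    rw [e] at h3
    rw [lst_cons, chain_cons2, List.map_cons, List.sum_cons, ← hb.1]
    linarith

lemma gainR_eq (w : V) : ∀ (l : List V) (q : V), (q :: l).Pairwise (fun a b => X a < X b) →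
    (∀ a ∈ q :: l, X w < X a) →
      Real.log 2 * ((q :: l).map (fun a => X a - X w)).sum + negMulLog (X (lst q l) - X w)
        - chain X (q :: l) ≤ negMulLog (X q - X w) + Real.log 2 * (X q - X w) →
      (q :: l).IsChain (fun a b => X a - X w = X b - X a)
  | [], q, _, _, _ => by simp
  | b :: l, q, hs, hw, he => by
    have ih := gainR w l b (List.pairwise_cons.1 hs).2 (fun a ha => hw a (List.mem_cons_of_mem _ ha))
    have h1 : X q < X b := (List.pairwise_cons.1 hs).1 b (by simp)
    have h2 : X w < X q := hw q (by simp)
    have h3 := ent_le (L := X q - X w) (R := X b - X q) (by linarith) (by linarith)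
    have e : X q - X w + (X b - X q) = X b - X w := by ring
    rw [lst_cons, chain_cons2, List.map_cons, List.sum_cons] at he
    rw [List.isChain_cons_cons]
    constructor
    · apply ent_eq (by linarith) (by linarith)
      rw [e] at h3 ⊢
      nlinarith
    · apply gainR_eq w l b (List.pairwise_cons.1 hs).2 (fun a ha => hw a (List.mem_cons_of_mem _ ha))
      rw [e] at h3
      nlinarith

lemma chain_unique {R : V → V → Prop} (hfun : ∀ a b b', R a b → R a b' → b = b') :
    ∀ (l l' : List V) (u : V), (u :: l).IsChain R → (u :: l').IsChain R →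
      (u :: l).Pairwise (fun a b => X a < X b) → (u :: l').Pairwise (fun a b => X a < X b) →
      lst u l = lst u l' → l = l'
  | [], [], _, _, _, _, _, _ => rfl
  | [], b :: l', u, _, _, _, hs', he => by
    have := lt_lst hs'
    rw [lst_nil, lst_cons] at he
    rw [← he] at this
    exact absurd this (lt_irrefl _)
  | b :: l, [], u, _, _, hs, _, he => by
    have := lt_lst hs
    rw [lst_nil, lst_cons] at he
    rw [he] at this
    exact absurd this (lt_irrefl _)
  | b :: l, b' :: l', u, h1, h2, hs, hs', he => by
    rw [List.isChain_cons_cons] at h1 h2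
    have e := hfun u b b' h1.1 h2.1
    subst e
    rw [lst_cons, lst_cons] at he
    rw [chain_unique hfun l l' b h1.2 h2.2 (List.pairwise_cons.1 hs).2 (List.pairwise_cons.1 hs').2 he]

lemma split_mono {P : V → Prop} : ∀ (l : List V), l.Pairwise (fun a b => P a → P b) →
    ∃ A N, l = A ++ N ∧ (∀ a ∈ A, ¬ P a) ∧ (∀ a ∈ N, P a)
  | [], _ => ⟨[], [], rfl, by simp, by simp⟩
  | a :: l, hl => by
    by_cases ha : P a
    · refine ⟨[], a :: l, rfl, by simp, ?_⟩
      intro b hb
      rcases List.mem_cons.1 hb with rfl | hb
      · exact ha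
      · exact (List.pairwise_cons.1 hl).1 b hb ha
    · obtain ⟨A, N, he, h1, h2⟩ := split_mono l (List.pairwise_cons.1 hl).2
      refine ⟨a :: A, N, by rw [he]; rfl, ?_, h2⟩
      intro b hb
      rcases List.mem_cons.1 hb with rfl | hb
      · exact ha
      · exact h1 b hb

/-- two strictly sorted lists with the same members are equal -/
lemma sorted_ext (hX : Function.Injective X) : ∀ (l l' : List V),
    l.Pairwise (fun a b => X a < X b) → l'.Pairwise (fun a b => X a < X b) →
    (∀ a, a ∈ l ↔ a ∈ l') → l = l'
  | [], [], _, _, _ => rfl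
  | [], b :: l', _, _, hm => by have := (hm b).2 (by simp); simp at this
  | a :: l, [], _, _, hm => by have := (hm a).1 (by simp); simp at this
  | a :: l, b :: l', h1, h2, hm => by
    rw [List.pairwise_cons] at h1 h2
    have hab : a = b := by
      apply hX
      have ha := (hm a).1 (by simp)
      have hb := (hm b).2 (by simp)
      rcases List.mem_cons.1 ha with ha | ha
      · rw [ha]
      rcases List.mem_cons.1 hb with hb | hb
      · rw [hb]
      have := h1.1 b hb
      have := h2.1 a ha
      linarith
    subst hab
    congr 1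
    apply sorted_ext hX l l' h1.2 h2.2
    intro c
    constructor
    · intro hc
      have hac := h1.1 c hc
      have := (hm c).1 (List.mem_cons_of_mem _ hc)
      rcases List.mem_cons.1 this with rfl | h3
      · exact absurd hac (lt_irrefl _)
      · exact h3
    · intro hc
      have hac := h2.1 c hc
      have := (hm c).2 (List.mem_cons_of_mem _ hc)
      rcases List.mem_cons.1 this with rfl | h3
      · exact absurd hac (lt_irrefl _)
      · exact h3

end

end Pool.Agent.MP7a5e6c
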