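import Pool.Agent.MP7a5e6c.Plane

set_option autoImplicit false
open scoped Classical

namespace Pool.Agent.MP7a5e6c

variable {V : Type}

/-- `v` lies on a supporting line of the points -/
def Hull (X Y : V → ℝ) (v : V) : Prop :=
  ∃ p q : ℝ, (p ≠ 0 ∨ q ≠ 0) ∧ ∀ w, p * X w + q * Y w ≤ p * X v + q * Y v

/-- dot product of the vectors from `x` to `a` and to `b` -/
def dt (X Y : V → ℝ) (a b x : V) : ℝ :=
  (X a - X x) * (X b - X x) + (Y a - Y x) * (Y b - Y x)

/-- in-circle determinant -/
def IC (X Y : V → ℝ) (a b w c : V) : ℝ :=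
  dt X Y a b c * ori X Y a b w - dt X Y a b w * ori X Y a b c

/-- counterclockwise triangle with an empty circumscribed circle -/
def DTri (X Y : V → ℝ) (a b w : V) : Prop :=
  0 < ori X Y a b w ∧ ∀ c, c ≠ a → c ≠ b → c ≠ w → 0 < IC X Y a b w c

variable (X Y : V → ℝ)

lemma IC_rot (a b w c : V) : IC X Y b w a c = IC X Y a b w c := by
  unfold IC dt ori; ring

lemma IC_swap (a b w c : V) : IC X Y a b c w = - IC X Y a b w c := by
  unfold IC; ring

lemma DTri.rot {X Y : V → ℝ} {a b w : V} (h : DTri X Y a b w) : DTri X Y b w a := by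
  refine ⟨by rw [ori_rot]; exact h.1, ?_⟩
  intro c h1 h2 h3
  rw [IC_rot]
  exact h.2 c h3 h1 h2

lemma DTri.ne {X Y : V → ℝ} {a b w : V} (h : DTri X Y a b w) : a ≠ b ∧ a ≠ w ∧ b ≠ w := by
  refine ⟨?_, ?_, ?_⟩ <;> · rintro rfl; have := h.1; simp at this

lemma DTri.unique {X Y : V → ℝ} {a b w w' : V} (h : DTri X Y a b w) (h' : DTri X Y a b w') :
    w = w' := by
  by_contra hne
  have h1 := h.2 w' (h'.ne.2.1.symm) (h'.ne.2.2.symm) (Ne.symm hne)
  have h2 := h'.2 w (h.ne.2.1.symm) (h.ne.2.2.symm) hne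
  rw [IC_swap] at h2
  linarith

lemma hull_tri {v x y z : V} (hv : Hull X Y v) (h1 : 0 < ori X Y x y v) (h2 : 0 < ori X Y y z v)
    (h3 : 0 < ori X Y z x v) : False := by
  obtain ⟨p, q, hpq, h⟩ := hv
  have hx := h x
  have hy := h y
  have hz := h z
  have id1 : ori X Y y z v * ((p * X x + q * Y x) - (p * X v + q * Y v)) +
      ori X Y z x v * ((p * X y + q * Y y) - (p * X v + q * Y v)) +
      ori X Y x y v * ((p * X z + q * Y z) - (p * X v + q * Y v)) = 0 := by
    unfold ori; ring
  have e1 : (p * X x + q * Y x) - (p * X v + q * Y v) = 0 := by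
    by_contra hne
    have : (p * X x + q * Y x) - (p * X v + q * Y v) < 0 := lt_of_le_of_ne (by linarith) hne
    nlinarith [mul_neg_of_pos_of_neg h2 this,
      mul_nonneg h3.le (by linarith : 0 ≤ (p * X v + q * Y v) - (p * X y + q * Y y)),
      mul_nonneg h1.le (by linarith : 0 ≤ (p * X v + q * Y v) - (p * X z + q * Y z))]
  have e2 : (p * X y + q * Y y) - (p * X v + q * Y v) = 0 := by
    by_contra hne
    have : (p * X y + q * Y y) - (p * X v + q * Y v) < 0 := lt_of_le_of_ne (by linarith) hne
    nlinarith [mul_neg_of_pos_of_neg h3 this,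
      mul_nonneg h2.le (by linarith : 0 ≤ (p * X v + q * Y v) - (p * X x + q * Y x)),
      mul_nonneg h1.le (by linarith : 0 ≤ (p * X v + q * Y v) - (p * X z + q * Y z))]
  have k1 : p * (X x - X v) + q * (Y x - Y v) = 0 := by linarith
  have k2 : p * (X y - X v) + q * (Y y - Y v) = 0 := by linarith
  have k3 : p * ori X Y x y v = 0 := by
    have : p * ori X Y x y v = (Y v - Y x) * (p * (X y - X v) + q * (Y y - Y v)) * 1
        + (Y y - Y v) * (p * (X x - X v) + q * (Y x - Y v)) * 1 := by
      unfold ori; ring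
    rw [this, k1, k2]; ring
  have k4 : q * ori X Y x y v = 0 := by
    have : q * ori X Y x y v = (X x - X v) * (p * (X y - X v) + q * (Y y - Y v))
        - (X y - X v) * (p * (X x - X v) + q * (Y x - Y v)) := by
      unfold ori; ring
    rw [this, k1, k2]; ring
  rcases hpq with hp | hq
  · rcases mul_eq_zero.1 k3 with h | h
    · exact hp h
    · linarith
  · rcases mul_eq_zero.1 k4 with h | h
    · exact hq h
    · linarith

variable {X Y}

lemma ne_of_ori {a b c : V} (h : ori X Y a b c ≠ 0) : a ≠ b ∧ a ≠ c ∧ b ≠ c := by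
  refine ⟨?_, ?_, ?_⟩ <;> · rintro rfl; simp at h

lemma left_trans_a (hgp : GP X Y) {a b w x : V} (ha : Hull X Y a) (hw : 0 < ori X Y a b w)
    (hx : 0 < ori X Y a w x) : 0 < ori X Y a b x := by
  have h1 := ne_of_ori hw.ne'
  have h2 := ne_of_ori hx.ne'
  have hbx : b ≠ x := by
    rintro rfl
    rw [ori_swap'] at hx; linarith
  by_contra hc
  have hne := hgp.2 a b x h1.1 h2.2.1 hbx
  have hlt : ori X Y a b x < 0 := lt_of_le_of_ne (not_lt.1 hc) hne
  refine hull_tri X Y (v := a) (x := b) (y := w) (z := x) ha ?_ ?_ ?_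
  · rw [ori_rot]; exact hw
  · rw [ori_rot]; exact hx
  · rw [ori_rot, ori_swap']; linarith

lemma left_trans_b (hgp : GP X Y) {a b w x : V} (hb : Hull X Y b) (hw : 0 < ori X Y a b w)
    (hx : 0 < ori X Y w b x) : 0 < ori X Y a b x := by
  have h1 := ne_of_ori hw.ne'
  have h2 := ne_of_ori hx.ne'
  have hax : a ≠ x := by
    rintro rfl
    have : ori X Y w b a = - ori X Y a b w := by unfold ori; ring
    linarith
  by_contra hc
  have hne := hgp.2 a b x h1.1 hax h2.2.2
  have hlt : ori X Y a b x < 0 := lt_of_le_of_ne (not_lt.1 hc) hne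
  refine hull_tri X Y (v := b) (x := x) (y := w) (z := a) hb ?_ ?_ ?_
  · rw [← ori_rot]; exact hx
  · have : ori X Y w a b = ori X Y a b w := by unfold ori; ring
    linarith
  · rw [ori_swap']; linarith

lemma chord_cross (hgp : GP X Y) {a b x y : V} (ha : Hull X Y a) (hb : Hull X Y b)
    (hx : 0 < ori X Y a b x) (hy : ori X Y a b y < 0) : Cr X Y a b x y := by
  refine ⟨mul_neg_of_pos_of_neg hx hy, ?_⟩
  have h1 := ne_of_ori hx.ne'
  have h2 := ne_of_ori hy.ne
  have hxy : x ≠ y := by rintro rfl; linarith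
  have n1 := hgp.2 x y a hxy h1.2.1.symm h2.2.1.symm
  have n2 := hgp.2 x y b hxy h1.2.2.symm h2.2.2.symm
  have hid : ori X Y x y b - ori X Y x y a = ori X Y a b x - ori X Y a b y := by
    unfold ori; ring
  rcases lt_or_gt_of_ne n1 with c1 | c1 <;> rcases lt_or_gt_of_ne n2 with c2 | c2
  · exfalso
    refine hull_tri X Y (v := b) (x := y) (y := x) (z := a) hb ?_ ?_ ?_
    · rw [ori_swap]; linarith
    · have : ori X Y x a b = ori X Y a b x := by unfold ori; ring
      linarith
    · rw [ori_swap']; linarith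
  · exact mul_neg_of_neg_of_pos c1 c2
  · linarith
  · exfalso
    refine hull_tri X Y (v := a) (x := x) (y := y) (z := b) ha c1 ?_ ?_
    · have : ori X Y y b a = - ori X Y a b y := by unfold ori; ring
      linarith
    · have : ori X Y b x a = ori X Y a b x := by unfold ori; ring
      linarith

lemma hull_of_side (hgp : GP X Y) {a b : V} (hab : a ≠ b) (h : ∀ x, 0 ≤ ori X Y a b x) :
    Hull X Y a ∧ Hull X Y b := by
  have hne : (Y b - Y a) ≠ 0 ∨ -(X b - X a) ≠ 0 := by
    rcases hgp.1 a b hab with h1 | h1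
    · right; intro h2; exact h1 (by linarith)
    · left; intro h2; exact h1 (by linarith)
  constructor
  · refine ⟨Y b - Y a, -(X b - X a), hne, ?_⟩
    intro w
    have := h w
    unfold ori at this
    nlinarith
  · refine ⟨Y b - Y a, -(X b - X a), hne, ?_⟩
    intro w
    have := h w
    unfold ori at this
    nlinarith

lemma hull_of_side' (hgp : GP X Y) {a b : V} (hab : a ≠ b) (h : ∀ x, ori X Y a b x ≤ 0) :
    Hull X Y a ∧ Hull X Y b := by
  have := hull_of_side hgp hab.symm (fun x => by rw [ori_swap]; linarith [h x])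
  exact this.symm

/-- Delaunay pairs, written with the pencil of circles through `a` and `b` -/
lemma del_iff (hgp : GP X Y) {a b : V} (hab : a ≠ b) :
    Del X Y a b ↔ ∃ l : ℝ, ∀ c, c ≠ a → c ≠ b → 0 < dt X Y a b c + l * ori X Y a b c := by
  have hD : 0 < (X b - X a) ^ 2 + (Y b - Y a) ^ 2 := by
    rcases hgp.1 a b hab with h | h
    · have : X b - X a ≠ 0 := fun h2 => h (by linarith)
      positivity
    · have : Y b - Y a ≠ 0 := fun h2 => h (by linarith)
      positivity
  constructor
  · rintro ⟨p, q, r, h1, h2, h3⟩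
    set D := (X b - X a) ^ 2 + (Y b - Y a) ^ 2 with hDd
    refine ⟨-2 * (((q - (Y a + Y b) / 2) * (X b - X a) - (p - (X a + X b) / 2) * (Y b - Y a)) / D), ?_⟩
    intro c hca hcb
    have h := h3 c hca hcb
    have horth : (p - (X a + X b) / 2) * (X b - X a) + (q - (Y a + Y b) / 2) * (Y b - Y a) = 0 := by
      nlinarith
    set t := ((q - (Y a + Y b) / 2) * (X b - X a) - (p - (X a + X b) / 2) * (Y b - Y a)) / D with ht
    have ht' : t * D = (q - (Y a + Y b) / 2) * (X b - X a) - (p - (X a + X b) / 2) * (Y b - Y a) := by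
      rw [ht]; field_simp
    have e1 : p - (X a + X b) / 2 = - t * (Y b - Y a) := by
      have : (p - (X a + X b) / 2) * D = (- t * (Y b - Y a)) * D := by
        have : (- t * (Y b - Y a)) * D = - (Y b - Y a) * (t * D) := by ring
        rw [this, ht', hDd]
        linear_combination (X b - X a) * horth
      exact mul_right_cancel₀ hD.ne' this
    have e2 : q - (Y a + Y b) / 2 = t * (X b - X a) := by
      have : (q - (Y a + Y b) / 2) * D = (t * (X b - X a)) * D := by
        have : (t * (X b - X a)) * D = (X b - X a) * (t * D) := by ring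
        rw [this, ht', hDd]
        linear_combination (Y b - Y a) * horth
      exact mul_right_cancel₀ hD.ne' this
    have ep : p = (X a + X b) / 2 - t * (Y b - Y a) := by linarith
    have eq : q = (Y a + Y b) / 2 + t * (X b - X a) := by linarith
    have hid : dt X Y a b c + (-2 * t) * ori X Y a b c =
        ((X c - p) ^ 2 + (Y c - q) ^ 2) - ((X a - p) ^ 2 + (Y a - q) ^ 2) := by
      rw [ep, eq]; unfold dt ori; ring
    rw [hid]; linarith
  · rintro ⟨l, h⟩
    refine ⟨(X a + X b) / 2 + l / 2 * (Y b - Y a), (Y a + Y b) / 2 - l / 2 * (X b - X a), _, rfl,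
      by ring, ?_⟩
    intro c hca hcb
    have := h c hca hcb
    have hid : dt X Y a b c + l * ori X Y a b c =
        ((X c - ((X a + X b) / 2 + l / 2 * (Y b - Y a))) ^ 2 +
          (Y c - ((Y a + Y b) / 2 - l / 2 * (X b - X a))) ^ 2) -
        ((X a - ((X a + X b) / 2 + l / 2 * (Y b - Y a))) ^ 2 +
          (Y a - ((Y a + Y b) / 2 - l / 2 * (X b - X a))) ^ 2) := by
      unfold dt ori; ring
    linarith

lemma exists_small [Finite V] (P Q : V → ℝ) (s : V → Prop) (h : ∀ c, s c → 0 < P c) :
    ∃ e : ℝ, 0 < e ∧ ∀ c, s c → 0 < P c + e * Q c := by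
  have h1 : ∀ c, ∀ᶠ e in nhdsWithin (0 : ℝ) (Set.Ioi 0), (s c → 0 < P c + e * Q c) := by
    intro c
    by_cases hs : s c
    · have hcont : Filter.Tendsto (fun e : ℝ => P c + e * Q c) (nhdsWithin 0 (Set.Ioi 0))
          (nhds (P c + 0 * Q c)) := by
        apply Filter.Tendsto.mono_left _ nhdsWithin_le_nhds
        exact (Continuous.tendsto (by fun_prop) 0)
      have := hcont.eventually (lt_mem_nhds (show (0 : ℝ) < P c + 0 * Q c by simpa using h c hs))
      filter_upwards [this] with e he _
      exact he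
    · filter_upwards with e he
      exact absurd he hs
  have h2 := (Filter.eventually_all.2 h1).and self_mem_nhdsWithin
  obtain ⟨e, he1, he2⟩ := h2.exists
  exact ⟨e, he2, he1⟩

/-- the side `b w` of an empty triangle is a Delaunay pair -/
lemma DTri.del [Finite V] (hgp : GP X Y) {a b w : V} (h : DTri X Y a b w) : Del X Y b w := by
  have h' := h.rot
  rw [del_iff hgp h.ne.2.2]
  have hpos : 0 < ori X Y b w a := h'.1
  obtain ⟨e, he, hs⟩ := exists_small (V := V)
    (fun c => dt X Y b w c + (- dt X Y b w a / ori X Y b w a) * ori X Y b w c)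
    (fun c => ori X Y b w c) (fun c => c ≠ b ∧ c ≠ w ∧ c ≠ a) (by
      rintro c ⟨h1, h2, h3⟩
      have := h'.2 c h1 h2 h3
      unfold IC at this
      have e1 : dt X Y b w c + (- dt X Y b w a / ori X Y b w a) * ori X Y b w c =
          (dt X Y b w c * ori X Y b w a - dt X Y b w a * ori X Y b w c) / ori X Y b w a := by
        field_simp
        ring
      show 0 < dt X Y b w c + (- dt X Y b w a / ori X Y b w a) * ori X Y b w c
      rw [e1]
      exact div_pos this hpos)
  refine ⟨- dt X Y b w a / ori X Y b w a + e, ?_⟩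
  intro c hcb hcw
  by_cases hca : c = a
  · subst hca
    have e1 : dt X Y b w c + (- dt X Y b w c / ori X Y b w c + e) * ori X Y b w c =
        e * ori X Y b w c := by
      field_simp; ring
    rw [e1]; positivity
  · have := hs c ⟨hcb, hcw, hca⟩
    linarith

lemma cross_aff (a w x y a' b' : V) (l l' : ℝ) :
    ori X Y a w x * ((dt X Y a' b' y + l * ori X Y a' b' y) - (dt X Y x y y + l' * ori X Y x y y))
    - ori X Y a w y * ((dt X Y a' b' x + l * ori X Y a' b' x) - (dt X Y x y x + l' * ori X Y x y x))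
    + ori X Y x y a * ((dt X Y a' b' w + l * ori X Y a' b' w) - (dt X Y x y w + l' * ori X Y x y w))
    - ori X Y x y w * ((dt X Y a' b' a + l * ori X Y a' b' a) - (dt X Y x y a + l' * ori X Y x y a))
    = 0 := by
  unfold ori dt; ring

/-- four points on an empty circle contradict maximality -/
lemma no_tie (hgp : GP X Y) {G : SimpleGraph V} (hT : TriC X Y G)
    (hD : ∀ a b, a ≠ b → (G.Adj a b ↔ Del X Y a b)) {a b w c : V}
    (h1 : 0 < ori X Y a b w) (hcw : c ≠ w) (hca : c ≠ a) (hcb : c ≠ b)
    (h3 : IC X Y a b w c = 0) (hbc : ori X Y a w b * ori X Y a w c < 0)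
    (hall : ∀ x, 0 ≤ IC X Y a b w x) : False := by
  have hne := ne_of_ori h1.ne'
  have haw := hne.2.1
  -- not adjacent
  have hnadj : ¬ G.Adj a w := by
    intro hadj
    rw [hD a w haw, del_iff hgp haw] at hadj
    obtain ⟨l, hl⟩ := hadj
    have k1 := hl b hne.1.symm hne.2.2
    have k2 := hl c hca hcw
    have hid : dt X Y a w b * ori X Y a w c - dt X Y a w c * ori X Y a w b = IC X Y a b w c := by
      unfold IC dt ori; ring
    rw [h3] at hid
    rcases lt_or_gt_of_ne (show ori X Y a w b ≠ 0 by rintro h; rw [h] at hbc; simp at hbc) with s | s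
    · have s2 : 0 < ori X Y a w c := by nlinarith
      nlinarith [mul_pos k1 s2, mul_pos k2 (neg_pos.2 s)]
    · have s2 : ori X Y a w c < 0 := by nlinarith
      nlinarith [mul_pos k1 (neg_pos.2 s2), mul_pos k2 s]
  apply hnadj
  apply hT.2 a w haw
  intro x y hxy hcr
  have hxy' := hxy
  rw [hD x y hxy'.ne, del_iff hgp hxy'.ne] at hxy
  obtain ⟨l', hl'⟩ := hxy
  have hax : a ≠ x := fun h => not_Cr_share X Y a w x y (Or.inl h) hcr
  have hay : a ≠ y := fun h => not_Cr_share X Y a w x y (Or.inr (Or.inl h)) hcr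
  have hwx : w ≠ x := fun h => not_Cr_share X Y a w x y (Or.inr (Or.inr (Or.inl h))) hcr
  have hwy : w ≠ y := fun h => not_Cr_share X Y a w x y (Or.inr (Or.inr (Or.inr h))) hcr
  have pa := hl' a hax hay
  have pw := hl' w hwx hwy
  have key := cross_aff (X := X) (Y := Y) a w x y a b (- dt X Y a b w / ori X Y a b w) l'
  have hpow : ∀ z, dt X Y a b z + (- dt X Y a b w / ori X Y a b w) * ori X Y a b z =
      IC X Y a b w z / ori X Y a b w := by
    intro z; unfold IC; field_simp; ring
  have zx : dt X Y x y x + l' * ori X Y x y x = 0 := by unfold dt ori; ring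
  have zy : dt X Y x y y + l' * ori X Y x y y = 0 := by unfold dt ori; ring
  have za : IC X Y a b w a = 0 := by unfold IC dt ori; ring
  have zw : IC X Y a b w w = 0 := by unfold IC dt ori; ring
  rw [hpow, hpow, hpow, hpow, zx, zy, za, zw] at key
  have qx : 0 ≤ IC X Y a b w x / ori X Y a b w := div_nonneg (hall x) h1.le
  have qy : 0 ≤ IC X Y a b w y / ori X Y a b w := div_nonneg (hall y) h1.le
  obtain ⟨c1, c2⟩ := hcr
  have hid2 : ori X Y x y w - ori X Y x y a = ori X Y a w x - ori X Y a w y := by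
    unfold ori; ring
  simp only [zero_div, zero_sub, sub_zero] at key
  rcases lt_or_gt_of_ne (show ori X Y a w x ≠ 0 by rintro h; rw [h] at c1; simp at c1) with s | s
  · have s2 : 0 < ori X Y a w y := by nlinarith
    have s3 : 0 < ori X Y x y a ∧ ori X Y x y w < 0 := by
      constructor <;> nlinarith
    nlinarith [mul_nonneg (neg_nonneg.2 s.le) qy, mul_nonneg s2.le qx, mul_pos s3.1 pw,
      mul_pos (neg_pos.2 s3.2) pa]
  · have s2 : ori X Y a w y < 0 := by nlinarith
    have s3 : ori X Y x y a < 0 ∧ 0 < ori X Y x y w := by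
      constructor <;> nlinarith
    nlinarith [mul_nonneg s.le qy, mul_nonneg (neg_nonneg.2 s2.le) qx, mul_pos (neg_pos.2 s3.1) pw,
      mul_pos s3.2 pa]

/-- the empty triangle on the left of an edge -/
lemma apex [Finite V] (hgp : GP X Y) {G : SimpleGraph V} (hT : TriC X Y G)
    (hD : ∀ a b, a ≠ b → (G.Adj a b ↔ Del X Y a b)) {a b : V} (hab : G.Adj a b)
    (hex : ∃ x, 0 < ori X Y a b x) : ∃ w, DTri X Y a b w := by
  have hdel := hab
  rw [hD a b hab.ne, del_iff hgp hab.ne] at hdel
  obtain ⟨l, hl⟩ := hdel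
  have hfin : (Set.univ : Set {x // 0 < ori X Y a b x}).Nonempty := by
    obtain ⟨x, hx⟩ := hex; exact ⟨⟨x, hx⟩, trivial⟩
  obtain ⟨⟨w, hw⟩, _, hmin⟩ := Set.exists_min_image (Set.univ : Set {x // 0 < ori X Y a b x})
    (fun x => dt X Y a b x.1 / ori X Y a b x.1) (Set.toFinite _) hfin
  have hwne := ne_of_ori hw.ne'
  have hge : ∀ x, 0 ≤ IC X Y a b w x := by
    intro x
    by_cases hxa : x = a
    · subst hxa; have : IC X Y x b w x = 0 := by unfold IC dt ori; ring
      linarith
    by_cases hxb : x = b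
    · subst hxb; have : IC X Y a x w x = 0 := by unfold IC dt ori; ring
      linarith
    have hne := hgp.2 a b x hab.ne (Ne.symm hxa) (Ne.symm hxb)
    rcases lt_or_gt_of_ne hne with h | h
    · have k1 := hl x hxa hxb
      have k2 := hl w hwne.2.1.symm hwne.2.2.symm
      unfold IC
      nlinarith [mul_pos k1 hw, mul_pos k2 (neg_pos.2 h)]
    · have := hmin ⟨x, h⟩ trivial
      simp only at this
      rw [div_le_div_iff₀ hw h] at this
      unfold IC; linarith
  refine ⟨w, hw, ?_⟩
  intro c hca hcb hcw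
  rcases (hge c).lt_or_eq with h | h
  · exact h
  exfalso
  have hzero : IC X Y a b w c = 0 := h.symm
  have hc0 : 0 < ori X Y a b c := by
    have hne := hgp.2 a b c hab.ne (Ne.symm hca) (Ne.symm hcb)
    rcases lt_or_gt_of_ne hne with h2 | h2
    · have k1 := hl c hca hcb
      have k2 := hl w hwne.2.1.symm hwne.2.2.symm
      have : 0 < IC X Y a b w c := by
        unfold IC
        nlinarith [mul_pos k1 hw, mul_pos k2 (neg_pos.2 h2)]
      linarith
    · exact h2
  -- orientation of `a w c`
  have hne2 := hgp.2 a w c hwne.2.1 (Ne.symm hca) (Ne.symm hcw)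
  rcases lt_or_gt_of_ne hne2 with h2 | h2
  · -- swap the roles of w and c
    have hge' : ∀ x, 0 ≤ IC X Y a b c x := by
      intro x
      have h4 := hge x
      have hid : IC X Y a b c x * ori X Y a b w =
          IC X Y a b w x * ori X Y a b c + IC X Y a b c w * ori X Y a b x := by
        unfold IC; ring
      have h5 : IC X Y a b c w = 0 := by rw [IC_swap, hzero]; simp
      rw [h5] at hid
      have : 0 ≤ IC X Y a b c x * ori X Y a b w := by
        rw [hid]; have := mul_nonneg h4 hc0.le; linarith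
      exact nonneg_of_mul_nonneg_left this hw
    refine no_tie hgp hT hD (a := a) (b := b) (w := c) (c := w) hc0 (Ne.symm hcw)
      hwne.2.1.symm hwne.2.2.symm (by rw [IC_swap, hzero]; simp) ?_ hge'
    have e1 : ori X Y a c b = - ori X Y a b c := by unfold ori; ring
    have e2 : ori X Y a c w = - ori X Y a w c := by unfold ori; ring
    rw [e1, e2]
    nlinarith
  · refine no_tie hgp hT hD (a := a) (b := b) (w := w) (c := c) hw hcw hca hcb hzero ?_ hge
    have e1 : ori X Y a w b = - ori X Y a b w := by unfold ori; ring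
    rw [e1]
    nlinarith

end Pool.Agent.MP7a5e6c
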