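import Pool.Agent.MP7a5e6c.DI9

set_option autoImplicit false
open scoped Classical Topology
open Filter

namespace Pool.Agent.MP7a5e6c

variable {n : ℕ} (f : Fin n → Pt) {G : SimpleGraph (Fin n)}

/-- a Delaunay drawing can be moved into general position without changing the graph; outer
vertices stay outer -/
theorem exists_pert (hT : IsTri f G) (hi : Inj (cX f) (cY f))
    (hD : ∀ a b, a ≠ b → (G.Adj a b ↔ Del (cX f) (cY f) a b))
    (x y z : Fin n) (hxyz : ori (cX f) (cY f) x y z ≠ 0)
    (hcard : ∀ a b : Fin n, ∃ c, c ≠ a ∧ c ≠ b) :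
    ∃ X' Y' : Fin n → ℝ, DT X' Y' G ∧ ∀ v, Outer f v → Hull X' Y' v := by
  set X := cX f with hX
  set Y := cY f with hY
  obtain ⟨ox, oy, ho1, ho2⟩ := exists_o hi x y z hxyz
  have E1 : ∀ᶠ t : ℝ in 𝓝[>] 0, ∀ a b c : Fin n, a ≠ b → a ≠ c → b ≠ c →
      ori (PX X Y ox oy t) (PY X Y ox oy t) a b c ≠ 0 := by
    rw [eventually_all]; intro a
    rw [eventually_all]; intro b
    rw [eventually_all]; intro c
    by_cases hab : a = b
    · exact Eventually.of_forall (fun t h => absurd hab h)
    by_cases hac : a = c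
    · exact Eventually.of_forall (fun t _ h => absurd hac h)
    by_cases hbc : b = c
    · exact Eventually.of_forall (fun t _ _ h => absurd hbc h)
    have hno : ¬ (ori X Y a b c = 0 ∧ KK X Y ox oy a b c = 0 ∧ MM X Y ox oy a b c = 0) := by
      rintro ⟨e1, e2, _⟩
      obtain ⟨r, p1, p2⟩ := on_line (hi a b hab) e1
      rw [KK_line ox oy r a b c p1 p2] at e2
      rcases mul_eq_zero.1 e2 with h | h
      · rcases mul_eq_zero.1 h with h | h
        · exact ho1 a b hab h
        · have := dsq_pos (hi a b hab); linarith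
      · rcases mul_eq_zero.1 h with h | h
        · rcases hi c a (Ne.symm hac) with g | g
          · exact g (by rw [p1, h]; ring)
          · exact g (by rw [p2, h]; ring)
        · have hs : r = 1 := by linarith
          rcases hi c b (Ne.symm hbc) with g | g
          · exact g (by rw [p1, hs]; ring)
          · exact g (by rw [p2, hs]; ring)
    filter_upwards [ev_quad hno] with t ht _ _ _
    rw [ori_P]; exact ht
  have E3 : ∀ᶠ t : ℝ in 𝓝[>] 0, ∀ a b : Fin n, G.Adj a b → ∃ l : ℝ, ∀ c, c ≠ a → c ≠ b →
      0 < dt (PX X Y ox oy t) (PY X Y ox oy t) a b c +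
        l * ori (PX X Y ox oy t) (PY X Y ox oy t) a b c := by
    rw [eventually_all]; intro a
    rw [eventually_all]; intro b
    by_cases hab : G.Adj a b
    swap
    · exact Eventually.of_forall (fun t h => absurd h hab)
    obtain ⟨l, hl⟩ := (del_iff' hi hab.ne).1 ((hD a b hab.ne).1 hab)
    have : ∀ᶠ t : ℝ in 𝓝[>] 0, ∀ c, c ≠ a → c ≠ b →
        0 < dt (PX X Y ox oy t) (PY X Y ox oy t) a b c +
          l * ori (PX X Y ox oy t) (PY X Y ox oy t) a b c := by
      rw [eventually_all]; intro c
      by_cases hca : c = a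
      · exact Eventually.of_forall (fun t h => absurd hca h)
      by_cases hcb : c = b
      · exact Eventually.of_forall (fun t _ h => absurd hcb h)
      have := ev_cont (fun t => dt (PX X Y ox oy t) (PY X Y ox oy t) a b c +
          l * ori (PX X Y ox oy t) (PY X Y ox oy t) a b c)
        (by unfold dt ori PX PY; fun_prop) (by rw [PX_zero, PY_zero]; exact hl c hca hcb)
      filter_upwards [this] with t ht _ _
      exact ht
    filter_upwards [this] with t ht _
    exact ⟨l, ht⟩
  have E4 : ∀ᶠ t : ℝ in 𝓝[>] 0, ∀ a b w : Fin n, DTri X Y a b w →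
      DTri (PX X Y ox oy t) (PY X Y ox oy t) a b w := by
    rw [eventually_all]; intro a
    rw [eventually_all]; intro b
    rw [eventually_all]; intro w
    by_cases h : DTri X Y a b w
    swap
    · exact Eventually.of_forall (fun t h2 => absurd h2 h)
    have h1 := ev_cont (fun t => ori (PX X Y ox oy t) (PY X Y ox oy t) a b w)
      (by unfold ori PX PY; fun_prop) (by rw [PX_zero, PY_zero]; exact h.1)
    have h2 : ∀ᶠ t : ℝ in 𝓝[>] 0, ∀ c, c ≠ a → c ≠ b → c ≠ w →
        0 < IC (PX X Y ox oy t) (PY X Y ox oy t) a b w c := by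
      rw [eventually_all]; intro c
      by_cases hca : c = a
      · exact Eventually.of_forall (fun t h => absurd hca h)
      by_cases hcb : c = b
      · exact Eventually.of_forall (fun t _ h => absurd hcb h)
      by_cases hcw : c = w
      · exact Eventually.of_forall (fun t _ _ h => absurd hcw h)
      have := ev_cont (fun t => IC (PX X Y ox oy t) (PY X Y ox oy t) a b w c)
        (by unfold IC dt ori PX PY; fun_prop) (by rw [PX_zero, PY_zero]; exact h.2 c hca hcb hcw)
      filter_upwards [this] with t ht _ _ _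
      exact ht
    filter_upwards [h1, h2] with t h1 h2 _
    exact ⟨h1, h2⟩
  have E5 : ∀ᶠ t : ℝ in 𝓝[>] 0, ∀ a r : Fin n, G.Adj a r → (∀ w, ori X Y a r w ≤ 0) →
      ∀ w, ori (PX X Y ox oy t) (PY X Y ox oy t) a r w ≤ 0 := by
    rw [eventually_all]; intro a
    rw [eventually_all]; intro r
    by_cases har : G.Adj a r
    swap
    · exact Eventually.of_forall (fun t h => absurd h har)
    by_cases hle : ∀ w, ori X Y a r w ≤ 0
    swap
    · exact Eventually.of_forall (fun t _ h => absurd h hle)
    have : ∀ᶠ t : ℝ in 𝓝[>] 0, ∀ w, ori (PX X Y ox oy t) (PY X Y ox oy t) a r w ≤ 0 := by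
      rw [eventually_all]; intro w
      rcases (hle w).lt_or_eq with h | h
      · filter_upwards [ev_neg (d := KK X Y ox oy a r w) (e := MM X Y ox oy a r w) h] with t ht
        rw [ori_P]; exact ht.le
      · by_cases hwa : w = a
        · subst hwa; exact Eventually.of_forall (fun t => by simp)
        by_cases hwr : w = r
        · subst hwr; exact Eventually.of_forall (fun t => by simp)
        obtain ⟨s, p1, p2⟩ := on_line (hi a r har.ne) h
        have hs : 0 < s * (s - 1) := by
          have hseg := hT.1 a r har w hwa hwr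
          by_contra hc
          push Not at hc
          have hs0 : 0 ≤ s := by nlinarith
          have hs1 : s ≤ 1 := by nlinarith
          apply hseg
          refine ⟨1 - s, s, by linarith, hs0, by ring, ?_⟩
          have p1' : f w 0 = f a 0 + s * (f r 0 - f a 0) := p1
          have p2' : f w 1 = f a 1 + s * (f r 1 - f a 1) := p2
          ext i
          fin_cases i
          · simp; rw [p1']; ring
          · simp; rw [p2']; ring
        have hK : KK X Y ox oy a r w < 0 := by
          rw [KK_line ox oy s a r w p1 p2]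
          have h1 := ho2 a r har.ne hle
          have h2 := dsq_pos (hi a r har.ne)
          exact mul_neg_of_neg_of_pos (mul_neg_of_neg_of_pos h1 h2) hs
        have h3 := ev_neg (d := MM X Y ox oy a r w) (e := 0) hK
        filter_upwards [h3, self_mem_nhdsWithin] with t ht htpos
        have htpos' : (0 : ℝ) < t := htpos
        rw [ori_P, h]
        have : 0 + KK X Y ox oy a r w * t + MM X Y ox oy a r w * t ^ 2 =
            t * (KK X Y ox oy a r w + MM X Y ox oy a r w * t + 0 * t ^ 2) := by ring
        rw [this]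
        exact (mul_neg_of_pos_of_neg htpos' ht).le
    filter_upwards [this] with t ht _ _
    exact ht
  obtain ⟨t, F1, F3, F4, F5⟩ := (E1.and (E3.and (E4.and E5))).exists
  set X' := PX X Y ox oy t with hX'
  set Y' := PY X Y ox oy t with hY'
  have hgp : GP X' Y' := by
    constructor
    · intro a b hab
      obtain ⟨c, h1, h2⟩ := hcard a b
      by_contra hc
      push Not at hc
      apply F1 a b c hab h1.symm h2.symm
      unfold ori
      rw [hc.1, hc.2]; ring
    · exact F1
  have hadjf : ∀ a b w, DTri X Y a b w → G.Adj a w ∧ G.Adj b w := by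
    intro a b w h
    have h1 : G.Adj b w := (hD b w h.ne.2.2).2 (h.del' hi)
    have h2 : G.Adj w a := (hD w a h.ne.2.1.symm).2 (h.rot.del' hi)
    exact ⟨h2.symm, h1⟩
  have Q0 : ∀ a r, G.Adj a r → (∃ s, DTri X Y a r s ∧ G.Adj a s ∧ G.Adj r s) ∨
      (∀ w, ori X Y a r w ≤ 0) := by
    intro a r har
    by_cases h : ∃ w, 0 < ori X Y a r w
    · left
      obtain ⟨s, hs⟩ := apex' f hT hi hD har h
      exact ⟨s, hs, (hadjf _ _ _ hs).1, (hadjf _ _ _ hs).2⟩
    · right
      push Not at h
      exact h
  have Q : ∀ a r, G.Adj a r → (∃ s, DTri X' Y' a r s ∧ G.Adj a s ∧ G.Adj r s) ∨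
      (∀ w, ori X' Y' a r w ≤ 0) := by
    intro a r har
    rcases Q0 a r har with ⟨s, h1, h2, h3⟩ | h
    · exact Or.inl ⟨s, F4 _ _ _ h1, h2, h3⟩
    · exact Or.inr (F5 a r har h)
  have hDel : ∀ a b, G.Adj a b → Del X' Y' a b := by
    intro a b hab
    obtain ⟨l, hl⟩ := F3 a b hab
    exact (del_iff' hgp.1 hab.ne).2 ⟨l, hl⟩
  have hnbr : ∀ v : Fin n, ∃ r, G.Adj v r := by
    intro v
    obtain ⟨c, h1, _⟩ := hcard v v
    exact exists_nbr' hi hD v ⟨c, h1⟩
  have htri : TriC X' Y' G := by
    constructor
    · intro a b c d hab hcd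
      exact del_nocross hgp.1 hab.ne hcd.ne (hDel a b hab) (hDel c d hcd)
    · intro a b hab h
      by_contra hn
      obtain ⟨r0, hr0⟩ := hnbr a
      obtain ⟨r, s, hrs, hcr⟩ := max_of_Q hgp Q hab hn r0 hr0
      exact h r s hrs hcr
  refine ⟨X', Y', ⟨hgp, htri, ?_⟩, ?_⟩
  · intro a b hab
    constructor
    · exact hDel a b
    · intro hdel
      apply htri.2 a b hab
      intro c d hcd
      exact del_nocross hgp.1 hab hcd.ne hdel (hDel c d hcd)
  · intro v hv
    obtain ⟨r0, hr0⟩ := hnbr v
    obtain ⟨r, hr, hext⟩ := extreme_nbr f hv r0 hr0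
    rcases Q0 v r hr with ⟨s, h1, h2, _⟩ | h
    · have := hext s h2
      have h3 := h1.1
      exact absurd h3 (not_lt.2 this)
    · exact (hull_of_side' hgp hr.ne (F5 v r hr h)).1

end Pool.Agent.MP7a5e6c
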