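import Pool.Agent.MP7a5e6c.DI10

set_option autoImplicit false
open scoped Classical

namespace Pool.Agent.MP7a5e6c

lemma inj_of_injective {n : ℕ} (f : Fin n → Pt) (hf : Function.Injective f) :
    Inj (cX f) (cY f) := by
  intro a b hab
  by_contra hc
  push Not at hc
  apply hab
  apply hf
  ext i
  fin_cases i
  · exact hc.1
  · exact hc.2

lemma exists_ori {n : ℕ} (f : Fin n → Pt) (hf : Function.Injective f)
    (hcol : ¬ Collinear ℝ (Set.range f)) : ∃ x y z, ori (cX f) (cY f) x y z ≠ 0 := by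
  by_contra hc
  push Not at hc
  apply hcol
  by_cases hne : ∃ a b : Fin n, a ≠ b
  · obtain ⟨a, b, hab⟩ := hne
    rw [collinear_iff_of_mem (k := ℝ) (s := Set.range f) (p₀ := f a) (Set.mem_range_self a)]
    refine ⟨f b - f a, ?_⟩
    rintro _ ⟨c, rfl⟩
    obtain ⟨r, h1, h2⟩ := on_line (inj_of_injective f hf a b hab) (hc a b c)
    have h1' : f c 0 = f a 0 + r * (f b 0 - f a 0) := h1
    have h2' : f c 1 = f a 1 + r * (f b 1 - f a 1) := h2
    refine ⟨r, ?_⟩
    ext i
    fin_cases i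
    · simp; rw [h1']; ring
    · simp; rw [h2']; ring
  · push Not at hne
    rcases isEmpty_or_nonempty (Fin n) with hE | ⟨⟨a⟩⟩
    · rw [Set.range_eq_empty]; exact collinear_empty ℝ Pt
    · rw [collinear_iff_of_mem (k := ℝ) (s := Set.range f) (p₀ := f a) (Set.mem_range_self a)]
      refine ⟨0, ?_⟩
      rintro _ ⟨b, rfl⟩
      exact ⟨0, by rw [hne b a]; simp⟩

/-- transfer of the drawing of `G(T, h)` -/
theorem mw_of_DT {n : ℕ} {X Y : Fin n → ℝ} {G : SimpleGraph (Fin n)} (D : DT X Y G)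
    (hI : ∀ a b, G.Adj a b → Hull X Y a ∨ Hull X Y b) (u0 u1 : Fin n) (hu : u0 ≠ u1)
    (hcard : ∀ a b : Fin n, ∃ c, c ≠ a ∧ c ≠ b) :
    ∃ g : Fin n → EuclideanSpace ℝ (Fin 2), Function.Injective g ∧ IsTri g G ∧
      ∀ E : SimpleGraph (Fin n), IsTri g E → E ≠ G → weight g G < weight g E := by
  obtain ⟨T, h, σ, hh, hT', hiso⟩ := di_graph D hI u0 u1 hu hcard
  obtain ⟨X, Y, hgp0, h1, h2⟩ := htV_mw (T := T) (h := h) ⟨hh, hT'⟩
  set f' : Fin (T.size + 1) → Pt := fun i => !₂[X i, Y i] with hf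
  have hX : cX f' = X := by funext i; simp [cX, hf]
  have hY : cY f' = Y := by funext i; simp [cY, hf]
  have hgp' : GP (cX f') (cY f') := by rw [hX, hY]; exact hgp0
  have hcomap : G.comap σ.symm = htGraph T h := by
    ext i k
    exact hiso i k
  refine ⟨fun i => f' (σ i), (injective_of_gp f' hgp').comp σ.injective, ?_, ?_⟩
  · rw [isTri_comap, hcomap, isTri_iff f' hgp', hX, hY]; exact h1
  · intro E hE hne
    rw [isTri_comap, isTri_iff f' hgp', hX, hY] at hE
    rw [weight_comap, weight_comap, hcomap, weight_eq, weight_eq, hX, hY]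
    apply h2 _ hE
    intro heq
    apply hne
    rw [← hcomap] at heq
    ext a b
    have := congrArg (fun H : SimpleGraph (Fin (T.size + 1)) => H.Adj (σ a) (σ b)) heq
    simpa using this

end Pool.Agent.MP7a5e6c
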