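import Pool.Agent.MP7a5e6c.DI1

set_option autoImplicit false
open scoped Classical

namespace Pool.Agent.MP7a5e6c

variable {V : Type} {X Y : V → ℝ}

/-- a Delaunay triangulation of points in general position -/
structure DT (X Y : V → ℝ) (G : SimpleGraph V) : Prop where
  gp : GP X Y
  tri : TriC X Y G
  del : ∀ a b, a ≠ b → (G.Adj a b ↔ Del X Y a b)

variable {G : SimpleGraph V}

lemma DT.adj1 [Finite V] (D : DT X Y G) {a b w : V} (h : DTri X Y a b w) : G.Adj b w :=
  (D.del b w h.ne.2.2).2 (h.del D.gp)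

lemma DT.adj2 [Finite V] (D : DT X Y G) {a b w : V} (h : DTri X Y a b w) : G.Adj w a :=
  D.adj1 h.rot

lemma DT.adj0 [Finite V] (D : DT X Y G) {a b w : V} (h : DTri X Y a b w) : G.Adj a b :=
  D.adj1 h.rot.rot

lemma DT.nocross (D : DT X Y G) {a b x y : V} (hab : G.Adj a b) (hxy : G.Adj x y)
    (ha : Hull X Y a) (hb : Hull X Y b) (hx : 0 < ori X Y a b x) (hy : ori X Y a b y < 0) : False :=
  D.tri.1 a b x y hab hxy (chord_cross D.gp ha hb hx hy)

lemma not_hull_left (hgp : GP X Y) {v : V} (hv : ¬ Hull X Y v) {r : V} (hr : r ≠ v) :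
    ∃ x, 0 < ori X Y v r x := by
  by_contra hc
  push Not at hc
  exact hv (hull_of_side' hgp hr.symm hc).1

lemma not_hull_right (hgp : GP X Y) {v : V} (hv : ¬ Hull X Y v) {r : V} (hr : r ≠ v) :
    ∃ x, 0 < ori X Y r v x := by
  by_contra hc
  push Not at hc
  exact hv (hull_of_side' hgp hr hc).2

/-- every point has a neighbour: the nearest point -/
lemma DT.exists_nbr [Finite V] (D : DT X Y G) (v : V) (hex : ∃ u, u ≠ v) : ∃ r, G.Adj v r := by
  have hfin : (Set.univ : Set {x // x ≠ v}).Nonempty := by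
    obtain ⟨u, hu⟩ := hex; exact ⟨⟨u, hu⟩, trivial⟩
  obtain ⟨⟨c, hc⟩, _, hmin⟩ := Set.exists_min_image (Set.univ : Set {x // x ≠ v})
    (fun x => (X x.1 - X v) ^ 2 + (Y x.1 - Y v) ^ 2) (Set.toFinite _) hfin
  refine ⟨c, (D.del v c hc.symm).2 ((del_iff D.gp hc.symm).2 ⟨0, ?_⟩)⟩
  intro x hxv hxc
  have h1 := hmin ⟨x, hxv⟩ trivial
  simp only at h1
  rw [zero_mul, add_zero]
  by_contra hc2
  have h2 : dt X Y v c x ≤ 0 := not_lt.1 hc2
  have h3 : (X x - X c) ^ 2 + (Y x - Y c) ^ 2 ≤ 0 := by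
    unfold dt at h2
    nlinarith
  rcases D.gp.1 x c hxc with h | h
  · have : X x - X c ≠ 0 := fun h2 => h (by linarith)
    have := sq_pos_of_ne_zero this
    nlinarith [sq_nonneg (Y x - Y c)]
  · have : Y x - Y c ≠ 0 := fun h2 => h (by linarith)
    have := sq_pos_of_ne_zero this
    nlinarith [sq_nonneg (X x - X c)]

lemma sector_r (hgp : GP X Y) {v r w e : V} (hr : Hull X Y r) (h1 : 0 < ori X Y v r w)
    (h2 : ori X Y r w e < 0) : 0 < ori X Y v r e := by
  have n1 := ne_of_ori h1.ne'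
  have n2 := ne_of_ori h2.ne
  have hve : v ≠ e := by
    rintro rfl
    have : ori X Y r w v = ori X Y v r w := by unfold ori; ring
    linarith
  by_contra hc
  have hlt : ori X Y v r e < 0 := lt_of_le_of_ne (not_lt.1 hc) (hgp.2 v r e n1.1 hve n2.2.1)
  refine hull_tri X Y (v := r) (x := v) (y := e) (z := w) hr ?_ ?_ ?_
  · rw [ori_swap']; linarith
  · have : ori X Y e w r = - ori X Y r w e := by unfold ori; ring
    linarith
  · have : ori X Y w v r = ori X Y v r w := by unfold ori; ring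
    linarith

lemma sector_w (hgp : GP X Y) {v r w e : V} (hw : Hull X Y w) (h1 : 0 < ori X Y v r w)
    (h2 : ori X Y r w e < 0) : 0 < ori X Y v e w := by
  have n1 := ne_of_ori h1.ne'
  have n2 := ne_of_ori h2.ne
  have hve : v ≠ e := by
    rintro rfl
    have : ori X Y r w v = ori X Y v r w := by unfold ori; ring
    linarith
  by_contra hc
  have hlt : ori X Y v e w < 0 := lt_of_le_of_ne (not_lt.1 hc) (hgp.2 v e w hve n1.2.1 n2.2.2.symm)
  refine hull_tri X Y (v := w) (x := v) (y := r) (z := e) hw h1 ?_ ?_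
  · rw [ori_swap']; linarith
  · have : ori X Y e v w = - ori X Y v e w := by unfold ori; ring
    linarith

/-- an interior point all of whose neighbours are outer points sees a side of the convex hull -/
theorem free_rim [Finite V] (D : DT X Y G) {v : V} (hv : ¬ Hull X Y v)
    (hN : ∀ r, G.Adj v r → Hull X Y r) (hex : ∃ u, u ≠ v) :
    ∃ r w, DTri X Y v r w ∧ ∀ x, 0 ≤ ori X Y r w x := by
  by_contra hc
  push Not at hc
  -- the next neighbour
  have hnext : ∀ r : {r // G.Adj v r}, ∃ w, DTri X Y v r.1 w := by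
    intro r
    exact apex D.gp D.tri D.del r.2 (not_hull_left D.gp hv r.2.ne.symm)
  choose w hw using hnext
  have hbeyond : ∀ r : {r // G.Adj v r}, ∃ e, ori X Y r.1 (w r) e < 0 := fun r => hc r.1 (w r) (hw r)
  choose e he using hbeyond
  have hadj : ∀ r, G.Adj v (w r) := fun r => (D.adj2 (hw r)).symm
  obtain ⟨r0, hr0⟩ := D.exists_nbr v hex
  obtain ⟨r, _, hmax⟩ := Set.exists_max_image (Set.univ : Set {r // G.Adj v r})
    (fun r => dt X Y v (e r) r.1 / ori X Y v r.1 (e r)) (Set.toFinite _) ⟨⟨r0, hr0⟩, trivial⟩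
  set r' : {r // G.Adj v r} := ⟨w r, hadj r⟩ with hr'
  have hle := hmax r' trivial
  have hRH := hN _ r.2
  have hWH := hN _ (hadj r)
  have p1 : 0 < ori X Y v r.1 (e r) := sector_r D.gp hRH (hw r).1 (he r)
  have p2 : 0 < ori X Y v (e r) (w r) := sector_w D.gp hWH (hw r).1 (he r)
  have p3 : 0 < ori X Y v (w r) (e r') := sector_r D.gp hWH (hw r').1 (he r')
  -- inequality 1
  have nev : e r ≠ v := by
    intro h
    have h1 := he r
    rw [h] at h1
    have : ori X Y r.1 (w r) v = ori X Y v r.1 (w r) := by unfold ori; ring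
    have := (hw r).1
    linarith
  have ner := ne_of_ori (he r).ne
  have hIC := (hw r).2 (e r) nev ner.2.1.symm ner.2.2.symm
  have id1 : dt X Y v (e r) r.1 * ori X Y v (e r) (w r) + dt X Y v (e r) (w r) * ori X Y v r.1 (e r)
      = - IC X Y v r.1 (w r) (e r) := by
    unfold IC dt ori; ring
  have ineq1 : dt X Y v (e r) r.1 / ori X Y v r.1 (e r) +
      dt X Y v (e r) (w r) / ori X Y v (e r) (w r) < 0 := by
    rw [div_add_div _ _ p1.ne' p2.ne']
    apply div_neg_of_neg_of_pos _ (mul_pos p1 p2)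
    linarith
  -- inequality 2
  have hee : e r ≠ e r' := by
    intro h
    rw [← h] at p3
    have : ori X Y v (w r) (e r) = - ori X Y v (e r) (w r) := by unfold ori; ring
    linarith
  have hconv : 0 ≤ ori X Y (e r) (w r) (e r') := by
    by_contra hneg
    push Not at hneg
    refine hull_tri X Y (v := w r) (x := v) (y := e r) (z := e r') hWH p2 ?_ ?_
    · rw [ori_swap']; linarith
    · have : ori X Y (e r') v (w r) = ori X Y v (w r) (e r') := by unfold ori; ring
      linarith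
  have id2 : dt X Y v (e r') (w r) * ori X Y v (e r) (w r) +
      dt X Y v (e r) (w r) * ori X Y v (w r) (e r') =
      ((X v - X (w r)) ^ 2 + (Y v - Y (w r)) ^ 2) * ori X Y (e r) (w r) (e r') := by
    unfold dt ori; ring
  have ineq2 : 0 ≤ dt X Y v (e r') (w r) / ori X Y v (w r) (e r') +
      dt X Y v (e r) (w r) / ori X Y v (e r) (w r) := by
    rw [div_add_div _ _ p3.ne' p2.ne']
    apply div_nonneg _ (mul_pos p3 p2).le
    have : dt X Y v (e r') (w r) * ori X Y v (e r) (w r) +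
        ori X Y v (w r) (e r') * dt X Y v (e r) (w r) =
        ((X v - X (w r)) ^ 2 + (Y v - Y (w r)) ^ 2) * ori X Y (e r) (w r) (e r') := by
      rw [← id2]; ring
    rw [this]
    positivity
  have hle' : dt X Y v (e r') (w r) / ori X Y v (w r) (e r') ≤
      dt X Y v (e r) r.1 / ori X Y v r.1 (e r) := hle
  linarith

/-- there is an edge of the convex hull -/
lemma exists_hull_edge [Finite V] (hgp : GP X Y) (u0 u1 : V) (hu : u0 ≠ u1) :
    ∃ a b, a ≠ b ∧ ∀ x, 0 ≤ ori X Y a b x := by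
  haveI : Nonempty V := ⟨u0⟩
  obtain ⟨p, hp⟩ := Finite.exists_min X
  have hHp : Hull X Y p := ⟨-1, 0, Or.inl (by norm_num), fun w => by have := hp w; linarith⟩
  have hex : ∃ q, q ≠ p := by
    by_cases h : u0 = p
    · exact ⟨u1, fun h2 => hu (h.trans h2.symm)⟩
    · exact ⟨u0, h⟩
  obtain ⟨q0, hq0⟩ := hex
  obtain ⟨⟨q, hq⟩, _, hmin⟩ := Set.exists_min_image (Set.univ : Set {x // x ≠ p})
    (fun q => (Set.ncard {x | 0 < ori X Y q.1 p x})) (Set.toFinite _) ⟨⟨q0, hq0⟩, trivial⟩
  refine ⟨p, q, hq.symm, ?_⟩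
  by_contra hc
  push Not at hc
  obtain ⟨x, hx⟩ := hc
  have hx' : 0 < ori X Y q p x := by rw [ori_swap]; linarith
  have hxp : x ≠ p := (ne_of_ori hx.ne).2.1.symm
  have h := hmin ⟨x, hxp⟩ trivial
  simp only at h
  have hss : {y | 0 < ori X Y x p y} ⊂ {y | 0 < ori X Y q p y} := by
    refine ⟨fun y hy => left_trans_b hgp hHp hx' hy, fun hsub => ?_⟩
    have : x ∈ {y | 0 < ori X Y x p y} := hsub hx'
    simp at this
  have := Set.ncard_lt_ncard hss (Set.toFinite _)
  omega

/-- a side of the convex hull is an edge -/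
lemma DT.hull_edge_adj (D : DT X Y G) {a b : V} (hab : a ≠ b) (h : ∀ x, 0 ≤ ori X Y a b x) :
    G.Adj a b := by
  apply D.tri.2 a b hab
  intro c d _ hcr
  have := mul_nonneg (h c) (h d)
  linarith [hcr.1]

/-- a good side of the convex hull -/
theorem good_top [Finite V] (D : DT X Y G) (hI : ∀ a b, G.Adj a b → Hull X Y a ∨ Hull X Y b)
    (u0 u1 : V) (hu : u0 ≠ u1) (hcard : ∀ a b : V, ∃ c, c ≠ a ∧ c ≠ b) :
    ∃ a b, a ≠ b ∧ (∀ x, 0 ≤ ori X Y a b x) ∧
      ∀ v, ¬ Hull X Y v → ∃ r w, DTri X Y v r w ∧ (∀ x, 0 ≤ ori X Y r w x) ∧ ¬ (r = a ∧ w = b) := by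
  have hgp := D.gp
  -- candidate pairs
  let S : Set (V × V) := {e | G.Adj e.1 e.2 ∧ Hull X Y e.1 ∧ Hull X Y e.2 ∧ ∃ x, 0 < ori X Y e.1 e.2 x}
  have hS : S.Nonempty := by
    obtain ⟨a, b, hab, h⟩ := exists_hull_edge hgp u0 u1 hu
    obtain ⟨c, hca, hcb⟩ := hcard a b
    exact ⟨(a, b), D.hull_edge_adj hab h, (hull_of_side hgp hab h).1, (hull_of_side hgp hab h).2, c,
      lt_of_le_of_ne (h c) (hgp.2 a b c hab hca.symm hcb.symm).symm⟩
  obtain ⟨⟨s, t⟩, ⟨hst, hs, ht, hex⟩, hmin⟩ := Set.exists_min_image S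
    (fun e => Set.ncard {x | 0 < ori X Y e.1 e.2 x}) (Set.toFinite _) hS
  simp only at hst hs ht hex hmin
  obtain ⟨w, hw⟩ := apex hgp D.tri D.del hst hex
  have hsmall : ∀ p q, G.Adj p q → Hull X Y p → Hull X Y q →
      (∀ x, 0 < ori X Y p q x → 0 < ori X Y s t x) → ¬ (0 < ori X Y p q w) →
      ∀ x, 0 ≤ ori X Y q p x := by
    intro p q hpq hp hq hsub hnw
    by_contra hc
    push Not at hc
    obtain ⟨x, hx⟩ := hc
    have hx' : 0 < ori X Y p q x := by rw [ori_swap]; linarith
    have h1 := hmin (p, q) ⟨hpq, hp, hq, x, hx'⟩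
    simp only at h1
    have hss : {y | 0 < ori X Y p q y} ⊂ {y | 0 < ori X Y s t y} := by
      refine ⟨fun y hy => hsub y hy, fun hsub2 => hnw (hsub2 hw.1)⟩
    have := Set.ncard_lt_ncard hss (Set.toFinite _)
    omega
  have hwt : G.Adj t w := D.adj1 hw
  have hws : G.Adj w s := D.adj2 hw
  have hsideP : ∀ u, G.Adj w u → u ≠ s → u ≠ t → 0 < ori X Y s t u := by
    intro u hwu hus hut
    rcases lt_or_gt_of_ne (hgp.2 s t u hst.ne hus.symm hut.symm) with h | h
    · exact (D.nocross hst hwu hs ht hw.1 h).elim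
    · exact h
  by_cases hwH : Hull X Y w
  · -- the apex is an outer vertex
    have hE : ∀ x, 0 ≤ ori X Y w s x := by
      apply hsmall s w hws.symm hs hwH
      · intro x hx
        exact left_trans_a hgp hs hw.1 hx
      · simp
    refine ⟨w, s, hws.ne, hE, ?_⟩
    intro v hv
    have hN : ∀ r, G.Adj v r → Hull X Y r := fun r hr => (hI v r hr).resolve_left hv
    have hexv : ∃ u, u ≠ v := by obtain ⟨c, h1, _⟩ := hcard v v; exact ⟨c, h1⟩
    obtain ⟨r, q, h1, h2⟩ := free_rim D hv hN hexv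
    refine ⟨r, q, h1, h2, ?_⟩
    rintro ⟨rfl, rfl⟩
    have h3 := h1.rot
    have h4 := hw.rot.rot
    have := h3.unique h4
    rw [this] at hv
    exact hv ht
  · -- the apex is an interior vertex
    have hN : ∀ r, G.Adj w r → Hull X Y r := fun r hr => (hI w r hr).resolve_left hwH
    obtain ⟨u, hu1⟩ := apex hgp D.tri D.del hwt.symm (not_hull_left hgp hwH hwt.ne)
    obtain ⟨u', hu2⟩ := apex hgp D.tri D.del hws.symm (not_hull_right hgp hwH hws.ne.symm)
    -- `hu1 : DTri w t u`, `hu2 : DTri s w u'`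
    have hwu : G.Adj w u := (D.adj2 hu1).symm
    have hwu' : G.Adj w u' := D.adj1 hu2
    have hus : u ≠ s := by
      rintro rfl
      have h1 := hu1.1
      have h2 := hw.1
      have : ori X Y w t u = - ori X Y u t w := by unfold ori; ring
      linarith
    have hut : u ≠ t := hu1.ne.2.2.symm
    have hu's : u' ≠ s := hu2.ne.2.1.symm
    have hu't : u' ≠ t := by
      rintro rfl
      have h1 := hu2.1
      have h2 := hw.1
      have : ori X Y s w u' = - ori X Y s u' w := by unfold ori; ring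
      linarith
    have hE1 : ∀ x, 0 ≤ ori X Y t u x := by
      apply hsmall u t (D.adj1 hu1).symm (hN u hwu) ht
      · intro x hx
        exact left_trans_b hgp ht (hsideP u hwu hus hut) hx
      · have h1 := hu1.1
        have : ori X Y u t w = - ori X Y w t u := by unfold ori; ring
        rw [this]; linarith
    have hE2 : ∀ x, 0 ≤ ori X Y u' s x := by
      apply hsmall s u' (D.adj2 hu2).symm hs (hN u' hwu')
      · intro x hx
        exact left_trans_a hgp hs (hsideP u' hwu' hu's hu't) hx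
      · have h1 := hu2.1
        have : ori X Y s u' w = - ori X Y s w u' := by unfold ori; ring
        rw [this]; linarith
    refine ⟨t, u, hut.symm, hE1, ?_⟩
    intro v hv
    by_cases hvw : v = w
    · subst hvw
      refine ⟨u', s, hu2.rot, hE2, ?_⟩
      rintro ⟨h1, _⟩
      exact hu't h1
    · have hN : ∀ r, G.Adj v r → Hull X Y r := fun r hr => (hI v r hr).resolve_left hv
      have hexv : ∃ u, u ≠ v := by obtain ⟨c, h1, _⟩ := hcard v v; exact ⟨c, h1⟩
      obtain ⟨r, q, h1, h2⟩ := free_rim D hv hN hexv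
      refine ⟨r, q, h1, h2, ?_⟩
      rintro ⟨rfl, rfl⟩
      exact hvw (h1.rot.unique hu1.rot)

end Pool.Agent.MP7a5e6c
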