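import Pool.Agent.MP7a5e6c.DI2

set_option autoImplicit false
open scoped Classical

namespace Pool.Agent.MP7a5e6c

variable {V : Type} {X Y : V → ℝ} {G : SimpleGraph V}

/-- a linear order of the vertices: the outer vertices in the order of the convex hull, every
interior vertex `v` between the ends `p v`, `q v` of its free side -/
structure Ord (X Y : V → ℝ) (G : SimpleGraph V) (key : V → ℕ) (p q : V → V) : Prop where
  D : DT X Y G
  hI : ∀ a b, G.Adj a b → Hull X Y a ∨ Hull X Y b
  inj : Function.Injective key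
  btw : ∀ x y z, Hull X Y x → Hull X Y y → Hull X Y z → key x < key y → key y < key z →
    0 < ori X Y x z y
  slot : ∀ v, ¬ Hull X Y v → Hull X Y (p v) ∧ Hull X Y (q v) ∧ key (p v) < key v ∧
    key v < key (q v) ∧ DTri X Y v (q v) (p v)
  lo : ∀ v x, ¬ Hull X Y v → key x < key v → key x ≤ key (p v)
  hi : ∀ v x, ¬ Hull X Y v → key v < key x → key (q v) ≤ key x

/-- the edges that are not free sides of interior vertices -/
def TG (X Y : V → ℝ) (G : SimpleGraph V) (p q : V → V) (x y : V) : Prop :=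
  G.Adj x y ∧ ∀ v, ¬ Hull X Y v → ¬ (x = p v ∧ y = q v)

namespace Ord

variable {key : V → ℕ} {p q : V → V}

lemma adjp [Finite V] (O : Ord X Y G key p q) {v : V} (hv : ¬ Hull X Y v) : G.Adj v (p v) :=
  (O.D.adj2 (O.slot v hv).2.2.2.2).symm

lemma adjq [Finite V] (O : Ord X Y G key p q) {v : V} (hv : ¬ Hull X Y v) : G.Adj v (q v) :=
  O.D.adj0 (O.slot v hv).2.2.2.2

lemma c2hull (O : Ord X Y G key p q) {x y z : V} (hx : Hull X Y x) (hy : Hull X Y y)
    (hz : Hull X Y z) (hxy : key x < key y) (h : key z < key x ∨ key y < key z) :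
    ori X Y x y z < 0 := by
  rcases h with h | h
  · have := O.btw z x y hz hx hy h hxy
    have e : ori X Y x y z = - ori X Y z y x := by unfold ori; ring
    linarith
  · have := O.btw x y z hx hy hz hxy h
    have e : ori X Y x y z = - ori X Y x z y := by unfold ori; ring
    linarith

lemma c2 [Finite V] (O : Ord X Y G key p q) {x y z : V} (hx : Hull X Y x) (hy : Hull X Y y)
    (hadj : G.Adj x y) (hxy : key x < key y) (h : key z < key x ∨ key y < key z) :
    ori X Y x y z < 0 := by
  by_cases hz : Hull X Y z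
  · exact O.c2hull hx hy hz hxy h
  have hzx : x ≠ z := by rintro rfl; exact hz hx
  have hzy : y ≠ z := by rintro rfl; exact hz hy
  obtain ⟨hp, hq, k1, k2, _⟩ := O.slot z hz
  rcases lt_or_gt_of_ne (O.D.gp.2 x y z hadj.ne hzx hzy) with g | g
  · exact g
  exfalso
  rcases h with h | h
  · exact O.D.nocross hadj (O.adjp hz) hx hy g (O.c2hull hx hy hp hxy (Or.inl (k1.trans h)))
  · exact O.D.nocross hadj (O.adjq hz) hx hy g (O.c2hull hx hy hq hxy (Or.inr (h.trans k2)))

lemma c1 [Finite V] (O : Ord X Y G key p q) {x y z : V} (hx : Hull X Y x) (hy : Hull X Y y)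
    (hT : TG X Y G p q x y) (h1 : key x < key z) (h2 : key z < key y) :
    0 < ori X Y x y z := by
  by_cases hz : Hull X Y z
  · exact O.btw x z y hx hz hy h1 h2
  have hzx : x ≠ z := by rintro rfl; exact hz hx
  have hzy : y ≠ z := by rintro rfl; exact hz hy
  obtain ⟨hp, hq, k1, k2, _⟩ := O.slot z hz
  have l1 := O.lo z x hz h1
  have l2 := O.hi z y hz h2
  rcases lt_or_gt_of_ne (O.D.gp.2 x y z hT.1.ne hzx hzy) with g | g
  swap
  · exact g
  exfalso
  by_cases e1 : key x = key (p z)
  · by_cases e2 : key y = key (q z)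
    · exact hT.2 z hz ⟨O.inj e1, O.inj e2⟩
    · have h3 : 0 < ori X Y x y (q z) := O.btw x (q z) y hx hq hy (h1.trans k2) (by omega)
      exact O.D.nocross hT.1 (O.adjq hz).symm hx hy h3 g
  · have h3 : 0 < ori X Y x y (p z) := O.btw x (p z) y hx hp hy (by omega) (k1.trans h2)
    exact O.D.nocross hT.1 (O.adjp hz).symm hx hy h3 g

/-- no edge joins the inside of a chord to its outside -/
lemma sep [Finite V] (O : Ord X Y G key p q) {x y i o : V} (hx : Hull X Y x) (hy : Hull X Y y)
    (hT : TG X Y G p q x y) (h1 : key x < key i) (h2 : key i < key y)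
    (h : key o < key x ∨ key y < key o) (hadj : G.Adj i o) : False :=
  O.D.nocross hT.1 hadj hx hy (O.c1 hx hy hT h1 h2) (O.c2 hx hy hT.1 (h1.trans h2) h)

lemma tg_of_int (hv : ∀ v, ¬ Hull X Y v → Hull X Y (p v) ∧ Hull X Y (q v)) {x y : V}
    (hadj : G.Adj x y) (h : ¬ Hull X Y x ∨ ¬ Hull X Y y) : TG X Y G p q x y := by
  refine ⟨hadj, fun v hv' ⟨h1, h2⟩ => ?_⟩
  rcases h with h | h
  · exact h (h1 ▸ (hv v hv').1)
  · exact h (h2 ▸ (hv v hv').2)

lemma pq (O : Ord X Y G key p q) : ∀ v, ¬ Hull X Y v → Hull X Y (p v) ∧ Hull X Y (q v) :=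
  fun v hv => ⟨(O.slot v hv).1, (O.slot v hv).2.1⟩

/-- apex of a hull-hull edge -/
lemma b1 [Finite V] (O : Ord X Y G key p q) {x y z : V} (hx : Hull X Y x) (hy : Hull X Y y)
    (hT : TG X Y G p q x y) (h1 : key x < key z) (h2 : key z < key y) :
    ∃ m, key x < key m ∧ key m < key y ∧ TG X Y G p q x m ∧ TG X Y G p q m y := by
  obtain ⟨m, hm⟩ := apex O.D.gp O.D.tri O.D.del hT.1 ⟨z, O.c1 hx hy hT h1 h2⟩
  have hne := hm.ne
  have hbet : key x < key m ∧ key m < key y := by
    by_contra hc
    have h3 : key m < key x ∨ key y < key m := by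
      have : key m ≠ key x := fun h => hne.2.1 (O.inj h).symm
      have : key m ≠ key y := fun h => hne.2.2 (O.inj h).symm
      omega
    have := O.c2 hx hy hT.1 (h1.trans h2) h3
    linarith [hm.1]
  refine ⟨m, hbet.1, hbet.2, ?_, ?_⟩
  · refine ⟨(O.D.adj2 hm).symm, ?_⟩
    rintro v hv ⟨e1, e2⟩
    have h3 := (O.slot v hv).2.2.2.2
    rw [← e1, ← e2] at h3
    -- h3 : DTri v m x ; hm : DTri x y m
    have := h3.rot.unique hm.rot.rot
    rw [this] at hv; exact hv hy
  · refine ⟨(O.D.adj1 hm).symm, ?_⟩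
    rintro v hv ⟨e1, e2⟩
    have h3 := (O.slot v hv).2.2.2.2
    rw [← e1, ← e2] at h3
    have := h3.rot.unique hm.rot
    rw [this] at hv; exact hv hx

/-- apex of an edge from an outer vertex `x` to a later interior vertex `w` -/
lemma b2 [Finite V] (O : Ord X Y G key p q) {x w : V} (hx : Hull X Y x) (hw : ¬ Hull X Y w)
    (hadj : G.Adj x w) (h1 : key x < key (p w)) :
    ∃ s, key x < key s ∧ key s ≤ key (p w) ∧ Hull X Y s ∧ TG X Y G p q x s ∧ G.Adj s w ∧
      DTri X Y x w s := by
  obtain ⟨hp, hq, k1, k2, _⟩ := O.slot w hw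
  obtain ⟨s, hs⟩ := apex O.D.gp O.D.tri O.D.del hadj (not_hull_right O.D.gp hw hadj.ne)
  have hne := hs.ne
  have hws : G.Adj w s := O.D.adj1 hs
  have hsx : G.Adj s x := O.D.adj2 hs
  have hsH : Hull X Y s := (O.hI w s hws).resolve_left hw
  have hn : key s ≠ key x := fun h => hne.2.1 (O.inj h).symm
  have hb1 : key x < key s := by
    by_contra hc
    have h3 : key s < key x := by omega
    have g1 : 0 < ori X Y s x w := by
      have e : ori X Y s x w = ori X Y x w s := by unfold ori; ring
      rw [e]; exact hs.1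
    have g2 : ori X Y s x (p w) < 0 := O.c2hull hsH hx hp h3 (Or.inr h1)
    exact O.D.nocross hsx (O.adjp hw) hsH hx g1 g2
  have hb2 : key s ≤ key (p w) := by
    by_contra hc
    push Not at hc
    have g1 : 0 < ori X Y x s (p w) := O.btw x (p w) s hx hp hsH h1 hc
    have g2 : ori X Y x s w < 0 := by
      have e : ori X Y x s w = - ori X Y x w s := by unfold ori; ring
      rw [e]; linarith [hs.1]
    exact O.D.nocross hsx.symm (O.adjp hw).symm hx hsH g1 g2
  refine ⟨s, hb1, hb2, hsH, ⟨hsx.symm, ?_⟩, hws.symm, hs⟩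
  rintro v hv ⟨e1, e2⟩
  have h3 := (O.slot v hv).2.2.2.2
  rw [← e1, ← e2] at h3
  -- h3 : DTri v s x ; hs : DTri x w s
  have h4 := h3.rot.unique hs.rot.rot
  subst h4
  rw [e1] at h1
  exact lt_irrefl _ h1

/-- apex of an edge from an interior vertex `w` to a later outer vertex `y` -/
lemma b3 [Finite V] (O : Ord X Y G key p q) {w y : V} (hy : Hull X Y y) (hw : ¬ Hull X Y w)
    (hadj : G.Adj w y) (h1 : key (q w) < key y) :
    ∃ s, key (q w) ≤ key s ∧ key s < key y ∧ Hull X Y s ∧ TG X Y G p q s y ∧ G.Adj w s ∧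
      DTri X Y w y s := by
  obtain ⟨hp, hq, k1, k2, _⟩ := O.slot w hw
  obtain ⟨s, hs⟩ := apex O.D.gp O.D.tri O.D.del hadj (not_hull_left O.D.gp hw hadj.ne.symm)
  have hne := hs.ne
  have hys : G.Adj y s := O.D.adj1 hs
  have hsw : G.Adj s w := O.D.adj2 hs
  have hsH : Hull X Y s := (O.hI w s hsw.symm).resolve_left hw
  have hn : key s ≠ key y := fun h => hne.2.2 (O.inj h).symm
  have hb1 : key s < key y := by
    by_contra hc
    have h3 : key y < key s := by omega
    have g1 : 0 < ori X Y y s w := by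
      have e : ori X Y y s w = ori X Y w y s := by unfold ori; ring
      rw [e]; exact hs.1
    have g2 : ori X Y y s (q w) < 0 := O.c2hull hy hsH hq h3 (Or.inl h1)
    exact O.D.nocross hys (O.adjq hw) hy hsH g1 g2
  have hb2 : key (q w) ≤ key s := by
    by_contra hc
    push Not at hc
    have g1 : 0 < ori X Y s y (q w) := O.btw s (q w) y hsH hq hy hc h1
    have g2 : ori X Y s y w < 0 := by
      have e : ori X Y s y w = - ori X Y w y s := by unfold ori; ring
      rw [e]; linarith [hs.1]
    exact O.D.nocross hys.symm (O.adjq hw).symm hsH hy g1 g2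
  refine ⟨s, hb2, hb1, hsH, ⟨hys.symm, ?_⟩, hsw.symm, hs⟩
  rintro v hv ⟨e1, e2⟩
  have h3 := (O.slot v hv).2.2.2.2
  rw [← e1, ← e2] at h3
  -- h3 : DTri v y s ; hs : DTri w y s
  have h4 := h3.rot.unique hs.rot
  subst h4
  rw [e2] at h1
  exact lt_irrefl _ h1

lemma cover_right [Finite V] (O : Ord X Y G key p q) {w : V} (hw : ¬ Hull X Y w) :
    ∀ (n : ℕ) (y z : V), key y ≤ n → Hull X Y y → G.Adj w y → key w < key z → key z < key y →
      (∃ t t', Hull X Y t ∧ Hull X Y t' ∧ TG X Y G p q t t' ∧ key w < key t ∧ key t < key z ∧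
        key z < key t' ∧ key t' ≤ key y) ∨ G.Adj w z := by
  intro n
  induction n with
  | zero => intro y z h1 _ _ _ h2; omega
  | succ n ih =>
    intro y z hn hy hadj h1 h2
    have hqz := O.hi w z hw h1
    obtain ⟨s, s1, s2, sH, sT, sA, _⟩ := O.b3 hy hw hadj (by omega)
    have k2 := (O.slot w hw).2.2.2.1
    rcases lt_trichotomy (key z) (key s) with h | h | h
    · rcases ih s z (by omega) sH sA h1 h with ⟨t, t', g1, g2, g3, g4, g5, g6, g7⟩ | g
      · exact Or.inl ⟨t, t', g1, g2, g3, g4, g5, g6, by omega⟩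
      · exact Or.inr g
    · right; rw [O.inj h]; exact sA
    · exact Or.inl ⟨s, y, sH, hy, sT, by omega, h, h2, le_refl _⟩

lemma cover_left [Finite V] (O : Ord X Y G key p q) {w : V} (hw : ¬ Hull X Y w) :
    ∀ (n : ℕ) (x z : V), key w ≤ key x + n → Hull X Y x → G.Adj x w → key x < key z →
      key z < key w →
      (∃ t t', Hull X Y t ∧ Hull X Y t' ∧ TG X Y G p q t t' ∧ key x ≤ key t ∧ key t < key z ∧
        key z < key t' ∧ key t' < key w) ∨ G.Adj z w := by
  intro n
  induction n with
  | zero => intro x z h1 _ _ _ h2; omega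
  | succ n ih =>
    intro x z hn hx hadj h1 h2
    have hpz := O.lo w z hw h2
    obtain ⟨s, s1, s2, sH, sT, sA, _⟩ := O.b2 hx hw hadj (by omega)
    have k2 := (O.slot w hw).2.2.1
    rcases lt_trichotomy (key z) (key s) with h | h | h
    · exact Or.inl ⟨x, s, hx, sH, sT, le_refl _, h1, h, by omega⟩
    · right; rw [O.inj h]; exact sA
    · rcases ih s z (by omega) sH sA h h2 with ⟨t, t', g1, g2, g3, g4, g5, g6, g7⟩ | g
      · exact Or.inl ⟨t, t', g1, g2, g3, by omega, g5, g6, g7⟩
      · exact Or.inr g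

lemma special [Finite V] (O : Ord X Y G key p q) {i l k : V} (hi : ¬ Hull X Y i)
    (hl : ¬ Hull X Y l) (hk : Hull X Y k) (hik : G.Adj i k) (hlk : G.Adj l k)
    (hkl : key k < key l) :
    ∀ (n : ℕ) (j : V), key k ≤ key j + n → Hull X Y j → G.Adj i j → G.Adj l j → key i < key j →
      key j < key k → False := by
  intro n
  induction n with
  | zero => intro j h1 _ _ _ _ h2; omega
  | succ n ih =>
    intro j hn hj hij hlj h1 h2
    have hq := O.hi i j hi h1
    obtain ⟨s, s1, s2, sH, sT, sA, sD⟩ := O.b3 hk hi hik (by omega)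
    rcases lt_trichotomy (key s) (key j) with h | h | h
    · exact O.sep sH hk sT h h2 (Or.inr hkl) hlj.symm
    · have hsj := O.inj h
      subst hsj
      -- sD : DTri i k s
      have hp := O.lo l k hl hkl
      obtain ⟨s', t1, t2, tH, tT, tA, tD⟩ := O.b2 hj hl hlj.symm (by omega)
      rcases lt_trichotomy (key s') (key k) with g | g | g
      · exact O.sep hj hk sT t1 g (Or.inr hkl) tA
      · have := O.inj g
        subst this
        -- tD : DTri s l s'
        have e := sD.rot.unique tD.rot.rot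
        subst e
        omega
      · exact O.sep hj tH tT h2 g (Or.inl h1) hik.symm
    · rcases O.cover_left hl (key l) j s (by omega) hj hlj.symm h (by omega) with
        ⟨t, t', g1, g2, g3, g4, g5, g6, g7⟩ | g
      · exact O.sep g1 g2 g3 g5 g6 (Or.inl (by omega)) sA.symm
      · exact ih s (by omega) sH sA g.symm (by omega) s2

/-- edges do not cross in the order -/
theorem laminar [Finite V] (O : Ord X Y G key p q) {i j k l : V} (h1 : key i < key j)
    (h2 : key j < key k) (h3 : key k < key l) (hik : TG X Y G p q i k)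
    (hjl : TG X Y G p q j l) : False := by
  by_cases hi : Hull X Y i
  · by_cases hk : Hull X Y k
    · exact O.sep hi hk hik h1 h2 (Or.inr h3) hjl.1
    · -- `k` interior
      rcases O.cover_left hk (key k) i j (by omega) hi hik.1 h1 h2 with
        ⟨t, t', g1, g2, g3, g4, g5, g6, g7⟩ | g
      · exact O.sep g1 g2 g3 g5 g6 (Or.inr (by omega)) hjl.1
      · have hj : Hull X Y j := (O.hI j k g).resolve_right hk
        by_cases hl : Hull X Y l
        · exact O.sep hj hl hjl h2 h3 (Or.inl h1) hik.1.symm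
        · rcases O.cover_left hl (key l) j k (by omega) hj hjl.1 h2 h3 with
            ⟨t, t', g1, g2, g3, g4, g5, g6, g7⟩ | g'
          · exact O.sep g1 g2 g3 g5 g6 (Or.inl (by omega)) hik.1.symm
          · rcases O.hI k l g' with h | h
            · exact hk h
            · exact hl h
  · have hk : Hull X Y k := (O.hI i k hik.1).resolve_left hi
    rcases O.cover_right hi (key k) k j (le_refl _) hk hik.1 h1 h2 with
      ⟨t, t', g1, g2, g3, g4, g5, g6, g7⟩ | g
    · exact O.sep g1 g2 g3 g5 g6 (Or.inr (by omega)) hjl.1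
    · have hj : Hull X Y j := (O.hI i j g).resolve_left hi
      by_cases hl : Hull X Y l
      · exact O.sep hj hl hjl h2 h3 (Or.inl h1) hik.1.symm
      · rcases O.cover_left hl (key l) j k (by omega) hj hjl.1 h2 h3 with
          ⟨t, t', g1, g2, g3, g4, g5, g6, g7⟩ | g'
        · exact O.sep g1 g2 g3 g5 g6 (Or.inl (by omega)) hik.1.symm
        · exact O.special hi hl hk hik.1 g'.symm h3 (key k) j (by omega) hj g hjl.1.symm h1 h2

/-- every nontrivial edge has an apex -/
theorem apex_ord [Finite V] (O : Ord X Y G key p q) {x y z : V} (hT : TG X Y G p q x y)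
    (h1 : key x < key z) (h2 : key z < key y) :
    ∃ m, key x < key m ∧ key m < key y ∧ TG X Y G p q x m ∧ TG X Y G p q m y := by
  by_cases hx : Hull X Y x
  · by_cases hy : Hull X Y y
    · exact O.b1 hx hy hT h1 h2
    · have hpz := O.lo y z hy h2
      obtain ⟨s, s1, s2, sH, sT, sA, _⟩ := O.b2 hx hy hT.1 (by omega)
      have k1 := (O.slot y hy).2.2.1
      exact ⟨s, s1, by omega, sT, tg_of_int O.pq sA (Or.inr hy)⟩
  · have hy : Hull X Y y := (O.hI x y hT.1).resolve_left hx
    have hqz := O.hi x z hx h1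
    obtain ⟨s, s1, s2, sH, sT, sA, _⟩ := O.b3 hy hx hT.1 (by omega)
    have k2 := (O.slot x hx).2.2.2.1
    exact ⟨s, by omega, s2, tg_of_int O.pq sA (Or.inl hx), sT⟩

end Ord

end Pool.Agent.MP7a5e6c
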