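import Pool.Agent.MP7a5e6c.DI3

set_option autoImplicit false
open scoped Classical

namespace Pool.Agent.MP7a5e6c

variable {V : Type} {X Y : V → ℝ} {G : SimpleGraph V}

/-- `x` comes before `y` in the order around `a` -/
def Bf (X Y : V → ℝ) (a x y : V) : Prop := (x = a ∧ y ≠ a) ∨ 0 < ori X Y a y x

lemma bf_ne {a x y : V} (h : Bf X Y a x y) : x ≠ y ∧ y ≠ a := by
  rcases h with ⟨h1, h2⟩ | h
  · exact ⟨fun h3 => h2 (h3 ▸ h1), h2⟩
  · have := ne_of_ori h.ne'
    exact ⟨this.2.2.symm, this.1.symm⟩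

lemma bf_total (hgp : GP X Y) {a x y : V} (h : x ≠ y) : Bf X Y a x y ∨ Bf X Y a y x := by
  by_cases hx : x = a
  · subst hx; exact Or.inl (Or.inl ⟨rfl, h.symm⟩)
  by_cases hy : y = a
  · subst hy; exact Or.inr (Or.inl ⟨rfl, h⟩)
  rcases lt_or_gt_of_ne (hgp.2 a x y (Ne.symm hx) (Ne.symm hy) h) with g | g
  · left; right; rw [ori_swap']; linarith
  · right; right; exact g

section
variable {a b : V} (hgp : GP X Y) (hab : a ≠ b) (hside : ∀ x, 0 ≤ ori X Y a b x)

include hgp hab hside

lemma side_pos {x : V} (hxa : x ≠ a) (hxb : x ≠ b) : 0 < ori X Y a b x :=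
  lt_of_le_of_ne (hside x) (hgp.2 a b x hab hxa.symm hxb.symm).symm

lemma bf_trans {x y z : V} (h1 : Bf X Y a x y) (h2 : Bf X Y a y z) : Bf X Y a x z := by
  have ny := (bf_ne h1).2
  have nz := (bf_ne h2).2
  rcases h1 with ⟨h1, _⟩ | h1
  · exact Or.inl ⟨h1, nz⟩
  rcases h2 with ⟨h2, _⟩ | h2
  · exact absurd h2 ny
  right
  have n1 := ne_of_ori h1.ne'
  have n2 := ne_of_ori h2.ne'
  have id1 : ori X Y a b y * ori X Y a z x = ori X Y a b x * ori X Y a z y +
      ori X Y a b z * ori X Y a y x := by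
    unfold ori; ring
  by_cases hyb : y = b
  · subst hyb
    have := hside z
    have e : ori X Y a z y = - ori X Y a y z := by unfold ori; ring
    linarith
  by_cases hxb : x = b
  · subst hxb
    have := hside y
    have e : ori X Y a y x = - ori X Y a x y := by unfold ori; ring
    linarith
  have p1 := side_pos hgp hab hside ny hyb
  have p2 := side_pos hgp hab hside (n1.2.1.symm) hxb
  have p3 := hside z
  have : 0 < ori X Y a b y * ori X Y a z x := by
    rw [id1]
    have := mul_pos p2 h2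
    have := mul_nonneg p3 h1.le
    linarith
  exact (pos_iff_pos_of_mul_pos this).1 p1

lemma bf_btw {x y z : V} (hy : Hull X Y y) (h1 : Bf X Y a x y) (h2 : Bf X Y a y z) :
    0 < ori X Y x z y := by
  have h3 := bf_trans hgp hab hside h1 h2
  have ny := (bf_ne h1).2
  rcases h2 with ⟨h2, _⟩ | h2
  · exact absurd h2 ny
  by_cases hx : x = a
  · subst hx; exact h2
  have h1' : 0 < ori X Y a y x := by
    rcases h1 with ⟨h, _⟩ | h
    · exact absurd h hx
    · exact h
  have h3' : 0 < ori X Y a z x := by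
    rcases h3 with ⟨h, _⟩ | h
    · exact absurd h hx
    · exact h
  have n1 := ne_of_ori h1'.ne'
  have n2 := ne_of_ori h2.ne'
  have n3 := ne_of_ori h3'.ne'
  by_contra hc
  have hlt : ori X Y x z y < 0 :=
    lt_of_le_of_ne (not_lt.1 hc) (hgp.2 x z y n3.2.2.symm n1.2.2.symm n2.2.2)
  refine hull_tri X Y (v := y) (x := a) (y := z) (z := x) hy h2 ?_ ?_
  · rw [ori_swap]; linarith
  · have e : ori X Y x a y = ori X Y a y x := by unfold ori; ring
    linarith

end

/-- existence of the order -/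
theorem exists_ord [Finite V] (D : DT X Y G) (hI : ∀ a b, G.Adj a b → Hull X Y a ∨ Hull X Y b)
    (u0 u1 : V) (hu : u0 ≠ u1) (hcard : ∀ a b : V, ∃ c, c ≠ a ∧ c ≠ b) :
    ∃ (key : V → ℕ) (p q : V → V) (a b : V), Ord X Y G key p q ∧ a ≠ b ∧ TG X Y G p q a b ∧
      (∀ x, x ≠ a → key a < key x) ∧ (∀ x, x ≠ b → key x < key b) := by
  have hgp := D.gp
  obtain ⟨a, b, hab, hside, hfree⟩ := good_top D hI u0 u1 hu hcard
  have hHab := hull_of_side hgp hab hside
  have hfree' : ∀ v, ∃ rw : V × V, ¬ Hull X Y v → DTri X Y v rw.1 rw.2 ∧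
      (∀ x, 0 ≤ ori X Y rw.1 rw.2 x) ∧ ¬ (rw.1 = a ∧ rw.2 = b) := by
    intro v
    by_cases hv : Hull X Y v
    · exact ⟨(a, a), fun h => absurd hv h⟩
    · obtain ⟨r, w, h⟩ := hfree v hv
      exact ⟨(r, w), fun _ => h⟩
  choose rw hrw using hfree'
  let q : V → V := fun v => (rw v).1
  let p : V → V := fun v => (rw v).2
  have hq : ∀ v, ¬ Hull X Y v → DTri X Y v (q v) (p v) := fun v hv => (hrw v hv).1
  have hs : ∀ v, ¬ Hull X Y v → ∀ x, 0 ≤ ori X Y (q v) (p v) x := fun v hv => (hrw v hv).2.1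
  have hnab : ∀ v, ¬ Hull X Y v → ¬ (q v = a ∧ p v = b) := fun v hv => (hrw v hv).2.2
  have hHpq : ∀ v, ¬ Hull X Y v → Hull X Y (p v) ∧ Hull X Y (q v) := by
    intro v hv
    have := hull_of_side hgp (hq v hv).ne.2.2 (hs v hv)
    exact ⟨this.2, this.1⟩
  have hbtot : ∀ {x y : V}, x ≠ y → Bf X Y a x y ∨ Bf X Y a y x := fun h => bf_total hgp h
  have hbtr : ∀ {x y z : V}, Bf X Y a x y → Bf X Y a y z → Bf X Y a x z :=
    fun h1 h2 => bf_trans hgp hab hside h1 h2
  have hbtw : ∀ {x y z : V}, Hull X Y y → Bf X Y a x y → Bf X Y a y z → 0 < ori X Y x z y :=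
    fun hy h1 h2 => bf_btw hgp hab hside hy h1 h2
  have hirr : ∀ x, ¬ Bf X Y a x x := fun x h => (bf_ne h).1 rfl
  have hab' : ∀ {x : V}, x ≠ a → Bf X Y a a x := fun h => Or.inl ⟨rfl, h⟩
  have hbb : ∀ {x : V}, x ≠ b → Bf X Y a x b := by
    intro x h
    by_cases hx : x = a
    · exact Or.inl ⟨hx, hab.symm⟩
    · exact Or.inr (side_pos hgp hab hside hx h)
  -- p before q
  have hpq : ∀ v, ¬ Hull X Y v → Bf X Y a (p v) (q v) := by
    intro v hv
    have hne := (hq v hv).ne.2.2
    rcases hbtot hne.symm with h | h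
    · exact h
    exfalso
    apply hnab v hv
    have e1 : q v = a := by
      by_contra hc
      have h1 := hbtw (hHpq v hv).2 (hab' hc) h
      have h2 := hs v hv a
      have e : ori X Y (q v) (p v) a = - ori X Y a (p v) (q v) := by unfold ori; ring
      linarith
    have e2 : p v = b := by
      by_contra hc
      have h1 := hbtw (hHpq v hv).1 h (hbb hc)
      have h2 := hs v hv b
      have e : ori X Y (q v) (p v) b = - ori X Y (q v) b (p v) := by unfold ori; ring
      linarith
    exact ⟨e1, e2⟩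
  let cnt : V → ℕ := fun x => Set.ncard {z | Hull X Y z ∧ Bf X Y a z x}
  have hcnt : ∀ {x y : V}, Hull X Y x → Bf X Y a x y → cnt x < cnt y := by
    intro x y hx h
    apply Set.ncard_lt_ncard _ (Set.toFinite _)
    refine ⟨fun z hz => ⟨hz.1, hbtr hz.2 h⟩, fun hsub => ?_⟩
    have : x ∈ {z | Hull X Y z ∧ Bf X Y a z x} := hsub ⟨hx, h⟩
    exact hirr x this.2
  have hcnt' : ∀ {x y : V}, Hull X Y x → Hull X Y y → cnt x < cnt y → Bf X Y a x y := by
    intro x y hx hy h
    have hne : x ≠ y := by rintro rfl; exact lt_irrefl _ h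
    rcases hbtot hne with g | g
    · exact g
    · have := hcnt hy g; omega
  have hcinj : ∀ {x y : V}, Hull X Y x → Hull X Y y → cnt x = cnt y → x = y := by
    intro x y hx hy h
    by_contra hne
    rcases hbtot hne with g | g
    · have := hcnt hx g; omega
    · have := hcnt hy g; omega
  have hsucc : ∀ v, ¬ Hull X Y v → cnt (q v) = cnt (p v) + 1 := by
    intro v hv
    have hset : {z | Hull X Y z ∧ Bf X Y a z (q v)} =
        insert (p v) {z | Hull X Y z ∧ Bf X Y a z (p v)} := by
      ext z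
      constructor
      · rintro ⟨h1, h2⟩
        by_cases hz : z = p v
        · exact Or.inl hz
        · right
          refine ⟨h1, ?_⟩
          rcases hbtot hz with g | g
          · exact g
          · exfalso
            have h3 := hbtw h1 g h2
            have h4 := hs v hv z
            have e : ori X Y (q v) (p v) z = - ori X Y (p v) (q v) z := by unfold ori; ring
            linarith
      · rintro (rfl | ⟨h1, h2⟩)
        · exact ⟨(hHpq v hv).1, hpq v hv⟩
        · exact ⟨h1, hbtr h2 (hpq v hv)⟩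
    show Set.ncard _ = _
    rw [hset, Set.ncard_insert_of_notMem (fun h => hirr _ h.2) (Set.toFinite _)]
  let key : V → ℕ := fun v => if Hull X Y v then 2 * cnt v else 2 * cnt (p v) + 1
  have kH : ∀ {v : V}, Hull X Y v → key v = 2 * cnt v := fun h => if_pos h
  have kI : ∀ {v : V}, ¬ Hull X Y v → key v = 2 * cnt (p v) + 1 := fun h => if_neg h
  have hinj : Function.Injective key := by
    intro x y hxy
    by_cases hx : Hull X Y x
    · by_cases hy : Hull X Y y
      · rw [kH hx, kH hy] at hxy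
        exact hcinj hx hy (by omega)
      · rw [kH hx, kI hy] at hxy; omega
    · by_cases hy : Hull X Y y
      · rw [kI hx, kH hy] at hxy; omega
      · rw [kI hx, kI hy] at hxy
        have e1 : p x = p y := hcinj (hHpq x hx).1 (hHpq y hy).1 (by omega)
        have e2 : q x = q y := by
          apply hcinj (hHpq x hx).2 (hHpq y hy).2
          rw [hsucc x hx, hsucc y hy, e1]
        have h1 := hq x hx
        have h2 := hq y hy
        rw [e1, e2] at h1
        exact h1.rot.unique h2.rot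
  refine ⟨key, p, q, a, b, ⟨D, hI, hinj, ?_, ?_, ?_, ?_⟩, hab, ⟨D.hull_edge_adj hab hside, ?_⟩, ?_, ?_⟩
  · intro x y z hx hy hz h1 h2
    rw [kH hx, kH hy] at h1
    rw [kH hy, kH hz] at h2
    exact hbtw hy (hcnt' hx hy (by omega)) (hcnt' hy hz (by omega))
  · intro v hv
    refine ⟨(hHpq v hv).1, (hHpq v hv).2, ?_, ?_, hq v hv⟩
    · rw [kH (hHpq v hv).1, kI hv]; omega
    · rw [kH (hHpq v hv).2, kI hv, hsucc v hv]; omega
  · intro v x hv h
    rw [kH (hHpq v hv).1]
    rw [kI hv] at h
    by_cases hx : Hull X Y x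
    · rw [kH hx] at h ⊢; omega
    · rw [kI hx] at h ⊢; omega
  · intro v x hv h
    rw [kH (hHpq v hv).2, hsucc v hv]
    rw [kI hv] at h
    by_cases hx : Hull X Y x
    · rw [kH hx] at h ⊢; omega
    · rw [kI hx] at h ⊢; omega
  · rintro v hv ⟨e1, e2⟩
    have h1 := (hq v hv).1
    rw [← e1, ← e2] at h1
    have h2 := hside v
    have e : ori X Y v b a = - ori X Y a b v := by unfold ori; ring
    linarith
  · intro x hx
    rw [kH hHab.1]
    by_cases hxH : Hull X Y x
    · rw [kH hxH]
      have := hcnt hHab.1 (hab' hx)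
      omega
    · rw [kI hxH]
      by_cases hpa : p x = a
      · rw [hpa]; omega
      · have := hcnt hHab.1 (hab' hpa)
        omega
  · intro x hx
    rw [kH hHab.2]
    by_cases hxH : Hull X Y x
    · rw [kH hxH]
      have := hcnt hxH (hbb hx)
      omega
    · rw [kI hxH]
      have h1 := hsucc x hxH
      by_cases hqb : q x = b
      · rw [hqb] at h1; omega
      · have := hcnt (hHpq x hxH).2 (hbb hqb)
        omega

end Pool.Agent.MP7a5e6c
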