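import Mathlib

set_option autoImplicit false
open scoped Classical

namespace Pool.Agent.MP7a5e6c

abbrev Pt := EuclideanSpace ℝ (Fin 2)

/-- `E` is a straight-line triangulation of the points `f` (same condition as in the problem) -/
def IsTri {n : ℕ} (f : Fin n → Pt) (E : SimpleGraph (Fin n)) : Prop :=
  (∀ a b, E.Adj a b → ∀ w, w ≠ a → w ≠ b → f w ∉ segment ℝ (f a) (f b)) ∧
  (∀ a b c d, E.Adj a b → E.Adj c d → s(a, b) ≠ s(c, d) →
    segment ℝ (f a) (f b) ∩ segment ℝ (f c) (f d) ⊆ ({f a, f b} ∩ {f c, f d} : Set Pt)) ∧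
  (∀ a b, a ≠ b →
    (∀ w, w ≠ a → w ≠ b → f w ∉ segment ℝ (f a) (f b)) →
    (∀ c d, E.Adj c d → s(a, b) ≠ s(c, d) →
      segment ℝ (f a) (f b) ∩ segment ℝ (f c) (f d) ⊆ ({f a, f b} ∩ {f c, f d} : Set Pt)) →
    E.Adj a b)

/-- the pair `a b` has an empty circle -/
def EmptyCircle {n : ℕ} (f : Fin n → Pt) (a b : Fin n) : Prop :=
  ∃ (c : Pt) (r : ℝ), dist c (f a) = r ∧ dist c (f b) = r ∧ ∀ w, w ≠ a → w ≠ b → r < dist c (f w)

/-- twice the weight of the drawing of `E` -/
noncomputable def weight {n : ℕ} (f : Fin n → Pt) (E : SimpleGraph (Fin n)) : ℝ :=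
  ∑ a : Fin n, ∑ b : Fin n, if E.Adj a b then dist (f a) (f b) else 0

/-- add a new vertex `last` joined to the vertices in the list `A` -/
def addVertex {n : ℕ} (G : SimpleGraph (Fin n)) (A : List (Fin n)) : SimpleGraph (Fin (n + 1)) where
  Adj a b := (∃ i j, a = Fin.castSucc i ∧ b = Fin.castSucc j ∧ G.Adj i j) ∨
    (a = Fin.last n ∧ ∃ i ∈ A, b = Fin.castSucc i) ∨ (b = Fin.last n ∧ ∃ i ∈ A, a = Fin.castSucc i)
  symm := ⟨by
    rintro a b (⟨i, j, ha, hb, h⟩ | ⟨ha, i, hi, hb⟩ | ⟨hb, i, hi, ha⟩)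
    · exact Or.inl ⟨j, i, hb, ha, h.symm⟩
    · exact Or.inr (Or.inr ⟨ha, i, hi, hb⟩)
    · exact Or.inr (Or.inl ⟨hb, i, hi, ha⟩)⟩
  loopless := ⟨by
    rintro a (⟨i, j, ha, hb, h⟩ | ⟨ha, i, hi, hb⟩ | ⟨hb, i, hi, ha⟩)
    · rw [ha] at hb
      have := Fin.castSucc_injective _ hb
      subst this
      exact G.irrefl h
    · rw [ha] at hb; exact absurd hb.symm (Fin.castSucc_lt_last i).ne
    · rw [ha] at hb; exact absurd hb (Fin.castSucc_lt_last i).ne⟩

/-- Graphs with a linear canonical order. `LCO n G a T` says that `G`, a graph on `Fin n`, is built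
by the rules below; `a` is the vertex added last and `a :: T` is the outer cycle, listed once around.
* `base`: a single edge on the vertices `0`, `1`, with outer cycle `0, 1`;
* `flip`: the outer cycle may be listed in the other direction;
* `add`: if the outer cycle is `a, S, w, Q` (where `S`, `Q` are lists), a new vertex may be joined
  to exactly `a`, the vertices of `S`, and `w`: a run of at least two consecutive vertices of the
  outer cycle that starts at the vertex `a` added last. The new outer cycle is: new vertex, `w`,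
  `Q`, `a`. -/
inductive LCO : (n : ℕ) → SimpleGraph (Fin n) → Fin n → List (Fin n) → Prop
  | base : LCO 2 ⊤ 0 [1]
  | flip {n : ℕ} {G : SimpleGraph (Fin n)} {a : Fin n} {T : List (Fin n)} :
      LCO n G a T → LCO n G a T.reverse
  | add {n : ℕ} {G : SimpleGraph (Fin n)} {a w : Fin n} {S Q : List (Fin n)} :
      LCO n G a (S ++ w :: Q) →
      LCO (n + 1) (addVertex G (a :: (S ++ [w]))) (Fin.last n) ((w :: (Q ++ [a])).map Fin.castSucc)

end Pool.Agent.MP7a5e6c
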