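import Pool.Agent.MP7a5e6c.Plane
import Pool.Agent.MP7a5e6c.Defs

set_option autoImplicit false
open scoped Classical

namespace Pool.Agent.MP7a5e6c

section
variable {n : ℕ} (f : Fin n → Pt)

def cX (f : Fin n → Pt) : Fin n → ℝ := fun i => f i 0
def cY (f : Fin n → Pt) : Fin n → ℝ := fun i => f i 1

lemma dist_sq_eq (P Q : Pt) : dist P Q = Real.sqrt ((P 0 - Q 0) ^ 2 + (P 1 - Q 1) ^ 2) := by
  rw [EuclideanSpace.dist_eq, Fin.sum_univ_two, Real.dist_eq, Real.dist_eq, sq_abs, sq_abs]

lemma dist_len (a b : Fin n) : dist (f a) (f b) = len (cX f) (cY f) a b := by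
  rw [dist_sq_eq]; rfl

lemma weight_eq (E : SimpleGraph (Fin n)) : weight f E = wt (cX f) (cY f) E := by
  unfold weight wt
  simp only [dist_len]

lemma emptyCircle_iff (a b : Fin n) : EmptyCircle f a b ↔ Del (cX f) (cY f) a b := by
  unfold EmptyCircle Del
  constructor
  · rintro ⟨c, r, h1, h2, h3⟩
    have hr : 0 ≤ r := h1 ▸ dist_nonneg
    have key : ∀ w, (cX f w - c 0) ^ 2 + (cY f w - c 1) ^ 2 = (dist c (f w)) ^ 2 := by
      intro w
      rw [dist_sq_eq, Real.sq_sqrt (by positivity)]
      unfold cX cY; ring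
    refine ⟨c 0, c 1, r ^ 2, ?_, ?_, ?_⟩
    · rw [key, h1]
    · rw [key, h2]
    · intro w hw1 hw2
      rw [key]
      have := h3 w hw1 hw2
      nlinarith
  · rintro ⟨p, q, r, h1, h2, h3⟩
    have hr : 0 ≤ r := by rw [← h1]; positivity
    have key : ∀ w, dist (!₂[p, q] : Pt) (f w) =
        Real.sqrt ((cX f w - p) ^ 2 + (cY f w - q) ^ 2) := by
      intro w
      rw [dist_sq_eq]
      congr 1
      simp [cX, cY]; ring
    refine ⟨!₂[p, q], Real.sqrt r, ?_, ?_, ?_⟩
    · rw [key, h1]
    · rw [key, h2]
    · intro w hw1 hw2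
      rw [key]
      exact Real.sqrt_lt_sqrt hr (h3 w hw1 hw2)

lemma not_mem_segment (hgp : GP (cX f) (cY f)) (a b w : Fin n) (hab : a ≠ b) (h1 : w ≠ a) (h2 : w ≠ b) :
    f w ∉ segment ℝ (f a) (f b) := by
  rintro ⟨s, t, hs, ht, hst, h⟩
  apply hgp.2 a b w hab (Ne.symm h1) (Ne.symm h2)
  have e0 : s * f a 0 + t * f b 0 = f w 0 := by
    have := congrArg (fun P : Pt => P 0) h
    simpa using this
  have e1 : s * f a 1 + t * f b 1 = f w 1 := by
    have := congrArg (fun P : Pt => P 1) h
    simpa using this
  unfold ori cX cY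
  rw [← e0, ← e1]
  have : s = 1 - t := by linarith
  rw [this]; ring

lemma seg_ab {P : Pt} {a b : Fin n} (h : P ∈ segment ℝ (f a) (f b)) :
    ∃ t : ℝ, 0 ≤ t ∧ t ≤ 1 ∧ P 0 = cX f a + t * (cX f b - cX f a) ∧
      P 1 = cY f a + t * (cY f b - cY f a) := by
  obtain ⟨s, t, hs, ht, hst, h⟩ := h
  refine ⟨t, ht, by linarith, ?_, ?_⟩
  · have := congrArg (fun P : Pt => P 0) h
    have e0 : s * f a 0 + t * f b 0 = P 0 := by simpa using this
    rw [← e0]; unfold cX
    have : s = 1 - t := by linarith
    rw [this]; ring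
  · have := congrArg (fun P : Pt => P 1) h
    have e0 : s * f a 1 + t * f b 1 = P 1 := by simpa using this
    rw [← e0]; unfold cY
    have : s = 1 - t := by linarith
    rw [this]; ring

lemma convex_sign {u v t : ℝ} (hu : u ≠ 0) (hv : v ≠ 0) (h0 : 0 ≤ t) (h1 : t ≤ 1)
    (h : u + t * (v - u) = 0) : u * v < 0 := by
  have h' : (1 - t) * u + t * v = 0 := by linarith
  rcases h0.eq_or_lt with ht | ht
  · rw [← ht] at h; exact absurd (by simpa using h) hu
  rcases lt_or_gt_of_ne hu with hu' | hu' <;> rcases lt_or_gt_of_ne hv with hv' | hv'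
  · exfalso
    have e1 : (1 - t) * u ≤ 0 := mul_nonpos_of_nonneg_of_nonpos (by linarith) hu'.le
    have e2 : t * v < 0 := mul_neg_of_pos_of_neg ht hv'
    linarith
  · exact mul_neg_of_neg_of_pos hu' hv'
  · exact mul_neg_of_pos_of_neg hu' hv'
  · exfalso
    have e1 : 0 ≤ (1 - t) * u := mul_nonneg (by linarith) hu'.le
    have e2 : 0 < t * v := mul_pos ht hv'
    linarith

lemma point_eq {P : Pt} {a : Fin n} (h0 : P 0 = cX f a) (h1 : P 1 = cY f a) : P = f a := by
  ext i
  fin_cases i
  · exact h0
  · exact h1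

lemma shared {P : Pt} (hgp : GP (cX f) (cY f)) (a b d : Fin n) (hab : a ≠ b) (had : a ≠ d)
    (hbd : b ≠ d) (h1 : P ∈ segment ℝ (f a) (f b)) (h2 : P ∈ segment ℝ (f a) (f d)) : P = f a := by
  obtain ⟨s, _, _, hs2, hs3⟩ := seg_ab f h1
  obtain ⟨t, _, _, ht2, ht3⟩ := seg_ab f h2
  have ho := hgp.2 a b d hab had hbd
  unfold ori at ho
  have e0 : s * (cX f b - cX f a) = t * (cX f d - cX f a) := by linarith
  have e1 : s * (cY f b - cY f a) = t * (cY f d - cY f a) := by linarith
  have hs0 : s * ((cX f b - cX f a) * (cY f d - cY f a) - (cY f b - cY f a) * (cX f d - cX f a)) = 0 := by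
    have : s * ((cX f b - cX f a) * (cY f d - cY f a) - (cY f b - cY f a) * (cX f d - cX f a)) =
      (s * (cX f b - cX f a)) * (cY f d - cY f a) - (s * (cY f b - cY f a)) * (cX f d - cX f a) := by ring
    rw [this, e0, e1]; ring
  have hs : s = 0 := by
    rcases mul_eq_zero.1 hs0 with h | h
    · exact h
    · exact absurd h ho
  apply point_eq
  · rw [hs2, hs]; ring
  · rw [hs3, hs]; ring

lemma inter_iff (hgp : GP (cX f) (cY f)) (a b c d : Fin n) (hab : a ≠ b) (hcd : c ≠ d)
    (hne : s(a, b) ≠ s(c, d)) :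
    segment ℝ (f a) (f b) ∩ segment ℝ (f c) (f d) ⊆ ({f a, f b} ∩ {f c, f d} : Set Pt) ↔
      ¬ Cr (cX f) (cY f) a b c d := by
  constructor
  · intro hsub hcr
    have hcr' := hcr
    obtain ⟨h1, h2⟩ := hcr
    -- crossing point
    set A := ori (cX f) (cY f) c d a with hA
    set B := ori (cX f) (cY f) c d b with hB
    set C := ori (cX f) (cY f) a b c with hC
    set D := ori (cX f) (cY f) a b d with hD
    have hAB : A - B ≠ 0 := by
      intro h
      have : A = B := by linarith
      rw [this] at h2
      nlinarith [mul_self_nonneg B]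
    have hCD : C - D ≠ 0 := by
      intro h
      have : C = D := by linarith
      rw [this] at h1
      nlinarith [mul_self_nonneg D]
    have hs : 0 ≤ A / (A - B) ∧ A / (A - B) ≤ 1 := by
      rcases lt_trichotomy A 0 with hh | hh | hh
      · have hBp : 0 < B := by nlinarith
        constructor
        · exact div_nonneg_of_nonpos hh.le (by linarith)
        · rw [div_le_one_of_neg (by linarith)]; linarith
      · rw [hh] at h2; simp at h2
      · have hBp : B < 0 := by nlinarith
        constructor
        · exact div_nonneg hh.le (by linarith)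
        · rw [div_le_one (by linarith)]; linarith
    have ht : 0 ≤ C / (C - D) ∧ C / (C - D) ≤ 1 := by
      rcases lt_trichotomy C 0 with hh | hh | hh
      · have hBp : 0 < D := by nlinarith
        constructor
        · exact div_nonneg_of_nonpos hh.le (by linarith)
        · rw [div_le_one_of_neg (by linarith)]; linarith
      · rw [hh] at h1; simp at h1
      · have hBp : D < 0 := by nlinarith
        constructor
        · exact div_nonneg hh.le (by linarith)
        · rw [div_le_one (by linarith)]; linarith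
    set s := A / (A - B) with hsd
    set t := C / (C - D) with htd
    have hsA : s * (A - B) = A := by rw [hsd]; field_simp
    have htC : t * (C - D) = C := by rw [htd]; field_simp
    set P : Pt := !₂[cX f a + s * (cX f b - cX f a), cY f a + s * (cY f b - cY f a)] with hP
    have hP1 : P ∈ segment ℝ (f a) (f b) := by
      refine ⟨1 - s, s, by linarith [hs.2], hs.1, by ring, ?_⟩
      ext i
      fin_cases i
      · simp [hP, cX]; ring
      · simp [hP, cY]; ring
    have hdet : A - B = -(C - D) := by
      rw [hA, hB, hC, hD]; unfold ori; ring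
    have hP2 : P ∈ segment ℝ (f c) (f d) := by
      refine ⟨1 - t, t, by linarith [ht.2], ht.1, by ring, ?_⟩
      have k0 : (A - B) * (cX f a + s * (cX f b - cX f a)) = (A - B) * (cX f c + t * (cX f d - cX f c)) := by
        have e1 : (A - B) * (cX f a + s * (cX f b - cX f a)) = (A - B) * cX f a + (s * (A - B)) * (cX f b - cX f a) := by ring
        have e2 : (A - B) * (cX f c + t * (cX f d - cX f c)) = (A - B) * cX f c - (t * (C - D)) * (cX f d - cX f c) := by
          rw [hdet]; ring
        rw [e1, e2, hsA, htC, hA, hB, hC]; unfold ori; ring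
      have k1 : (A - B) * (cY f a + s * (cY f b - cY f a)) = (A - B) * (cY f c + t * (cY f d - cY f c)) := by
        have e1 : (A - B) * (cY f a + s * (cY f b - cY f a)) = (A - B) * cY f a + (s * (A - B)) * (cY f b - cY f a) := by ring
        have e2 : (A - B) * (cY f c + t * (cY f d - cY f c)) = (A - B) * cY f c - (t * (C - D)) * (cY f d - cY f c) := by
          rw [hdet]; ring
        rw [e1, e2, hsA, htC, hA, hB, hC]; unfold ori; ring
      have k0' := mul_left_cancel₀ hAB k0
      have k1' := mul_left_cancel₀ hAB k1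
      ext i
      fin_cases i
      · simp [hP]; rw [k0']; simp [cX]; ring
      · simp [hP]; rw [k1']; simp [cY]; ring
    have hmem := hsub ⟨hP1, hP2⟩
    have hinj : ∀ i j, f i = f j → i = j := by
      intro i j hij
      by_contra hc
      rcases hgp.1 i j hc with h | h
      · exact h (by unfold cX; rw [hij])
      · exact h (by unfold cY; rw [hij])
    obtain ⟨m1, m2⟩ := hmem
    have : a = c ∨ a = d ∨ b = c ∨ b = d := by
      rcases m1 with m1 | m1 <;> rcases m2 with m2 | m2
      · exact Or.inl (hinj _ _ (m1.symm.trans m2))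
      · exact Or.inr (Or.inl (hinj _ _ (m1.symm.trans m2)))
      · exact Or.inr (Or.inr (Or.inl (hinj _ _ (m1.symm.trans m2))))
      · exact Or.inr (Or.inr (Or.inr (hinj _ _ (m1.symm.trans m2))))
    exact not_Cr_share _ _ _ _ _ _ this hcr'
  · rintro hcr P ⟨hP1, hP2⟩
    by_cases hac : a = c
    · subst hac
      have hbd : b ≠ d := by rintro rfl; exact hne rfl
      have := shared f hgp a b d hab hcd hbd hP1 hP2
      rw [this]; simp
    by_cases had : a = d
    · subst had
      have hbc : b ≠ c := by rintro rfl; exact hne Sym2.eq_swap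
      rw [segment_symm ℝ (f c)] at hP2
      have := shared f hgp a b c hab (Ne.symm hcd) hbc hP1 hP2
      rw [this]; simp
    by_cases hbc : b = c
    · subst hbc
      rw [segment_symm ℝ (f a)] at hP1
      have := shared f hgp b a d (Ne.symm hab) hcd had hP1 hP2
      rw [this]; simp
    by_cases hbd : b = d
    · subst hbd
      rw [segment_symm ℝ (f a)] at hP1
      rw [segment_symm ℝ (f c)] at hP2
      have := shared f hgp b a c (Ne.symm hab) (Ne.symm hcd) hac hP1 hP2
      rw [this]; simp
    exfalso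
    apply hcr
    obtain ⟨s, hs0, hs1, hs2, hs3⟩ := seg_ab f hP1
    obtain ⟨t, ht0, ht1, ht2, ht3⟩ := seg_ab f hP2
    constructor
    · apply convex_sign (hgp.2 a b c hab hac hbc) (hgp.2 a b d hab had hbd) ht0 ht1
      have e1 : ori (cX f) (cY f) a b c + t * (ori (cX f) (cY f) a b d - ori (cX f) (cY f) a b c) =
          (cX f b - cX f a) * ((cY f c + t * (cY f d - cY f c)) - cY f a)
            - (cY f b - cY f a) * ((cX f c + t * (cX f d - cX f c)) - cX f a) := by
        unfold ori; ring
      rw [e1, ← ht2, ← ht3, hs2, hs3]; ring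
    · apply convex_sign (hgp.2 c d a hcd (Ne.symm hac) (Ne.symm had)) (hgp.2 c d b hcd (Ne.symm hbc) (Ne.symm hbd)) hs0 hs1
      have e1 : ori (cX f) (cY f) c d a + s * (ori (cX f) (cY f) c d b - ori (cX f) (cY f) c d a) =
          (cX f d - cX f c) * ((cY f a + s * (cY f b - cY f a)) - cY f c)
            - (cY f d - cY f c) * ((cX f a + s * (cX f b - cX f a)) - cX f c) := by
        unfold ori; ring
      rw [e1, ← hs2, ← hs3, ht2, ht3]; ring

theorem isTri_iff (hgp : GP (cX f) (cY f)) (E : SimpleGraph (Fin n)) :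
    IsTri f E ↔ TriC (cX f) (cY f) E := by
  constructor
  · rintro ⟨_, h2, h3⟩
    constructor
    · intro a b c d hab hcd
      by_cases hne : s(a, b) = s(c, d)
      · apply not_Cr_share
        rcases Sym2.eq_iff.1 hne with ⟨h, _⟩ | ⟨h, _⟩
        · exact Or.inl h
        · exact Or.inr (Or.inl h)
      · exact (inter_iff f hgp a b c d hab.ne hcd.ne hne).1 (h2 a b c d hab hcd hne)
    · intro a b hab hh
      apply h3 a b hab
      · intro w h1 h2; exact not_mem_segment f hgp a b w hab h1 h2
      · intro c d hcd hne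
        exact (inter_iff f hgp a b c d hab hcd.ne hne).2 (hh c d hcd)
  · rintro ⟨h2, h3⟩
    refine ⟨?_, ?_, ?_⟩
    · intro a b hab w h1 h2; exact not_mem_segment f hgp a b w hab.ne h1 h2
    · intro a b c d hab hcd hne
      exact (inter_iff f hgp a b c d hab.ne hcd.ne hne).2 (h2 a b c d hab hcd)
    · intro a b hab _ hh
      apply h3 a b hab
      intro c d hcd
      by_cases hne : s(a, b) = s(c, d)
      · apply not_Cr_share
        rcases Sym2.eq_iff.1 hne with ⟨h, _⟩ | ⟨h, _⟩
        · exact Or.inl h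
        · exact Or.inr (Or.inl h)
      · exact (inter_iff f hgp a b c d hab hcd.ne hne).1 (hh c d hcd hne)

theorem injective_of_gp (hgp : GP (cX f) (cY f)) : Function.Injective f := by
  intro i j hij
  by_contra hc
  rcases hgp.1 i j hc with h | h
  · exact h (by unfold cX; rw [hij])
  · exact h (by unfold cY; rw [hij])

end

end Pool.Agent.MP7a5e6c
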