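import Pool.Agent.MP7a5e6c.Opt

set_option autoImplicit false
open scoped Classical
open Real

namespace Pool.Agent.MP7a5e6c

section
variable {V : Type}

/-- horizontal weight (every edge counted twice) -/
noncomputable def W0 [Fintype V] (X : V → ℝ) (E : SimpleGraph V) : ℝ :=
  ∑ a, ∑ b, if E.Adj a b then |X a - X b| else 0

variable {X Y : V → ℝ} {h : V → ℕ} {E G : SimpleGraph V}

lemma Wt_top [Fintype V] (E : SimpleGraph V) (t : ℕ) (ht : ∀ a, h a < t) :
    Wt X h E t = W0 X E := by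
  unfold Wt W0
  simp only [ht, and_true]

lemma outer_edge (C : Cfg X Y h) (hE : TriC X Y E) {x0 xn : V} (hne : x0 ≠ xn)
    (hl : ∀ a, a ≠ x0 → X x0 < X a) (hr : ∀ a, a ≠ xn → X a < X xn)
    (htop : ∀ a, a ≠ x0 → a ≠ xn → h a < h x0 ∨ h a < h xn) : E.Adj x0 xn := by
  apply hE.2 _ _ hne
  intro c d hcd hcr
  by_cases h0 : c = x0 ∨ c = xn ∨ d = x0 ∨ d = xn
  · apply not_Cr_share _ _ _ _ _ _ _ hcr
    rcases h0 with h0 | h0 | h0 | h0
    · exact Or.inl h0.symm
    · exact Or.inr (Or.inr (Or.inl h0.symm))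
    · exact Or.inr (Or.inl h0.symm)
    · exact Or.inr (Or.inr (Or.inr h0.symm))
  · push Not at h0
    obtain ⟨h1, h2, h3, h4⟩ := h0
    have hh : h x0 ≠ h xn := fun e => hne (C.injh e)
    rw [Cr_symm] at hcr
    rcases lt_or_gt_of_ne hh with hlt | hlt
    · have k1 : h c < h xn := by rcases htop c h1 h2 with h5 | h5 <;> omega
      have k2 : h d < h xn := by rcases htop d h3 h4 with h5 | h5 <;> omega
      have ho := (cross_iff C k1 k2 hlt).1 hcr
      rcases ho.1 with ⟨h5, _⟩ | ⟨h5, _⟩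
      · exact absurd h5 (not_lt.2 (hl c h1).le)
      · exact absurd h5 (not_lt.2 (hl d h3).le)
    · have k1 : h c < h x0 := by rcases htop c h1 h2 with h5 | h5 <;> omega
      have k2 : h d < h x0 := by rcases htop d h3 h4 with h5 | h5 <;> omega
      rw [Cr_swap2] at hcr
      have ho := (cross_iff C k1 k2 hlt).1 hcr
      rcases ho.1 with ⟨_, h5⟩ | ⟨_, h5⟩
      · exact absurd h5 (not_lt.2 (hr d h4).le)
      · exact absurd h5 (not_lt.2 (hr c h2).le)

lemma top_vl (C : Cfg X Y h) (hE : TriC X Y E) {x0 xn : V} (hne : x0 ≠ xn)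
    (hl : ∀ a, a ≠ x0 → X x0 < X a) (hr : ∀ a, a ≠ xn → X a < X xn)
    (htop : ∀ a, a ≠ x0 → a ≠ xn → h a < h x0 ∨ h a < h xn) (t : ℕ) (ht : ∀ a, h a < t) :
    IsVL X h E t [x0, xn] := by
  have hx := hl xn hne.symm
  constructor
  · simp [hx]
  · intro a
    simp only [List.mem_cons, List.not_mem_nil, or_false]
    constructor
    · rintro (rfl | rfl)
      · refine ⟨ht _, ?_⟩
        rintro p q _ _ _ ⟨⟨h5, _⟩ | ⟨h5, _⟩, _⟩
        · by_cases hp : p = a
          · rw [hp] at h5; exact lt_irrefl _ h5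
          · exact absurd h5 (not_lt.2 (hl p hp).le)
        · by_cases hp : q = a
          · rw [hp] at h5; exact lt_irrefl _ h5
          · exact absurd h5 (not_lt.2 (hl q hp).le)
      · refine ⟨ht _, ?_⟩
        rintro p q _ _ _ ⟨⟨_, h5⟩ | ⟨_, h5⟩, _⟩
        · by_cases hp : q = a
          · rw [hp] at h5; exact lt_irrefl _ h5
          · exact absurd h5 (not_lt.2 (hr q hp).le)
        · by_cases hp : p = a
          · rw [hp] at h5; exact lt_irrefl _ h5
          · exact absurd h5 (not_lt.2 (hr p hp).le)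
    · rintro ⟨_, hv⟩
      by_contra hcon
      push Not at hcon
      exact hv x0 xn (outer_edge C hE hne hl hr htop) (ht _) (ht _)
        ⟨Or.inl ⟨hl a hcon.1, hr a hcon.2⟩, htop a hcon.1 hcon.2⟩

theorem flat_unique [Fintype V] (C : Cfg X Y h) (hG : TriC X Y G) (g : ∀ w, GoodAt X h G w)
    {x0 xn : V} (hne : x0 ≠ xn) (hl : ∀ a, a ≠ x0 → X x0 < X a) (hr : ∀ a, a ≠ xn → X a < X xn)
    (htop : ∀ a, a ≠ x0 → a ≠ xn → h a < h x0 ∨ h a < h xn) (hE : TriC X Y E) (hEG : E ≠ G) :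
    W0 X G < W0 X E := by
  obtain ⟨t, ht⟩ : ∃ t, ∀ a, h a < t := by
    obtain ⟨M, hM⟩ := (Set.finite_range h).bddAbove
    exact ⟨M + 1, fun a => Nat.lt_succ_of_le (hM ⟨a, rfl⟩)⟩
  have v1 := top_vl C hE hne hl hr htop t ht
  have v2 := top_vl C hG hne hl hr htop t ht
  obtain ⟨L, L', h1, h2, h3⟩ := main_ineq C hE hG g t
  rw [h1.unique C.injX v1, h2.unique C.injX v2] at h3
  rw [← Wt_top (h := h) G t ht, ← Wt_top (h := h) E t ht]
  have hlog : 0 < Real.log 2 := Real.log_pos (by norm_num)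
  by_contra hcon
  apply hEG
  have h4 := main_eq C hE hG g t _ v1 v2 (by nlinarith [not_lt.1 hcon])
  ext a b
  exact h4 a b (ht a) (ht b)

/-! ### passing from flat to honest lengths -/

lemma ori_scale (ε : ℝ) (a b c : V) : ori X (fun v => ε * Y v) a b c = ε * ori X Y a b c := by
  unfold ori; ring

lemma Cr_scale {ε : ℝ} (hε : 0 < ε) (a b c d : V) :
    Cr X (fun v => ε * Y v) a b c d ↔ Cr X Y a b c d := by
  unfold Cr
  simp only [ori_scale]
  have e : ∀ x y : ℝ, ε * x * (ε * y) < 0 ↔ x * y < 0 := by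
    intro x y
    have : ε * x * (ε * y) = (ε * ε) * (x * y) := by ring
    rw [this]
    constructor
    · intro h1
      by_contra h2
      have := mul_nonneg (mul_pos hε hε).le (not_lt.1 h2)
      linarith
    · intro h1; exact mul_neg_of_pos_of_neg (mul_pos hε hε) h1
  rw [e, e]

lemma TriC_scale {ε : ℝ} (hε : 0 < ε) (E : SimpleGraph V) :
    TriC X (fun v => ε * Y v) E ↔ TriC X Y E := by
  unfold TriC
  simp only [Cr_scale hε]

lemma Cfg.ori_ne (C : Cfg X Y h) {a b c : V} (hab : a ≠ b) (hac : a ≠ c) (hbc : b ≠ c) :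
    ori X Y a b c ≠ 0 := by
  -- the highest vertex comes last after rotation
  have key : ∀ a b c : V, a ≠ b → h a < h c → h b < h c → ori X Y a b c ≠ 0 := by
    intro a b c hab h1 h2
    have hx : X a ≠ X b := fun e => hab (C.injX e)
    rw [← ori_rot X Y a b c]
    rcases lt_or_gt_of_ne hx with hx | hx
    · exact (C.left a b c h1 h2 hx).ne'
    · exact (C.right a b c h1 h2 hx).ne
  have nab : h a ≠ h b := fun e => hab (C.injh e)
  have nac : h a ≠ h c := fun e => hac (C.injh e)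
  have nbc : h b ≠ h c := fun e => hbc (C.injh e)
  by_cases h1 : h a < h c ∧ h b < h c
  · exact key a b c hab h1.1 h1.2
  by_cases h2 : h b < h a ∧ h c < h a
  · rw [← ori_rot X Y a b c]; exact key b c a hbc h2.1 h2.2
  · rw [← ori_rot X Y a b c, ← ori_rot X Y b c a]
    apply key c a b hac.symm
    · omega
    · omega

lemma Cfg.gp (C : Cfg X Y h) {ε : ℝ} (hε : 0 < ε) : GP X (fun v => ε * Y v) := by
  refine ⟨fun a b hab => Or.inl (fun e => hab (C.injX e)), ?_⟩
  intro a b c hab hac hbc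
  rw [ori_scale]
  exact mul_ne_zero hε.ne' (C.ori_ne hab hac hbc)

lemma len_lower (a b : V) : |X a - X b| ≤ len X Y a b := by
  unfold len
  rw [← Real.sqrt_sq_eq_abs]
  exact Real.sqrt_le_sqrt (by nlinarith [sq_nonneg (Y a - Y b)])

lemma len_upper {ε : ℝ} (hε : 0 < ε) (a b : V) :
    len X (fun v => ε * Y v) a b ≤ |X a - X b| + ε * |Y a - Y b| := by
  unfold len
  have h1 : (X a - X b) ^ 2 + (ε * Y a - ε * Y b) ^ 2 ≤ (|X a - X b| + ε * |Y a - Y b|) ^ 2 := by
    have e1 : (X a - X b) ^ 2 = |X a - X b| ^ 2 := (sq_abs _).symm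
    have e2 : (ε * Y a - ε * Y b) ^ 2 = (ε * |Y a - Y b|) ^ 2 := by
      rw [mul_pow, sq_abs]; ring
    rw [e1, e2]
    have : 0 ≤ |X a - X b| * (ε * |Y a - Y b|) := by positivity
    nlinarith
  exact (Real.sqrt_le_sqrt h1).trans_eq (Real.sqrt_sq (by positivity))

lemma wt_lower [Fintype V] (E : SimpleGraph V) : W0 X E ≤ wt X Y E := by
  unfold W0 wt
  apply Finset.sum_le_sum; intro a _
  apply Finset.sum_le_sum; intro b _
  split_ifs
  · exact len_lower a b
  · exact le_refl _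

lemma wt_upper [Fintype V] {ε : ℝ} (hε : 0 < ε) (E : SimpleGraph V) :
    wt X (fun v => ε * Y v) E ≤ W0 X E + ε * ∑ a, ∑ b, |Y a - Y b| := by
  unfold W0 wt
  rw [Finset.mul_sum, ← Finset.sum_add_distrib]
  apply Finset.sum_le_sum; intro a _
  rw [Finset.mul_sum, ← Finset.sum_add_distrib]
  apply Finset.sum_le_sum; intro b _
  split_ifs
  · exact len_upper hε a b
  · positivity

/-- a strict flat minimum gives a strict minimum for honest lengths -/
theorem honest [Fintype V] (C : Cfg X Y h) (hG : TriC X Y G)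
    (hmin : ∀ E, TriC X Y E → E ≠ G → W0 X G < W0 X E) :
    ∃ Y' : V → ℝ, GP X Y' ∧ TriC X Y' G ∧ ∀ E, TriC X Y' E → E ≠ G → wt X Y' G < wt X Y' E := by
  obtain ⟨δ, hδ, hδ'⟩ : ∃ δ : ℝ, 0 < δ ∧ ∀ E, TriC X Y E → E ≠ G → W0 X G + δ ≤ W0 X E := by
    by_cases hne : {E : SimpleGraph V | TriC X Y E ∧ E ≠ G}.Nonempty
    · obtain ⟨E0, hE0, hE0'⟩ := Set.exists_min_image {E : SimpleGraph V | TriC X Y E ∧ E ≠ G}
        (fun E => W0 X E) (Set.toFinite _) hne
      refine ⟨W0 X E0 - W0 X G, by linarith [hmin E0 hE0.1 hE0.2], ?_⟩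
      intro E h1 h2
      have := hE0' E ⟨h1, h2⟩
      linarith
    · refine ⟨1, one_pos, ?_⟩
      intro E h1 h2
      exact absurd ⟨E, h1, h2⟩ hne
  set M := ∑ a : V, ∑ b : V, |Y a - Y b| with hM
  have hM0 : 0 ≤ M := by
    apply Finset.sum_nonneg; intro a _
    apply Finset.sum_nonneg; intro b _
    exact abs_nonneg _
  set ε := δ / (M + 1) with hε
  have hεp : 0 < ε := by positivity
  have hεM : ε * M < δ := by
    rw [hε, div_mul_eq_mul_div, div_lt_iff₀ (by linarith)]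
    nlinarith
  refine ⟨fun v => ε * Y v, C.gp hεp, (TriC_scale hεp G).2 hG, ?_⟩
  intro E hE hne
  have h1 := hδ' E ((TriC_scale hεp E).1 hE) hne
  have h2 := wt_upper (X := X) (Y := Y) hεp G
  have h3 := wt_lower (X := X) (Y := fun v => ε * Y v) E
  linarith

end

end Pool.Agent.MP7a5e6c
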