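import Pool.Agent.MP7a5e6c.Tree
import Pool.Agent.MP7a5e6c.Flat

set_option autoImplicit false
open scoped Classical

namespace Pool.Agent.MP7a5e6c

/-- The triangulation `G(T, h)`: two vertices are joined if they are joined in the triangulated
polygon `T`, or if every vertex strictly between them is higher than both. -/
def htGraph (T : BT) (h : Fin (T.size + 1) → ℕ) : SimpleGraph (Fin (T.size + 1)) where
  Adj i k := T.Edge 0 i k ∨ T.Edge 0 k i ∨
    (i ≠ k ∧ ∀ m : Fin (T.size + 1), min i k < m → m < max i k → h i < h m ∧ h k < h m)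
  symm := ⟨by
    rintro i k (h1 | h1 | ⟨h1, h2⟩)
    · exact Or.inr (Or.inl h1)
    · exact Or.inl h1
    · refine Or.inr (Or.inr ⟨h1.symm, ?_⟩)
      intro m h3 h4
      rw [min_comm] at h3
      rw [max_comm] at h4
      exact (h2 m h3 h4).symm⟩
  loopless := ⟨by
    rintro i (h1 | h1 | ⟨h1, _⟩)
    · have := BT.edge_range _ _ _ _ h1; omega
    · have := BT.edge_range _ _ _ _ h1; omega
    · exact h1 rfl⟩

/-- the condition on the heights: in every triangle of `T` the middle vertex is not the highest -/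
def Good (T : BT) (h : Fin (T.size + 1) → ℕ) : Prop :=
  Function.Injective h ∧
    ∀ i m k : Fin (T.size + 1), T.Tri 0 i m k → h m < max (h i) (h k)

section
variable {T : BT} {h : Fin (T.size + 1) → ℕ}

lemma ht_adj_lt {i k : Fin (T.size + 1)} (hik : i < k) :
    (htGraph T h).Adj i k ↔ T.Edge 0 i k ∨ ∀ m, i < m → m < k → h i < h m ∧ h k < h m := by
  constructor
  · rintro (h1 | h1 | ⟨_, h2⟩)
    · exact Or.inl h1
    · have := BT.edge_range _ _ _ _ h1
      have : (i : ℕ) < k := hik
      omega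
    · right
      intro m h3 h4
      rw [min_eq_left hik.le, max_eq_right hik.le] at h2
      exact h2 m h3 h4
  · rintro (h1 | h1)
    · exact Or.inl h1
    · refine Or.inr (Or.inr ⟨hik.ne, ?_⟩)
      rw [min_eq_left hik.le, max_eq_right hik.le]
      exact h1

lemma split_fin {i k : Fin (T.size + 1)} (he : T.Edge 0 i k) :
    (k : ℕ) = i + 1 ∨ ∃ m : Fin (T.size + 1), T.Tri 0 i m k ∧ i < m ∧ m < k := by
  rcases BT.edge_split T 0 i k he with h1 | ⟨m, h1⟩
  · exact Or.inl h1
  · right
    have h2 := BT.tri_edges T 0 i m k h1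
    have r1 := BT.edge_range T 0 i m h2.2.1
    have r2 := BT.edge_range T 0 m k h2.2.2
    exact ⟨⟨m, by omega⟩, h1, r1.2.1, r2.2.1⟩

lemma edge_over (hg : Good T h) : ∀ (n : ℕ) (i k : Fin (T.size + 1)), (k : ℕ) - i ≤ n →
    T.Edge 0 i k → ∀ c : Fin (T.size + 1), i < c → c < k → h c < max (h i) (h k) := by
  intro n
  induction n with
  | zero =>
    intro i k hn he c h1 h2
    have h1' : (i : ℕ) < c := h1
    have h2' : (c : ℕ) < k := h2
    omega
  | succ n ih =>
    intro i k hn he c h1 h2
    have h1' : (i : ℕ) < c := h1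
    have h2' : (c : ℕ) < k := h2
    rcases split_fin he with h3 | ⟨m, h3, h4, h5⟩
    · omega
    · have h4' : (i : ℕ) < m := h4
      have h5' : (m : ℕ) < k := h5
      have hm := hg.2 i m k h3
      have ht := BT.tri_edges T 0 i m k h3
      rcases lt_trichotomy c m with h6 | h6 | h6
      · have := ih i m (by omega) ht.2.1 c h1 h6
        have e1 : h i ≤ max (h i) (h k) := le_max_left _ _
        have : max (h i) (h m) ≤ max (h i) (h k) := max_le e1 hm.le
        omega
      · rw [h6]; exact hm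
      · have := ih m k (by omega) ht.2.2 c h6 h2
        have e1 : h k ≤ max (h i) (h k) := le_max_right _ _
        have : max (h m) (h k) ≤ max (h i) (h k) := max_le hm.le e1
        omega

/-- abscissas -/
noncomputable def XT (T : BT) (i : Fin (T.size + 1)) : ℝ := T.pos 0 0 1 i

lemma XT_lt {i k : Fin (T.size + 1)} (hik : i < k) : XT T i < XT T k :=
  BT.pos_lt T 0 0 1 one_pos i k (Nat.zero_le _) hik (by have := k.2; omega)

lemma XT_lt_iff {i k : Fin (T.size + 1)} : XT T i < XT T k ↔ i < k := by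
  constructor
  · intro h1
    rcases lt_trichotomy i k with h2 | h2 | h2
    · exact h2
    · rw [h2] at h1; exact absurd h1 (lt_irrefl _)
    · exact absurd (XT_lt h2) (not_lt.2 h1.le)
  · exact XT_lt

lemma XT_inj : Function.Injective (XT T) := by
  intro i k hik
  rcases lt_trichotomy i k with h2 | h2 | h2
  · exact absurd (XT_lt h2) (by rw [hik]; exact lt_irrefl _)
  · exact h2
  · exact absurd (XT_lt h2) (by rw [hik]; exact lt_irrefl _)

lemma ht_nc_core (hg : Good T h) {a b c d : Fin (T.size + 1)} (h1 : a < c) (h2 : c < b)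
    (h3 : h c < h a ∨ h c < h b) (hab : (htGraph T h).Adj a b) (hcd : (htGraph T h).Adj c d)
    (ha : h a < h d) (hb : h b < h d) (hc : h c < h d) : False := by
  rw [ht_adj_lt (h1.trans h2)] at hab
  have hE : T.Edge 0 a b := by
    rcases hab with hab | hab
    · exact hab
    · have := hab c h1 h2; omega
  have h1' : (a : ℕ) < c := h1
  have h2' : (c : ℕ) < b := h2
  rcases lt_trichotomy d a with h4 | h4 | h4
  · have h4' : (d : ℕ) < a := h4
    have hcd' := hcd.symm
    rw [ht_adj_lt (h4.trans h1)] at hcd'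
    rcases hcd' with hcd' | hcd'
    · exact BT.laminar T 0 _ _ _ _ hcd' hE ⟨h4', h1', h2'⟩
    · have := hcd' a h4 h1; omega
  · rw [h4] at ha; omega
  · rcases lt_trichotomy d b with h5 | h5 | h5
    · have := edge_over hg _ a b (le_refl _) hE d h4 h5
      rcases le_max_iff.1 (Nat.succ_le_of_lt this) with h6 | h6 <;> omega
    · rw [h5] at hb; omega
    · have h5' : (b : ℕ) < d := h5
      rw [ht_adj_lt (h2.trans h5)] at hcd
      rcases hcd with hcd | hcd
      · exact BT.laminar T 0 _ _ _ _ hE hcd ⟨h1', h2', h5'⟩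
      · have := hcd b h2 h5; omega

variable {Y : Fin (T.size + 1) → ℝ}

lemma ht_nc1 (C : Cfg (XT T) Y h) (hg : Good T h) {a b c d : Fin (T.size + 1)}
    (hab : (htGraph T h).Adj a b) (hcd : (htGraph T h).Adj c d)
    (ha : h a < h d) (hb : h b < h d) (hc : h c < h d) : ¬ Cr (XT T) Y a b c d := by
  intro hcr
  have ho := (cross_iff C ha hb hc).1 hcr
  rcases ho with ⟨ho1 | ho1, ho2⟩
  · exact ht_nc_core hg (XT_lt_iff.1 ho1.1) (XT_lt_iff.1 ho1.2) ho2 hab hcd ha hb hc
  · exact ht_nc_core hg (XT_lt_iff.1 ho1.1) (XT_lt_iff.1 ho1.2) ho2.symm hab.symm hcd hb ha hc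

lemma ht_nc (C : Cfg (XT T) Y h) (hg : Good T h) (a b c d : Fin (T.size + 1))
    (hab : (htGraph T h).Adj a b) (hcd : (htGraph T h).Adj c d) : ¬ Cr (XT T) Y a b c d := by
  intro hcr
  by_cases h0 : a = c ∨ a = d ∨ b = c ∨ b = d
  · exact not_Cr_share _ _ _ _ _ _ h0 hcr
  push Not at h0
  obtain ⟨h1, h2, h3, h4⟩ := h0
  have n1 : h a ≠ h c := fun e => h1 (C.injh e)
  have n2 : h a ≠ h d := fun e => h2 (C.injh e)
  have n3 : h b ≠ h c := fun e => h3 (C.injh e)
  have n4 : h b ≠ h d := fun e => h4 (C.injh e)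
  have n5 : h a ≠ h b := fun e => hab.ne (C.injh e)
  have n6 : h c ≠ h d := fun e => hcd.ne (C.injh e)
  by_cases t1 : h a < h d ∧ h b < h d ∧ h c < h d
  · exact ht_nc1 C hg hab hcd t1.1 t1.2.1 t1.2.2 hcr
  by_cases t2 : h a < h c ∧ h b < h c ∧ h d < h c
  · exact ht_nc1 C hg hab hcd.symm t2.1 t2.2.1 t2.2.2 ((Cr_swap2 _ _ _ _ _ _).1 hcr)
  by_cases t3 : h c < h b ∧ h d < h b ∧ h a < h b
  · exact ht_nc1 C hg hcd hab t3.1 t3.2.1 t3.2.2 ((Cr_symm _ _ _ _ _ _).1 hcr)
  · refine ht_nc1 C hg hcd hab.symm ?_ ?_ ?_ ((Cr_symm _ _ _ _ _ _).1 ((Cr_swap1 _ _ _ _ _ _).1 hcr))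
    · omega
    · omega
    · omega

/-- crossing edges of the first kind: an edge below `b` passing over `a` -/
lemma cross_one (C : Cfg (XT T) Y h) {a b s t : Fin (T.size + 1)}
    (hab : h a < h b) (hs : h s < h b) (ht : h t < h b)
    (hbt : (s < a ∧ a < t) ∨ (t < a ∧ a < s)) (hm : h a < h s ∨ h a < h t) :
    Cr (XT T) Y a b s t := by
  rw [Cr_symm, cross_iff C hs ht hab]
  refine ⟨?_, hm⟩
  simp only [XT_lt_iff]
  exact hbt

/-- crossing edges of the second kind: from below the segment to a vertex higher than `b` -/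
lemma cross_two (C : Cfg (XT T) Y h) {a b s t : Fin (T.size + 1)}
    (hab : h a < h b) (hs : h s < h b) (ht : h b < h t)
    (hbt : (a < s ∧ s < b) ∨ (b < s ∧ s < a)) :
    Cr (XT T) Y a b s t := by
  rw [cross_iff C (hab.trans ht) ht (hs.trans ht)]
  refine ⟨?_, Or.inr hs⟩
  simp only [XT_lt_iff]
  exact hbt

lemma max_core (C : Cfg (XT T) Y h) {a b P m Q : Fin (T.size + 1)}
    (hab : h a < h b) (hm : (a < m ∧ m < b) ∨ (b < m ∧ m < a)) (hmb : h m < h b)
    (hPm : (htGraph T h).Adj P m) (hmQ : (htGraph T h).Adj m Q)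
    (hQ : Q ≠ b → h b < max (h P) (h Q))
    (hP : P ≠ a → ((P < a ∧ a < m) ∨ (m < a ∧ a < P)) ∧ h a < max (h P) (h m))
    (hPQ : P ≠ Q) (hne : ¬ (P = a ∧ Q = b)) :
    ∃ s t, (htGraph T h).Adj s t ∧ Cr (XT T) Y a b s t := by
  by_cases h1 : h b < h Q
  · exact ⟨m, Q, hmQ, cross_two C hab hmb h1 hm⟩
  by_cases h2 : h b < h P
  · exact ⟨m, P, hPm.symm, cross_two C hab hmb h2 hm⟩
  have hQb : Q = b := by
    by_contra hcon
    have := hQ hcon
    rcases lt_max_iff.1 this with h3 | h3
    · exact h2 h3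
    · exact h1 h3
  have hPa : P ≠ a := fun e => hne ⟨e, hQb⟩
  obtain ⟨h3, h4⟩ := hP hPa
  have hPb : h P < h b := by
    rcases lt_trichotomy (h P) (h b) with h5 | h5 | h5
    · exact h5
    · exact absurd ((C.injh h5).trans hQb.symm) hPQ
    · exact absurd h5 h2
  exact ⟨P, m, hPm, cross_one C hab hPb hmb h3 (lt_max_iff.1 h4)⟩

lemma path_adj {i k : Fin (T.size + 1)} (hik : (k : ℕ) = i + 1) : (htGraph T h).Adj i k := by
  left
  rw [hik]
  exact BT.edge_path T 0 i (Nat.zero_le _) (by have := k.2; omega)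

lemma ht_max1 (C : Cfg (XT T) Y h) (hg : Good T h) {a b : Fin (T.size + 1)} (hne : a ≠ b)
    (hab : h a < h b) (hnc : ∀ c d, (htGraph T h).Adj c d → ¬ Cr (XT T) Y a b c d) :
    (htGraph T h).Adj a b := by
  by_contra hna
  -- some vertex between is lower than `b`
  obtain ⟨c, hc, hcb⟩ : ∃ c : Fin (T.size + 1), ((a < c ∧ c < b) ∨ (b < c ∧ c < a)) ∧ h c < h b := by
    by_contra hcon
    push Not at hcon
    apply hna
    right; right
    refine ⟨hne, ?_⟩
    intro m h1 h2
    have hm : (a < m ∧ m < b) ∨ (b < m ∧ m < a) := by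
      rcases lt_or_gt_of_ne hne with h3 | h3
      · rw [min_eq_left h3.le] at h1
        rw [max_eq_right h3.le] at h2
        exact Or.inl ⟨h1, h2⟩
      · rw [min_eq_right h3.le] at h1
        rw [max_eq_left h3.le] at h2
        exact Or.inr ⟨h1, h2⟩
    have h4 := hcon m hm
    have h5 : h b ≠ h m := by
      intro e
      have := C.injh e
      subst this
      rcases hm with h6 | h6
      · exact lt_irrefl _ h6.2
      · exact lt_irrefl _ h6.1
    omega
  -- all vertices between are lower than `b`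
  have hall : ∀ e : Fin (T.size + 1), ((a < e ∧ e < b) ∨ (b < e ∧ e < a)) → h e < h b := by
    intro e he
    by_contra hcon
    have hbe : h b < h e := by
      refine lt_of_le_of_ne (not_lt.1 hcon) (fun e' => ?_)
      have := C.injh e'
      subst this
      rcases he with h6 | h6
      · exact lt_irrefl _ h6.2
      · exact lt_irrefl _ h6.1
    have hbetw : ∀ j : Fin (T.size + 1), ((c ≤ j ∧ j ≤ e) ∨ (e ≤ j ∧ j ≤ c)) →
        (a < j ∧ j < b) ∨ (b < j ∧ j < a) := by
      intro j hj
      rcases hc with hc | hc <;> rcases he with he | he <;> rcases hj with hj | hj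
      · exact Or.inl ⟨hc.1.trans_le hj.1, hj.2.trans_lt he.2⟩
      · exact Or.inl ⟨he.1.trans_le hj.1, hj.2.trans_lt hc.2⟩
      · exact absurd (hc.1.trans hc.2) (not_lt.2 (he.1.trans he.2).le)
      · exact absurd (hc.1.trans hc.2) (not_lt.2 (he.1.trans he.2).le)
      · exact absurd (hc.1.trans hc.2) (not_lt.2 (he.1.trans he.2).le)
      · exact absurd (hc.1.trans hc.2) (not_lt.2 (he.1.trans he.2).le)
      · exact Or.inr ⟨hc.1.trans_le hj.1, hj.2.trans_lt he.2⟩
      · exact Or.inr ⟨he.1.trans_le hj.1, hj.2.trans_lt hc.2⟩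
    have hneb : ∀ j : Fin (T.size + 1), ((c ≤ j ∧ j ≤ e) ∨ (e ≤ j ∧ j ≤ c)) → h j ≠ h b := by
      intro j hj e'
      have := C.injh e'
      subst this
      rcases hbetw j hj with h6 | h6
      · exact lt_irrefl _ h6.2
      · exact lt_irrefl _ h6.1
    rcases le_total c e with hce | hce
    · have hind : ∀ n : ℕ, ∀ hn : (c : ℕ) + n ≤ e, h ⟨c + n, by have := e.2; omega⟩ < h b := by
        intro n
        induction n with
        | zero => intro _; exact hcb
        | succ n ih =>
          intro hn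
          have h7 := ih (by omega)
          have hj1 : c ≤ (⟨c + n, by have := e.2; omega⟩ : Fin (T.size + 1)) := by
            change (c : ℕ) ≤ c + n; omega
          have hj2 : (⟨c + n, by have := e.2; omega⟩ : Fin (T.size + 1)) ≤ e := by
            change (c : ℕ) + n ≤ e; omega
          have hk1 : c ≤ (⟨c + (n + 1), by have := e.2; omega⟩ : Fin (T.size + 1)) := by
            change (c : ℕ) ≤ c + (n + 1); omega
          have hk2 : (⟨c + (n + 1), by have := e.2; omega⟩ : Fin (T.size + 1)) ≤ e := by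
            change (c : ℕ) + (n + 1) ≤ e; omega
          by_contra h8
          have h9 : h b < h ⟨c + (n + 1), by have := e.2; omega⟩ :=
            lt_of_le_of_ne (not_lt.1 h8) (hneb _ (Or.inl ⟨hk1, hk2⟩)).symm
          exact hnc _ _ (path_adj (by change (c : ℕ) + (n + 1) = c + n + 1; omega))
            (cross_two C hab h7 h9 (hbetw _ (Or.inl ⟨hj1, hj2⟩)))
      have hce' : (c : ℕ) ≤ e := hce
      have h10 := hind ((e : ℕ) - c) (by omega)
      have h11 : (⟨(c : ℕ) + ((e : ℕ) - c), by have := e.2; omega⟩ : Fin (T.size + 1)) = e := by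
        apply Fin.ext; change (c : ℕ) + ((e : ℕ) - c) = e; omega
      rw [h11] at h10
      omega
    · have hind : ∀ n : ℕ, ∀ hn : (e : ℕ) + n ≤ c, h b < h ⟨e + n, by have := c.2; omega⟩ := by
        intro n
        induction n with
        | zero => intro _; exact hbe
        | succ n ih =>
          intro hn
          have h7 := ih (by omega)
          have hk1 : e ≤ (⟨e + (n + 1), by have := c.2; omega⟩ : Fin (T.size + 1)) := by
            change (e : ℕ) ≤ e + (n + 1); omega
          have hk2 : (⟨e + (n + 1), by have := c.2; omega⟩ : Fin (T.size + 1)) ≤ c := by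
            change (e : ℕ) + (n + 1) ≤ c; omega
          by_contra h8
          have h9 : h ⟨e + (n + 1), by have := c.2; omega⟩ < h b :=
            lt_of_le_of_ne (not_lt.1 h8) (hneb _ (Or.inr ⟨hk1, hk2⟩))
          exact hnc _ _ (path_adj (h := h) (i := ⟨e + n, by have := c.2; omega⟩)
            (k := ⟨e + (n + 1), by have := c.2; omega⟩)
            (by change (e : ℕ) + (n + 1) = e + n + 1; omega)).symm
            (cross_two C hab h9 h7 (hbetw _ (Or.inr ⟨hk1, hk2⟩)))
      have hce' : (e : ℕ) ≤ c := hce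
      have h10 := hind ((c : ℕ) - e) (by omega)
      have h11 : (⟨(e : ℕ) + ((c : ℕ) - e), by have := c.2; omega⟩ : Fin (T.size + 1)) = c := by
        apply Fin.ext; change (e : ℕ) + ((c : ℕ) - e) = c; omega
      rw [h11] at h10
      omega
  -- the smallest polygon containing both
  have edge_gt : ∀ {i k : Fin (T.size + 1)}, T.Edge 0 i k → (htGraph T h).Adj i k :=
    fun he => Or.inl he
  rcases lt_or_gt_of_ne hne with hlt | hlt
  · have hlt' : (a : ℕ) < b := hlt
    rcases BT.smallest T 0 a b (Nat.zero_le _) hlt' (by have := b.2; omega) with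
      h1 | ⟨p, m, q, h1, h2, h3, h4, h5⟩
    · exact hna (Or.inl h1)
    · have ht := BT.tri_edges T 0 p m q h1
      have r1 := BT.edge_range T 0 p q ht.1
      set p' : Fin (T.size + 1) := ⟨p, by omega⟩ with hp'
      set m' : Fin (T.size + 1) := ⟨m, by omega⟩ with hm'
      set q' : Fin (T.size + 1) := ⟨q, by omega⟩ with hq'
      have am : a < m' := h3
      have mb : m' < b := h4
      have e1 : T.Edge 0 p' q' := ht.1
      have e2 : T.Edge 0 p' m' := ht.2.1
      have e3 : T.Edge 0 m' q' := ht.2.2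
      have pa : p' ≤ a := h2
      have bq : b ≤ q' := h5
      obtain ⟨s, t, hst, hcr⟩ := max_core C (P := p') (m := m') (Q := q') hab (Or.inl ⟨am, mb⟩)
        (hall m' (Or.inl ⟨am, mb⟩)) (Or.inl e2) (Or.inl e3)
        (fun hq => edge_over hg _ _ _ (le_refl _) e1 b ((pa.trans_lt am).trans mb)
          (lt_of_le_of_ne bq (fun e => hq e.symm)))
        (fun hp => ⟨Or.inl ⟨lt_of_le_of_ne pa hp, am⟩,
          edge_over hg _ _ _ (le_refl _) e2 a (lt_of_le_of_ne pa hp) am⟩)
        (((pa.trans_lt am).trans mb).trans_le bq).ne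
        (by
          rintro ⟨e4, e5⟩
          apply hna; left
          rw [← e4, ← e5]; exact e1)
      exact hnc s t hst hcr
  · have hlt' : (b : ℕ) < a := hlt
    rcases BT.smallest T 0 b a (Nat.zero_le _) hlt' (by have := a.2; omega) with
      h1 | ⟨p, m, q, h1, h2, h3, h4, h5⟩
    · exact hna (Or.inr (Or.inl h1))
    · have ht := BT.tri_edges T 0 p m q h1
      have r1 := BT.edge_range T 0 p q ht.1
      set p' : Fin (T.size + 1) := ⟨p, by omega⟩ with hp'
      set m' : Fin (T.size + 1) := ⟨m, by omega⟩ with hm'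
      set q' : Fin (T.size + 1) := ⟨q, by omega⟩ with hq'
      have bm : b < m' := h3
      have ma : m' < a := h4
      have e1 : T.Edge 0 p' q' := ht.1
      have e2 : T.Edge 0 p' m' := ht.2.1
      have e3 : T.Edge 0 m' q' := ht.2.2
      have pb : p' ≤ b := h2
      have aq : a ≤ q' := h5
      obtain ⟨s, t, hst, hcr⟩ := max_core C (P := q') (m := m') (Q := p') hab (Or.inr ⟨bm, ma⟩)
        (hall m' (Or.inr ⟨bm, ma⟩)) (Or.inr (Or.inl e3)) (Or.inr (Or.inl e2))
        (fun hq => by
          rw [max_comm]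
          exact edge_over hg _ _ _ (le_refl _) e1 b (lt_of_le_of_ne pb hq)
            ((bm.trans ma).trans_le aq))
        (fun hp => ⟨Or.inr ⟨ma, lt_of_le_of_ne aq (fun e => hp e.symm)⟩, by
          rw [max_comm]
          exact edge_over hg _ _ _ (le_refl _) e3 a ma (lt_of_le_of_ne aq (fun e => hp e.symm))⟩)
        (((pb.trans_lt bm).trans ma).trans_le aq).ne'
        (by
          rintro ⟨e4, e5⟩
          apply hna; right; left
          rw [← e4, ← e5]; exact e1)
      exact hnc s t hst hcr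

theorem ht_triC (C : Cfg (XT T) Y h) (hg : Good T h) : TriC (XT T) Y (htGraph T h) := by
  refine ⟨fun a b c d h1 h2 => ht_nc C hg a b c d h1 h2, ?_⟩
  intro a b hne hnc
  rcases lt_or_gt_of_ne (fun e => hne (C.injh e) : h a ≠ h b) with h1 | h1
  · exact ht_max1 C hg hne h1 hnc
  · exact (ht_max1 C hg hne.symm h1
      (fun c d hcd hcr => hnc c d hcd ((Cr_swap1 _ _ _ _ _ _).1 hcr))).symm

theorem ht_good (hg : Good T h) (w : Fin (T.size + 1)) :
    GoodAt (XT T) h (htGraph T h) w := by
  constructor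
  · intro p hp hx hmax
    rw [ht_adj_lt (XT_lt_iff.1 hx)]
    right
    intro m h1 h2
    have h3 : h w < h m := by
      rcases lt_trichotomy (h m) (h w) with h4 | h4 | h4
      · exact absurd (XT_lt h1) (not_lt.2 (hmax m h4 (XT_lt h2)))
      · rw [hg.1 h4] at h2; exact absurd h2 (lt_irrefl _)
      · exact h4
    exact ⟨hp.trans h3, h3⟩
  · intro p hp hx hmax
    rw [(htGraph T h).adj_comm, ht_adj_lt (XT_lt_iff.1 hx)]
    right
    intro m h1 h2
    have h3 : h w < h m := by
      rcases lt_trichotomy (h m) (h w) with h4 | h4 | h4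
      · exact absurd (XT_lt h2) (not_lt.2 (hmax m h4 (XT_lt h1)))
      · rw [hg.1 h4] at h1; exact absurd h1 (lt_irrefl _)
      · exact h4
    exact ⟨h3, hp.trans h3⟩
  · intro a b haw hbw ha hb hab hbw' hgap
    have ab : a < b := XT_lt_iff.1 hab
    have bw : b < w := XT_lt_iff.1 hbw'
    have ab' : (a : ℕ) < b := ab
    have bw'' : (b : ℕ) < w := bw
    rw [ht_adj_lt (ab.trans bw)] at haw
    have hE : T.Edge 0 a w := by
      rcases haw with h1 | h1
      · exact h1
      · have := h1 b ab bw; omega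
    rcases split_fin hE with h1 | ⟨m, h1, h2, h3⟩
    · omega
    · have hm := hg.2 a m w h1
      rw [max_eq_right ha.le] at hm
      have ht := BT.tri_edges T 0 a m w h1
      have hmid := BT.pos_mid T 0 0 1 a m w h1
      rcases lt_trichotomy m b with h4 | h4 | h4
      · exact absurd ⟨XT_lt h2, XT_lt h4⟩ (hgap m (Or.inl ht.2.2) hm)
      · rw [← h4]; exact hmid
      · have h4' : (b : ℕ) < m := h4
        have h3' : (m : ℕ) < w := h3
        rw [ht_adj_lt bw] at hbw
        rcases hbw with h5 | h5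
        · exact absurd ⟨ab', h4', h3'⟩ (BT.laminar T 0 _ _ _ _ ht.2.1 h5)
        · have := h5 m h4 h3; omega
  · intro a b haw hbw ha hb hwa hab hgap
    have wa : w < a := XT_lt_iff.1 hwa
    have ab : a < b := XT_lt_iff.1 hab
    have wa' : (w : ℕ) < a := wa
    have ab' : (a : ℕ) < b := ab
    rw [(htGraph T h).adj_comm, ht_adj_lt (wa.trans ab)] at hbw
    have hE : T.Edge 0 w b := by
      rcases hbw with h1 | h1
      · exact h1
      · have := h1 a wa ab; omega
    rcases split_fin hE with h1 | ⟨m, h1, h2, h3⟩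
    · omega
    · have hm := hg.2 w m b h1
      rw [max_eq_left hb.le] at hm
      have ht := BT.tri_edges T 0 w m b h1
      have hmid := BT.pos_mid T 0 0 1 w m b h1
      rcases lt_trichotomy m a with h4 | h4 | h4
      · have h4' : (m : ℕ) < a := h4
        have h2' : (w : ℕ) < m := h2
        rw [(htGraph T h).adj_comm, ht_adj_lt wa] at haw
        rcases haw with h5 | h5
        · exact absurd ⟨h2', h4', ab'⟩ (BT.laminar T 0 _ _ _ _ h5 ht.2.2)
        · have := h5 m h2 h4; omega
      · rw [← h4]; exact hmid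
      · exact absurd ⟨XT_lt h4, XT_lt h3⟩ (hgap m (Or.inr (Or.inl ht.2.1)) hm)

/-- `G(T, h)` is the unique triangulation of least weight of a suitable point set -/
theorem ht_mw (hg : Good T h) : ∃ X Y : Fin (T.size + 1) → ℝ, GP X Y ∧
    TriC X Y (htGraph T h) ∧
    ∀ E, TriC X Y E → E ≠ htGraph T h → wt X Y (htGraph T h) < wt X Y E := by
  obtain ⟨Y, C⟩ := exists_cfg (XT T) h XT_inj hg.1
  have hs := T.size_pos
  set x0 : Fin (T.size + 1) := ⟨0, by omega⟩ with hx0
  set xn : Fin (T.size + 1) := ⟨T.size, by omega⟩ with hxn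
  have hne : x0 ≠ xn := by
    intro e
    have := congrArg Fin.val e
    simp only [hx0, hxn] at this
    omega
  have hl : ∀ a, a ≠ x0 → x0 < a := by
    intro a ha
    have : (a : ℕ) ≠ 0 := fun e => ha (Fin.ext e)
    change 0 < (a : ℕ)
    omega
  have hr : ∀ a, a ≠ xn → a < xn := by
    intro a ha
    have h1 : (a : ℕ) ≠ T.size := fun e => ha (Fin.ext e)
    have := a.2
    change (a : ℕ) < T.size
    omega
  have htopE : T.Edge 0 x0 xn := by
    have := BT.edge_top T 0
    rw [Nat.zero_add] at this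
    exact this
  obtain ⟨Y', h1, h2, h3⟩ := honest C (ht_triC C hg) (fun E hE hEG =>
    flat_unique C (ht_triC C hg) (ht_good hg) hne (fun a ha => XT_lt (hl a ha))
      (fun a ha => XT_lt (hr a ha))
      (fun a h5 h6 => lt_max_iff.1 (edge_over hg _ _ _ (le_refl _) htopE a (hl a h5) (hr a h6)))
      hE hEG)
  exact ⟨XT T, Y', h1, h2, h3⟩

end

end Pool.Agent.MP7a5e6c
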