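import Pool.Agent.MP7a5e6c.VGeo
import Pool.Agent.MP7a5e6c.HGraph

set_option autoImplicit false
open scoped Classical

namespace Pool.Agent.MP7a5e6c

/-- heights may repeat only at the value zero, and in every triangle of `T` without a vertex of
height zero strictly between its ends the middle vertex is not the highest -/
def GoodV (T : BT) (h : Fin (T.size + 1) → ℕ) : Prop :=
  (∀ a b, h a = h b → a = b ∨ h a = 0) ∧
    ∀ i m k : Fin (T.size + 1), T.Tri 0 i m k → NK h i k → h m < max (h i) (h k)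

section
variable {T : BT} {h : Fin (T.size + 1) → ℕ}

lemma edge_und (hg : GoodV T h) : ∀ (n : ℕ) (i k : Fin (T.size + 1)), (k : ℕ) - i ≤ n →
    T.Edge 0 i k → NK h i k → ∀ c : Fin (T.size + 1), i < c → c < k → h c < max (h i) (h k) := by
  intro n
  induction n with
  | zero =>
    intro i k hn he _ c h1 h2
    have h1' : (i : ℕ) < c := h1
    have h2' : (c : ℕ) < k := h2
    omega
  | succ n ih =>
    intro i k hn he hk c h1 h2
    have h1' : (i : ℕ) < c := h1
    have h2' : (c : ℕ) < k := h2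
    rcases split_fin he with h3 | ⟨m, h3, h4, h5⟩
    · omega
    · have h4' : (i : ℕ) < m := h4
      have h5' : (m : ℕ) < k := h5
      have hm := hg.2 i m k h3 hk
      have ht := BT.tri_edges T 0 i m k h3
      rcases lt_trichotomy c m with h6 | h6 | h6
      · have := ih i m (by omega) ht.2.1 (hk.sub (le_refl _) h5.le) c h1 h6
        have e1 : h i ≤ max (h i) (h k) := le_max_left _ _
        have : max (h i) (h m) ≤ max (h i) (h k) := max_le e1 hm.le
        omega
      · rw [h6]; exact hm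
      · have := ih m k (by omega) ht.2.2 (hk.sub h4.le (le_refl _)) c h6 h2
        have e1 : h k ≤ max (h i) (h k) := le_max_right _ _
        have : max (h m) (h k) ≤ max (h i) (h k) := max_le hm.le e1
        omega

lemma edge_U (hg : GoodV T h) {i k c : Fin (T.size + 1)} (he : T.Edge 0 i k) (h1 : i < c)
    (h2 : c < k) : U h i c k := by
  by_cases hk : NK h i k
  · right
    exact lt_max_iff.1 (edge_und hg _ i k (le_refl _) he hk c h1 h2)
  · exact Or.inl hk

lemma low_notU {i k c : Fin (T.size + 1)} (hd : ∀ m, i < m → m < k → h i < h m ∧ h k < h m)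
    (h1 : i < c) (h2 : c < k) : ¬ U h i c k := by
  rintro (hk | hk | hk)
  · apply hk
    intro z h3 h4
    have := hd z h3 h4
    omega
  · have := hd c h1 h2; omega
  · have := hd c h1 h2; omega

lemma htV_nc (hg : GoodV T h) {a b c d : Fin (T.size + 1)} (hab : a < b) (hcd : c < d)
    (e1 : (htGraph T h).Adj a b) (e2 : (htGraph T h).Adj c d) : ¬ CrU h a b c d := by
  rw [ht_adj_lt hab] at e1
  rw [ht_adj_lt hcd] at e2
  have inter : ∀ {a b c d : Fin (T.size + 1)}, a < c → c < b → b < d →
      (T.Edge 0 a b ∨ ∀ m, a < m → m < b → h a < h m ∧ h b < h m) →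
      (T.Edge 0 c d ∨ ∀ m, c < m → m < d → h c < h m ∧ h d < h m) →
      ¬ (U h a c b ↔ U h c b d) := by
    intro a b c d h1 h2 h3 e1 e2 hu
    rcases e1 with e1 | e1 <;> rcases e2 with e2 | e2
    · exact BT.laminar T 0 _ _ _ _ e1 e2 ⟨h1, h2, h3⟩
    · exact low_notU e2 h2 h3 (hu.1 (edge_U hg e1 h1 h2))
    · exact low_notU e1 h1 h2 (hu.2 (edge_U hg e2 h2 h3))
    · have := e1 c h1 h2
      have := e2 b h2 h3
      omega
  have nest : ∀ {a b c d : Fin (T.size + 1)}, a < c → c < d → d < b →
      (T.Edge 0 a b ∨ ∀ m, a < m → m < b → h a < h m ∧ h b < h m) →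
      (U h a c b ↔ U h a d b) := by
    intro a b c d h1 h2 h3 e1
    rcases e1 with e1 | e1
    · exact iff_of_true (edge_U hg e1 h1 (h2.trans h3)) (edge_U hg e1 (h1.trans h2) h3)
    · exact iff_of_false (low_notU e1 h1 (h2.trans h3)) (low_notU e1 (h1.trans h2) h3)
  rintro (⟨h1, h2, h3, hu⟩ | ⟨h1, h2, h3, hu⟩ | ⟨h1, h2, h3, hu⟩ | ⟨h1, h2, h3, hu⟩)
  · exact inter h1 h2 h3 e1 e2 hu
  · exact inter h1 h2 h3 e2 e1 hu
  · exact hu (nest h1 h2 h3 e1)
  · exact hu (nest h1 h2 h3 e2)

lemma htV_max (hg : GoodV T h) {a b : Fin (T.size + 1)} (hab : a < b)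
    (hno : ∀ c d, c < d → (htGraph T h).Adj c d → ¬ CrU h a b c d) : (htGraph T h).Adj a b := by
  by_contra hna
  rw [ht_adj_lt hab] at hna
  push Not at hna
  obtain ⟨hT, c, hac, hcb, hc⟩ := hna
  have hUc : U h a c b := by
    by_cases hk : NK h a b
    · right
      have hpos := hk c hac hcb
      have n1 : h c ≠ h a := by
        intro e
        rcases hg.1 c a e with h3 | h3
        · exact hac.ne' h3
        · omega
      have n2 : h c ≠ h b := by
        intro e
        rcases hg.1 c b e with h3 | h3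
        · exact hcb.ne h3
        · omega
      by_cases h4 : h a < h c
      · have := hc h4; omega
      · omega
    · exact Or.inl hk
  have step : ∀ j : ℕ, ∀ (hj : j + 1 < T.size + 1), (a : ℕ) < j → j + 1 < (b : ℕ) →
      (U h a ⟨j, by omega⟩ b ↔ U h a ⟨j + 1, hj⟩ b) := by
    intro j hj h1 h2
    by_contra hcon
    exact hno ⟨j, by omega⟩ ⟨j + 1, hj⟩ (by rw [Fin.lt_def]; simp) (path_adj (by simp))
      (Or.inr (Or.inr (Or.inl ⟨by rw [Fin.lt_def]; exact h1, by rw [Fin.lt_def]; simp,
        by rw [Fin.lt_def]; exact h2, hcon⟩)))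
  have same : ∀ (i j : ℕ), i ≤ j → ∀ (hi : i < T.size + 1) (hj : j < T.size + 1),
      (a : ℕ) < i → j < (b : ℕ) → (U h a ⟨i, hi⟩ b ↔ U h a ⟨j, hj⟩ b) := by
    intro i j hij
    induction j, hij using Nat.le_induction with
    | base => intro _ _ _ _; exact Iff.rfl
    | succ j hij ih =>
      intro hi hj h1 h2
      exact (ih hi (by omega) h1 (by omega)).trans (step j hj (by omega) h2)
  have all : ∀ m, a < m → m < b → U h a m b := by
    intro m h1 h2
    rcases le_total c m with h3 | h3
    · exact (same c m h3 c.2 m.2 hac h2).1 hUc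
    · exact (same m c h3 m.2 c.2 h1 hcb).2 hUc
  rcases BT.smallest T 0 a b (Nat.zero_le _) hab (by have := b.2; omega) with
    h1 | ⟨p, m, q, h1, h2, h3, h4, h5⟩
  · exact hT h1
  · have ht := BT.tri_edges T 0 p m q h1
    have r1 := BT.edge_range T 0 p q ht.1
    set p' : Fin (T.size + 1) := ⟨p, by omega⟩ with hp'
    set m' : Fin (T.size + 1) := ⟨m, by omega⟩ with hm'
    set q' : Fin (T.size + 1) := ⟨q, by omega⟩ with hq'
    have am : a < m' := h3
    have mb : m' < b := h4
    have e1 : T.Edge 0 p' q' := ht.1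
    have e2 : T.Edge 0 p' m' := ht.2.1
    have e3 : T.Edge 0 m' q' := ht.2.2
    have pa : p' ≤ a := h2
    have bq : b ≤ q' := h5
    have hUm := all m' am mb
    rcases lt_or_eq_of_le pa with h6 | h6
    · exact hno p' m' (h6.trans am) (Or.inl e2) (Or.inr (Or.inl ⟨h6, am, mb,
        iff_of_true (edge_U hg e2 h6 am) hUm⟩))
    · rcases lt_or_eq_of_le bq with h7 | h7
      · exact hno m' q' (mb.trans h7) (Or.inl e3) (Or.inl ⟨am, mb, h7,
          iff_of_true hUm (edge_U hg e3 mb h7)⟩)
      · apply hT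
        rw [← h6, h7]; exact e1

theorem htV_tri (hg : GoodV T h) : TriU h (htGraph T h) :=
  ⟨fun _ _ _ _ h1 h2 e1 e2 => htV_nc hg h1 h2 e1 e2, fun _ _ h1 hno => htV_max hg h1 hno⟩

end

end Pool.Agent.MP7a5e6c
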