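import Pool.Agent.MP7a5e6c.VPot2
import Pool.Agent.MP7a5e6c.VGraph

set_option autoImplicit false
open scoped Classical
open Real

namespace Pool.Agent.MP7a5e6c

section
variable {T : BT} {h : Fin (T.size + 1) → ℕ}

lemma XT_mono : ∀ a b : Fin (T.size + 1), a < b → XT T a < XT T b := fun _ _ h1 => XT_lt h1

/-- the edges without kinks are balanced -/
theorem htV_good (hg : GoodV T h) (w : Fin (T.size + 1)) (hw : 0 < h w) :
    GoodAt (XT T) h (inP h (htGraph T h)) w := by
  have uq : ∀ a, h a = h w → a = w := by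
    intro a e
    rcases hg.1 a w e with h1 | h1
    · exact h1
    · omega
  constructor
  · intro p hp hx hmax
    have hpw := XT_lt_iff.1 hx
    have hall : ∀ m, p < m → m < w → h w < h m := by
      intro m h1 h2
      rcases lt_trichotomy (h m) (h w) with h4 | h4 | h4
      · exact absurd (XT_lt h1) (not_lt.2 (hmax m h4 (XT_lt h2)))
      · rw [uq m h4] at h2; exact absurd h2 (lt_irrefl _)
      · exact h4
    refine ⟨?_, fun z h1 h2 => by have := hall z h1 h2; omega, NK_rev hpw.le⟩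
    rw [ht_adj_lt hpw]
    right
    intro m h1 h2
    exact ⟨hp.trans (hall m h1 h2), hall m h1 h2⟩
  · intro p hp hx hmax
    have hpw := XT_lt_iff.1 hx
    have hall : ∀ m, w < m → m < p → h w < h m := by
      intro m h1 h2
      rcases lt_trichotomy (h m) (h w) with h4 | h4 | h4
      · exact absurd (XT_lt h2) (not_lt.2 (hmax m h4 (XT_lt h1)))
      · rw [uq m h4] at h1; exact absurd h1 (lt_irrefl _)
      · exact h4
    refine ⟨?_, NK_rev hpw.le, fun z h1 h2 => by have := hall z h1 h2; omega⟩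
    rw [(htGraph T h).adj_comm, ht_adj_lt hpw]
    right
    intro m h1 h2
    exact ⟨hall m h1 h2, hp.trans (hall m h1 h2)⟩
  · rintro a b ⟨haw, ka, _⟩ ⟨hbw, kb, _⟩ ha hb hab hbw' hgap
    have ab : a < b := XT_lt_iff.1 hab
    have bw : b < w := XT_lt_iff.1 hbw'
    have ab' : (a : ℕ) < b := ab
    have bw'' : (b : ℕ) < w := bw
    rw [ht_adj_lt (ab.trans bw)] at haw
    have hE : T.Edge 0 a w := by
      rcases haw with h1 | h1
      · exact h1
      · have := h1 b ab bw; omega
    rcases split_fin hE with h1 | ⟨m, h1, h2, h3⟩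
    · omega
    · have hm := hg.2 a m w h1 ka
      rw [max_eq_right ha.le] at hm
      have ht := BT.tri_edges T 0 a m w h1
      have hmid := BT.pos_mid T 0 0 1 a m w h1
      rcases lt_trichotomy m b with h4 | h4 | h4
      · exact absurd ⟨XT_lt h2, XT_lt h4⟩
          (hgap m ⟨Or.inl ht.2.2, ka.sub h2.le (le_refl _), NK_rev h3.le⟩ hm)
      · rw [← h4]; exact hmid
      · have h4' : (b : ℕ) < m := h4
        have h3' : (m : ℕ) < w := h3
        rw [ht_adj_lt bw] at hbw
        rcases hbw with h5 | h5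
        · exact absurd ⟨ab', h4', h3'⟩ (BT.laminar T 0 _ _ _ _ ht.2.1 h5)
        · have := h5 m h4 h3; omega
  · rintro a b ⟨haw, _, ka⟩ ⟨hbw, _, kb⟩ ha hb hwa hab hgap
    have wa : w < a := XT_lt_iff.1 hwa
    have ab : a < b := XT_lt_iff.1 hab
    have wa' : (w : ℕ) < a := wa
    have ab' : (a : ℕ) < b := ab
    rw [(htGraph T h).adj_comm, ht_adj_lt (wa.trans ab)] at hbw
    have hE : T.Edge 0 w b := by
      rcases hbw with h1 | h1
      · exact h1
      · have := h1 a wa ab; omega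
    rcases split_fin hE with h1 | ⟨m, h1, h2, h3⟩
    · omega
    · have hm := hg.2 w m b h1 kb
      rw [max_eq_left hb.le] at hm
      have ht := BT.tri_edges T 0 w m b h1
      have hmid := BT.pos_mid T 0 0 1 w m b h1
      rcases lt_trichotomy m a with h4 | h4 | h4
      · have h4' : (m : ℕ) < a := h4
        have h2' : (w : ℕ) < m := h2
        rw [(htGraph T h).adj_comm, ht_adj_lt wa] at haw
        rcases haw with h5 | h5
        · exact absurd ⟨h2', h4', ab'⟩ (BT.laminar T 0 _ _ _ _ h5 ht.2.2)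
        · have := h5 m h2 h4; omega
      · rw [← h4]; exact hmid
      · exact absurd ⟨XT_lt h4, XT_lt h3⟩
          (hgap m ⟨Or.inr (Or.inl ht.2.1), NK_rev h2.le, kb.sub (le_refl _) h3.le⟩ hm)

lemma cross_T {u w : Fin (T.size + 1)} (e : (htGraph T h).Adj u w) (hk : ¬ NK h u w) :
    T.Edge 0 u w := by
  rw [ht_adj_lt (nNK_lt hk)] at e
  rcases e with e | e
  · exact e
  · exfalso
    apply hk
    intro z h1 h2
    have := e z h1 h2
    omega

/-- the middle vertex of a triangle over a kink is visible -/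
lemma mid_vf (hg : GoodV T h) {a m w : Fin (T.size + 1)} (ht : T.Tri 0 a m w)
    (mw : m < w) (hk : ¬ NK h a w) (hv : VF h (htGraph T h) w) : VF h (htGraph T h) m := by
  have hG := htV_tri hg
  have he := BT.tri_edges T 0 a m w ht
  have eam : (htGraph T h).Adj a m := Or.inl he.2.1
  have emw : (htGraph T h).Adj m w := Or.inl he.2.2
  intro r s ers hrs h1 h2 h3
  rcases lt_trichotomy s w with h4 | h4 | h4
  · exact nx hG h1 h2 h4 ers emw (Or.inr h3) (edge_U hg he.2.2 h2 h4)
  · subst h4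
    have har : a < r := by
      by_contra hcon
      exact hk (hrs.sub (not_lt.1 hcon) (le_refl _))
    exact nx hG har h1 mw eam ers (edge_U hg he.2.1 har h1) (Or.inr h3)
  · have h5 : U h r w s := by
      by_contra hcon
      exact nn1 hG h1 mw h4 ers emw (Or.inr h3) hcon
    rcases h5 with h5 | h5
    · exact h5 hrs
    · exact hv r s ers hrs (h1.trans mw) h4 h5

/-- the edges over kinks are balanced -/
theorem htV_bal (hg : GoodV T h) : Bal (XT T) h (htGraph T h) := by
  intro w A x l M S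
  have hG := htV_tri hg
  have hw : VF h (htGraph T h) w := ((S.mnew.2 w).1 (by simp)).2
  have h1 := sorted_gaps (X := XT T) (x :: l) [] (by simpa using S.sorted)
  rw [List.nil_append] at h1
  have h2 : (x :: l).IsChain (fun a b => (XT T a < XT T b ∧
      ∀ c ∈ x :: l, ¬ (XT T a < XT T c ∧ XT T c < XT T b)) ∧ a ∈ x :: l ∧ b ∈ x :: l) := by
    rw [List.isChain_iff_getElem] at h1 ⊢
    intro i hi
    exact ⟨h1 i hi, List.getElem_mem _, List.getElem_mem _⟩
  refine h2.imp ?_
  rintro a b ⟨⟨hab, hc⟩, ha, hb⟩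
  have hle : ∀ c ∈ x :: l, c ≤ lst x l := by
    intro c hc
    have := (S.old.2 c).1 (List.mem_append_right _ hc)
    exact S.pr.2.2 c this.2.1 this.1
  have hab' : a < b := XT_lt_iff.1 hab
  have hap : a ≠ lst x l := fun e => absurd (hle b hb) (not_le.2 (by rw [← e]; exact hab'))
  obtain ⟨eaw, kaw⟩ := (S.nb a).2 ⟨ha, hap⟩
  have haw : a < w := nNK_lt kaw
  rcases split_fin (cross_T eaw kaw) with h3 | ⟨m, h3, h4, h5⟩
  · exfalso
    apply kaw
    intro z h4 h5
    have h4' : (a : ℕ) < z := h4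
    have h5' : (z : ℕ) < w := h5
    omega
  have ht := BT.tri_edges T 0 a m w h3
  have hmv := mid_vf hg h3 h5 kaw hw
  have hmem : m ∈ x :: l := by
    by_cases hk : NK h m w
    · have : m = lst x l := by
        apply le_antisymm (S.pr.2.2 m hmv h5)
        by_contra hcon
        have h6 := edge_und hg _ m w (le_refl _) ht.2.2 hk _ (not_le.1 hcon) S.pr.2.1
        exact S.pr.1 m w (Or.inl ht.2.2) hk (not_le.1 hcon) S.pr.2.1 (lt_max_iff.1 h6)
      rw [this]; exact lst_mem x l
    · exact ((S.nb m).1 ⟨Or.inl ht.2.2, hk⟩).1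
  have hmid := BT.pos_mid T 0 0 1 a m w h3
  rcases lt_trichotomy m b with h6 | h6 | h6
  · exact absurd ⟨XT_lt h4, XT_lt h6⟩ (hc m hmem)
  · rw [← h6]; exact hmid
  · exfalso
    have hbp : b ≠ lst x l := fun e => absurd (hle m hmem) (not_le.2 (by rw [← e]; exact h6))
    obtain ⟨ebw, kbw⟩ := (S.nb b).2 ⟨hb, hbp⟩
    exact BT.laminar T 0 _ _ _ _ ht.2.1 (cross_T ebw kbw) ⟨hab', h6, h5⟩

end

/-! ### the flat theorem -/

section
variable {n : ℕ} {h : Fin n → ℕ} {E G : SimpleGraph (Fin n)} {X : Fin n → ℝ}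

lemma zero_adj (hE : TriU h E) {a b : Fin n} (hab : a < b) (hk : NK h a b) (ha : h a = 0)
    (hb : h b = 0) : E.Adj a b := by
  apply hE.2 a b hab
  rintro p q hpq epq (⟨h1, h2, h3, hu⟩ | ⟨h1, h2, h3, hu⟩ | ⟨h1, h2, h3, hu⟩ | ⟨h1, h2, h3, hu⟩)
  · -- a < p < b < q
    have := hk p h1 h2
    exact nU hk (by omega) (by omega) (hu.2 (U_l (by omega)))
  · have := hk q h2 h3
    exact nU hk (by omega) (by omega) (hu.1 (U_r (by omega)))
  · exact hu (iff_of_false (nU hk (by omega) (by omega)) (nU hk (by omega) (by omega)))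
  · have hk1 : ¬ NK h p q := fun h4 => by have := h4 a h1 (h2.trans h3); omega
    exact hu (iff_of_true (U_k hk1) (U_k hk1))

lemma zero_iff (hE : TriU h E) {a b : Fin n} (ha : h a = 0) (hb : h b = 0) :
    (inP h E).Adj a b ↔ a ≠ b ∧ NK h a b ∧ NK h b a := by
  constructor
  · rintro ⟨e, h1, h2⟩; exact ⟨e.ne, h1, h2⟩
  · rintro ⟨hne, h1, h2⟩
    refine ⟨?_, h1, h2⟩
    rcases lt_or_gt_of_ne hne with h3 | h3
    · exact zero_adj hE h3 h1 ha hb
    · exact (zero_adj hE h3 h2 hb ha).symm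

lemma W0_split (t : ℕ) (ht : ∀ a, h a < t) (hX : ∀ a b, a < b → X a < X b) :
    W0 X E = Wt X h (inP h E) t + 2 * SC X h E n := by
  have e1 : ∀ a b : Fin n, (if E.Adj a b then |X a - X b| else 0) =
      (if (inP h E).Adj a b ∧ h a < t ∧ h b < t then |X a - X b| else 0) +
      ((if (b : ℕ) < n ∧ E.Adj a b ∧ ¬ NK h a b then X b - X a else 0) +
       (if (a : ℕ) < n ∧ E.Adj b a ∧ ¬ NK h b a then X a - X b else 0)) := by
    intro a b
    have t1 := ht a
    have t2 := ht b
    have n1 := a.2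
    have n2 := b.2
    by_cases hab : E.Adj a b
    swap
    · have hba : ¬ E.Adj b a := fun e => hab e.symm
      have hin : ¬ (inP h E).Adj a b := fun e => hab e.1
      simp only [hab, hba, hin, false_and, and_false, if_false, add_zero]
    · have hba : E.Adj b a := hab.symm
      by_cases k1 : NK h a b
      · by_cases k2 : NK h b a
        · have hin : (inP h E).Adj a b := ⟨hab, k1, k2⟩
          simp only [hab, hin, t1, t2, k1, k2, not_true_eq_false, and_false, if_false, if_true,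
            true_and, add_zero]
        · have hin : ¬ (inP h E).Adj a b := fun e => k2 e.2.2
          have hlt : b < a := nNK_lt k2
          have hx := hX b a hlt
          simp only [hab, hba, hin, n1, k1, k2, not_true_eq_false, not_false_eq_true, and_false,
            false_and, if_false, if_true, and_self, zero_add]
          rw [abs_of_pos (by linarith)]
      · have hlt : a < b := nNK_lt k1
        have k2 : NK h b a := NK_rev hlt.le
        have hin : ¬ (inP h E).Adj a b := fun e => k1 e.2.1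
        have hx := hX a b hlt
        simp only [hab, hin, n2, k1, k2, not_true_eq_false, not_false_eq_true, and_false,
          false_and, if_false, if_true, and_self, zero_add, add_zero]
        rw [abs_of_neg (by linarith)]; ring
  unfold W0
  simp only [e1, Finset.sum_add_distrib]
  have s1 : ∑ a : Fin n, ∑ b : Fin n, (if (b : ℕ) < n ∧ E.Adj a b ∧ ¬ NK h a b then X b - X a else 0)
      = SC X h E n := by
    unfold SC
    rw [Finset.sum_comm]
  have s2 : ∑ a : Fin n, ∑ b : Fin n, (if (a : ℕ) < n ∧ E.Adj b a ∧ ¬ NK h b a then X a - X b else 0)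
      = SC X h E n := by
    unfold SC
    rfl
  rw [s1, s2]
  unfold Wt
  ring

lemma vl_ml (hX : ∀ a b, a < b → X a < X b) (t : ℕ) (ht : ∀ a, h a < t) (L : List (Fin n)) :
    IsVL X h (inP h E) t L ↔ ML X h E n L := by
  have key : ∀ a, VisT X h (inP h E) t a ↔ ((a : ℕ) < n ∧ VF h E a) := by
    intro a
    rw [vis_iff hX]
    constructor
    · rintro ⟨_, h1⟩
      exact ⟨a.2, fun p q e hk h2 h3 => h1 p q e hk h2 h3 (ht p) (ht q)⟩
    · rintro ⟨_, h1⟩
      exact ⟨ht a, fun p q e hk h2 h3 _ _ => h1 p q e hk h2 h3⟩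
  unfold IsVL ML
  simp only [key]

lemma exists_base (hX : ∀ a b, a < b → X a < X b) :
    ∃ L, IsVL X h (inP h E) 1 L := by
  refine ⟨(List.finRange n).filter (fun z => h z = 0), ?_, ?_⟩
  · apply List.Pairwise.filter
    exact (List.pairwise_lt_finRange n).imp (fun {a b} hab => hX a b hab)
  · intro a
    rw [vis_one]
    simp

lemma outerV (hE : TriU h E) {x0 xn : Fin n} (hlt : x0 < xn) (hl : ∀ a, x0 ≤ a) (hr : ∀ a, a ≤ xn)
    (hU : ∀ m, x0 < m → m < xn → U h x0 m xn) : E.Adj x0 xn := by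
  apply hE.2 _ _ hlt
  rintro p q hpq epq (⟨h1, h2, h3, hu⟩ | ⟨h1, h2, h3, hu⟩ | ⟨h1, h2, h3, hu⟩ | ⟨h1, h2, h3, hu⟩)
  · exact absurd h3 (not_lt.2 (hr q))
  · exact absurd h1 (not_lt.2 (hl p))
  · exact hu (iff_of_true (hU p h1 (h2.trans h3)) (hU q (h1.trans h2) h3))
  · exact absurd h1 (not_lt.2 (hl p))

lemma top_cl (hX : ∀ a b, a < b → X a < X b) (hE : TriU h E) {x0 xn : Fin n} (hlt : x0 < xn)
    (hl : ∀ a, x0 ≤ a) (hr : ∀ a, a ≤ xn) (hU : ∀ m, x0 < m → m < xn → U h x0 m xn) :
    CL X h E n [x0, xn] := by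
  have e := outerV hE hlt hl hr hU
  constructor
  · simp [hX _ _ hlt]
  · intro a
    simp only [List.mem_cons, List.not_mem_nil, or_false]
    constructor
    · rintro (rfl | rfl)
      · refine ⟨a.2, ?_, ?_⟩
        · intro p q _ _ h1 _; exact absurd h1 (not_lt.2 (hl p))
        · intro p q _ _ h1 _; exact absurd h1 (not_lt.2 (hl p))
      · refine ⟨a.2, ?_, ?_⟩
        · intro p q _ _ _ h1; exact absurd h1 (not_lt.2 (hr q))
        · intro p q _ _ _ h1; exact absurd h1 (not_lt.2 (hr q))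
    · rintro ⟨_, h1, h2⟩
      by_contra hcon
      push Not at hcon
      have h3 : x0 < a := lt_of_le_of_ne (hl a) (fun e => hcon.1 e.symm)
      have h4 : a < xn := lt_of_le_of_ne (hr a) hcon.2
      by_cases hk : NK h x0 xn
      · rcases hU a h3 h4 with h5 | h5
        · exact h5 hk
        · exact h1 x0 xn e hk h3 h4 h5
      · exact h2 x0 xn e hk h3 h4 xn.2

theorem flatV (hX : ∀ a b, a < b → X a < X b) (hh : ∀ a b, h a = h b → a = b ∨ h a = 0)
    (hE : TriU h E) (hG : TriU h G) (g1 : ∀ w, 0 < h w → GoodAt X h (inP h G) w)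
    (g2 : Bal X h G) {x0 xn : Fin n} (hlt : x0 < xn) (hl : ∀ a, x0 ≤ a) (hr : ∀ a, a ≤ xn)
    (hU : ∀ m, x0 < m → m < xn → U h x0 m xn) (hEG : E ≠ G) : W0 X G < W0 X E := by
  obtain ⟨t, ht⟩ : ∃ t, ∀ a, h a < t + 1 := by
    obtain ⟨M, hM⟩ := (Set.finite_range h).bddAbove
    exact ⟨M, fun a => Nat.lt_succ_of_le (hM ⟨a, rfl⟩)⟩
  have hXi := xinj hX
  have SE : ∀ w, 0 < h w → Stg X h (inP h E) w := fun w hw => stg hX hh hE w hw
  have SG : ∀ w, 0 < h w → Stg X h (inP h G) w := fun w hw => stg hX hh hG w hw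
  have hz : ∀ a b, h a = 0 → h b = 0 → ((inP h E).Adj a b ↔ (inP h G).Adj a b) :=
    fun a b ha hb => (zero_iff hE ha hb).trans (zero_iff hG ha hb).symm
  obtain ⟨LE, LG, v1, v2, hle⟩ := main_ineqV hXi SE SG g1 hz (exists_base hX) t
  have m1 := (vl_ml hX (t + 1) ht LE).1 v1
  have m2 := (vl_ml hX (t + 1) ht LG).1 v2
  obtain ⟨CE, ME, a1, a2, _, a4⟩ := pot2_ge hX hE n (le_refl _)
  obtain ⟨CG, MG, b1, b2, _, b4⟩ := pot2_good hX hG g2 n (le_refl _)
  have c1 := top_cl hX hE hlt hl hr hU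
  have c2 := top_cl hX hG hlt hl hr hU
  have e1 := a1.uniq hXi c1
  have e2 := b1.uniq hXi c2
  have e3 := a2.uniq hXi m1
  have e4 := b2.uniq hXi m2
  subst e1; subst e2; subst e3; subst e4
  have w1 := W0_split (E := E) (t + 1) ht hX
  have w2 := W0_split (E := G) (t + 1) ht hX
  have hlog : 0 < Real.log 2 := Real.log_pos (by norm_num)
  by_contra hcon
  apply hEG
  have hW : Real.log 2 * W0 X E ≤ Real.log 2 * W0 X G :=
    mul_le_mul_of_nonneg_left (not_lt.1 hcon) hlog.le
  rw [w1, w2] at hW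
  have r1 := pot2_rev hX hE hG g2 n (le_refl _) _ _ c1 c2 a2 (by linarith)
  -- the two visible lists coincide
  have hM : ME = MG := by
    apply sorted_ext hXi _ _ a2.1 b2.1
    intro a
    rw [a2.2 a, b2.2 a, (r1 a a.2).1]
  subst hM
  have r2 := main_eqV hXi SE SG g1 hz (exists_base hX) t ME v1 v2 (by linarith)
  have key : ∀ a b : Fin n, a < b → (E.Adj a b ↔ G.Adj a b) := by
    intro a b hab
    by_cases hk : NK h a b
    · have := r2 a b (ht a) (ht b)
      constructor
      · intro e; exact (this.1 ⟨e, hk, NK_rev hab.le⟩).1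
      · intro e; exact (this.2 ⟨e, hk, NK_rev hab.le⟩).1
    · have := (r1 b b.2).2 a
      constructor
      · intro e; exact (this.1 ⟨e, hk⟩).1
      · intro e; exact (this.2 ⟨e, hk⟩).1
  ext a b
  rcases lt_trichotomy a b with h1 | h1 | h1
  · exact key a b h1
  · subst h1; exact iff_of_false (E.irrefl) (G.irrefl)
  · rw [E.adj_comm, G.adj_comm]; exact key b a h1

end

/-- `G(T, h)` is the unique triangulation of least weight of a suitable point set -/
theorem htV_mw {T : BT} {h : Fin (T.size + 1) → ℕ} (hg : GoodV T h) :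
    ∃ X Y : Fin (T.size + 1) → ℝ, GP X Y ∧ TriC X Y (htGraph T h) ∧
      ∀ E, TriC X Y E → E ≠ htGraph T h → wt X Y (htGraph T h) < wt X Y E := by
  obtain ⟨Y, C⟩ := exists_cv (XT T) h XT_mono hg.1
  have hs := T.size_pos
  set x0 : Fin (T.size + 1) := ⟨0, by omega⟩ with hx0
  set xn : Fin (T.size + 1) := ⟨T.size, by omega⟩ with hxn
  have hlt : x0 < xn := by rw [Fin.lt_def]; simp only [hx0, hxn]; omega
  have hl : ∀ a, x0 ≤ a := fun a => by rw [Fin.le_def]; simp [hx0]
  have hr : ∀ a, a ≤ xn := fun a => by rw [Fin.le_def]; have := a.2; simp only [hxn]; omega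
  have htopE : T.Edge 0 x0 xn := by
    have := BT.edge_top T 0
    rw [Nat.zero_add] at this
    exact this
  have hG := htV_tri hg
  obtain ⟨Y', h1, h2, h3⟩ := honestV C ((tri_iff C _).2 hG) (fun E hE hEG =>
    flatV XT_mono hg.1 ((tri_iff C _).1 hE) hG (htV_good hg) (htV_bal hg) hlt hl hr
      (fun m h5 h6 => edge_U hg htopE h5 h6) hEG)
  exact ⟨XT T, Y', h1, h2, h3⟩

end Pool.Agent.MP7a5e6c
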