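import Pool.Agent.MP7a5e6c.DI4
import Pool.Agent.MP7a5e6c.VFinal
import Pool.Agent.MP7a5e6c.Transfer

set_option autoImplicit false
open scoped Classical

namespace Pool.Agent.MP7a5e6c

/-- a noncrossing family with the apex property is a triangulated polygon -/
lemma exists_bt (E : ℕ → ℕ → Prop)
    (hlam : ∀ i j k l, i < j → j < k → k < l → E i k → E j l → False)
    (hap : ∀ i k z, E i k → i < z → z < k → ∃ m, i < m ∧ m < k ∧ E i m ∧ E m k) :
    ∀ (d i k : ℕ), k = i + d → 0 < d → E i k →
      ∃ T : BT, T.size = d ∧ ∀ x y, T.Edge i x y ↔ (E x y ∧ i ≤ x ∧ x < y ∧ y ≤ k) := by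
  intro d
  induction d using Nat.strong_induction_on with
  | _ d ih =>
    intro i k hk hd hE
    by_cases h1 : d = 1
    · subst h1
      refine ⟨BT.leaf, rfl, ?_⟩
      intro x y
      simp only [BT.Edge]
      constructor
      · rintro ⟨rfl, rfl⟩
        exact ⟨by rw [← hk]; exact hE, le_refl _, by omega, by omega⟩
      · rintro ⟨_, h2, h3, h4⟩
        omega
    · obtain ⟨m, m1, m2, e1, e2⟩ := hap i k (i + 1) hE (by omega) (by omega)
      obtain ⟨T1, s1, t1⟩ := ih (m - i) (by omega) i m (by omega) (by omega) e1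
      obtain ⟨T2, s2, t2⟩ := ih (k - m) (by omega) m k (by omega) (by omega) e2
      refine ⟨BT.node T1 T2, by simp only [BT.size]; omega, ?_⟩
      intro x y
      simp only [BT.Edge]
      rw [s1, s2, show i + (m - i) = m by omega, show i + (m - i + (k - m)) = k by omega, t1, t2]
      constructor
      · rintro (⟨rfl, rfl⟩ | ⟨h2, h3, h4, h5⟩ | ⟨h2, h3, h4, h5⟩)
        · exact ⟨hE, le_refl _, by omega, le_refl _⟩
        · exact ⟨h2, h3, h4, by omega⟩
        · exact ⟨h2, by omega, h4, h5⟩
      · rintro ⟨h2, h3, h4, h5⟩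
        by_cases c1 : x = i ∧ y = k
        · exact Or.inl c1
        by_cases c2 : y ≤ m
        · exact Or.inr (Or.inl ⟨h2, h3, h4, c2⟩)
        by_cases c3 : m ≤ x
        · exact Or.inr (Or.inr ⟨h2, c3, h4, h5⟩)
        exfalso
        by_cases c4 : x = i
        · subst c4
          exact hlam x m y k m1 (by omega) (by omega) h2 e2
        · exact hlam i x m y (by omega) (by omega) (by omega) e1 h2

lemma exists_sort {V : Type} [Fintype V] (key : V → ℕ) (hinj : Function.Injective key) :
    ∃ σ : V ≃ Fin (Fintype.card V), ∀ u v, key u < key v ↔ σ u < σ v := by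
  letI : LinearOrder V := LinearOrder.lift' key hinj
  let e := Fintype.orderIsoFinOfCardEq V rfl
  refine ⟨e.symm.toEquiv, ?_⟩
  intro u v
  have h1 : key u < key v ↔ u < v := Iff.rfl
  rw [h1]
  exact (e.symm.lt_iff_lt (x := u) (y := v)).symm

lemma isTri_comap {m n : ℕ} (σ : Fin n ≃ Fin m) (f : Fin m → Pt) (E : SimpleGraph (Fin n)) :
    IsTri (fun i => f (σ i)) E ↔ IsTri f (E.comap σ.symm) := by
  have hs : ∀ a b : Fin n, s(σ a, σ b) = s(σ a, σ b) := fun _ _ => rfl
  have hsym : ∀ a b c d : Fin m, s(a, b) ≠ s(c, d) → s(σ.symm a, σ.symm b) ≠ s(σ.symm c, σ.symm d) := by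
    intro a b c d h h2
    apply h
    rcases Sym2.eq_iff.1 h2 with ⟨h3, h4⟩ | ⟨h3, h4⟩
    · rw [σ.symm.injective h3, σ.symm.injective h4]
    · rw [σ.symm.injective h3, σ.symm.injective h4]; exact Sym2.eq_swap
  have hsym' : ∀ a b c d : Fin n, s(a, b) ≠ s(c, d) → s(σ a, σ b) ≠ s(σ c, σ d) := by
    intro a b c d h h2
    apply h
    rcases Sym2.eq_iff.1 h2 with ⟨h3, h4⟩ | ⟨h3, h4⟩
    · rw [σ.injective h3, σ.injective h4]
    · rw [σ.injective h3, σ.injective h4]; exact Sym2.eq_swap
  constructor
  · rintro ⟨h1, h2, h3⟩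
    refine ⟨?_, ?_, ?_⟩
    · intro a b hab w hwa hwb
      have := h1 (σ.symm a) (σ.symm b) hab (σ.symm w) (fun h => hwa (σ.symm.injective h))
        (fun h => hwb (σ.symm.injective h))
      simpa using this
    · intro a b c d hab hcd hne
      have := h2 (σ.symm a) (σ.symm b) (σ.symm c) (σ.symm d) hab hcd (hsym _ _ _ _ hne)
      simpa using this
    · intro a b hab hw hcd
      have := h3 (σ.symm a) (σ.symm b) (fun h => hab (σ.symm.injective h)) ?_ ?_
      · exact this
      · intro w hwa hwb
        have := hw (σ w) (fun h => hwa (by rw [← h]; simp)) (fun h => hwb (by rw [← h]; simp))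
        simpa using this
      · intro c d hcd' hne
        have hne' : s(a, b) ≠ s(σ c, σ d) := by
          have := hsym' _ _ _ _ hne
          simpa using this
        have := hcd (σ c) (σ d) (by simpa using hcd') hne'
        simpa using this
  · rintro ⟨h1, h2, h3⟩
    refine ⟨?_, ?_, ?_⟩
    · intro a b hab w hwa hwb
      exact h1 (σ a) (σ b) (by simpa using hab) (σ w) (fun h => hwa (σ.injective h))
        (fun h => hwb (σ.injective h))
    · intro a b c d hab hcd hne
      exact h2 (σ a) (σ b) (σ c) (σ d) (by simpa using hab) (by simpa using hcd) (hsym' _ _ _ _ hne)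
    · intro a b hab hw hcd
      have := h3 (σ a) (σ b) (fun h => hab (σ.injective h)) ?_ ?_
      · simpa using this
      · intro w hwa hwb
        have := hw (σ.symm w) (fun h => hwa (by rw [← h]; simp)) (fun h => hwb (by rw [← h]; simp))
        simpa using this
      · intro c d hcd' hne
        have hne' : s(a, b) ≠ s(σ.symm c, σ.symm d) := by
          have := hsym _ _ _ _ hne
          simpa using this
        have := hcd (σ.symm c) (σ.symm d) hcd' hne'
        simpa using this

lemma weight_comap {m n : ℕ} (σ : Fin n ≃ Fin m) (f : Fin m → Pt) (E : SimpleGraph (Fin n)) :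
    weight (fun i => f (σ i)) E = weight f (E.comap σ.symm) := by
  unfold weight
  rw [← Equiv.sum_comp σ]
  refine Finset.sum_congr rfl (fun a _ => ?_)
  rw [← Equiv.sum_comp σ]
  refine Finset.sum_congr rfl (fun b _ => ?_)
  simp

end Pool.Agent.MP7a5e6c
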