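import Pool.Agent.MP7a5e6c.DI5

set_option autoImplicit false
open scoped Classical

namespace Pool.Agent.MP7a5e6c

/-- a Delaunay triangulation without two adjacent interior vertices is a graph `G(T, h)` -/
theorem di_graph {V : Type} [Fintype V] {X Y : V → ℝ} {G : SimpleGraph V} (D : DT X Y G)
    (hI : ∀ a b, G.Adj a b → Hull X Y a ∨ Hull X Y b)
    (u0 u1 : V) (hu : u0 ≠ u1) (hcard : ∀ a b : V, ∃ c, c ≠ a ∧ c ≠ b) :
    ∃ (T : BT) (h : Fin (T.size + 1) → ℕ) (σ : V ≃ Fin (T.size + 1)),
      (∀ a b : Fin (T.size + 1), h a = h b → a = b ∨ h a = 0) ∧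
      (∀ i m k : Fin (T.size + 1), T.Tri 0 i m k → (∀ z, i < z → z < k → 0 < h z) →
        h m < max (h i) (h k)) ∧
      ∀ i k, G.Adj (σ.symm i) (σ.symm k) ↔ (htGraph T h).Adj i k := by
  obtain ⟨key, p, q, a, b, O, hab, hTab, hmin, hmax⟩ := exists_ord D hI u0 u1 hu hcard
  obtain ⟨σ0, hσ0⟩ := exists_sort key O.inj
  have hidx : ∀ u v, key u < key v ↔ (σ0 u : ℕ) < (σ0 v : ℕ) := fun u v => hσ0 u v
  let E : ℕ → ℕ → Prop := fun x y => ∃ u v, (σ0 u : ℕ) = x ∧ (σ0 v : ℕ) = y ∧ key u < key v ∧
    TG X Y G p q u v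
  have hlam : ∀ i j k l, i < j → j < k → k < l → E i k → E j l → False := by
    rintro i j k l h1 h2 h3 ⟨u1, v1, e1, e2, e3, e4⟩ ⟨u2, v2, e5, e6, e7, e8⟩
    exact O.laminar ((hidx _ _).2 (by omega)) ((hidx _ _).2 (by omega)) ((hidx _ _).2 (by omega))
      e4 e8
  have hap : ∀ i k z, E i k → i < z → z < k → ∃ m, i < m ∧ m < k ∧ E i m ∧ E m k := by
    rintro i k z ⟨u, v, e1, e2, e3, e4⟩ h1 h2
    have hz : z < Fintype.card V := by have := (σ0 v).2; omega
    have hw : (σ0 (σ0.symm ⟨z, hz⟩) : ℕ) = z := by simp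
    obtain ⟨m, m1, m2, m3, m4⟩ := O.apex_ord (z := σ0.symm ⟨z, hz⟩) e4
      ((hidx _ _).2 (by omega)) ((hidx _ _).2 (by omega))
    refine ⟨σ0 m, ?_, ?_, ⟨u, m, e1, rfl, m1, m3⟩, ⟨m, v, rfl, e2, m2, m4⟩⟩
    · have := (hidx _ _).1 m1; omega
    · have := (hidx _ _).1 m2; omega
  have hab' : (σ0 a : ℕ) < (σ0 b : ℕ) := (hidx _ _).1 (hmin b hab.symm)
  have hcardpos : 0 < Fintype.card V := Fintype.card_pos_iff.2 ⟨a⟩
  have ha0 : (σ0 a : ℕ) = 0 := by
    by_contra hc
    have h1 : (σ0 (σ0.symm ⟨0, hcardpos⟩) : ℕ) = 0 := by simp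
    by_cases h2 : σ0.symm ⟨0, hcardpos⟩ = a
    · rw [h2] at h1; exact hc h1
    · have := (hidx _ _).1 (hmin _ h2); omega
  have hbN : (σ0 b : ℕ) = Fintype.card V - 1 := by
    by_contra hc
    have h1 : (σ0 (σ0.symm ⟨Fintype.card V - 1, by omega⟩) : ℕ) = Fintype.card V - 1 := by simp
    by_cases h2 : σ0.symm ⟨Fintype.card V - 1, by omega⟩ = b
    · rw [h2] at h1; exact hc h1
    · have h3 := (hidx _ _).1 (hmax _ h2)
      have := (σ0 b).2
      omega
  obtain ⟨T, hT1, hT2⟩ := exists_bt E hlam hap (Fintype.card V - 1) 0 (Fintype.card V - 1)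
    (by omega) (by omega) ⟨a, b, ha0, hbN, hmin b hab.symm, hTab⟩
  have hsz : Fintype.card V = T.size + 1 := by omega
  let σ : V ≃ Fin (T.size + 1) := σ0.trans (finCongr hsz)
  have hσ : ∀ v, (σ v : ℕ) = σ0 v := fun v => by simp [σ]
  have hlt : ∀ i k : Fin (T.size + 1), i < k ↔ key (σ.symm i) < key (σ.symm k) := by
    intro i k
    rw [hidx, ← hσ, ← hσ]
    simp
  have hval : ∀ i : Fin (T.size + 1), (σ0 (σ.symm i) : ℕ) = i := by
    intro i; rw [← hσ]; simp
  have hK : ∀ u v z, (∀ w, key u < key w → key w < key v → ¬ Hull X Y w) → key u < key z →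
      key z < key v → u = p z ∧ v = q z := by
    intro u v z hall h1 h2
    have hz := hall z h1 h2
    obtain ⟨k1, k2, k3, k4, _⟩ := O.slot z hz
    have l1 := O.lo z u hz h1
    have l2 := O.hi z v hz h2
    constructor
    · by_contra hne
      have : key u ≠ key (p z) := fun h => hne (O.inj h)
      exact hall (p z) (by omega) (by omega) k1
    · by_contra hne
      have : key v ≠ key (q z) := fun h => hne (O.inj h)
      exact hall (q z) (by omega) (by omega) k2
  have hTG : ∀ i k : Fin (T.size + 1), T.Edge 0 i k ↔ i < k ∧ TG X Y G p q (σ.symm i) (σ.symm k) := by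
    intro i k
    rw [hT2]
    constructor
    · rintro ⟨⟨u, v, e1, e2, e3, e4⟩, _, h1, _⟩
      refine ⟨h1, ?_⟩
      have hu : u = σ.symm i := by
        rw [Equiv.eq_symm_apply]; ext; rw [hσ]; exact e1
      have hv : v = σ.symm k := by
        rw [Equiv.eq_symm_apply]; ext; rw [hσ]; exact e2
      rw [← hu, ← hv]; exact e4
    · rintro ⟨h1, h2⟩
      have hk := k.2
      exact ⟨⟨_, _, hval i, hval k, (hlt i k).1 h1, h2⟩, Nat.zero_le _, h1, by omega⟩
  let h : Fin (T.size + 1) → ℕ := fun i => if Hull X Y (σ.symm i) then 0 else i + 1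
  have hH : ∀ i, Hull X Y (σ.symm i) → h i = 0 := fun i hi => if_pos hi
  have hN : ∀ i, ¬ Hull X Y (σ.symm i) → h i = i + 1 := fun i hi => if_neg hi
  have hallH : ∀ i k : Fin (T.size + 1), (∀ z, i < z → z < k → 0 < h z) →
      ∀ w, key (σ.symm i) < key w → key w < key (σ.symm k) → ¬ Hull X Y w := by
    intro i k hall w h1 h2 hw
    have h3 := hall (σ w) ((hlt _ _).2 (by simpa using h1)) ((hlt _ _).2 (by simpa using h2))
    rw [hH _ (by simpa using hw)] at h3
    exact lt_irrefl _ h3
  refine ⟨T, h, σ, ?_, ?_, ?_⟩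
  · intro i j hij
    by_cases hi : Hull X Y (σ.symm i)
    · exact Or.inr (hH i hi)
    · by_cases hj : Hull X Y (σ.symm j)
      · rw [hN i hi, hH j hj] at hij; omega
      · rw [hN i hi, hN j hj] at hij
        left; ext; omega
  · intro i m k hTri hall
    exfalso
    have he := BT.tri_edges T 0 i m k hTri
    have r1 := BT.edge_range _ _ _ _ he.2.1
    have r2 := BT.edge_range _ _ _ _ he.2.2
    have him : i < m := r1.2.1
    have hmk : m < k := r2.2.1
    have h1 := hallH i k hall
    have h2 := hK _ _ (σ.symm m) h1 ((hlt _ _).1 him) ((hlt _ _).1 hmk)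
    have h3 := ((hTG i k).1 he.1).2
    exact h3.2 (σ.symm m) (h1 _ ((hlt _ _).1 him) ((hlt _ _).1 hmk)) h2
  · have main : ∀ i k, i < k → (G.Adj (σ.symm i) (σ.symm k) ↔ (htGraph T h).Adj i k) := by
      intro i k hik
      rw [ht_adj_lt hik]
      constructor
      · intro hadj
        by_cases hc : TG X Y G p q (σ.symm i) (σ.symm k)
        · exact Or.inl ((hTG i k).2 ⟨hik, hc⟩)
        · right
          have : ∃ w, ¬ Hull X Y w ∧ (σ.symm i = p w ∧ σ.symm k = q w) := by
            by_contra hno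
            push Not at hno
            exact hc ⟨hadj, fun v hv ⟨h1, h2⟩ => hno v hv h1 h2⟩
          obtain ⟨w, hw, e1, e2⟩ := this
          intro m hm1 hm2
          have k1 := (hlt _ _).1 hm1
          have k2 := (hlt _ _).1 hm2
          rw [e1] at k1
          rw [e2] at k2
          have hmw : σ.symm m = w := by
            apply O.inj
            by_contra hne
            rcases lt_or_gt_of_ne hne with g | g
            · have := O.lo w _ hw g; omega
            · have := O.hi w _ hw g; omega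
          have hs := O.slot w hw
          rw [hN m (by rw [hmw]; exact hw), hH i (by rw [e1]; exact hs.1),
            hH k (by rw [e2]; exact hs.2.1)]
          omega
      · rintro (h1 | h1)
        · exact ((hTG i k).1 h1).2.1
        · by_cases hex : ∃ m, i < m ∧ m < k
          · obtain ⟨m, hm1, hm2⟩ := hex
            have h2 := hallH i k (fun z hz1 hz2 => by have := (h1 z hz1 hz2).1; omega)
            have k1 := (hlt _ _).1 hm1
            have k2 := (hlt _ _).1 hm2
            have h3 := hK _ _ (σ.symm m) h2 k1 k2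
            have hs := O.slot (σ.symm m) (h2 _ k1 k2)
            rw [h3.1, h3.2]
            exact (O.D.adj1 hs.2.2.2.2).symm
          · have hk1 : (k : ℕ) = i + 1 := by
              by_contra hne
              have hik' : (i : ℕ) < k := hik
              exact hex ⟨⟨i + 1, by omega⟩, by show (i : ℕ) < i + 1; omega,
                by show (i : ℕ) + 1 < k; omega⟩
            have hkb := k.2
            have := BT.edge_path T 0 i (Nat.zero_le _) (by omega)
            rw [← hk1] at this
            exact ((hTG i k).1 this).2.1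
    intro i k
    rcases lt_trichotomy i k with hlt' | heq | hgt
    · exact main i k hlt'
    · subst heq
      constructor
      · intro h1; exact absurd rfl h1.ne
      · intro h1; exact absurd rfl h1.ne
    · constructor
      · intro h1; exact ((main k i hgt).1 h1.symm).symm
      · intro h1; exact ((main k i hgt).2 h1.symm).symm

end Pool.Agent.MP7a5e6c
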