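import Pool.Agent.MP7a5e6c.DI6

set_option autoImplicit false
open scoped Classical

namespace Pool.Agent.MP7a5e6c

/-- `f v` lies on the boundary of the convex hull of the points: on some line that has all the
points on one side (points on the line allowed) -/
def Outer {n : ℕ} (f : Fin n → EuclideanSpace ℝ (Fin 2)) (v : Fin n) : Prop :=
  ∃ p q : ℝ, (p ≠ 0 ∨ q ≠ 0) ∧ ∀ w, p * f w 0 + q * f w 1 ≤ p * f v 0 + q * f v 1

lemma collinear_of_ori {n : ℕ} (f : Fin n → Pt) (a b c : Fin n) (hab : f a ≠ f b)
    (h : ori (cX f) (cY f) a b c = 0) : Collinear ℝ {f a, f b, f c} := by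
  rw [collinear_iff_of_mem (p₀ := f a) (by simp)]
  refine ⟨f b - f a, ?_⟩
  have hc : ∃ r : ℝ, f c = r • (f b - f a) + f a := by
    unfold ori cX cY at h
    by_cases hx : f b 0 - f a 0 = 0
    · have hy : f b 1 - f a 1 ≠ 0 := by
        intro hy
        apply hab
        ext i
        fin_cases i
        · show f a 0 = f b 0; linarith
        · show f a 1 = f b 1; linarith
      refine ⟨(f c 1 - f a 1) / (f b 1 - f a 1), ?_⟩
      rw [hx] at h
      have h2 : f c 0 - f a 0 = 0 := by
        have : (f b 1 - f a 1) * (f c 0 - f a 0) = 0 := by linarith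
        exact (mul_eq_zero.1 this).resolve_left hy
      ext i
      fin_cases i
      · simp
        rw [hx]; linarith
      · simp
        field_simp
        ring
    · refine ⟨(f c 0 - f a 0) / (f b 0 - f a 0), ?_⟩
      ext i
      fin_cases i
      · simp
        field_simp
        ring
      · simp
        field_simp
        linarith
  intro x hx
  simp only [Set.mem_insert_iff, Set.mem_singleton_iff] at hx
  rcases hx with rfl | rfl | rfl
  · exact ⟨0, by simp⟩
  · exact ⟨1, by simp⟩
  · obtain ⟨r, hr⟩ := hc
    exact ⟨r, by rw [vadd_eq_add]; exact hr⟩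

lemma gp_of_not_collinear {n : ℕ} (hn : 3 ≤ n) (f : Fin n → Pt)
    (hcol : ∀ a b c, a ≠ b → a ≠ c → b ≠ c → ¬ Collinear ℝ {f a, f b, f c}) :
    GP (cX f) (cY f) := by
  have hcard : ∀ a b : Fin n, ∃ c, c ≠ a ∧ c ≠ b := by
    intro a b
    by_contra hc
    push Not at hc
    have h1 : (Finset.univ : Finset (Fin n)) ⊆ {a, b} := by
      intro c _
      by_cases h : c = a
      · simp [h]
      · simp [hc c h]
    have h2 := Finset.card_le_card h1
    have h3 := Finset.card_le_two (a := a) (b := b)
    rw [Finset.card_univ, Fintype.card_fin] at h2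
    omega
  have hinj : ∀ a b, a ≠ b → f a ≠ f b := by
    intro a b hab heq
    obtain ⟨c, h1, h2⟩ := hcard a b
    apply hcol a b c hab h1.symm h2.symm
    rw [heq]
    simpa using collinear_pair ℝ (f b) (f c)
  constructor
  · intro a b hab
    by_contra hc
    push Not at hc
    apply hinj a b hab
    ext i
    fin_cases i
    · exact hc.1
    · exact hc.2
  · intro a b c hab hac hbc h
    exact hcol a b c hab hac hbc (collinear_of_ori f a b c (hinj a b hab) h)

end Pool.Agent.MP7a5e6c
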