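import Pool.Agent.MP7a5e6c.Plane

set_option autoImplicit false
open scoped Classical
open Filter Topology

namespace Pool.Agent.MP7a5e6c

section gen
variable {V : Type} (X Y : V → ℝ)

def HullRel (s t : V) : Prop := ∀ c, c ≠ s → c ≠ t → 0 < ori X Y s t c

def crs (p q : ℝ) (s t : V) : ℝ := (X t - X s) * q - (Y t - Y s) * p

lemma crs_swap (p q : ℝ) (s t : V) : crs X Y p q t s = - crs X Y p q s t := by
  unfold crs; ring

lemma ev_quad {c d e : ℝ} (h : ¬ (c = 0 ∧ d = 0 ∧ e = 0)) :
    ∀ᶠ ε : ℝ in 𝓝[>] 0, c + d * ε + e * ε ^ 2 ≠ 0 := by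
  by_cases hc : c = 0
  · by_cases hd : d = 0
    · have he : e ≠ 0 := fun he => h ⟨hc, hd, he⟩
      filter_upwards [self_mem_nhdsWithin] with ε hε
      have : (0:ℝ) < ε := hε
      rw [hc, hd]; simp; exact ⟨he, ne_of_gt this⟩
    · have h1 : ∀ᶠ ε : ℝ in 𝓝[>] 0, d + e * ε ≠ 0 := by
        have : Tendsto (fun ε : ℝ => d + e * ε) (𝓝[>] 0) (𝓝 (d + e * 0)) := by
          apply Tendsto.mono_left _ nhdsWithin_le_nhds
          exact (Continuous.tendsto (by fun_prop) 0)
        rw [mul_zero, add_zero] at this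
        exact this.eventually_ne hd
      filter_upwards [h1, self_mem_nhdsWithin] with ε h1 hε
      have hpos : (0:ℝ) < ε := hε
      rw [hc]
      have : 0 + d * ε + e * ε ^ 2 = ε * (d + e * ε) := by ring
      rw [this]
      exact mul_ne_zero (ne_of_gt hpos) h1
  · have : Tendsto (fun ε : ℝ => c + d * ε + e * ε ^ 2) (𝓝[>] 0) (𝓝 (c + d * 0 + e * 0 ^ 2)) := by
      apply Tendsto.mono_left _ nhdsWithin_le_nhds
      exact (Continuous.tendsto (by fun_prop) 0)
    have h2 : c + d * 0 + e * 0 ^ 2 = c := by ring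
    rw [h2] at this
    exact this.eventually_ne hc

lemma ev_neg {c d e : ℝ} (h : c < 0) :
    ∀ᶠ ε : ℝ in 𝓝[>] 0, c + d * ε + e * ε ^ 2 < 0 := by
  have : Tendsto (fun ε : ℝ => c + d * ε + e * ε ^ 2) (𝓝[>] 0) (𝓝 (c + d * 0 + e * 0 ^ 2)) := by
    apply Tendsto.mono_left _ nhdsWithin_le_nhds
    exact (Continuous.tendsto (by fun_prop) 0)
  have h2 : c + d * 0 + e * 0 ^ 2 = c := by ring
  rw [h2] at this
  exact this.eventually_lt_const h

lemma perturb [Finite V] (hne : ∀ a b, a ≠ b → X a ≠ X b ∨ Y a ≠ Y b) (p q : ℝ) :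
    ∃ p' q' : ℝ, (∀ i j, i ≠ j → crs X Y p' q' i j ≠ 0) ∧
      (∀ i j, crs X Y p q i j < 0 → crs X Y p' q' i j < 0) ∧
      (∀ i j, 0 < crs X Y p q i j → 0 < crs X Y p' q' i j) := by
  have key : ∀ i j (ε : ℝ), crs X Y (p + ε) (q + ε ^ 2) i j =
      crs X Y p q i j + (-(Y j - Y i)) * ε + (X j - X i) * ε ^ 2 := by
    intro i j ε; unfold crs; ring
  have h1 : ∀ᶠ ε : ℝ in 𝓝[>] 0, ∀ i j, i ≠ j → crs X Y (p + ε) (q + ε ^ 2) i j ≠ 0 := by
    rw [eventually_all]; intro i
    rw [eventually_all]; intro j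
    by_cases hij : i = j
    · exact Eventually.of_forall (fun ε h => absurd hij h)
    · have : ¬ (crs X Y p q i j = 0 ∧ (-(Y j - Y i)) = 0 ∧ (X j - X i) = 0) := by
        rintro ⟨_, h2, h3⟩
        rcases hne i j hij with h | h
        · exact h (by linarith)
        · exact h (by linarith)
      filter_upwards [ev_quad this] with ε hε _
      rw [key]; exact hε
  have h2 : ∀ᶠ ε : ℝ in 𝓝[>] 0, ∀ i j, crs X Y p q i j < 0 → crs X Y (p + ε) (q + ε ^ 2) i j < 0 := by
    rw [eventually_all]; intro i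
    rw [eventually_all]; intro j
    by_cases hij : crs X Y p q i j < 0
    · filter_upwards [ev_neg (d := (-(Y j - Y i))) (e := (X j - X i)) hij] with ε hε _
      rw [key]; exact hε
    · exact Eventually.of_forall (fun ε h => absurd h hij)
  obtain ⟨ε, h1, h2⟩ := (h1.and h2).exists
  refine ⟨p + ε, q + ε ^ 2, h1, h2, ?_⟩
  intro i j hij
  have := h2 j i (by rw [crs_swap]; linarith)
  rw [crs_swap] at this; linarith

/-- telescoping/extremality at the last visible vertex -/
lemma extreme_pos (p q : ℝ) (s w t c : V) (hs : HullRel X Y s w) (ht : HullRel X Y w t)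
    (hv : crs X Y p q s w < 0) (hh : 0 < crs X Y p q w t) (hc : c ≠ w) : 0 < crs X Y p q w c := by
  by_cases hcs : c = s
  · subst hcs; rw [crs_swap]; linarith
  by_cases hct : c = t
  · subst hct; exact hh
  have h1 : 0 < ori X Y s w c := hs c hcs hc
  have h2 : 0 < ori X Y w t c := ht c hc hct
  have hws : w ≠ s := by rintro rfl; simp [crs] at hv
  have hwt : w ≠ t := by rintro rfl; simp [crs] at hh
  by_cases hst : s = t
  · subst hst
    have : ori X Y w s c = - ori X Y s w c := ori_swap X Y s w c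
    linarith
  have h3 : 0 < ori X Y s w t := hs t (Ne.symm hst) (Ne.symm hwt)
  have id : ori X Y s w t * crs X Y p q w c =
      (- ori X Y w t c) * crs X Y p q s w + ori X Y s w c * crs X Y p q w t := by
    unfold ori crs; ring
  have : 0 < ori X Y s w t * crs X Y p q w c := by
    rw [id]
    have := mul_pos h1 hh
    have := mul_pos h2 (by linarith : 0 < - crs X Y p q s w)
    nlinarith
  exact (mul_pos_iff_of_pos_left h3).1 this

lemma extreme_neg (p q : ℝ) (s a t c : V) (hs : HullRel X Y s a) (ht : HullRel X Y a t)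
    (hh : 0 < crs X Y p q s a) (hv : crs X Y p q a t < 0) (hc : c ≠ a) : crs X Y p q a c < 0 := by
  have h := extreme_pos X Y (-p) (-q) s a t c hs ht
    (by have : crs X Y (-p) (-q) s a = - crs X Y p q s a := by unfold crs; ring
        rw [this]; linarith)
    (by have : crs X Y (-p) (-q) a t = - crs X Y p q a t := by unfold crs; ring
        rw [this]; linarith) hc
  have : crs X Y (-p) (-q) a c = - crs X Y p q a c := by unfold crs; ring
  rw [this] at h; linarith

end gen

end Pool.Agent.MP7a5e6c
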