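import Pool.Agent.MP7a5e6c.DI7
import Pool.Agent.MP7a5e6c.Far

set_option autoImplicit false
open scoped Classical

namespace Pool.Agent.MP7a5e6c

section
variable {V : Type} {X Y : V → ℝ}

/-- the points are distinct -/
def Inj (X Y : V → ℝ) : Prop := ∀ a b, a ≠ b → X a ≠ X b ∨ Y a ≠ Y b

lemma dsq_pos {a b : V} (h : X a ≠ X b ∨ Y a ≠ Y b) : 0 < (X b - X a) ^ 2 + (Y b - Y a) ^ 2 := by
  rcases h with h | h
  · have : X b - X a ≠ 0 := fun h2 => h (by linarith)
    positivity
  · have : Y b - Y a ≠ 0 := fun h2 => h (by linarith)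
    positivity

lemma del_iff' (hi : Inj X Y) {a b : V} (hab : a ≠ b) :
    Del X Y a b ↔ ∃ l : ℝ, ∀ c, c ≠ a → c ≠ b → 0 < dt X Y a b c + l * ori X Y a b c := by
  have hD : 0 < (X b - X a) ^ 2 + (Y b - Y a) ^ 2 := dsq_pos (hi a b hab)
  constructor
  · rintro ⟨p, q, r, h1, h2, h3⟩
    set D := (X b - X a) ^ 2 + (Y b - Y a) ^ 2 with hDd
    refine ⟨-2 * (((q - (Y a + Y b) / 2) * (X b - X a) - (p - (X a + X b) / 2) * (Y b - Y a)) / D), ?_⟩
    intro c hca hcb
    have h := h3 c hca hcb
    have horth : (p - (X a + X b) / 2) * (X b - X a) + (q - (Y a + Y b) / 2) * (Y b - Y a) = 0 := by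
      nlinarith
    set t := ((q - (Y a + Y b) / 2) * (X b - X a) - (p - (X a + X b) / 2) * (Y b - Y a)) / D with ht
    have ht' : t * D = (q - (Y a + Y b) / 2) * (X b - X a) - (p - (X a + X b) / 2) * (Y b - Y a) := by
      rw [ht]; field_simp
    have e1 : p - (X a + X b) / 2 = - t * (Y b - Y a) := by
      have : (p - (X a + X b) / 2) * D = (- t * (Y b - Y a)) * D := by
        have : (- t * (Y b - Y a)) * D = - (Y b - Y a) * (t * D) := by ring
        rw [this, ht', hDd]
        linear_combination (X b - X a) * horth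
      exact mul_right_cancel₀ hD.ne' this
    have e2 : q - (Y a + Y b) / 2 = t * (X b - X a) := by
      have : (q - (Y a + Y b) / 2) * D = (t * (X b - X a)) * D := by
        have : (t * (X b - X a)) * D = (X b - X a) * (t * D) := by ring
        rw [this, ht', hDd]
        linear_combination (Y b - Y a) * horth
      exact mul_right_cancel₀ hD.ne' this
    have ep : p = (X a + X b) / 2 - t * (Y b - Y a) := by linarith
    have eq : q = (Y a + Y b) / 2 + t * (X b - X a) := by linarith
    have hid : dt X Y a b c + (-2 * t) * ori X Y a b c =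
        ((X c - p) ^ 2 + (Y c - q) ^ 2) - ((X a - p) ^ 2 + (Y a - q) ^ 2) := by
      rw [ep, eq]; unfold dt ori; ring
    rw [hid]; linarith
  · rintro ⟨l, h⟩
    refine ⟨(X a + X b) / 2 + l / 2 * (Y b - Y a), (Y a + Y b) / 2 - l / 2 * (X b - X a), _, rfl,
      by ring, ?_⟩
    intro c hca hcb
    have := h c hca hcb
    have hid : dt X Y a b c + l * ori X Y a b c =
        ((X c - ((X a + X b) / 2 + l / 2 * (Y b - Y a))) ^ 2 +
          (Y c - ((Y a + Y b) / 2 - l / 2 * (X b - X a))) ^ 2) -
        ((X a - ((X a + X b) / 2 + l / 2 * (Y b - Y a))) ^ 2 +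
          (Y a - ((Y a + Y b) / 2 - l / 2 * (X b - X a))) ^ 2) := by
      unfold dt ori; ring
    linarith

lemma DTri.del' [Finite V] (hi : Inj X Y) {a b w : V} (h : DTri X Y a b w) : Del X Y b w := by
  have h' := h.rot
  rw [del_iff' hi h.ne.2.2]
  have hpos : 0 < ori X Y b w a := h'.1
  obtain ⟨e, he, hs⟩ := exists_small (V := V)
    (fun c => dt X Y b w c + (- dt X Y b w a / ori X Y b w a) * ori X Y b w c)
    (fun c => ori X Y b w c) (fun c => c ≠ b ∧ c ≠ w ∧ c ≠ a) (by
      rintro c ⟨h1, h2, h3⟩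
      have := h'.2 c h1 h2 h3
      unfold IC at this
      have e1 : dt X Y b w c + (- dt X Y b w a / ori X Y b w a) * ori X Y b w c =
          (dt X Y b w c * ori X Y b w a - dt X Y b w a * ori X Y b w c) / ori X Y b w a := by
        field_simp
        ring
      show 0 < dt X Y b w c + (- dt X Y b w a / ori X Y b w a) * ori X Y b w c
      rw [e1]
      exact div_pos this hpos)
  refine ⟨- dt X Y b w a / ori X Y b w a + e, ?_⟩
  intro c hcb hcw
  by_cases hca : c = a
  · subst hca
    have e1 : dt X Y b w c + (- dt X Y b w c / ori X Y b w c + e) * ori X Y b w c =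
        e * ori X Y b w c := by
      field_simp; ring
    rw [e1]; positivity
  · have := hs c ⟨hcb, hcw, hca⟩
    linarith

lemma on_line {a w c : V} (haw : X a ≠ X w ∨ Y a ≠ Y w) (h : ori X Y a w c = 0) :
    ∃ r : ℝ, X c = X a + r * (X w - X a) ∧ Y c = Y a + r * (Y w - Y a) := by
  unfold ori at h
  by_cases hx : X w - X a = 0
  · have hy : Y w - Y a ≠ 0 := by
      rcases haw with h1 | h1
      · exact absurd (by linarith) h1
      · intro h2; exact h1 (by linarith)
    refine ⟨(Y c - Y a) / (Y w - Y a), ?_, ?_⟩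
    · rw [hx] at h ⊢
      have : (Y w - Y a) * (X c - X a) = 0 := by linarith
      have := (mul_eq_zero.1 this).resolve_left hy
      linarith
    · field_simp; ring
  · refine ⟨(X c - X a) / (X w - X a), ?_, ?_⟩
    · field_simp; ring
    · field_simp; linarith

lemma exists_nbr' [Finite V] (hi : Inj X Y) {G : SimpleGraph V}
    (hD : ∀ a b, a ≠ b → (G.Adj a b ↔ Del X Y a b)) (v : V) (hex : ∃ u, u ≠ v) :
    ∃ r, G.Adj v r := by
  have hfin : (Set.univ : Set {x // x ≠ v}).Nonempty := by
    obtain ⟨u, hu⟩ := hex; exact ⟨⟨u, hu⟩, trivial⟩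
  obtain ⟨⟨c, hc⟩, _, hmin⟩ := Set.exists_min_image (Set.univ : Set {x // x ≠ v})
    (fun x => (X x.1 - X v) ^ 2 + (Y x.1 - Y v) ^ 2) (Set.toFinite _) hfin
  refine ⟨c, (hD v c hc.symm).2 ((del_iff' hi hc.symm).2 ⟨0, ?_⟩)⟩
  intro x hxv hxc
  have h1 := hmin ⟨x, hxv⟩ trivial
  simp only at h1
  rw [zero_mul, add_zero]
  by_contra hc2
  have h2 : dt X Y v c x ≤ 0 := not_lt.1 hc2
  have h3 : (X x - X c) ^ 2 + (Y x - Y c) ^ 2 ≤ 0 := by
    unfold dt at h2
    nlinarith
  have := dsq_pos (hi c x (Ne.symm hxc))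
  linarith

/-- two Delaunay pairs do not cross -/
lemma del_nocross (hi : Inj X Y) {a b c d : V} (hab : a ≠ b) (hcd : c ≠ d) (h1 : Del X Y a b)
    (h2 : Del X Y c d) : ¬ Cr X Y a b c d := by
  intro hcr
  obtain ⟨l, hl⟩ := (del_iff' hi hab).1 h1
  obtain ⟨l', hl'⟩ := (del_iff' hi hcd).1 h2
  have hac : a ≠ c := fun h => not_Cr_share X Y a b c d (Or.inl h) hcr
  have had : a ≠ d := fun h => not_Cr_share X Y a b c d (Or.inr (Or.inl h)) hcr
  have hbc : b ≠ c := fun h => not_Cr_share X Y a b c d (Or.inr (Or.inr (Or.inl h))) hcr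
  have hbd : b ≠ d := fun h => not_Cr_share X Y a b c d (Or.inr (Or.inr (Or.inr h))) hcr
  have pc := hl c hac.symm hbc.symm
  have pd := hl d had.symm hbd.symm
  have pa := hl' a hac had
  have pb := hl' b hbc hbd
  have key := cross_aff (X := X) (Y := Y) a b c d a b l l'
  have zc : dt X Y c d c + l' * ori X Y c d c = 0 := by unfold dt ori; ring
  have zd : dt X Y c d d + l' * ori X Y c d d = 0 := by unfold dt ori; ring
  have za : dt X Y a b a + l * ori X Y a b a = 0 := by unfold dt ori; ring
  have zb : dt X Y a b b + l * ori X Y a b b = 0 := by unfold dt ori; ring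
  rw [zc, zd, za, zb] at key
  simp only [zero_sub, sub_zero] at key
  obtain ⟨c1, c2⟩ := hcr
  have hid2 : ori X Y c d b - ori X Y c d a = ori X Y a b c - ori X Y a b d := by
    unfold ori; ring
  rcases lt_or_gt_of_ne (show ori X Y a b c ≠ 0 by rintro h; rw [h] at c1; simp at c1) with s | s
  · have s2 : 0 < ori X Y a b d := by nlinarith
    have s3 : 0 < ori X Y c d a ∧ ori X Y c d b < 0 := by
      constructor <;> nlinarith
    nlinarith [mul_pos (neg_pos.2 s) pd, mul_pos s2 pc, mul_pos s3.1 pb, mul_pos (neg_pos.2 s3.2) pa]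
  · have s2 : ori X Y a b d < 0 := by nlinarith
    have s3 : ori X Y c d a < 0 ∧ 0 < ori X Y c d b := by
      constructor <;> nlinarith
    nlinarith [mul_pos s pd, mul_pos (neg_pos.2 s2) pc, mul_pos (neg_pos.2 s3.1) pb,
      mul_pos s3.2 pa]

end

section
variable {n : ℕ} (f : Fin n → Pt) {G : SimpleGraph (Fin n)}

/-- four points on an empty circle contradict maximality -/
lemma no_tie' (hT : IsTri f G) (hi : Inj (cX f) (cY f))
    (hD : ∀ a b, a ≠ b → (G.Adj a b ↔ Del (cX f) (cY f) a b)) {a b w c : Fin n}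
    (h1 : 0 < ori (cX f) (cY f) a b w) (hcw : c ≠ w) (hca : c ≠ a)
    (h3 : IC (cX f) (cY f) a b w c = 0)
    (hbc : ori (cX f) (cY f) a w b * ori (cX f) (cY f) a w c < 0)
    (hall : ∀ x, 0 ≤ IC (cX f) (cY f) a b w x) : False := by
  set X := cX f with hX
  set Y := cY f with hY
  have hne := ne_of_ori h1.ne'
  have haw := hne.2.1
  have hnadj : ¬ G.Adj a w := by
    intro hadj
    rw [hD a w haw, del_iff' hi haw] at hadj
    obtain ⟨l, hl⟩ := hadj
    have k1 := hl b hne.1.symm hne.2.2
    have k2 := hl c hca hcw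
    have hid : dt X Y a w b * ori X Y a w c - dt X Y a w c * ori X Y a w b = IC X Y a b w c := by
      unfold IC dt ori; ring
    rw [h3] at hid
    rcases lt_or_gt_of_ne (show ori X Y a w b ≠ 0 by rintro h; rw [h] at hbc; simp at hbc) with s | s
    · have s2 : 0 < ori X Y a w c := by nlinarith
      nlinarith [mul_pos k1 s2, mul_pos k2 (neg_pos.2 s)]
    · have s2 : ori X Y a w c < 0 := by nlinarith
      nlinarith [mul_pos k1 (neg_pos.2 s2), mul_pos k2 s]
  apply hnadj
  have hd := dsq_pos (hi a w haw)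
  -- power of a point on the line `a w`
  have hline : ∀ u s, X u = X a + s * (X w - X a) → Y u = Y a + s * (Y w - Y a) →
      IC X Y a b w u = ori X Y a b w * (s * (s - 1) * ((X w - X a) ^ 2 + (Y w - Y a) ^ 2)) := by
    intro u s e1 e2
    unfold IC dt ori
    rw [e1, e2]; ring
  have hpt : ∀ u v : Fin n, X u = X v → Y u = Y v → u = v := by
    intro u v e1 e2
    by_contra hne
    rcases hi u v hne with h | h
    · exact h e1
    · exact h e2
  apply hT.2.2 a w haw
  · intro u hua huw hu
    obtain ⟨s, s0, s1, e1, e2⟩ := seg_ab f hu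
    have e1' : X u = X a + s * (X w - X a) := e1
    have e2' : Y u = Y a + s * (Y w - Y a) := e2
    have h5 := hall u
    rw [hline u s e1' e2'] at h5
    have h6 : 0 ≤ s * (s - 1) * ((X w - X a) ^ 2 + (Y w - Y a) ^ 2) :=
      nonneg_of_mul_nonneg_right h5 h1
    have h7 : 0 ≤ s * (s - 1) := nonneg_of_mul_nonneg_left h6 hd
    have h8 : s * (s - 1) = 0 := le_antisymm (mul_nonpos_of_nonneg_of_nonpos s0 (by linarith)) h7
    rcases mul_eq_zero.1 h8 with h | h
    · exact hua (hpt u a (by rw [e1', h]; ring) (by rw [e2', h]; ring))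
    · have hs1 : s = 1 := by linarith
      exact huw (hpt u w (by rw [e1', hs1]; ring) (by rw [e2', hs1]; ring))
  · intro x y hxy hne2 P hP
    obtain ⟨l', hl'⟩ := (del_iff' hi hxy.ne).1 ((hD x y hxy.ne).1 hxy)
    obtain ⟨s, s0, s1, e1, e2⟩ := seg_ab f hP.1
    obtain ⟨r, r0, r1, e3, e4⟩ := seg_ab f hP.2
    -- the affine function
    set l := - dt X Y a b w / ori X Y a b w with hl
    let A : ℝ → ℝ → ℝ := fun px py =>
      ((X a - px) * (X b - px) + (Y a - py) * (Y b - py) +
        l * ((X b - X a) * (py - Y a) - (Y b - Y a) * (px - X a))) -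
      ((X x - px) * (X y - px) + (Y x - py) * (Y y - py) +
        l' * ((X y - X x) * (py - Y x) - (Y y - Y x) * (px - X x)))
    have hA : ∀ (u v : Fin n) (s : ℝ), A (X u + s * (X v - X u)) (Y u + s * (Y v - Y u)) =
        (1 - s) * A (X u) (Y u) + s * A (X v) (Y v) := by
      intro u v s; simp only [A]; ring
    have hAv : ∀ z, A (X z) (Y z) = IC X Y a b w z / ori X Y a b w -
        (dt X Y x y z + l' * ori X Y x y z) := by
      intro z
      have : (X a - X z) * (X b - X z) + (Y a - Y z) * (Y b - Y z) +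
        l * ((X b - X a) * (Y z - Y a) - (Y b - Y a) * (X z - X a)) =
          IC X Y a b w z / ori X Y a b w := by
        rw [hl]; unfold IC; rw [eq_div_iff h1.ne']
        have e5 : - dt X Y a b w / ori X Y a b w *
          ((X b - X a) * (Y z - Y a) - (Y b - Y a) * (X z - X a)) * ori X Y a b w =
          - dt X Y a b w * ori X Y a b z := by
          unfold ori at h1 ⊢
          field_simp
        rw [add_mul, e5]; unfold dt; ring
      simp only [A]
      rw [this]; unfold dt ori; ring
    have hax : A (X x) (Y x) = IC X Y a b w x / ori X Y a b w := by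
      rw [hAv]; have : dt X Y x y x + l' * ori X Y x y x = 0 := by unfold dt ori; ring
      rw [this]; ring
    have hay : A (X y) (Y y) = IC X Y a b w y / ori X Y a b w := by
      rw [hAv]; have : dt X Y x y y + l' * ori X Y x y y = 0 := by unfold dt ori; ring
      rw [this]; ring
    have hx0 : 0 ≤ A (X x) (Y x) := by rw [hax]; exact div_nonneg (hall x) h1.le
    have hy0 : 0 ≤ A (X y) (Y y) := by rw [hay]; exact div_nonneg (hall y) h1.le
    have za : IC X Y a b w a = 0 := by unfold IC dt ori; ring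
    have zw : IC X Y a b w w = 0 := by unfold IC dt ori; ring
    have hneg : ∀ z, IC X Y a b w z = 0 → z ≠ x → z ≠ y → A (X z) (Y z) < 0 := by
      intro z hz h6 h7
      rw [hAv, hz]; have := hl' z h6 h7
      simp only [zero_div, zero_sub]; linarith
    have hle : ∀ z, IC X Y a b w z = 0 → A (X z) (Y z) ≤ 0 := by
      intro z hz
      by_cases h6 : z = x
      · subst h6; rw [hax, hz]; simp
      by_cases h7 : z = y
      · subst h7; rw [hay, hz]; simp
      exact (hneg z hz h6 h7).le
    have hz1 : A (P 0) (P 1) = (1 - s) * A (X a) (Y a) + s * A (X w) (Y w) := by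
      rw [e1, e2]; exact hA a w s
    have hz2 : A (P 0) (P 1) = (1 - r) * A (X x) (Y x) + r * A (X y) (Y y) := by
      rw [e3, e4]; exact hA x y r
    have hsum : 0 ≤ (1 - s) * A (X a) (Y a) + s * A (X w) (Y w) := by
      rw [← hz1, hz2]
      have := mul_nonneg (by linarith : 0 ≤ 1 - r) hx0
      have := mul_nonneg r0 hy0
      linarith
    have ta : (1 - s) * A (X a) (Y a) ≤ 0 :=
      mul_nonpos_of_nonneg_of_nonpos (by linarith) (hle a za)
    have tw : s * A (X w) (Y w) ≤ 0 := mul_nonpos_of_nonneg_of_nonpos s0 (hle w zw)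
    have ta0 : (1 - s) * A (X a) (Y a) = 0 := by linarith
    have tw0 : s * A (X w) (Y w) = 0 := by linarith
    have hmem : ∀ z, ¬ (A (X z) (Y z) < 0) → IC X Y a b w z = 0 → z = x ∨ z = y := by
      intro z h6 h7
      by_contra hc
      push Not at hc
      exact h6 (hneg z h7 hc.1 hc.2)
    by_cases hs0 : s = 0
    · have hPa : P = f a := point_eq f (by rw [e1, hs0]; ring) (by rw [e2, hs0]; ring)
      have h8 : A (X a) (Y a) = 0 := by rw [hs0] at ta0; linarith
      rcases hmem a (by rw [h8]; exact lt_irrefl 0) za with h | h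
      · rw [hPa]; refine ⟨Or.inl rfl, Or.inl (by rw [h])⟩
      · rw [hPa]; refine ⟨Or.inl rfl, Or.inr (by rw [h]; rfl)⟩
    by_cases hs1 : s = 1
    · have hPw : P = f w := point_eq f (by rw [e1, hs1]; ring) (by rw [e2, hs1]; ring)
      have h8 : A (X w) (Y w) = 0 := by rw [hs1] at tw0; linarith
      rcases hmem w (by rw [h8]; exact lt_irrefl 0) zw with h | h
      · rw [hPw]; refine ⟨Or.inr rfl, Or.inl (by rw [h])⟩
      · rw [hPw]; refine ⟨Or.inr rfl, Or.inr (by rw [h]; rfl)⟩
    exfalso
    have h8 : A (X a) (Y a) = 0 := by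
      rcases mul_eq_zero.1 ta0 with h | h
      · exact absurd (by linarith) hs1
      · exact h
    have h9 : A (X w) (Y w) = 0 := by
      rcases mul_eq_zero.1 tw0 with h | h
      · exact absurd h hs0
      · exact h
    rcases hmem a (by rw [h8]; exact lt_irrefl 0) za with h | h <;>
      rcases hmem w (by rw [h9]; exact lt_irrefl 0) zw with h' | h'
    · exact haw (h.trans h'.symm)
    · exact hne2 (by rw [h, h'])
    · exact hne2 (by rw [h, h']; exact Sym2.eq_swap)
    · exact haw (h.trans h'.symm)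

/-- the empty triangle on the left of an edge -/
lemma apex' (hT : IsTri f G) (hi : Inj (cX f) (cY f))
    (hD : ∀ a b, a ≠ b → (G.Adj a b ↔ Del (cX f) (cY f) a b)) {a b : Fin n} (hab : G.Adj a b)
    (hex : ∃ x, 0 < ori (cX f) (cY f) a b x) : ∃ w, DTri (cX f) (cY f) a b w := by
  set X := cX f with hX
  set Y := cY f with hY
  have hdel := hab
  rw [hD a b hab.ne, del_iff' hi hab.ne] at hdel
  obtain ⟨l, hl⟩ := hdel
  have hfin : (Set.univ : Set {x // 0 < ori X Y a b x}).Nonempty := by
    obtain ⟨x, hx⟩ := hex; exact ⟨⟨x, hx⟩, trivial⟩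
  obtain ⟨⟨w, hw⟩, _, hmin⟩ := Set.exists_min_image (Set.univ : Set {x // 0 < ori X Y a b x})
    (fun x => dt X Y a b x.1 / ori X Y a b x.1) (Set.toFinite _) hfin
  have hwne := ne_of_ori hw.ne'
  have hpos : ∀ x, x ≠ a → x ≠ b → ori X Y a b x ≤ 0 → 0 < IC X Y a b w x := by
    intro x hxa hxb h
    have k1 := hl x hxa hxb
    have k2 := hl w hwne.2.1.symm hwne.2.2.symm
    unfold IC
    nlinarith [mul_pos k1 hw, mul_nonneg k2.le (neg_nonneg.2 h)]
  have hge : ∀ x, 0 ≤ IC X Y a b w x := by
    intro x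
    by_cases hxa : x = a
    · subst hxa; have : IC X Y x b w x = 0 := by unfold IC dt ori; ring
      linarith
    by_cases hxb : x = b
    · subst hxb; have : IC X Y a x w x = 0 := by unfold IC dt ori; ring
      linarith
    rcases le_or_gt (ori X Y a b x) 0 with h | h
    · exact (hpos x hxa hxb h).le
    · have := hmin ⟨x, h⟩ trivial
      simp only at this
      rw [div_le_div_iff₀ hw h] at this
      unfold IC; linarith
  refine ⟨w, hw, ?_⟩
  intro c hca hcb hcw
  rcases (hge c).lt_or_eq with h | h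
  · exact h
  exfalso
  have hzero : IC X Y a b w c = 0 := h.symm
  have hc0 : 0 < ori X Y a b c := by
    by_contra hc
    have := hpos c hca hcb (not_lt.1 hc)
    linarith
  have hd := dsq_pos (hi a w hwne.2.1)
  have hne2 : ori X Y a w c ≠ 0 := by
    intro h0
    obtain ⟨s, e1, e2⟩ := on_line (hi a w hwne.2.1) h0
    have h5 : IC X Y a b w c = ori X Y a b w * (s * (s - 1) * ((X w - X a) ^ 2 + (Y w - Y a) ^ 2)) := by
      unfold IC dt ori
      rw [e1, e2]; ring
    rw [hzero] at h5
    have h6 : s * (s - 1) = 0 := by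
      rcases mul_eq_zero.1 h5.symm with h | h
      · linarith
      · rcases mul_eq_zero.1 h with h | h
        · exact h
        · linarith
    rcases mul_eq_zero.1 h6 with h | h
    · rcases hi c a hca with g | g
      · exact g (by rw [e1, h]; ring)
      · exact g (by rw [e2, h]; ring)
    · have hs : s = 1 := by linarith
      rcases hi c w hcw with g | g
      · exact g (by rw [e1, hs]; ring)
      · exact g (by rw [e2, hs]; ring)
  rcases lt_or_gt_of_ne hne2 with h2 | h2
  · have hge' : ∀ x, 0 ≤ IC X Y a b c x := by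
      intro x
      have h4 := hge x
      have hid : IC X Y a b c x * ori X Y a b w =
          IC X Y a b w x * ori X Y a b c + IC X Y a b c w * ori X Y a b x := by
        unfold IC; ring
      have h5 : IC X Y a b c w = 0 := by rw [IC_swap, hzero]; simp
      rw [h5] at hid
      have : 0 ≤ IC X Y a b c x * ori X Y a b w := by
        rw [hid]; have := mul_nonneg h4 hc0.le; linarith
      exact nonneg_of_mul_nonneg_left this hw
    refine no_tie' f hT hi hD (a := a) (b := b) (w := c) (c := w) hc0 (Ne.symm hcw)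
      hwne.2.1.symm (by rw [IC_swap, hzero]; simp) ?_ hge'
    have e1 : ori X Y a c b = - ori X Y a b c := by unfold ori; ring
    have e2 : ori X Y a c w = - ori X Y a w c := by unfold ori; ring
    rw [← hX, ← hY, e1, e2]
    nlinarith
  · refine no_tie' f hT hi hD (a := a) (b := b) (w := w) (c := c) hw hcw hca hzero ?_ hge
    have e1 : ori X Y a w b = - ori X Y a b w := by unfold ori; ring
    rw [← hX, ← hY, e1]
    nlinarith

end

end Pool.Agent.MP7a5e6c
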