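import Pool.Agent.MP7a5e6c.DI8

set_option autoImplicit false
open scoped Classical Topology
open Filter

namespace Pool.Agent.MP7a5e6c

section
variable {V : Type} {X Y : V → ℝ}

lemma inside_false {a r s b : V} (h : DTri X Y a r s) (h1 : 0 < ori X Y a r b)
    (h2 : 0 < ori X Y r s b) (h3 : 0 < ori X Y s a b) : False := by
  have n1 := ne_of_ori h1.ne'
  have n2 := ne_of_ori h2.ne'
  have hIC := h.2 b n1.2.1.symm n1.2.2.symm n2.2.2.symm
  have id1 : IC X Y a r s b * ori X Y a r s =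
      -(ori X Y r s b * ori X Y s a b * ((X a - X r) ^ 2 + (Y a - Y r) ^ 2) +
        ori X Y s a b * ori X Y a r b * ((X r - X s) ^ 2 + (Y r - Y s) ^ 2) +
        ori X Y a r b * ori X Y r s b * ((X s - X a) ^ 2 + (Y s - Y a) ^ 2)) := by
    unfold IC dt ori; ring
  have p1 := mul_pos hIC h.1
  have q1 : 0 ≤ ori X Y r s b * ori X Y s a b * ((X a - X r) ^ 2 + (Y a - Y r) ^ 2) := by positivity
  have q2 : 0 ≤ ori X Y s a b * ori X Y a r b * ((X r - X s) ^ 2 + (Y r - Y s) ^ 2) := by positivity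
  have q3 : 0 ≤ ori X Y a r b * ori X Y r s b * ((X s - X a) ^ 2 + (Y s - Y a) ^ 2) := by positivity
  linarith

/-- maximality from the local structure -/
lemma max_of_Q [Finite V] (hgp : GP X Y) {G : SimpleGraph V}
    (Q : ∀ a r, G.Adj a r → (∃ s, DTri X Y a r s ∧ G.Adj a s ∧ G.Adj r s) ∨
      (∀ x, ori X Y a r x ≤ 0)) {a b : V} (hab : a ≠ b) (hn : ¬ G.Adj a b) (r0 : V)
    (hr0 : G.Adj a r0) : ∃ r s, G.Adj r s ∧ Cr X Y a b r s := by
  have hnb : ∀ r, G.Adj a r → r ≠ b := by rintro r h rfl; exact hn h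
  by_cases hL : ∃ r, G.Adj a r ∧ 0 < ori X Y a r b
  · obtain ⟨r, ⟨hr, hrb⟩, hmax⟩ := Set.exists_max_image {r | G.Adj a r ∧ 0 < ori X Y a r b}
      (fun r => dt X Y r b a / ori X Y a r b) (Set.toFinite _) hL
    rcases Q a r hr with ⟨s, hs, has, hrs⟩ | hQ
    swap
    · exact absurd hrb (not_lt.2 (hQ b))
    have hsb := hnb s has
    have hrb' := hnb r hr
    have hneg : ori X Y a s b < 0 := by
      by_contra hc
      have hpos : 0 < ori X Y a s b :=
        lt_of_le_of_ne (not_lt.1 hc) (hgp.2 a s b has.ne hab hsb).symm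
      have h1 := hmax s ⟨has, hpos⟩
      rw [div_le_div_iff₀ hpos hrb] at h1
      have id1 : dt X Y s b a * ori X Y a r b - dt X Y r b a * ori X Y a s b =
          ((X b - X a) ^ 2 + (Y b - Y a) ^ 2) * ori X Y a r s := by
        unfold dt ori; ring
      have := mul_pos (dsq_pos (hgp.1 a b hab)) hs.1
      linarith
    have hrsb : ori X Y r s b < 0 := by
      by_contra hc
      have hpos : 0 < ori X Y r s b :=
        lt_of_le_of_ne (not_lt.1 hc) (hgp.2 r s b hrs.ne hrb' hsb).symm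
      exact inside_false hs hrb hpos (by rw [ori_swap]; linarith)
    refine ⟨r, s, hrs, ?_, ?_⟩
    · have e1 : ori X Y a b r = - ori X Y a r b := by unfold ori; ring
      have e2 : ori X Y a b s = - ori X Y a s b := by unfold ori; ring
      rw [e1, e2]; nlinarith
    · have e1 : ori X Y r s a = ori X Y a r s := by unfold ori; ring
      rw [e1]; exact mul_neg_of_pos_of_neg hs.1 hrsb
  · push Not at hL
    have hlt : ∀ r, G.Adj a r → ori X Y a r b < 0 := fun r hr =>
      lt_of_le_of_ne (hL r hr) (hgp.2 a r b hr.ne hab (hnb r hr))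
    obtain ⟨r, hr, hmax⟩ := Set.exists_max_image {r | G.Adj a r}
      (fun r => dt X Y r b a / (- ori X Y a r b)) (Set.toFinite _) ⟨r0, hr0⟩
    have hr' : G.Adj a r := hr
    have hrb := hlt r hr'
    rcases Q r a hr'.symm with ⟨s, hs, hrs, has⟩ | hQ
    swap
    · have := hQ b
      rw [ori_swap] at this
      linarith
    have h2 := hlt s has
    have h1 := hmax s has
    rw [div_le_div_iff₀ (by linarith) (by linarith)] at h1
    have id1 : dt X Y s b a * (- ori X Y a r b) - dt X Y r b a * (- ori X Y a s b) =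
        ((X b - X a) ^ 2 + (Y b - Y a) ^ 2) * ori X Y r a s := by
      unfold dt ori; ring
    have := mul_pos (dsq_pos (hgp.1 a b hab)) hs.1
    linarith

def gx (X Y : V → ℝ) (ox oy : ℝ) (v : V) : ℝ := ((X v - ox) ^ 2 + (Y v - oy) ^ 2) * (X v - ox)
def gy (X Y : V → ℝ) (ox oy : ℝ) (v : V) : ℝ := ((X v - ox) ^ 2 + (Y v - oy) ^ 2) * (Y v - oy)
def PX (X Y : V → ℝ) (ox oy t : ℝ) (v : V) : ℝ := X v - t * gx X Y ox oy v
def PY (X Y : V → ℝ) (ox oy t : ℝ) (v : V) : ℝ := Y v - t * gy X Y ox oy v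

/-- orientation of `a`, `b` and the point `(ox, oy)` -/
def LL (X Y : V → ℝ) (ox oy : ℝ) (a b : V) : ℝ :=
  (X b - X a) * (oy - Y a) - (Y b - Y a) * (ox - X a)

def KK (X Y : V → ℝ) (ox oy : ℝ) (a b c : V) : ℝ :=
  -((X b - X a) * (gy X Y ox oy c - gy X Y ox oy a) - (Y b - Y a) * (gx X Y ox oy c - gx X Y ox oy a)
    + (gx X Y ox oy b - gx X Y ox oy a) * (Y c - Y a)
    - (gy X Y ox oy b - gy X Y ox oy a) * (X c - X a))

def MM (X Y : V → ℝ) (ox oy : ℝ) (a b c : V) : ℝ :=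
  (gx X Y ox oy b - gx X Y ox oy a) * (gy X Y ox oy c - gy X Y ox oy a)
    - (gy X Y ox oy b - gy X Y ox oy a) * (gx X Y ox oy c - gx X Y ox oy a)

lemma ori_P (ox oy t : ℝ) (a b c : V) : ori (PX X Y ox oy t) (PY X Y ox oy t) a b c =
    ori X Y a b c + KK X Y ox oy a b c * t + MM X Y ox oy a b c * t ^ 2 := by
  unfold ori KK MM PX PY; ring

lemma KK_line (ox oy r : ℝ) (a b c : V) (h1 : X c = X a + r * (X b - X a))
    (h2 : Y c = Y a + r * (Y b - Y a)) : KK X Y ox oy a b c =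
      LL X Y ox oy a b * ((X b - X a) ^ 2 + (Y b - Y a) ^ 2) * (r * (r - 1)) := by
  unfold KK LL gx gy; rw [h1, h2]; ring

lemma exists_o [Finite V] (hi : Inj X Y) (x y z : V) (hxyz : ori X Y x y z ≠ 0) :
    ∃ ox oy : ℝ, (∀ a b, a ≠ b → LL X Y ox oy a b ≠ 0) ∧
      (∀ a b, a ≠ b → (∀ w, ori X Y a b w ≤ 0) → LL X Y ox oy a b < 0) := by
  have key : ∀ (s : ℝ) (a b : V), LL X Y (X x + s * (X y - X x) + s ^ 2 * (X z - X x))
      (Y x + s * (Y y - Y x) + s ^ 2 * (Y z - Y x)) a b =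
      ori X Y a b x + (ori X Y a b y - ori X Y a b x) * s +
        (ori X Y a b z - ori X Y a b x) * s ^ 2 := by
    intro s a b; unfold LL ori; ring
  have h1 : ∀ᶠ s : ℝ in 𝓝[>] 0, ∀ a b : V, a ≠ b →
      LL X Y (X x + s * (X y - X x) + s ^ 2 * (X z - X x))
      (Y x + s * (Y y - Y x) + s ^ 2 * (Y z - Y x)) a b ≠ 0 := by
    rw [eventually_all]; intro a
    rw [eventually_all]; intro b
    by_cases hab : a = b
    · exact Eventually.of_forall (fun s h => absurd hab h)
    have hno : ¬ (ori X Y a b x = 0 ∧ (ori X Y a b y - ori X Y a b x) = 0 ∧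
        (ori X Y a b z - ori X Y a b x) = 0) := by
      rintro ⟨e1, e2, e3⟩
      obtain ⟨r1, p1, p2⟩ := on_line (hi a b hab) e1
      obtain ⟨r2, p3, p4⟩ := on_line (hi a b hab) (show ori X Y a b y = 0 by linarith)
      obtain ⟨r3, p5, p6⟩ := on_line (hi a b hab) (show ori X Y a b z = 0 by linarith)
      apply hxyz
      unfold ori
      rw [p1, p2, p3, p4, p5, p6]; ring
    filter_upwards [ev_quad hno] with s hs _
    rw [key]; exact hs
  have h2 : ∀ᶠ s : ℝ in 𝓝[>] 0, s < 1 / 2 := by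
    have : ∀ᶠ s : ℝ in 𝓝 0, s < 1 / 2 := eventually_lt_nhds (by norm_num)
    exact this.filter_mono nhdsWithin_le_nhds
  obtain ⟨s, hs1, hs2, hs3⟩ := (h1.and (h2.and self_mem_nhdsWithin)).exists
  have hs3' : (0 : ℝ) < s := hs3
  refine ⟨_, _, hs1, ?_⟩
  intro a b hab hle
  refine lt_of_le_of_ne ?_ (hs1 a b hab)
  rw [key]
  have q1 := hle x
  have q2 := hle y
  have q3 := hle z
  have q4 : 0 < 1 - s - s ^ 2 := by nlinarith
  nlinarith [mul_nonneg q4.le (neg_nonneg.2 q1), mul_nonneg hs3'.le (neg_nonneg.2 q2),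
    mul_nonneg (sq_nonneg s) (neg_nonneg.2 q3)]

lemma ev_cont (F : ℝ → ℝ) (hF : Continuous F) (h : 0 < F 0) : ∀ᶠ t : ℝ in 𝓝[>] 0, 0 < F t := by
  have : Tendsto F (𝓝[>] 0) (𝓝 (F 0)) := (hF.tendsto 0).mono_left nhdsWithin_le_nhds
  exact this.eventually_const_lt h

lemma PX_zero (ox oy : ℝ) : PX X Y ox oy 0 = X := by funext v; simp [PX]
lemma PY_zero (ox oy : ℝ) : PY X Y ox oy 0 = Y := by funext v; simp [PY]

end

section
variable {n : ℕ} (f : Fin n → Pt) {G : SimpleGraph (Fin n)}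

/-- an outer vertex has a neighbour that is extreme -/
lemma extreme_nbr {v : Fin n} (hv : Outer f v) (r0 : Fin n) (hr0 : G.Adj v r0) :
    ∃ r, G.Adj v r ∧ ∀ r', G.Adj v r' → ori (cX f) (cY f) v r r' ≤ 0 := by
  set X := cX f with hX
  set Y := cY f with hY
  obtain ⟨p, q, hpq, h⟩ := hv
  have hN : 0 < p ^ 2 + q ^ 2 := by
    rcases hpq with h | h
    · positivity
    · positivity
  let al : Fin n → ℝ := fun w => p * (X w - X v) + q * (Y w - Y v)
  let be : Fin n → ℝ := fun w => -q * (X w - X v) + p * (Y w - Y v)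
  have hal : ∀ w, al w ≤ 0 := by
    intro w
    have h1 := h w
    have h2 : p * X w + q * Y w ≤ p * X v + q * Y v := h1
    show p * (X w - X v) + q * (Y w - Y v) ≤ 0
    linarith
  have hid : ∀ r r', ori X Y v r r' * (p ^ 2 + q ^ 2) = al r * be r' - be r * al r' := by
    intro r r'; simp only [al, be]; unfold ori; ring
  have hfin : ∀ r r', al r * be r' - be r * al r' ≤ 0 → ori X Y v r r' ≤ 0 := by
    intro r r' h1
    rw [← hid] at h1
    by_contra hc
    push Not at hc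
    have := mul_pos hc hN
    linarith
  by_cases hA : ∃ r, G.Adj v r ∧ al r = 0 ∧ be r < 0
  · obtain ⟨r, h1, h2, h3⟩ := hA
    refine ⟨r, h1, fun r' _ => hfin r r' ?_⟩
    rw [h2]
    have := mul_nonneg (neg_nonneg.2 h3.le) (neg_nonneg.2 (hal r'))
    linarith
  push Not at hA
  by_cases hB : ∃ r, G.Adj v r ∧ al r < 0
  · obtain ⟨r, ⟨h1, h2⟩, hmax⟩ := Set.exists_max_image {r | G.Adj v r ∧ al r < 0}
      (fun r => be r / al r) (Set.toFinite _) hB
    refine ⟨r, h1, fun r' h1' => hfin r r' ?_⟩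
    rcases (hal r').lt_or_eq with h3 | h3
    · have h4 := hmax r' ⟨h1', h3⟩
      have h5 := mul_le_mul_of_nonneg_right h4 (mul_pos_of_neg_of_neg h2 h3).le
      have e1 : be r' / al r' * (al r * al r') = be r' * al r := by
        field_simp [h3.ne]
      have e2 : be r / al r * (al r * al r') = be r * al r' := by
        field_simp [h2.ne]
      have h6 : be r' * al r ≤ be r * al r' := by
        rw [← e1, ← e2]; exact h5
      linarith
    · have h4 := hA r' h1' h3
      rw [h3]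
      have := mul_nonneg (neg_nonneg.2 h2.le) h4
      linarith
  · push Not at hB
    refine ⟨r0, hr0, fun r' h1' => hfin r0 r' ?_⟩
    have e1 : al r0 = 0 := le_antisymm (hal r0) (hB r0 hr0)
    have e2 : al r' = 0 := le_antisymm (hal r') (hB r' h1')
    rw [e1, e2]; simp

end

end Pool.Agent.MP7a5e6c
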