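import Pool.Agent.MP7a5e6c.HCDefs

set_option autoImplicit false
open scoped Classical

namespace Pool.Agent.MP7a5e6c

/-- the order `HCO` together with slopes of the two tangents of every vertex -/
inductive HS (D α β : ℕ → ℝ) : (n : ℕ) → SimpleGraph (Fin n) → List (Fin n) → List (Fin n) → Prop
  | base : β 2 - α 2 = D 2 → HS D α β 3 ⊤ [2, 0] [2, 1]
  | add {n : ℕ} {G : SimpleGraph (Fin n)} {S T A B : List (Fin n)} {u w : Fin n} :
      HS D α β n G (S ++ u :: A) (T ++ w :: B) → (S ≠ [] ∨ T ≠ []) →
      (S ++ [u]).IsChain (fun (v _ : Fin n) => β n < β v) → (u :: A).IsChain (fun (v _ : Fin n) => β v < β n) →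
      (T ++ [w]).IsChain (fun (v _ : Fin n) => α v < α n) → (w :: B).IsChain (fun (v _ : Fin n) => α n < α v) →
      β n - α n = D n →
      HS D α β (n + 1) (addVertex G (S ++ u :: (T ++ [w])))
        (Fin.last n :: (u :: A).map Fin.castSucc) (Fin.last n :: (w :: B).map Fin.castSucc)

structure Facts (n : ℕ) (L R : List (Fin n)) : Prop where
  three : 3 ≤ n
  headL : ∃ a : Fin n, (a : ℕ) + 1 = n ∧ L.head? = some a
  headR : ∃ a : Fin n, (a : ℕ) + 1 = n ∧ R.head? = some a
  lastL : ∃ a : Fin n, (a : ℕ) = 0 ∧ L.getLast? = some a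
  lastR : ∃ a : Fin n, (a : ℕ) = 1 ∧ R.getLast? = some a
  ndL : L.Nodup
  ndR : R.Nodup

lemma last_notMem {n : ℕ} (l : List (Fin n)) : Fin.last n ∉ l.map Fin.castSucc := by
  intro h
  obtain ⟨x, _, hx⟩ := List.mem_map.1 h
  exact absurd hx (Fin.castSucc_lt_last x).ne

lemma getLast_step {n : ℕ} {S A : List (Fin n)} {u : Fin n} {k : ℕ}
    (h : ∃ a : Fin n, (a : ℕ) = k ∧ (S ++ u :: A).getLast? = some a) :
    ∃ a : Fin (n + 1), (a : ℕ) = k ∧
      (Fin.last n :: (u :: A).map Fin.castSucc).getLast? = some a := by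
  obtain ⟨a, ha, h⟩ := h
  refine ⟨a.castSucc, ha, ?_⟩
  rw [List.getLast?_append] at h
  have h2 : (u :: A).getLast? = some a := by
    cases hh : (u :: A).getLast? with
    | none => simp at hh
    | some b => rw [hh] at h; simpa using h
  rw [List.map_cons, List.getLast?_cons_cons, ← List.map_cons, List.getLast?_map, h2]
  rfl

lemma facts_step {n : ℕ} {S T A B : List (Fin n)} {u w : Fin n}
    (h : Facts n (S ++ u :: A) (T ++ w :: B)) :
    Facts (n + 1) (Fin.last n :: (u :: A).map Fin.castSucc)
      (Fin.last n :: (w :: B).map Fin.castSucc) := by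
  refine ⟨by have := h.three; omega, ⟨Fin.last n, by simp, rfl⟩, ⟨Fin.last n, by simp, rfl⟩,
    getLast_step h.lastL, getLast_step h.lastR, ?_, ?_⟩
  · rw [List.nodup_cons]
    exact ⟨last_notMem _, (List.nodup_append.1 h.ndL).2.1.map (Fin.castSucc_injective n)⟩
  · rw [List.nodup_cons]
    exact ⟨last_notMem _, (List.nodup_append.1 h.ndR).2.1.map (Fin.castSucc_injective n)⟩

lemma facts_base : Facts 3 [2, 0] [2, 1] :=
  ⟨le_refl _, ⟨2, rfl, rfl⟩, ⟨2, rfl, rfl⟩, ⟨0, rfl, rfl⟩, ⟨1, rfl, rfl⟩, by decide, by decide⟩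

lemma HCO.facts {n : ℕ} {G : SimpleGraph (Fin n)} {L R : List (Fin n)} (h : HCO n G L R) :
    Facts n L R := by
  induction h with
  | base => exact facts_base
  | add h _ ih => exact facts_step ih

lemma HS.facts {D α β : ℕ → ℝ} {n : ℕ} {G : SimpleGraph (Fin n)} {L R : List (Fin n)}
    (h : HS D α β n G L R) : Facts n L R := by
  induction h with
  | base _ => exact facts_base
  | add h _ _ _ _ _ _ ih => exact facts_step ih

lemma chain_dropLast {V : Type} {P : V → Prop} : ∀ l : List V, (∀ v ∈ l.dropLast, P v) →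
    l.IsChain (fun v _ => P v)
  | [], _ => by simp
  | [x], _ => by simp
  | x :: y :: l, h => by
    rw [List.dropLast_cons_cons] at h
    rw [List.isChain_cons_cons]
    exact ⟨h x (by simp), chain_dropLast (y :: l) (fun v hv => h v (List.mem_cons_of_mem _ hv))⟩

lemma fill {n : ℕ} : ∀ (S : List (Fin n)) (x : Fin n) (g : ℕ → ℝ) (lo hi : ℝ), lo < hi →
    (x :: S).Nodup → ∃ g' : ℕ → ℝ, g' x = lo ∧ (x :: S).Pairwise (fun a b : Fin n => g' a < g' b) ∧
      (∀ a ∈ x :: S, g' a < hi) ∧ ∀ m : ℕ, (∀ a ∈ x :: S, (a : ℕ) ≠ m) → g' m = g m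
  | [], x, g, lo, hi, h, _ => by
    refine ⟨Function.update g x lo, by simp, by simp, ?_, ?_⟩
    · intro a ha
      rw [List.mem_singleton] at ha
      subst ha; simpa using h
    · intro m hm
      exact Function.update_of_ne (hm x (by simp)).symm _ _
  | y :: S, x, g, lo, hi, h, hnd => by
    have hx : x ∉ y :: S := (List.nodup_cons.1 hnd).1
    obtain ⟨g1, h1, h2, h3, h4⟩ := fill S y g ((lo + hi) / 2) hi (by linarith)
      (List.nodup_cons.1 hnd).2
    have hne : ∀ a ∈ y :: S, (a : ℕ) ≠ x := fun a ha e => hx (Fin.ext e ▸ ha)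
    have hu : ∀ a ∈ y :: S, Function.update g1 x lo (a : ℕ) = g1 a :=
      fun a ha => Function.update_of_ne (hne a ha) _ _
    refine ⟨Function.update g1 x lo, by simp, ?_, ?_, ?_⟩
    · rw [List.pairwise_cons]
      constructor
      · intro a ha
        rw [hu a ha, Function.update_self]
        have h5 : (lo + hi) / 2 ≤ g1 a := by
          rcases List.mem_cons.1 ha with rfl | ha'
          · exact h1.ge
          · rw [← h1]; exact ((List.pairwise_cons.1 h2).1 a ha').le
        linarith
      · refine h2.imp_of_mem ?_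
        intro a b ha hb hab
        rw [hu a ha, hu b hb]; exact hab
    · intro a ha
      rcases List.mem_cons.1 ha with rfl | ha'
      · simpa using h
      · rw [hu a ha']; exact h3 a ha'
    · intro m hm
      rw [Function.update_of_ne (hm x (by simp)).symm]
      exact h4 m (fun a ha => hm a (List.mem_cons_of_mem _ ha))

/-- increasing values below `hi`, starting at `lo` -/
lemma fillUp {n : ℕ} (S : List (Fin n)) (g : ℕ → ℝ) (lo hi : ℝ) (h : S ≠ [] → lo < hi)
    (hnd : S.Nodup) : ∃ g' : ℕ → ℝ, (∀ s S', S = s :: S' → g' s = lo) ∧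
      S.Pairwise (fun a b : Fin n => g' a < g' b) ∧
      (∀ a ∈ S, g' a < hi) ∧ ∀ m : ℕ, (∀ a ∈ S, (a : ℕ) ≠ m) → g' m = g m := by
  cases S with
  | nil => exact ⟨g, by simp, by simp, by simp, fun _ _ => rfl⟩
  | cons x S =>
    obtain ⟨g', h1, h2, h3, h4⟩ := fill S x g lo hi (h (by simp)) hnd
    refine ⟨g', ?_, h2, h3, h4⟩
    intro s S' e
    rw [List.cons.injEq] at e
    rw [← e.1]; exact h1

/-- decreasing values above `lo`, starting at `hi` -/
lemma fillDown {n : ℕ} (S : List (Fin n)) (g : ℕ → ℝ) (hi lo : ℝ) (h : S ≠ [] → lo < hi)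
    (hnd : S.Nodup) : ∃ g' : ℕ → ℝ, (∀ s S', S = s :: S' → g' s = hi) ∧
      S.Pairwise (fun a b : Fin n => g' b < g' a) ∧
      (∀ a ∈ S, lo < g' a) ∧ ∀ m : ℕ, (∀ a ∈ S, (a : ℕ) ≠ m) → g' m = g m := by
  obtain ⟨g', h1, h2, h3, h4⟩ := fillUp S (fun m => - g m) (-hi) (-lo) (fun hS => by linarith [h hS]) hnd
  refine ⟨fun m => - g' m, ?_, ?_, ?_, ?_⟩
  · intro s S' e; simp [h1 s S' e]
  · exact h2.imp (fun hab => by simpa using hab)
  · intro a ha; have := h3 a ha; simp only; linarith
  · intro m hm; simp [h4 m hm]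

/-- admissible values of the slopes on the outer paths -/
structure TV (D α β : ℕ → ℝ) (n : ℕ) (L R : List (Fin n)) : Prop where
  pL : L.dropLast.Pairwise (fun x y : Fin n => β y < β x)
  pR : R.dropLast.Pairwise (fun x y : Fin n => α x < α y)
  d : ∀ a : Fin n, (a : ℕ) + 1 = n → β a - α a = D a

lemma dropLast_step {n : ℕ} (u : Fin n) (A : List (Fin n)) :
    (Fin.last n :: (u :: A).map Fin.castSucc).dropLast =
      Fin.last n :: (u :: A).dropLast.map Fin.castSucc := by
  rw [List.map_cons, List.dropLast_cons_cons, ← List.map_cons, List.map_dropLast]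

lemma dropLast_app {V : Type} (S A : List V) (u : V) :
    (S ++ u :: A).dropLast = S ++ (u :: A).dropLast := by
  rw [List.dropLast_append_of_ne_nil (by simp)]

theorem slopes (D : ℕ → ℝ) (hD : ∀ m, D (m + 1) < D m) {n : ℕ} {G : SimpleGraph (Fin n)}
    {L R : List (Fin n)} (h : HCO n G L R) : ∀ α₀ β₀ : ℕ → ℝ, TV D α₀ β₀ n L R →
    ∃ α β : ℕ → ℝ, HS D α β n G L R ∧ (∀ m, n ≤ m → α m = α₀ m ∧ β m = β₀ m) ∧
      (∀ x ∈ L.dropLast, β x = β₀ x) ∧ (∀ x ∈ R.dropLast, α x = α₀ x) := by
  induction h with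
  | base =>
    intro α₀ β₀ tv
    exact ⟨α₀, β₀, HS.base (tv.d 2 rfl), fun _ _ => ⟨rfl, rfl⟩, fun _ _ => rfl, fun _ _ => rfl⟩
  | @add n G S T A B u w h hne ih =>
    intro α₀ β₀ tv
    have F := h.facts
    obtain ⟨a, ha, hLa⟩ := F.headL
    obtain ⟨a', ha', hRa⟩ := F.headR
    have haa : a' = a := Fin.ext (by omega)
    subst haa
    have h3 := F.three
    -- terminal values
    have pL := tv.pL
    have pR := tv.pR
    rw [dropLast_step, List.pairwise_cons, List.pairwise_map] at pL pR
    obtain ⟨pL1, pL2⟩ := pL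
    obtain ⟨pR1, pR2⟩ := pR
    have qL : ∀ v ∈ (u :: A).dropLast, β₀ v < β₀ n := by
      intro v hv
      exact pL1 v.castSucc (List.mem_map.2 ⟨v, hv, rfl⟩)
    have qR : ∀ v ∈ (w :: B).dropLast, α₀ n < α₀ v := by
      intro v hv
      exact pR1 v.castSucc (List.mem_map.2 ⟨v, hv, rfl⟩)
    have hd : β₀ n - α₀ n = D n := tv.d (Fin.last n) (by simp)
    have hDn : D n < D a' := by
      have h5 := hD a'
      have h6 : (a' : ℕ) + 1 = n := ha
      rwa [h6] at h5
    -- heads
    have SL : ∀ s S', S = s :: S' → s = a' := by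
      intro s S' e; rw [e] at hLa; simpa using hLa
    have TR : ∀ s S', T = s :: S' → s = a' := by
      intro s S' e; rw [e] at hRa; simpa using hRa
    have uS : S = [] → u = a' ∧ a' ∈ (u :: A).dropLast := by
      intro e
      rw [e, List.nil_append] at hLa
      have hu : u = a' := by simpa using hLa
      refine ⟨hu, ?_⟩
      cases A with
      | nil =>
        obtain ⟨z, hz, hz'⟩ := F.lastL
        rw [e] at hz'
        have : u = z := by simpa using hz'
        have := congrArg Fin.val this
        have := congrArg Fin.val hu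
        omega
      | cons y A => rw [List.dropLast_cons_cons, hu]; simp
    have wT : T = [] → w = a' ∧ a' ∈ (w :: B).dropLast := by
      intro e
      rw [e, List.nil_append] at hRa
      have hu : w = a' := by simpa using hRa
      refine ⟨hu, ?_⟩
      cases B with
      | nil =>
        obtain ⟨z, hz, hz'⟩ := F.lastR
        rw [e] at hz'
        have : w = z := by simpa using hz'
        have := congrArg Fin.val this
        have := congrArg Fin.val hu
        omega
      | cons y A => rw [List.dropLast_cons_cons, hu]; simp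
    obtain ⟨ndS, ndA, dSA⟩ := List.nodup_append.1 F.ndL
    obtain ⟨ndT, ndB, dTB⟩ := List.nodup_append.1 F.ndR
    obtain ⟨b, c, hb, hc, e1, e2, e3⟩ : ∃ b c : ℝ, (S ≠ [] → β₀ n < b) ∧ (T ≠ [] → c < α₀ n) ∧
        (S = [] → b = β₀ a') ∧ (T = [] → c = α₀ a') ∧ b - c = D a' := by
      by_cases hS : S = []
      · have hT : T ≠ [] := by rcases hne with h5 | h5; exact absurd hS h5; exact h5
        refine ⟨β₀ a', β₀ a' - D a', fun h5 => absurd hS h5, fun _ => ?_, fun _ => rfl,
          fun h5 => absurd h5 hT, by ring⟩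
        have := qL a' (uS hS).2
        linarith
      · by_cases hT : T = []
        · refine ⟨α₀ a' + D a', α₀ a', fun _ => ?_, fun h5 => absurd hT h5, fun h5 => absurd h5 hS,
            fun _ => rfl, by ring⟩
          have := qR a' (wT hT).2
          linarith
        · refine ⟨β₀ n + (D a' - D n) / 2, α₀ n - (D a' - D n) / 2, fun _ => by linarith,
            fun _ => by linarith, fun h5 => absurd h5 hS, fun h5 => absurd h5 hT, by linarith⟩
    obtain ⟨β₁, b1, b2, b3, b4⟩ := fillDown S β₀ b (β₀ n) hb ndS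
    obtain ⟨α₁, a1, a2, a3, a4⟩ := fillUp T α₀ c (α₀ n) hc ndT
    have keepL : ∀ v ∈ u :: A, β₁ v = β₀ v := fun v hv => b4 v
      (fun s hs e => dSA s hs v hv (Fin.ext e))
    have keepR : ∀ v ∈ w :: B, α₁ v = α₀ v := fun v hv => a4 v
      (fun s hs e => dTB s hs v hv (Fin.ext e))
    have hβa : β₁ a' = b := by
      by_cases hS : S = []
      · rw [e1 hS]; exact keepL a' (List.dropLast_subset _ (uS hS).2)
      · obtain ⟨s, S', hs⟩ := List.exists_cons_of_ne_nil hS
        have := b1 s S' hs
        rwa [SL s S' hs] at this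
    have hαa : α₁ a' = c := by
      by_cases hS : T = []
      · rw [e2 hS]; exact keepR a' (List.dropLast_subset _ (wT hS).2)
      · obtain ⟨s, S', hs⟩ := List.exists_cons_of_ne_nil hS
        have := a1 s S' hs
        rwa [TR s S' hs] at this
    have tv1 : TV D α₁ β₁ n (S ++ u :: A) (T ++ w :: B) := by
      refine ⟨?_, ?_, ?_⟩
      · rw [dropLast_app, List.pairwise_append]
        refine ⟨b2, pL2.imp_of_mem ?_, ?_⟩
        · intro x y hx hy hxy
          rw [keepL x (List.dropLast_subset _ hx), keepL y (List.dropLast_subset _ hy)]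
          exact hxy
        · intro x hx y hy
          rw [keepL y (List.dropLast_subset _ hy)]
          exact (qL y hy).trans (b3 x hx)
      · rw [dropLast_app, List.pairwise_append]
        refine ⟨a2, pR2.imp_of_mem ?_, ?_⟩
        · intro x y hx hy hxy
          rw [keepR x (List.dropLast_subset _ hx), keepR y (List.dropLast_subset _ hy)]
          exact hxy
        · intro x hx y hy
          rw [keepR y (List.dropLast_subset _ hy)]
          exact (a3 x hx).trans (qR y hy)
      · intro x hx
        have : x = a' := Fin.ext (by omega)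
        rw [this, hβa, hαa]; exact e3
    obtain ⟨α, β, hs, k1, k2, k3⟩ := ih α₁ β₁ tv1
    have nS : ∀ s ∈ S, (s : ℕ) ≠ n := fun s _ => s.2.ne
    have nT : ∀ s ∈ T, (s : ℕ) ≠ n := fun s _ => s.2.ne
    have kβ : ∀ m, n ≤ m → β m = β₀ m := by
      intro m hm
      rw [(k1 m hm).2]
      exact b4 m (fun s _ e => by have := s.2; omega)
    have kα : ∀ m, n ≤ m → α m = α₀ m := by
      intro m hm
      rw [(k1 m hm).1]
      exact a4 m (fun s _ e => by have := s.2; omega)
    have mβ : ∀ v ∈ (u :: A).dropLast, β v = β₀ v := by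
      intro v hv
      rw [k2 v (by rw [dropLast_app]; exact List.mem_append_right _ hv)]
      exact keepL v (List.dropLast_subset _ hv)
    have mα : ∀ v ∈ (w :: B).dropLast, α v = α₀ v := by
      intro v hv
      rw [k3 v (by rw [dropLast_app]; exact List.mem_append_right _ hv)]
      exact keepR v (List.dropLast_subset _ hv)
    refine ⟨α, β, HS.add hs hne ?_ ?_ ?_ ?_ ?_, ?_, ?_, ?_⟩
    · apply chain_dropLast
      intro v hv
      rw [List.dropLast_concat] at hv
      rw [kβ n (le_refl _), k2 v (by rw [dropLast_app]; exact List.mem_append_left _ hv)]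
      exact b3 v hv
    · apply chain_dropLast
      intro v hv
      rw [kβ n (le_refl _), mβ v hv]
      exact qL v hv
    · apply chain_dropLast
      intro v hv
      rw [List.dropLast_concat] at hv
      rw [kα n (le_refl _), k3 v (by rw [dropLast_app]; exact List.mem_append_left _ hv)]
      exact a3 v hv
    · apply chain_dropLast
      intro v hv
      rw [kα n (le_refl _), mα v hv]
      exact qR v hv
    · rw [kβ n (le_refl _), kα n (le_refl _)]; exact hd
    · intro m hm
      exact ⟨kα m (by omega), kβ m (by omega)⟩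
    · intro x hx
      rw [dropLast_step] at hx
      rcases List.mem_cons.1 hx with rfl | hx
      · exact kβ n (le_refl _)
      · obtain ⟨v, hv, rfl⟩ := List.mem_map.1 hx
        exact mβ v hv
    · intro x hx
      rw [dropLast_step] at hx
      rcases List.mem_cons.1 hx with rfl | hx
      · exact kα n (le_refl _)
      · obtain ⟨v, hv, rfl⟩ := List.mem_map.1 hx
        exact mα v hv

end Pool.Agent.MP7a5e6c
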