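import Pool.Agent.MP7a5e6c.Step4

set_option autoImplicit false
open scoped Classical
open Filter Topology

namespace Pool.Agent.MP7a5e6c

/-! ### mirror image -/
section mirror
variable {V : Type} (X Y : V → ℝ)

lemma ori_mirror (a b c : V) : ori X (fun i => - Y i) a b c = - ori X Y a b c := by
  unfold ori; ring

lemma Cr_mirror (a b c d : V) : Cr X (fun i => - Y i) a b c d ↔ Cr X Y a b c d := by
  unfold Cr
  simp only [ori_mirror, neg_mul_neg]

lemma TriC_mirror (E : SimpleGraph V) : TriC X (fun i => - Y i) E ↔ TriC X Y E := by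
  unfold TriC
  simp only [Cr_mirror]

lemma len_mirror (a b : V) : len X (fun i => - Y i) a b = len X Y a b := by
  unfold len
  congr 1
  ring

lemma wt_mirror [Fintype V] (E : SimpleGraph V) : wt X (fun i => - Y i) E = wt X Y E := by
  unfold wt
  simp only [len_mirror]

lemma Del_mirror (a b : V) : Del X (fun i => - Y i) a b ↔ Del X Y a b := by
  unfold Del
  constructor
  · rintro ⟨p, q, r, h1, h2, h3⟩
    refine ⟨p, -q, r, ?_, ?_, ?_⟩
    · rw [← h1]; ring
    · rw [← h2]; ring
    · intro c hc hc'
      have := h3 c hc hc'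
      have e : (X c - p) ^ 2 + (Y c - -q) ^ 2 = (X c - p) ^ 2 + (- Y c - q) ^ 2 := by ring
      rw [e]; exact this
  · rintro ⟨p, q, r, h1, h2, h3⟩
    refine ⟨p, -q, r, ?_, ?_, ?_⟩
    · rw [← h1]; ring
    · rw [← h2]; ring
    · intro c hc hc'
      have := h3 c hc hc'
      have e : (X c - p) ^ 2 + (- Y c - -q) ^ 2 = (X c - p) ^ 2 + (Y c - q) ^ 2 := by ring
      rw [e]; exact this

lemma HullRel_mirror (s t : V) : HullRel X (fun i => - Y i) t s ↔ HullRel X Y s t := by
  unfold HullRel
  constructor
  · intro h c h1 h2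
    have := h c h2 h1
    rw [ori_mirror, ori_swap] at this; linarith
  · intro h c h1 h2
    have := h c h2 h1
    rw [ori_mirror, ori_swap]; linarith

lemma crs_mirror (p q : ℝ) (s t : V) : crs X (fun i => - Y i) (-p) q t s = - crs X Y p q s t := by
  unfold crs; ring

end mirror

section
variable {n : ℕ} {X Y : Fin n → ℝ}
variable {G : SimpleGraph (Fin n)} {a : Fin n} {T : List (Fin n)}

theorem flip_inv (h : Inv X Y G a T) : Inv X (fun i => - Y i) G a T.reverse := by
  refine ⟨?_, ?_, ?_, ?_, ?_, ?_⟩
  · constructor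
    · intro b c hbc
      rcases h.gp.1 b c hbc with h1 | h1
      · exact Or.inl h1
      · exact Or.inr (fun e => h1 (by linarith))
    · intro b c d h1 h2 h3
      rw [ori_mirror]
      exact neg_ne_zero.2 (h.gp.2 b c d h1 h2 h3)
  · have e : a :: (T.reverse ++ [a]) = (a :: (T ++ [a])).reverse := by simp
    rw [e, List.isChain_reverse]
    exact h.hull.imp (fun s t hst => (HullRel_mirror X Y s t).2 hst)
  · intro S w Q hT
    have hT' : T = Q.reverse ++ w :: S.reverse := by
      have := congrArg List.reverse hT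
      simpa using this
    obtain ⟨p, q, h1, h2⟩ := h.dir _ _ _ hT'
    refine ⟨-p, q, ?_, ?_⟩
    · have e : a :: (S ++ [w]) = (w :: (S.reverse ++ [a])).reverse := by simp
      rw [e, List.isChain_reverse]
      refine h2.imp ?_
      intro s t hst
      show crs X (fun i => - Y i) (-p) q t s < 0
      rw [crs_mirror]
      have : 0 < crs X Y p q s t := hst
      linarith
    · have e : w :: (Q ++ [a]) = (a :: (Q.reverse ++ [w])).reverse := by simp
      rw [e, List.isChain_reverse]
      refine h1.imp ?_
      intro s t hst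
      show 0 < crs X (fun i => - Y i) (-p) q t s
      rw [crs_mirror]
      have : crs X Y p q s t < 0 := hst
      linarith
  · exact (TriC_mirror X Y G).2 h.tri
  · intro E hE hne
    rw [wt_mirror, wt_mirror]
    exact h.mw E ((TriC_mirror X Y E).1 hE) hne
  · intro b c hbc
    rw [Del_mirror]
    exact h.del b c hbc

end

/-! ### the base case -/

lemma fin2_top (E : SimpleGraph (Fin 2)) (h : E.Adj 0 1) : E = ⊤ := by
  ext a b
  rw [SimpleGraph.top_adj]
  constructor
  · intro hab; exact hab.ne
  · intro hab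
    fin_cases a <;> fin_cases b
    · exact absurd rfl hab
    · exact h
    · exact h.symm
    · exact absurd rfl hab

theorem base_inv : Inv (fun i : Fin 2 => if i = 0 then (0:ℝ) else 1) (fun _ => 0) ⊤ 0 [1] := by
  have hshare : ∀ (X Y : Fin 2 → ℝ) (a b c d : Fin 2), a ≠ b → ¬ Cr X Y a b c d := by
    intro X Y a b c d hab
    apply not_Cr_share
    fin_cases a <;> fin_cases b <;> fin_cases c <;> simp at hab ⊢
  have htop : TriC (fun i : Fin 2 => if i = 0 then (0:ℝ) else 1) (fun _ => 0) ⊤ := by
    refine ⟨?_, ?_⟩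
    · intro a b c d hab _
      exact hshare _ _ a b c d hab.ne
    · intro a b hab _
      rw [SimpleGraph.top_adj]; exact hab
  refine ⟨?_, ?_, ?_, htop, ?_, ?_⟩
  · constructor
    · intro a b hab
      fin_cases a <;> fin_cases b <;> simp at hab ⊢
    · intro a b c h1 h2 h3
      fin_cases a <;> fin_cases b <;> fin_cases c <;> simp at h1 h2 h3
  · have hr : ∀ a b : Fin 2, a ≠ b → HullRel (fun i : Fin 2 => if i = 0 then (0:ℝ) else 1) (fun _ => 0) a b := by
      intro a b hab c h1 h2
      fin_cases a <;> fin_cases b <;> fin_cases c <;> simp at h1 h2 hab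
    simp only [List.cons_append, List.nil_append, List.isChain_cons_cons, List.isChain_singleton, and_true]
    exact ⟨hr 0 1 (by simp), hr 1 0 (by simp)⟩
  · intro S w Q hT
    have hS : S = [] ∧ w = 1 ∧ Q = [] := by
      cases S with
      | nil =>
        rw [List.nil_append] at hT
        obtain ⟨h1, h2⟩ := List.cons_eq_cons.1 hT
        exact ⟨rfl, h1.symm, h2.symm⟩
      | cons b S =>
        rw [List.cons_append] at hT
        obtain ⟨h1, h2⟩ := List.cons_eq_cons.1 hT
        simp at h2
    obtain ⟨rfl, rfl, rfl⟩ := hS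
    refine ⟨0, -1, ?_, ?_⟩
    · simp [Vis, crs]
    · simp [Hid, crs]
  · intro E hE hne
    exfalso
    apply hne
    apply fin2_top
    apply hE.2 0 1 (by simp)
    intro c d _
    exact hshare _ _ 0 1 c d (by simp)
  · intro a b hab
    rw [SimpleGraph.top_adj]
    constructor
    · intro _
      refine ⟨1/2, 0, 1/4, ?_, ?_, ?_⟩
      · fin_cases a <;> norm_num
      · fin_cases b <;> norm_num
      · intro c h1 h2
        fin_cases a <;> fin_cases b <;> fin_cases c <;> simp at h1 h2 hab
    · intro _; exact hab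

theorem LCO.inv {n : ℕ} {G : SimpleGraph (Fin n)} {a : Fin n} {T : List (Fin n)}
    (h : LCO n G a T) : ∃ X Y : Fin n → ℝ, Inv X Y G a T := by
  induction h with
  | base => exact ⟨_, _, base_inv⟩
  | flip _ ih =>
    obtain ⟨X, Y, h⟩ := ih
    exact ⟨_, _, flip_inv h⟩
  | add _ ih =>
    obtain ⟨X, Y, h⟩ := ih
    exact step h

end Pool.Agent.MP7a5e6c
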