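import Pool.Agent.MP7a5e6c.HC1
import Pool.Agent.MP7a5e6c.Step5

set_option autoImplicit false
open scoped Classical

namespace Pool.Agent.MP7a5e6c

/-- the geometric form of the order: which outer edges are seen by a new point -/
inductive HG (X Y : ℕ → ℝ) : (n : ℕ) → SimpleGraph (Fin n) → List (Fin n) → List (Fin n) → Prop
  | base : 0 < ori X Y 1 0 2 → HG X Y 3 ⊤ [2, 0] [2, 1]
  | add {n : ℕ} {G : SimpleGraph (Fin n)} {S T A B : List (Fin n)} {u w : Fin n} :
      HG X Y n G (S ++ u :: A) (T ++ w :: B) → (S ≠ [] ∨ T ≠ []) →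
      (S ++ [u]).IsChain (fun (v x : Fin n) => ori X Y x v n < 0) →
      (u :: A).IsChain (fun (v x : Fin n) => 0 < ori X Y x v n) →
      (T ++ [w]).IsChain (fun (v x : Fin n) => ori X Y v x n < 0) →
      (w :: B).IsChain (fun (v x : Fin n) => 0 < ori X Y v x n) →
      0 < ori X Y 1 0 n →
      HG X Y (n + 1) (addVertex G (S ++ u :: (T ++ [w])))
        (Fin.last n :: (u :: A).map Fin.castSucc) (Fin.last n :: (w :: B).map Fin.castSucc)

lemma HG.facts {X Y : ℕ → ℝ} {n : ℕ} {G : SimpleGraph (Fin n)} {L R : List (Fin n)}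
    (h : HG X Y n G L R) : Facts n L R := by
  induction h with
  | base _ => exact facts_base
  | add h _ _ _ _ _ _ ih => exact facts_step ih

lemma HG.congr {X Y X' Y' : ℕ → ℝ} {n : ℕ} {G : SimpleGraph (Fin n)} {L R : List (Fin n)}
    (h : HG X Y n G L R) : (∀ c, c < n → X' c = X c ∧ Y' c = Y c) → HG X' Y' n G L R := by
  induction h with
  | base h =>
    intro e
    apply HG.base
    unfold ori at *
    rw [(e 0 (by norm_num)).1, (e 0 (by norm_num)).2, (e 1 (by norm_num)).1, (e 1 (by norm_num)).2,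
      (e 2 (by norm_num)).1, (e 2 (by norm_num)).2]
    exact h
  | @add n G S T A B u w h hne h1 h2 h3 h4 h5 ih =>
    intro e
    have F := h.facts
    have k3 := F.three
    have eo : ∀ a b : ℕ, a < n → b < n → ori X' Y' a b n = ori X Y a b n := by
      intro a b ha hb
      unfold ori
      rw [(e a (by omega)).1, (e a (by omega)).2, (e b (by omega)).1, (e b (by omega)).2,
        (e n (by omega)).1, (e n (by omega)).2]
    refine HG.add (ih (fun c hc => e c (by omega))) hne ?_ ?_ ?_ ?_ ?_
    · exact h1.imp (fun a b hab => by rw [eo b a b.2 a.2]; exact hab)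
    · exact h2.imp (fun a b hab => by rw [eo b a b.2 a.2]; exact hab)
    · exact h3.imp (fun a b hab => by rw [eo a b a.2 b.2]; exact hab)
    · exact h4.imp (fun a b hab => by rw [eo a b a.2 b.2]; exact hab)
    · rw [eo 1 0 (by omega) (by omega)]; exact h5

/-- supporting edge of the lower path -/
def EL (X Y β : ℕ → ℝ) (n : ℕ) (v u : Fin n) : Prop :=
  (u : ℕ) < v ∧ Y v - Y u = β v * (X v - X u) ∧ ∀ c : ℕ, c < n → Y v - β v * X v ≤ Y c - β v * X c

section
variable {X Y β : ℕ → ℝ} {n : ℕ} {S A : List (Fin n)} {u : Fin n}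

lemma supp (b : ℝ) (hm : ∀ i j : ℕ, i < j → j < n → X i < X j)
    (hE : (S ++ u :: A).IsChain (EL X Y β n))
    (hv : (S ++ [u]).IsChain (fun (v _ : Fin n) => b < β v))
    (hh : (u :: A).IsChain (fun (v _ : Fin n) => β v < b))
    (hS : S = [] → (u : ℕ) + 1 = n)
    (hA : A = [] → ∀ c : ℕ, c < u → Y u - b * X u ≤ Y c - b * X c) :
    ∀ c : ℕ, c < n → Y u - b * X u ≤ Y c - b * X c := by
  intro c hc
  rcases lt_trichotomy c (u : ℕ) with h | h | h
  · cases A with
    | nil => exact hA rfl c h
    | cons q A' =>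
      have e1 := (List.isChain_append_cons_cons.1 hE).2.1
      have e2 := (List.isChain_cons_cons.1 hh).1
      have e3 := e1.2.2 c hc
      have e4 := hm c u h u.2
      nlinarith [mul_pos (sub_pos.2 e2) (sub_pos.2 e4)]
  · rw [h]
  · cases List.eq_nil_or_concat S with
    | inl hS' => have := hS hS'; omega
    | inr hS' =>
      obtain ⟨S', s, rfl⟩ := hS'
      rw [List.concat_eq_append, List.append_assoc, List.singleton_append] at hE hv
      have e1 := (List.isChain_append_cons_cons.1 hE).2.1
      have e2 := (List.isChain_append_cons_cons.1 hv).2.1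
      have e3 := e1.2.2 c hc
      have e5 := e1.2.1
      have e4 := hm u c h hc
      nlinarith [mul_pos (sub_pos.2 e2) (sub_pos.2 e4)]

end

end Pool.Agent.MP7a5e6c
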