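import Pool.Agent.MP7a5e6c.HC2

set_option autoImplicit false
open scoped Classical

namespace Pool.Agent.MP7a5e6c

lemma chain_and2 {V : Type} {R Q : V → V → Prop} {l : List V} (h1 : l.IsChain R) (h2 : l.IsChain Q) :
    l.IsChain (fun a b => R a b ∧ Q a b) := by
  induction l with
  | nil => simp
  | cons x l ih =>
    cases l with
    | nil => simp
    | cons y l =>
      rw [List.isChain_cons_cons] at h1 h2 ⊢
      exact ⟨⟨h1.1, h2.1⟩, ih h1.2 h2.2⟩

section
variable {X Y β : ℕ → ℝ} {n : ℕ} {S A : List (Fin n)} {u : Fin n}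

lemma side (hm : ∀ i j : ℕ, i < j → j < n + 1 → X i < X j)
    (hE : (S ++ u :: A).IsChain (EL X Y β n))
    (hv : (S ++ [u]).IsChain (fun (v _ : Fin n) => β n < β v))
    (hh : (u :: A).IsChain (fun (v _ : Fin n) => β v < β n))
    (hyn : Y n = Y u + β n * (X n - X u))
    (hs : ∀ c : ℕ, c < n → Y u - β n * X u ≤ Y c - β n * X c) :
    (Fin.last n :: (u :: A).map Fin.castSucc).IsChain (EL X Y β (n + 1)) ∧
    (S ++ [u]).IsChain (fun (v x : Fin n) => ori X Y x v n < 0) ∧
    (u :: A).IsChain (fun (v x : Fin n) => 0 < ori X Y x v n) := by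
  have hE1 : (S ++ [u]).IsChain (EL X Y β n) := (List.isChain_split.1 hE).1
  have hE2 : (u :: A).IsChain (EL X Y β n) := (List.isChain_split.1 hE).2
  have key : ∀ v x : Fin n, EL X Y β n v x →
      ori X Y x v n = (X v - X x) * ((Y n - β v * X n) - (Y v - β v * X v)) := by
    intro v x h
    unfold ori
    rw [h.2.1]
    have := h.2.1
    linear_combination (X v - X x) * this
  refine ⟨?_, ?_, ?_⟩
  · rw [List.map_cons, List.isChain_cons_cons]
    constructor
    · refine ⟨by simp, ?_, ?_⟩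
      · simp only [Fin.val_last, Fin.val_castSucc]
        rw [hyn]; ring
      · intro c hc
        simp only [Fin.val_last]
        rcases Nat.lt_succ_iff_lt_or_eq.1 hc with h | h
        · have := hs c h
          rw [hyn]; linarith
        · rw [h]
    · rw [← List.map_cons, List.isChain_map]
      refine (chain_and2 hE2 hh).imp ?_
      rintro v x ⟨h1, h2⟩
      refine ⟨h1.1, h1.2.1, ?_⟩
      intro c hc
      simp only [Fin.val_castSucc]
      rcases Nat.lt_succ_iff_lt_or_eq.1 hc with h | h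
      · exact h1.2.2 c h
      · rw [h]
        have h3 := h1.2.2 u u.2
        have h4 := hm u n u.2 (by omega)
        rw [hyn]
        nlinarith [mul_pos (sub_pos.2 h2) (sub_pos.2 h4)]
  · refine (chain_and2 hE1 hv).imp ?_
    rintro v x ⟨h1, h2⟩
    rw [key v x h1]
    apply mul_neg_of_pos_of_neg
    · have := hm x v h1.1 (by have := v.2; omega); linarith
    · have h3 := hs v v.2
      have h4 := hm v n v.2 (by omega)
      rw [hyn]
      nlinarith [mul_pos (sub_pos.2 h2) (sub_pos.2 h4)]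
  · refine (chain_and2 hE2 hh).imp ?_
    rintro v x ⟨h1, h2⟩
    rw [key v x h1]
    apply mul_pos
    · have := hm x v h1.1 (by have := v.2; omega); linarith
    · have h3 := h1.2.2 u u.2
      have h4 := hm u n u.2 (by omega)
      rw [hyn]
      nlinarith [mul_pos (sub_pos.2 h2) (sub_pos.2 h4)]

end

lemma hbound {Xv Xu Xw Xp Yv Yu Yw an bn αv βv H d : ℝ} (hXv : 0 ≤ Xv) (hXu : 0 ≤ Xu)
    (hu : Xu ≤ Xp) (hw : Xw ≤ Xp) (hp : Xp < Xv)
    (eu : Yv - Yu = βv * (Xv - Xu)) (ew : Yv - Yw = αv * (Xv - Xw)) (hab : an < bn)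
    (hd : βv - αv = d) (o1 : (Yw - an * Xw) - (Yv - bn * Xv) ≤ H)
    (o2 : (Yv - an * Xv) - (Yu - bn * Xu) ≤ H) (hd0 : 0 < d) : d / 2 * (Xv - Xp) ≤ H := by
  by_cases h : d / 2 ≤ an - αv
  · have e : (Yw - an * Xw) - (Yv - bn * Xv) = (an - αv) * (Xv - Xw) + (bn - an) * Xv := by
      linear_combination -ew
    rw [e] at o1
    have h1 : 0 ≤ (bn - an) * Xv := mul_nonneg (by linarith) hXv
    have h2 : d / 2 * (Xv - Xp) ≤ (an - αv) * (Xv - Xw) :=
      mul_le_mul h (by linarith) (by linarith) (by linarith)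
    linarith
  · have e : (Yv - an * Xv) - (Yu - bn * Xu) = (βv - an) * (Xv - Xu) + (bn - an) * Xu := by
      linear_combination eu
    rw [e] at o2
    have h1 : 0 ≤ (bn - an) * Xu := mul_nonneg (by linarith) hXu
    have h2 : d / 2 * (Xv - Xp) ≤ (βv - an) * (Xv - Xu) :=
      mul_le_mul (by linarith) (by linarith) (by linarith) (by linarith)
    linarith

/-- the exact point set, before the perturbation -/
structure P2 (X Y α β : ℕ → ℝ) (τ M : ℝ) (n : ℕ) (L R : List (Fin n)) : Prop where
  x0 : X 0 = 0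
  y0 : Y 0 = 0
  x1 : X 1 = 1
  y1 : Y 1 = τ
  gr : ∀ i, 1 ≤ i → i + 1 < n → M * X i ≤ X (i + 1)
  mono : ∀ i j : ℕ, i < j → j < n → X i < X j
  eL : L.IsChain (EL X Y β n)
  eR : R.IsChain (EL X (fun m => - Y m) (fun m => - α m) n)
  top : ∀ c, c < n → Y c ≤ τ * X c

lemma EL.congr {X Y X' Y' β : ℕ → ℝ} {n : ℕ} {v u : Fin n} (h : EL X Y β n v u)
    (e : ∀ c, c < n → X' c = X c ∧ Y' c = Y c) : EL X' Y' β n v u := by
  refine ⟨h.1, ?_, ?_⟩
  · rw [(e v v.2).1, (e v v.2).2, (e u u.2).1, (e u u.2).2]; exact h.2.1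
  · intro c hc
    rw [(e v v.2).1, (e v v.2).2, (e c hc).1, (e c hc).2]; exact h.2.2 c hc

lemma second {n : ℕ} {L : List (Fin n)} {a z : Fin n} (h1 : L.head? = some a)
    (h2 : L.getLast? = some z) (hne : a ≠ z) : ∃ x L', L = a :: x :: L' := by
  cases L with
  | nil => simp at h1
  | cons b L =>
    have hb : b = a := by simpa using h1
    cases L with
    | nil =>
      have : b = z := by simpa using h2
      exact absurd (hb.symm.trans this) hne
    | cons x L => exact ⟨x, L, by rw [hb]⟩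

lemma HS.d {D α β : ℕ → ℝ} {n : ℕ} {G : SimpleGraph (Fin n)} {L R : List (Fin n)}
    (h : HS D α β n G L R) : ∀ a : ℕ, a + 1 = n → β a - α a = D a := by
  cases h with
  | base h => intro a ha; have : a = 2 := by omega
              subst this; exact h
  | @add n G S T A B u w h _ _ _ _ _ hd => intro a ha; have : a = n := by omega
                                           subst this; exact hd

end Pool.Agent.MP7a5e6c
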