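import Pool.Agent.MP7a5e6c.HC3

set_option autoImplicit false
open scoped Classical

namespace Pool.Agent.MP7a5e6c

lemma phase2_base {α β D : ℕ → ℝ} {τ M : ℝ} (hM : 2 ≤ M) (hDp : ∀ m, 0 < D m)
    (hτ : α 2 + M * D 2 ≤ τ) (hd : β 2 - α 2 = D 2) :
    ∃ X Y : ℕ → ℝ, P2 X Y α β τ M 3 [2, 0] [2, 1] ∧ HG X Y 3 ⊤ [2, 0] [2, 1] := by
  set x2 : ℝ := (τ - α 2) / D 2 with hx2
  have hD2 := hDp 2
  have h1 : M ≤ x2 := by rw [hx2, le_div_iff₀ hD2]; linarith
  have h2 : x2 * (β 2 - α 2) = τ - α 2 := by rw [hd, hx2]; field_simp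
  have h3 : β 2 < τ := by nlinarith
  set X : ℕ → ℝ := fun m => if m = 0 then 0 else if m = 1 then 1 else x2 with hX
  set Y : ℕ → ℝ := fun m => if m = 0 then 0 else if m = 1 then τ else β 2 * x2 with hY
  have X0 : X 0 = 0 := by simp [hX]
  have X1 : X 1 = 1 := by simp [hX]
  have X2 : X 2 = x2 := by simp [hX]
  have Y0 : Y 0 = 0 := by simp [hY]
  have Y1 : Y 1 = τ := by simp [hY]
  have Y2 : Y 2 = β 2 * x2 := by simp [hY]
  refine ⟨X, Y, ⟨X0, Y0, X1, Y1, ?_, ?_, ?_, ?_, ?_⟩, HG.base ?_⟩
  · intro i hi hi'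
    have : i = 1 := by omega
    subst this
    show M * X 1 ≤ X 2
    rw [X1, X2]; linarith
  · intro i j hij hj
    have : (i = 0 ∧ j = 1) ∨ (i = 0 ∧ j = 2) ∨ (i = 1 ∧ j = 2) := by omega
    rcases this with ⟨rfl, rfl⟩ | ⟨rfl, rfl⟩ | ⟨rfl, rfl⟩
    · rw [X0, X1]; norm_num
    · rw [X0, X2]; linarith
    · rw [X1, X2]; linarith
  · rw [List.isChain_cons_cons]
    refine ⟨⟨by decide, ?_, ?_⟩, by simp⟩
    · show Y 2 - Y 0 = β 2 * (X 2 - X 0)
      rw [X0, X2, Y0, Y2]; ring
    · intro c hc
      show Y 2 - β 2 * X 2 ≤ Y c - β 2 * X c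
      have : c = 0 ∨ c = 1 ∨ c = 2 := by omega
      rcases this with rfl | rfl | rfl
      · rw [X0, X2, Y0, Y2]; linarith
      · rw [X1, X2, Y1, Y2]; linarith
      · linarith
  · rw [List.isChain_cons_cons]
    refine ⟨⟨by decide, ?_, ?_⟩, by simp⟩
    · show - Y 2 - (- Y 1) = (- α 2) * (X 2 - X 1)
      rw [X1, X2, Y1, Y2]; linarith
    · intro c hc
      show - Y 2 - (- α 2) * X 2 ≤ - Y c - (- α 2) * X c
      have : c = 0 ∨ c = 1 ∨ c = 2 := by omega
      rcases this with rfl | rfl | rfl
      · rw [X0, X2, Y0, Y2]; nlinarith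
      · rw [X1, X2, Y1, Y2]; nlinarith
      · linarith
  · intro c hc
    have : c = 0 ∨ c = 1 ∨ c = 2 := by omega
    rcases this with rfl | rfl | rfl
    · rw [X0, Y0]; simp
    · rw [X1, Y1]; simp
    · rw [X2, Y2]; nlinarith
  · unfold ori
    rw [X0, X1, X2, Y0, Y1, Y2]
    nlinarith [mul_pos (sub_pos.2 h3) (by linarith : (0 : ℝ) < x2)]

theorem phase2 {α β D : ℕ → ℝ} {τ M : ℝ} (hM : 2 ≤ M) (hDp : ∀ m, 0 < D m)
    (hD : ∀ m, 4 * M * D (m + 1) ≤ D m) (N : ℕ)
    (hτ : ∀ m, 2 ≤ m → m < N → α m + M * D 2 ≤ τ)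
    {n : ℕ} {G : SimpleGraph (Fin n)} {L R : List (Fin n)} (h : HS D α β n G L R) :
    n ≤ N → ∃ X Y : ℕ → ℝ, P2 X Y α β τ M n L R ∧ HG X Y n G L R := by
  induction h with
  | base hd =>
    intro hn
    exact phase2_base hM hDp (hτ 2 (le_refl _) (by omega)) hd
  | @add n G S T A B u w h hne hv hh hv' hh' hd ih =>
    intro hn
    obtain ⟨X, Y, p, g⟩ := ih (by omega)
    have F := h.facts
    have k3 := F.three
    obtain ⟨a, ha, hLa⟩ := F.headL
    obtain ⟨a', ha', hRa⟩ := F.headR
    have haa : a' = a := Fin.ext (by omega)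
    subst haa
    obtain ⟨z, hz, hLz⟩ := F.lastL
    obtain ⟨o, ho, hRo⟩ := F.lastR
    obtain ⟨u', L', hL'⟩ := second hLa hLz (fun e => by have := congrArg Fin.val e; omega)
    obtain ⟨w', R', hR'⟩ := second hRa hRo (fun e => by have := congrArg Fin.val e; omega)
    have eu : EL X Y β n a' u' := by
      have := p.eL; rw [hL', List.isChain_cons_cons] at this; exact this.1
    have ew : EL X (fun m => - Y m) (fun m => - α m) n a' w' := by
      have := p.eR; rw [hR', List.isChain_cons_cons] at this; exact this.1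
    have hατ : α n < τ := by
      have := hτ n (by omega) (by omega)
      have := mul_pos (by linarith : (0 : ℝ) < M) (hDp 2)
      linarith
    have s1 : ∀ c : ℕ, c < n → Y u - β n * X u ≤ Y c - β n * X c := by
      refine supp (β n) p.mono p.eL hv hh ?_ ?_
      · intro hS
        rw [hS, List.nil_append] at hLa
        have : u = a' := by simpa using hLa
        rw [this]; exact ha
      · intro hA c hc
        rw [hA, List.getLast?_append] at hLz
        have : u = z := by simpa using hLz
        rw [this, hz] at hc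
        omega
    have s2 : ∀ c : ℕ, c < n → - Y w - (- α n) * X w ≤ - Y c - (- α n) * X c := by
      refine supp (X := X) (Y := fun m => - Y m) (β := fun m => - α m) (- α n) p.mono p.eR ?_ ?_ ?_ ?_
      · exact hv'.imp (fun x _ hx => by simpa using hx)
      · exact hh'.imp (fun x _ hx => by simpa using hx)
      · intro hS
        rw [hS, List.nil_append] at hRa
        have : w = a' := by simpa using hRa
        rw [this]; exact ha
      · intro hA c hc
        rw [hA, List.getLast?_append] at hRo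
        have hw : w = o := by simpa using hRo
        have hw1 : (w : ℕ) = 1 := by rw [hw, ho]
        have hc0 : c = 0 := by omega
        rw [hc0, hw1, p.x0, p.x1, p.y0, p.y1]
        linarith
    set H : ℝ := (Y w - α n * X w) - (Y u - β n * X u) with hH
    have hDn := hDp n
    have hXa : 1 ≤ X a' := by
      rcases Nat.lt_or_ge 1 (a' : ℕ) with h1 | h1
      · have := p.mono 1 a' h1 a'.2
        rw [p.x1] at this; exact this.le
      · omega
    obtain ⟨q, hq⟩ : ∃ q, (a' : ℕ) = q + 1 := ⟨a' - 1, by omega⟩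
    have hXq : 1 ≤ X q := by
      rcases Nat.lt_or_ge 1 q with h1 | h1
      · have := p.mono 1 q h1 (by omega)
        rw [p.x1] at this; exact this.le
      · have : q = 1 := by omega
        rw [this, p.x1]
    have hqa : M * X q ≤ X a' := by
      have := p.gr q (by omega) (by omega)
      rwa [← hq] at this
    have mono' : ∀ i : ℕ, i < a' → X i ≤ X q := by
      intro i hi
      rcases Nat.lt_or_ge i q with h1 | h1
      · exact (p.mono i q h1 (by omega)).le
      · have : i = q := by omega
        rw [this]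
    have hb : D a' / 2 * (X a' - X q) ≤ H := by
      have X0' : ∀ i : ℕ, i < n → 0 ≤ X i := by
        intro i hi
        rcases Nat.eq_zero_or_pos i with h1 | h1
        · rw [h1, p.x0]
        · have := p.mono 0 i h1 hi
          rw [p.x0] at this; exact this.le
      have f1 := s1 a' a'.2
      have f2 := s1 u' u'.2
      have f3 := s2 a' a'.2
      have f4 := s2 w' w'.2
      have e2 := ew.2.1
      refine hbound (Xv := X a') (Xu := X u') (Xw := X w') (Xp := X q) (Yv := Y a') (Yu := Y u')
        (Yw := Y w') (an := α n) (bn := β n) (αv := α a') (βv := β a') (by linarith)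
        (X0' _ u'.2) (mono' _ eu.1) (mono' _ ew.1) (by nlinarith) eu.2.1
        (by linarith) (by linarith) (h.d a' ha) (by rw [hH]; linarith) (by rw [hH]; linarith)
        (hDp _)
    have hgr : M * X a' ≤ H / D n := by
      rw [le_div_iff₀ hDn]
      have h4 : 4 * M * D n ≤ D a' := by
        have := hD a'
        have h5 : (a' : ℕ) + 1 = n := ha
        rwa [h5] at this
      have h5 : X a' / 2 ≤ X a' - X q := by nlinarith
      have h6 : D a' / 2 * (X a' / 2) ≤ D a' / 2 * (X a' - X q) :=
        mul_le_mul_of_nonneg_left h5 (by have := hDp a'; linarith)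
      have h7 : 4 * M * D n * X a' ≤ D a' * X a' := mul_le_mul_of_nonneg_right h4 (by linarith)
      nlinarith
    set xn : ℝ := H / D n with hxn
    set yn : ℝ := Y u + β n * (xn - X u) with hyn
    have hxH : xn * (β n - α n) = H := by rw [hd, hxn]; field_simp
    have hyn' : yn = Y w + α n * (xn - X w) := by
      rw [hyn]; rw [hH] at hxH; linarith
    have hXn : X a' < xn := by nlinarith
    set X' : ℕ → ℝ := Function.update X n xn with hX'
    set Y' : ℕ → ℝ := Function.update Y n yn with hY'
    have e : ∀ c, c < n → X' c = X c ∧ Y' c = Y c := fun c hc =>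
      ⟨Function.update_of_ne hc.ne _ _, Function.update_of_ne hc.ne _ _⟩
    have eXn : X' n = xn := Function.update_self _ _ _
    have eYn : Y' n = yn := Function.update_self _ _ _
    have mono1 : ∀ i : ℕ, i < n → X i ≤ X a' := by
      intro i hi
      rcases Nat.lt_or_ge i a' with h1 | h1
      · exact (p.mono i a' h1 a'.2).le
      · have : i = a' := by omega
        rw [this]
    have mono2 : ∀ i j : ℕ, i < j → j < n + 1 → X' i < X' j := by
      intro i j hij hj
      rcases Nat.lt_succ_iff_lt_or_eq.1 hj with h1 | h1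
      · rw [(e i (by omega)).1, (e j h1).1]; exact p.mono i j hij h1
      · rw [h1, eXn, (e i (by omega)).1]
        exact (mono1 i (by omega)).trans_lt hXn
    have sd1 := side (X := X') (Y := Y') (β := β) mono2 (p.eL.imp (fun _ _ hx => hx.congr e)) hv hh
      (by rw [eYn, eXn, (e u u.2).1, (e u u.2).2])
      (fun c hc => by rw [(e u u.2).1, (e u u.2).2, (e c hc).1, (e c hc).2]; exact s1 c hc)
    have e' : ∀ c, c < n → X' c = X c ∧ (fun m => - Y' m) c = (fun m => - Y m) c :=
      fun c hc => ⟨(e c hc).1, by simp only [(e c hc).2]⟩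
    have sd2 := side (X := X') (Y := fun m => - Y' m) (β := fun m => - α m) mono2
      (p.eR.imp (fun _ _ hx => hx.congr e')) (hv'.imp (fun x _ hx => by simpa using hx))
      (hh'.imp (fun x _ hx => by simpa using hx))
      (by rw [eYn, eXn, (e w w.2).1, (e w w.2).2, hyn']; ring)
      (fun c hc => by
        rw [(e w w.2).1, (e w w.2).2, (e c hc).1, (e c hc).2]; exact s2 c hc)
    have hwτ := p.top w w.2
    have hwx : X w < xn := (mono1 w w.2).trans_lt hXn
    have htop : yn < τ * xn := by
      rw [hyn']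
      nlinarith [mul_pos (sub_pos.2 hατ) (sub_pos.2 hwx)]
    refine ⟨X', Y', ⟨?_, ?_, ?_, ?_, ?_, mono2, sd1.1, sd2.1, ?_⟩,
      HG.add (g.congr e) hne sd1.2.1 sd1.2.2 ?_ ?_ ?_⟩
    · rw [(e 0 (by omega)).1, p.x0]
    · rw [(e 0 (by omega)).2, p.y0]
    · rw [(e 1 (by omega)).1, p.x1]
    · rw [(e 1 (by omega)).2, p.y1]
    · intro i hi hi'
      rcases Nat.lt_or_ge (i + 1) n with h1 | h1
      · rw [(e i (by omega)).1, (e (i + 1) h1).1]; exact p.gr i hi h1
      · have h2 : i + 1 = n := by omega
        have h3 : i = a' := by omega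
        rw [h2, eXn, (e i (by omega)).1, h3]; exact hgr
    · intro c hc
      rcases Nat.lt_succ_iff_lt_or_eq.1 hc with h1 | h1
      · rw [(e c h1).1, (e c h1).2]; exact p.top c h1
      · rw [h1, eXn, eYn]; exact htop.le
    · refine sd2.2.1.imp ?_
      intro v x hx
      rw [ori_mirror] at hx
      rw [ori_swap]; exact hx
    · refine sd2.2.2.imp ?_
      intro v x hx
      rw [ori_mirror] at hx
      rw [ori_swap]; exact hx
    · unfold ori
      rw [(e 0 (by omega)).1, (e 0 (by omega)).2, (e 1 (by omega)).1, (e 1 (by omega)).2, eXn, eYn,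
        p.x0, p.y0, p.x1, p.y1]
      linarith

end Pool.Agent.MP7a5e6c
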