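import Pool.Agent.MP7a5e6c.HC4

set_option autoImplicit false
open scoped Classical
open Filter Topology

namespace Pool.Agent.MP7a5e6c

lemma ori_pert (X Y : ℕ → ℝ) (ε : ℝ) (a b c : ℕ) :
    ori X (fun m => Y m + ε * X m ^ 2) a b c =
      ori X Y a b c + ε * ((X b - X a) * (X c - X a) * (X c - X b)) := by
  unfold ori; ring

lemma ev_affine_pos {p v : ℝ} (hp : 0 < p) : ∀ᶠ ε in 𝓝[>] (0 : ℝ), 0 < p + ε * v := by
  have h : Tendsto (fun ε : ℝ => p + ε * v) (𝓝 0) (𝓝 (p + 0 * v)) := by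
    apply Continuous.tendsto; fun_prop
  rw [zero_mul, add_zero] at h
  exact (h.eventually (lt_mem_nhds hp)).filter_mono nhdsWithin_le_nhds

lemma ev_affine_ne {p v : ℝ} (hv : v ≠ 0) : ∀ᶠ ε in 𝓝[>] (0 : ℝ), p + ε * v ≠ 0 := by
  rcases lt_trichotomy p 0 with hp | hp | hp
  · filter_upwards [ev_affine_pos (p := -p) (v := -v) (by linarith)] with ε h
    intro h2; linarith
  · filter_upwards [self_mem_nhdsWithin] with ε h
    rw [hp, zero_add]
    exact mul_ne_zero (ne_of_gt h) hv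
  · filter_upwards [ev_affine_pos (v := v) hp] with ε h
    exact h.ne'

lemma ev_chain {V : Type} {l : Filter ℝ} {R0 : V → V → Prop} {R : ℝ → V → V → Prop}
    (h : ∀ a b, R0 a b → ∀ᶠ ε in l, R ε a b) : ∀ L : List V, L.IsChain R0 →
    ∀ᶠ ε in l, L.IsChain (R ε)
  | [], _ => by simp
  | [x], _ => by simp
  | x :: y :: L, hL => by
    rw [List.isChain_cons_cons] at hL
    filter_upwards [h x y hL.1, ev_chain h (y :: L) hL.2] with ε h1 h2
    rw [List.isChain_cons_cons]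
    exact ⟨h1, h2⟩

lemma HG.ev {X Y : ℕ → ℝ} {n : ℕ} {G : SimpleGraph (Fin n)} {L R : List (Fin n)}
    (h : HG X Y n G L R) : ∀ᶠ ε in 𝓝[>] (0 : ℝ), HG X (fun m => Y m + ε * X m ^ 2) n G L R := by
  have pos : ∀ a b c : ℕ, 0 < ori X Y a b c →
      ∀ᶠ ε in 𝓝[>] (0 : ℝ), 0 < ori X (fun m => Y m + ε * X m ^ 2) a b c := by
    intro a b c h1
    filter_upwards [ev_affine_pos (v := (X b - X a) * (X c - X a) * (X c - X b)) h1] with ε h2
    rw [ori_pert]; exact h2
  have neg : ∀ a b c : ℕ, ori X Y a b c < 0 →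
      ∀ᶠ ε in 𝓝[>] (0 : ℝ), ori X (fun m => Y m + ε * X m ^ 2) a b c < 0 := by
    intro a b c h1
    filter_upwards [pos b a c (by rw [ori_swap]; linarith)] with ε h2
    rw [ori_swap] at h2; linarith
  induction h with
  | base h =>
    filter_upwards [pos _ _ _ h] with ε h2
    exact HG.base h2
  | @add n G S T A B u w h hne h1 h2 h3 h4 h5 ih =>
    filter_upwards [ih, ev_chain (fun a b hab => neg _ _ _ hab) _ h1,
      ev_chain (fun a b hab => pos _ _ _ hab) _ h2,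
      ev_chain (fun a b hab => neg _ _ _ hab) _ h3,
      ev_chain (fun a b hab => pos _ _ _ hab) _ h4, pos _ _ _ h5] with ε k0 k1 k2 k3 k4 k5
    exact HG.add k0 hne k1 k2 k3 k4 k5

/-- a small perturbation in general position -/
lemma pert {X Y : ℕ → ℝ} {n : ℕ} {G : SimpleGraph (Fin n)} {L R : List (Fin n)}
    (h : HG X Y n G L R) (hm : ∀ i j : ℕ, i < j → j < n → X i < X j) :
    ∃ Y' : ℕ → ℝ, HG X Y' n G L R ∧
      ∀ a b c : ℕ, a < n → b < n → c < n → a ≠ b → a ≠ c → b ≠ c → ori X Y' a b c ≠ 0 := by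
  have hne : ∀ i j : ℕ, i < n → j < n → i ≠ j → X i ≠ X j := by
    intro i j hi hj hij
    rcases lt_or_gt_of_ne hij with h1 | h1
    · exact (hm i j h1 hj).ne
    · exact (hm j i h1 hi).ne'
  have key : ∀ᶠ ε in 𝓝[>] (0 : ℝ), ∀ a b c : Fin n, a ≠ b → a ≠ c → b ≠ c →
      ori X (fun m => Y m + ε * X m ^ 2) a b c ≠ 0 := by
    rw [eventually_all]; intro a
    rw [eventually_all]; intro b
    rw [eventually_all]; intro c
    by_cases h1 : a ≠ b ∧ a ≠ c ∧ b ≠ c
    · obtain ⟨hab, hac, hbc⟩ := h1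
      have k1 := hne a b a.2 b.2 (fun e => hab (Fin.ext e))
      have k2 := hne a c a.2 c.2 (fun e => hac (Fin.ext e))
      have k3 := hne b c b.2 c.2 (fun e => hbc (Fin.ext e))
      have hv : (X b - X a) * (X c - X a) * (X c - X b) ≠ 0 :=
        mul_ne_zero (mul_ne_zero (sub_ne_zero.2 k1.symm) (sub_ne_zero.2 k2.symm))
          (sub_ne_zero.2 k3.symm)
      filter_upwards [ev_affine_ne (p := ori X Y a b c) hv] with ε h2 _ _ _
      rw [ori_pert]; exact h2
    · filter_upwards with ε h2 h3 h4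
      exact absurd ⟨h2, h3, h4⟩ h1
  obtain ⟨ε, h1, h2⟩ := (h.ev.and key).exists
  refine ⟨_, h1, ?_⟩
  intro a b c ha hb hc hab hac hbc
  exact h2 ⟨a, ha⟩ ⟨b, hb⟩ ⟨c, hc⟩ (fun e => hab (congrArg Fin.val e))
    (fun e => hac (congrArg Fin.val e)) (fun e => hbc (congrArg Fin.val e))

end Pool.Agent.MP7a5e6c
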