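import Pool.Agent.MP7a5e6c.HC5

set_option autoImplicit false
open scoped Classical

namespace Pool.Agent.MP7a5e6c

section
variable (X Y : ℕ → ℝ) (n : ℕ)

/-- counterclockwise hull edge of the first `n` points -/
def HE (y x : ℕ) : Prop := y < n ∧ x < n ∧ ∀ c : ℕ, c < n → c ≠ y → c ≠ x → 0 < ori X Y y x c

variable {X Y n}

lemma HE.nonneg {y x c : ℕ} (h : HE X Y n y x) (hc : c < n) : 0 ≤ ori X Y y x c := by
  by_cases h1 : c = y
  · subst h1; simp
  by_cases h2 : c = x
  · subst h2; simp
  exact (h.2.2 c hc h1 h2).le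

lemma tan_aux {y x z m : ℕ} (h3 : 3 ≤ n) (hyx : HE X Y n y x) (hxz : HE X Y n x z)
    (hy : ori X Y y x m ≠ 0) (hz : ori X Y x z m ≠ 0) : 0 < ori X Y y x z := by
  have n1 : y ≠ x := by rintro rfl; simp at hy
  have n2 : x ≠ z := by rintro rfl; simp at hz
  have n3 : z ≠ y := by
    rintro rfl
    obtain ⟨c, hc, hcx, hcz⟩ : ∃ c, c < n ∧ c ≠ x ∧ c ≠ z := by
      by_cases h0 : (0 : ℕ) ≠ x ∧ (0 : ℕ) ≠ z
      · exact ⟨0, by omega, h0.1, h0.2⟩
      by_cases h1 : (1 : ℕ) ≠ x ∧ (1 : ℕ) ≠ z
      · exact ⟨1, by omega, h1.1, h1.2⟩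
      · exact ⟨2, by omega, by omega, by omega⟩
    have k1 := hyx.2.2 c hc hcz hcx
    have k2 := hxz.2.2 c hc hcx hcz
    rw [ori_swap] at k2; linarith
  exact hyx.2.2 z hxz.2.1 n3 n2.symm

lemma tanR {y x z m : ℕ} (h3 : 3 ≤ n) (hyx : HE X Y n y x) (hxz : HE X Y n x z)
    (hy : 0 < ori X Y y x m) (hz : ori X Y x z m < 0) :
    ∀ c : ℕ, c < n → c ≠ x → 0 < ori X Y x m c := by
  intro c hc hcx
  have hp := tan_aux h3 hyx hxz hy.ne' hz.ne
  have n3 : z ≠ y := by rintro rfl; simp at hp
  have id : ori X Y y x z * ori X Y x m c =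
      -(ori X Y x z m) * (ori X Y y x c) + (ori X Y x z c) * (ori X Y y x m) := by
    unfold ori; ring
  have a1 := hyx.nonneg hc
  have a2 := hxz.nonneg hc
  have : 0 < ori X Y y x z * ori X Y x m c := by
    rw [id]
    by_cases h1 : c = y
    · have h4 : 0 < ori X Y x z c := hxz.2.2 c hc hcx (by rw [h1]; exact n3.symm)
      have := mul_nonneg (by linarith : 0 ≤ -(ori X Y x z m)) a1
      have := mul_pos h4 hy
      linarith
    · have h4 : 0 < ori X Y y x c := hyx.2.2 c hc h1 hcx
      have := mul_pos (by linarith : 0 < -(ori X Y x z m)) h4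
      have := mul_nonneg a2 hy.le
      linarith
  exact (mul_pos_iff_of_pos_left hp).1 this

lemma tanL {y x z m : ℕ} (h3 : 3 ≤ n) (hyx : HE X Y n y x) (hxz : HE X Y n x z)
    (hy : ori X Y y x m < 0) (hz : 0 < ori X Y x z m) :
    ∀ c : ℕ, c < n → c ≠ x → 0 < ori X Y m x c := by
  intro c hc hcx
  have hp := tan_aux h3 hyx hxz hy.ne hz.ne'
  have n3 : z ≠ y := by rintro rfl; simp at hp
  have id : ori X Y y x z * ori X Y m x c =
      (ori X Y x z m) * (ori X Y y x c) + (ori X Y x z c) * (-(ori X Y y x m)) := by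
    unfold ori; ring
  have a1 := hyx.nonneg hc
  have a2 := hxz.nonneg hc
  have : 0 < ori X Y y x z * ori X Y m x c := by
    rw [id]
    by_cases h1 : c = y
    · have h4 : 0 < ori X Y x z c := hxz.2.2 c hc hcx (by rw [h1]; exact n3.symm)
      have := mul_nonneg hz.le a1
      have := mul_pos h4 (by linarith : 0 < -(ori X Y y x m))
      linarith
    · have h4 : 0 < ori X Y y x c := hyx.2.2 c hc h1 hcx
      have := mul_pos hz h4
      have := mul_nonneg a2 (by linarith : 0 ≤ -(ori X Y y x m))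
      linarith
  exact (mul_pos_iff_of_pos_left hp).1 this

/-- an end of a visible hull edge is seen from the new point -/
lemma seen {s t v m : ℕ} (h : HE X Y n s t) (hm : ori X Y s t m < 0) (hv : v = s ∨ v = t)
    {c d : ℕ} (hc : c < n) (hd : d < n) : ¬ Cr X Y m v c d := by
  apply not_Cr_of_sep X Y m v c d s t (h.nonneg hc) (h.nonneg hd) _ hm
  rcases hv with rfl | rfl <;> simp

end

lemma pair_of_mem {V : Type} {R : V → V → Prop} : ∀ (l : List V), 2 ≤ l.length → l.IsChain R →
    ∀ v ∈ l, ∃ x y, R x y ∧ (v = x ∨ v = y)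
  | [], h, _, _, _ => by simp at h
  | [x], h, _, _, _ => by simp at h
  | [x, y], _, hc, v, hv => by
    rw [List.isChain_cons_cons] at hc
    refine ⟨x, y, hc.1, ?_⟩
    simpa using hv
  | x :: y :: z :: l, _, hc, v, hv => by
    rw [List.isChain_cons_cons] at hc
    rcases List.mem_cons.1 hv with rfl | hv
    · exact ⟨_, y, hc.1, Or.inl rfl⟩
    · exact pair_of_mem (y :: z :: l) (by simp) hc.2 v hv

lemma change {V : Type} {R : V → V → Prop} {P : V → Prop} : ∀ (l : List V) (x y : V),
    (x :: l).IsChain R → ¬ P x → (x :: l).getLast? = some y → P y →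
    ∃ s t, R s t ∧ ¬ P s ∧ P t ∧ s ∈ x :: l ∧ t ∈ x :: l
  | [], x, y, _, hx, hl, hy => by
    have : x = y := by simpa using hl
    exact absurd (this ▸ hy) hx
  | z :: l, x, y, hc, hx, hl, hy => by
    rw [List.isChain_cons_cons] at hc
    by_cases hz : P z
    · exact ⟨x, z, hc.1, hx, hz, by simp, by simp⟩
    · rw [List.getLast?_cons_cons] at hl
      obtain ⟨s, t, h1, h2, h3, h4, h5⟩ := change l z y hc.2 hz hl hy
      exact ⟨s, t, h1, h2, h3, List.mem_cons_of_mem _ h4, List.mem_cons_of_mem _ h5⟩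

section
variable (X Y : ℕ → ℝ)

/-- the coordinates of the first `n` points -/
def rs (Z : ℕ → ℝ) (n : ℕ) : Fin n → ℝ := fun i => Z i

structure Hull (n : ℕ) (L R : List (Fin n)) : Prop where
  hl : L.IsChain (fun (v x : Fin n) => HE X Y n x v)
  hr : R.IsChain (fun (v x : Fin n) => HE X Y n v x)
  top : HE X Y n 1 0

variable {X Y} {n : ℕ} {S T A B : List (Fin n)} {u w : Fin n}

/-- all the data of one insertion -/
structure Ins (X Y : ℕ → ℝ) (n : ℕ) (S T A B : List (Fin n)) (u w : Fin n) : Prop where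
  F : Facts n (S ++ u :: A) (T ++ w :: B)
  hul : Hull X Y n (S ++ u :: A) (T ++ w :: B)
  ne : S ≠ [] ∨ T ≠ []
  h1 : (S ++ [u]).IsChain (fun (v x : Fin n) => ori X Y x v n < 0)
  h2 : (u :: A).IsChain (fun (v x : Fin n) => 0 < ori X Y x v n)
  h3 : (T ++ [w]).IsChain (fun (v x : Fin n) => ori X Y v x n < 0)
  h4 : (w :: B).IsChain (fun (v x : Fin n) => 0 < ori X Y v x n)
  h5 : 0 < ori X Y 1 0 n

/-- visible edges, counterclockwise -/
lemma Ins.v1 (I : Ins X Y n S T A B u w) :
    (S ++ [u]).IsChain (fun (v x : Fin n) => HE X Y n x v ∧ ori X Y x v n < 0) :=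
  chain_and2 (List.isChain_split.1 I.hul.hl).1 I.h1
lemma Ins.v2 (I : Ins X Y n S T A B u w) :
    (u :: A).IsChain (fun (v x : Fin n) => HE X Y n x v ∧ 0 < ori X Y x v n) :=
  chain_and2 (List.isChain_split.1 I.hul.hl).2 I.h2
lemma Ins.v3 (I : Ins X Y n S T A B u w) :
    (T ++ [w]).IsChain (fun (v x : Fin n) => HE X Y n v x ∧ ori X Y v x n < 0) :=
  chain_and2 (List.isChain_split.1 I.hul.hr).1 I.h3
lemma Ins.v4 (I : Ins X Y n S T A B u w) :
    (w :: B).IsChain (fun (v x : Fin n) => HE X Y n v x ∧ 0 < ori X Y v x n) :=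
  chain_and2 (List.isChain_split.1 I.hul.hr).2 I.h4

lemma Ins.heads (I : Ins X Y n S T A B u w) : ∃ a : Fin n, (a : ℕ) + 1 = n ∧
    (S = [] → u = a) ∧ (∀ s S', S = s :: S' → s = a) ∧
    (T = [] → w = a) ∧ (∀ s S', T = s :: S' → s = a) := by
  obtain ⟨a, ha, hLa⟩ := I.F.headL
  obtain ⟨a', ha', hRa⟩ := I.F.headR
  have haa : a' = a := Fin.ext (by omega)
  subst haa
  refine ⟨a', ha, ?_, ?_, ?_, ?_⟩
  · intro e; rw [e] at hLa; simpa using hLa
  · intro s S' e; rw [e] at hLa; simpa using hLa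
  · intro e; rw [e] at hRa; simpa using hRa
  · intro s S' e; rw [e] at hRa; simpa using hRa

lemma second_of {V : Type} (S : List V) (u : V) (hS : S ≠ []) :
    ∃ s S' x l, S = s :: S' ∧ S ++ [u] = s :: x :: l := by
  cases S with
  | nil => exact absurd rfl hS
  | cons s S' =>
    cases S' with
    | nil => exact ⟨s, [], u, [], rfl, rfl⟩
    | cons x l => exact ⟨s, x :: l, x, l ++ [u], rfl, rfl⟩

lemma last_of {V : Type} {R : V → V → Prop} (S : List V) (u : V) (hS : S ≠ [])
    (h : (S ++ [u]).IsChain R) : ∃ s, R s u := by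
  cases List.eq_nil_or_concat S with
  | inl h1 => exact absurd h1 hS
  | inr h1 =>
    obtain ⟨S', s, rfl⟩ := h1
    rw [List.concat_eq_append, List.append_assoc, List.singleton_append] at h
    exact ⟨s, (List.isChain_append_cons_cons.1 h).2.1⟩

/-- tangent at `u` -/
lemma Ins.tu (I : Ins X Y n S T A B u w) : ∀ c : ℕ, c < n → c ≠ u → 0 < ori X Y u n c := by
  obtain ⟨a, ha, e1, e2, e3, e4⟩ := I.heads
  obtain ⟨z, hz1, hz2⟩ : ∃ z : ℕ, HE X Y n u z ∧ ori X Y u z n < 0 := by
    by_cases hS : S = []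
    · have hT : T ≠ [] := by rcases I.ne with h | h; exact absurd hS h; exact h
      obtain ⟨s, S', x, l, h1, h2⟩ := second_of T w hT
      have := I.v3
      rw [h2, List.isChain_cons_cons] at this
      refine ⟨x, ?_⟩
      rw [e1 hS, ← e4 s S' h1]
      exact this.1
    · obtain ⟨s, hs⟩ := last_of S u hS I.v1
      exact ⟨s, hs⟩
  obtain ⟨y, hy1, hy2⟩ : ∃ y : ℕ, HE X Y n y u ∧ 0 < ori X Y y u n := by
    cases A with
    | nil =>
      obtain ⟨z, hz, hLz⟩ := I.F.lastL
      rw [List.getLast?_append] at hLz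
      have : u = z := by simpa using hLz
      have hu : (u : ℕ) = 0 := by rw [this, hz]
      refine ⟨1, ?_⟩
      rw [hu]; exact ⟨I.hul.top, I.h5⟩
    | cons q A' =>
      have := I.v2
      rw [List.isChain_cons_cons] at this
      exact ⟨q, this.1⟩
  exact tanR I.F.three hy1 hz1 hy2 hz2

/-- tangent at `w` -/
lemma Ins.tw (I : Ins X Y n S T A B u w) : ∀ c : ℕ, c < n → c ≠ w → 0 < ori X Y n w c := by
  obtain ⟨a, ha, e1, e2, e3, e4⟩ := I.heads
  obtain ⟨y, hy1, hy2⟩ : ∃ y : ℕ, HE X Y n y w ∧ ori X Y y w n < 0 := by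
    by_cases hT : T = []
    · have hS : S ≠ [] := by rcases I.ne with h | h; exact h; exact absurd hT h
      obtain ⟨s, S', x, l, h1, h2⟩ := second_of S u hS
      have := I.v1
      rw [h2, List.isChain_cons_cons] at this
      refine ⟨x, ?_⟩
      rw [e3 hT, ← e2 s S' h1]
      exact this.1
    · obtain ⟨s, hs⟩ := last_of T w hT I.v3
      exact ⟨s, hs⟩
  obtain ⟨z, hz1, hz2⟩ : ∃ z : ℕ, HE X Y n w z ∧ 0 < ori X Y w z n := by
    cases B with
    | nil =>
      obtain ⟨z, hz, hLz⟩ := I.F.lastR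
      rw [List.getLast?_append] at hLz
      have : w = z := by simpa using hLz
      have hu : (w : ℕ) = 1 := by rw [this, hz]
      refine ⟨0, ?_⟩
      rw [hu]; exact ⟨I.hul.top, I.h5⟩
    | cons q A' =>
      have := I.v4
      rw [List.isChain_cons_cons] at this
      exact ⟨q, this.1⟩
  exact tanL I.F.three hy1 hz1 hy2 hz2

/-- every vertex of the run lies on a visible hull edge -/
lemma Ins.run_edge (I : Ins X Y n S T A B u w) {v : Fin n} (hv : v ∈ S ++ u :: (T ++ [w])) :
    ∃ s t : ℕ, HE X Y n s t ∧ ori X Y s t n < 0 ∧ ((v : ℕ) = s ∨ (v : ℕ) = t) := by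
  obtain ⟨a, ha, e1, e2, e3, e4⟩ := I.heads
  have caseS : S ≠ [] → v ∈ S ++ [u] →
      ∃ s t : ℕ, HE X Y n s t ∧ ori X Y s t n < 0 ∧ ((v : ℕ) = s ∨ (v : ℕ) = t) := by
    intro hS hv
    have hl : 2 ≤ (S ++ [u]).length := by
      have := List.length_pos_iff.2 hS
      simp only [List.length_append, List.length_singleton]; omega
    obtain ⟨x, y, ⟨k1, k2⟩, k3⟩ := pair_of_mem _ hl I.v1 v hv
    exact ⟨y, x, k1, k2, by rcases k3 with rfl | rfl <;> simp⟩
  have caseT : T ≠ [] → v ∈ T ++ [w] →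
      ∃ s t : ℕ, HE X Y n s t ∧ ori X Y s t n < 0 ∧ ((v : ℕ) = s ∨ (v : ℕ) = t) := by
    intro hS hv
    have hl : 2 ≤ (T ++ [w]).length := by
      have := List.length_pos_iff.2 hS
      simp only [List.length_append, List.length_singleton]; omega
    obtain ⟨x, y, ⟨k1, k2⟩, k3⟩ := pair_of_mem _ hl I.v3 v hv
    exact ⟨x, y, k1, k2, by rcases k3 with rfl | rfl <;> simp⟩
  by_cases hS : S = []
  · have hT : T ≠ [] := by rcases I.ne with h | h; exact absurd hS h; exact h
    apply caseT hT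
    rw [hS, List.nil_append] at hv
    rcases List.mem_cons.1 hv with rfl | hv
    · obtain ⟨s, S', x, l, h1, h2⟩ := second_of T w hT
      rw [h2, e1 hS, e4 s S' h1]; simp
    · exact hv
  · by_cases hT : T = []
    · apply caseS hS
      rw [hT, List.nil_append] at hv
      rcases List.mem_append.1 hv with hv | hv
      · exact List.mem_append_left _ hv
      · rcases List.mem_cons.1 hv with rfl | hv
        · simp
        · have : v = w := by simpa using hv
          obtain ⟨s, S', x, l, h1, h2⟩ := second_of S u hS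
          rw [h2, this, e3 hT, e2 s S' h1]; simp
    · rcases List.mem_append.1 hv with hv | hv
      · exact caseS hS (List.mem_append_left _ hv)
      · rcases List.mem_cons.1 hv with rfl | hv
        · exact caseS hS (by simp)
        · exact caseT hT hv

/-- a vertex outside the run is hidden behind a visible hull edge -/
lemma Ins.hidden (I : Ins X Y n S T A B u w)
    (gp : ∀ a b c : ℕ, a < n + 1 → b < n + 1 → c < n + 1 → a ≠ b → a ≠ c → b ≠ c →
      ori X Y a b c ≠ 0) {v : Fin n}
    (hv : v ∉ S ++ u :: (T ++ [w])) :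
    ∃ s t : Fin n, HE X Y n s t ∧ (s : ℕ) ≠ t ∧ Cr X Y n v s t := by
  obtain ⟨a, ha, e1, e2, e3, e4⟩ := I.heads
  have vu : (v : ℕ) ≠ u := fun e => hv (by rw [Fin.ext e]; simp)
  have vw : (v : ℕ) ≠ w := fun e => hv (by rw [Fin.ext e]; simp)
  have su : ori X Y n u v < 0 := by
    have := I.tu v v.2 vu; rw [ori_swap]; linarith
  have sw : 0 < ori X Y n w v := I.tw v v.2 vw
  -- crossing from a visible edge with a sign change
  have fin : ∀ s t : Fin n, HE X Y n s t → ori X Y s t n < 0 → ori X Y n s v < 0 →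
      0 < ori X Y n t v → (v : ℕ) ≠ s → (v : ℕ) ≠ t → (s : ℕ) ≠ t ∧ Cr X Y n v s t := by
    intro s t h1 h2 h3 h4 h5 h6
    have n1 : (s : ℕ) ≠ t := by intro e; rw [e] at h3; linarith
    refine ⟨n1, ?_, ?_⟩
    · have k1 : ori X Y n v s = - ori X Y n s v := by unfold ori; ring
      have k2 : ori X Y n v t = - ori X Y n t v := by unfold ori; ring
      rw [k1, k2]; nlinarith
    · have h7 := h1.2.2 v v.2 h5 h6
      exact mul_neg_of_neg_of_pos h2 h7
  by_cases hσ : 0 < ori X Y n a v
  · -- change on the side of `S`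
    have hS : S ≠ [] := by
      intro hS
      rw [e1 hS] at su
      linarith
    obtain ⟨s0, S', x, l, k1, k2⟩ := second_of S u hS
    have ch := I.v1
    have hlast : (S ++ [u]).getLast? = some u := by simp
    rw [k2] at ch hlast
    obtain ⟨s, t, ⟨g1, g2⟩, g3, g4, g5, g6⟩ := change (P := fun z : Fin n => ori X Y n z v < 0)
      (x :: l) s0 u ch (by rw [e2 s0 S' k1]; simp only [not_lt]; exact hσ.le) hlast su
    rw [← k2] at g5 g6
    have vs : (v : ℕ) ≠ s := fun e => hv (by
      rw [Fin.ext e]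
      rcases List.mem_append.1 g5 with h | h
      · exact List.mem_append_left _ h
      · have : s = u := by simpa using h
        rw [this]; simp)
    have vt : (v : ℕ) ≠ t := fun e => hv (by
      rw [Fin.ext e]
      rcases List.mem_append.1 g6 with h | h
      · exact List.mem_append_left _ h
      · have : t = u := by simpa using h
        rw [this]; simp)
    have gs : 0 < ori X Y n s v := by
      have h0 := gp n s v (by omega) (by have := s.2; omega) (by have := v.2; omega)
        (by have := s.2; omega) (by have := v.2; omega) vs.symm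
      rcases lt_or_gt_of_ne h0 with h | h
      · exact absurd h g3
      · exact h
    obtain ⟨f1, f2⟩ := fin t s g1 g2 g4 gs vt vs
    exact ⟨t, s, g1, f1, f2⟩
  · have hT : T ≠ [] := by
      intro hT
      rw [e3 hT] at sw
      exact hσ sw
    obtain ⟨s0, S', x, l, k1, k2⟩ := second_of T w hT
    have ch := I.v3
    have hlast : (T ++ [w]).getLast? = some w := by simp
    rw [k2] at ch hlast
    obtain ⟨s, t, ⟨g1, g2⟩, g3, g4, g5, g6⟩ := change (P := fun z : Fin n => 0 < ori X Y n z v)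
      (x :: l) s0 w ch (by rw [e4 s0 S' k1]; exact hσ) hlast sw
    rw [← k2] at g5 g6
    have vs : (v : ℕ) ≠ s := fun e => hv (by
      rw [Fin.ext e]
      exact List.mem_append_right _ (List.mem_cons_of_mem _ g5))
    have vt : (v : ℕ) ≠ t := fun e => hv (by
      rw [Fin.ext e]
      exact List.mem_append_right _ (List.mem_cons_of_mem _ g6))
    have gs : ori X Y n s v < 0 := by
      have h0 := gp n s v (by omega) (by have := s.2; omega) (by have := v.2; omega)
        (by have := s.2; omega) (by have := v.2; omega) vs.symm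
      rcases lt_or_gt_of_ne h0 with h | h
      · exact h
      · exact absurd h g3
    obtain ⟨f1, f2⟩ := fin s t g1 g2 gs g4 vs vt
    exact ⟨s, t, g1, f1, f2⟩

/-- the new hull -/
lemma Ins.hull (I : Ins X Y n S T A B u w) :
    Hull X Y (n + 1) (Fin.last n :: (u :: A).map Fin.castSucc)
      (Fin.last n :: (w :: B).map Fin.castSucc) := by
  have up : ∀ s t : ℕ, HE X Y n s t → 0 < ori X Y s t n → HE X Y (n + 1) s t := by
    intro s t h1 h2
    refine ⟨by have := h1.1; omega, by have := h1.2.1; omega, ?_⟩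
    intro c hc hcs hct
    rcases Nat.lt_succ_iff_lt_or_eq.1 hc with h | h
    · exact h1.2.2 c h hcs hct
    · rw [h]; exact h2
  refine ⟨?_, ?_, up 1 0 I.hul.top I.h5⟩
  · rw [List.map_cons, List.isChain_cons_cons]
    constructor
    · refine ⟨by simp only [Fin.val_castSucc]; have := u.2; omega, by simp, ?_⟩
      intro c hc h1 h2
      simp only [Fin.val_castSucc, Fin.val_last] at h1 h2 ⊢
      exact I.tu c (by omega) h1
    · rw [← List.map_cons, List.isChain_map]
      exact I.v2.imp (fun v x h => up _ _ h.1 h.2)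
  · rw [List.map_cons, List.isChain_cons_cons]
    constructor
    · refine ⟨by simp, by simp only [Fin.val_castSucc]; have := w.2; omega, ?_⟩
      intro c hc h1 h2
      simp only [Fin.val_castSucc, Fin.val_last] at h1 h2 ⊢
      exact I.tw c (by omega) h2
    · rw [← List.map_cons, List.isChain_map]
      exact I.v4.imp (fun v x h => up _ _ h.1 h.2)

end

end Pool.Agent.MP7a5e6c
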