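import Pool.Agent.MP7a5e6c.HC6
import Pool.Agent.MP7a5e6c.Flat

set_option autoImplicit false
open scoped Classical

namespace Pool.Agent.MP7a5e6c

section
variable {n : ℕ}

lemma edge_cases (E : SimpleGraph (Fin (n + 1))) {a b : Fin (n + 1)} (h : E.Adj a b) :
    (∃ i j : Fin n, a = i.castSucc ∧ b = j.castSucc ∧ E.Adj i.castSucc j.castSucc) ∨
    (∃ i : Fin n, ((a = Fin.last n ∧ b = i.castSucc) ∨ (a = i.castSucc ∧ b = Fin.last n)) ∧
      E.Adj (Fin.last n) i.castSucc) := by
  rcases Fin.eq_castSucc_or_eq_last a with ⟨i, rfl⟩ | rfl <;>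
    rcases Fin.eq_castSucc_or_eq_last b with ⟨j, rfl⟩ | rfl
  · exact Or.inl ⟨i, j, rfl, rfl, h⟩
  · exact Or.inr ⟨i, Or.inr ⟨rfl, rfl⟩, h.symm⟩
  · exact Or.inr ⟨j, Or.inl ⟨rfl, rfl⟩, h⟩
  · exact absurd h (E.irrefl)

lemma W0_succ (X : ℕ → ℝ) (E : SimpleGraph (Fin (n + 1))) :
    W0 (rs X (n + 1)) E = W0 (rs X n) (E.comap Fin.castSucc)
      + 2 * ∑ i : Fin n, if E.Adj (Fin.last n) i.castSucc then |X n - X i| else 0 := by
  unfold W0
  rw [Fin.sum_univ_castSucc]
  simp only [Fin.sum_univ_castSucc, SimpleGraph.comap_adj, SimpleGraph.irrefl, if_false, add_zero]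
  rw [Finset.sum_add_distrib]
  have h1 : ∀ i : Fin n, (if E.Adj i.castSucc (Fin.last n) then
      |rs X (n + 1) i.castSucc - rs X (n + 1) (Fin.last n)| else 0) =
      (if E.Adj (Fin.last n) i.castSucc then |X n - X i| else 0) := by
    intro i
    rw [abs_sub_comm]
    simp only [E.adj_comm (Fin.last n) i.castSucc]
    rfl
  have h2 : ∀ i : Fin n, (if E.Adj (Fin.last n) i.castSucc then
      |rs X (n + 1) (Fin.last n) - rs X (n + 1) i.castSucc| else 0) =
      (if E.Adj (Fin.last n) i.castSucc then |X n - X i| else 0) := fun i => rfl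
  have h3 : ∀ i j : Fin n, (if E.Adj i.castSucc j.castSucc then
      |rs X (n + 1) i.castSucc - rs X (n + 1) j.castSucc| else 0) =
      (if E.Adj i.castSucc j.castSucc then |rs X n i - rs X n j| else 0) := fun i j => rfl
  simp only [h1, h2, h3]
  ring

variable {X Y : ℕ → ℝ} {S T A B : List (Fin n)} {u w : Fin n} {G : SimpleGraph (Fin n)}

lemma Ins.vis (I : Ins X Y n S T A B u w) {v : Fin n} (hv : v ∈ S ++ u :: (T ++ [w]))
    (c d : Fin n) : ¬ Cr (rs X (n + 1)) (rs Y (n + 1)) (Fin.last n) v.castSucc c.castSucc d.castSucc := by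
  obtain ⟨s, t, h1, h2, h3⟩ := I.run_edge hv
  exact seen h1 h2 h3 c.2 d.2

lemma Ins.vis' (I : Ins X Y n S T A B u w) {v : Fin n} (hv : v ∈ S ++ u :: (T ++ [w]))
    {a b : Fin (n + 1)} (hab : (a = Fin.last n ∧ b = v.castSucc) ∨ (a = v.castSucc ∧ b = Fin.last n))
    (c d : Fin n) : ¬ Cr (rs X (n + 1)) (rs Y (n + 1)) a b c.castSucc d.castSucc := by
  rcases hab with ⟨rfl, rfl⟩ | ⟨rfl, rfl⟩
  · exact I.vis hv c d
  · rw [Cr_swap1]; exact I.vis hv c d

lemma Ins.tri (I : Ins X Y n S T A B u w)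
    (gp : ∀ a b c : ℕ, a < n + 1 → b < n + 1 → c < n + 1 → a ≠ b → a ≠ c → b ≠ c →
      ori X Y a b c ≠ 0) (hG : TriC (rs X n) (rs Y n) G) :
    TriC (rs X (n + 1)) (rs Y (n + 1)) (addVertex G (S ++ u :: (T ++ [w]))) := by
  constructor
  · intro a b c d hab hcd
    rcases edge_cases _ hab with ⟨i, j, rfl, rfl, h1⟩ | ⟨i, h1, h2⟩ <;>
      rcases edge_cases _ hcd with ⟨k, l, rfl, rfl, h3⟩ | ⟨k, h3, h4⟩
    · rw [addVertex_old] at h1 h3
      exact hG.1 i j k l h1 h3
    · rw [addVertex_new] at h4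
      rw [Cr_symm]
      exact I.vis' h4 h3 i j
    · rw [addVertex_new] at h2
      exact I.vis' h2 h1 k l
    · apply not_Cr_share
      rcases h1 with ⟨rfl, rfl⟩ | ⟨rfl, rfl⟩ <;> rcases h3 with ⟨rfl, rfl⟩ | ⟨rfl, rfl⟩ <;> simp
  · have key : ∀ v : Fin n, (∀ c d, (addVertex G (S ++ u :: (T ++ [w]))).Adj c d →
        ¬ Cr (rs X (n + 1)) (rs Y (n + 1)) (Fin.last n) v.castSucc c d) →
        v ∈ S ++ u :: (T ++ [w]) := by
      intro v h
      by_contra hv
      obtain ⟨s, t, h1, h2, h3⟩ := I.hidden gp hv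
      have hst : G.Adj s t := by
        apply hG.2 s t (fun e => h2 (congrArg Fin.val e))
        intro c d _
        exact not_Cr_of_side _ _ _ _ _ _ (h1.nonneg c.2) (h1.nonneg d.2)
      exact h s.castSucc t.castSucc ((addVertex_old _ _ _ _).2 hst) h3
    intro a b hab h
    rcases Fin.eq_castSucc_or_eq_last a with ⟨i, rfl⟩ | rfl <;>
      rcases Fin.eq_castSucc_or_eq_last b with ⟨j, rfl⟩ | rfl
    · rw [addVertex_old]
      apply hG.2 i j (fun e => hab (by rw [e]))
      intro c d hcd
      exact h c.castSucc d.castSucc ((addVertex_old _ _ _ _).2 hcd)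
    · rw [addVertex_new']
      apply key
      intro c d hcd
      rw [Cr_swap1]; exact h c d hcd
    · rw [addVertex_new]
      exact key j h
    · exact absurd rfl hab

lemma Ins.mn (I : Ins X Y n S T A B u w) {M : ℝ} (hM : (n : ℝ) ^ 2 + 2 ≤ M)
    (mono : ∀ i j : ℕ, i < j → j < n + 1 → X i < X j) (x0 : X 0 = 0)
    (gr : ∀ a : ℕ, a + 1 = n → M * X a ≤ X n)
    (hG : ∀ E, TriC (rs X n) (rs Y n) E → E ≠ G → W0 (rs X n) G < W0 (rs X n) E)
    (E : SimpleGraph (Fin (n + 1))) (hE : TriC (rs X (n + 1)) (rs Y (n + 1)) E)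
    (hne : E ≠ addVertex G (S ++ u :: (T ++ [w]))) :
    W0 (rs X (n + 1)) (addVertex G (S ++ u :: (T ++ [w]))) < W0 (rs X (n + 1)) E := by
  set run := S ++ u :: (T ++ [w]) with hrun
  have hrunE : ∀ v ∈ run, E.Adj (Fin.last n) v.castSucc := by
    intro v hv
    apply hE.2 _ _ (Fin.castSucc_lt_last v).ne'
    intro c d hcd
    rcases edge_cases _ hcd with ⟨k, l, rfl, rfl, _⟩ | ⟨k, h3, _⟩
    · exact I.vis hv k l
    · apply not_Cr_share
      rcases h3 with ⟨rfl, rfl⟩ | ⟨rfl, rfl⟩ <;> simp
  have eG : (addVertex G run).comap Fin.castSucc = G := by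
    ext i j; simp
  rw [W0_succ, W0_succ, eG]
  simp only [addVertex_new]
  have hpos : ∀ i : Fin n, 0 < X n - X i := fun i => by
    have := mono i n i.2 (by omega); linarith
  have habs : ∀ i : Fin n, |X n - X i| = X n - X i := fun i => abs_of_pos (hpos i)
  simp only [habs]
  by_cases hall : ∀ v : Fin n, E.Adj (Fin.last n) v.castSucc → v ∈ run
  · have hsum : (∑ i : Fin n, if E.Adj (Fin.last n) i.castSucc then X n - X i else 0) =
        ∑ i : Fin n, if i ∈ run then X n - X i else 0 := by
      apply Finset.sum_congr rfl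
      intro i _
      by_cases h : i ∈ run
      · rw [if_pos h, if_pos (hrunE i h)]
      · rw [if_neg h, if_neg (fun h2 => h (hall i h2))]
    rw [hsum]
    have hlt := hG (E.comap Fin.castSucc) ?_ ?_
    · linarith
    · constructor
      · intro a b c d hab hcd
        exact hE.1 _ _ _ _ hab hcd
      · intro a b hab h
        show E.Adj a.castSucc b.castSucc
        apply hE.2 _ _ (fun e => hab (Fin.castSucc_injective _ e))
        intro c d hcd
        rcases edge_cases _ hcd with ⟨k, l, rfl, rfl, h1⟩ | ⟨k, h3, h4⟩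
        · exact h k l h1
        · rw [Cr_symm]
          exact I.vis' (hall k h4) h3 a b
    · intro e
      apply hne
      ext a b
      rcases Fin.eq_castSucc_or_eq_last a with ⟨i, rfl⟩ | rfl <;>
        rcases Fin.eq_castSucc_or_eq_last b with ⟨j, rfl⟩ | rfl
      · rw [addVertex_old, ← e]; rfl
      · rw [addVertex_new', E.adj_comm]
        exact ⟨hall i, hrunE i⟩
      · rw [addVertex_new]
        exact ⟨hall j, hrunE j⟩
      · simp
  · push Not at hall
    obtain ⟨v0, hv0, hv0'⟩ := hall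
    have h3 := I.F.three
    obtain ⟨a, ha⟩ : ∃ a, a + 1 = n := ⟨n - 1, by omega⟩
    have hXle : ∀ i : ℕ, i < n → X i ≤ X a := by
      intro i hi
      rcases Nat.lt_or_ge i a with h1 | h1
      · exact (mono i a h1 (by omega)).le
      · have : i = a := by omega
        rw [this]
    have hX0 : ∀ i : ℕ, i < n → 0 ≤ X i := by
      intro i hi
      rcases Nat.eq_zero_or_pos i with h1 | h1
      · rw [h1, x0]
      · have := mono 0 i h1 (by omega)
        rw [x0] at this; exact this.le
    have hXa : 0 < X a := by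
      have := mono 0 a (by omega) (by omega)
      rwa [x0] at this
    have s1 : (∑ i : Fin n, if i ∈ run then X n - X i else 0) + (X n - X v0) ≤
        ∑ i : Fin n, if E.Adj (Fin.last n) i.castSucc then X n - X i else 0 := by
      have e0 : (X n - X v0) = ∑ i : Fin n, if i = v0 then X n - X i else 0 := by
        rw [Finset.sum_ite_eq' Finset.univ v0]; simp
      rw [e0, ← Finset.sum_add_distrib]
      apply Finset.sum_le_sum
      intro i _
      by_cases h : i ∈ run
      · have h5 : i ≠ v0 := fun e => hv0' (e ▸ h)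
        rw [if_pos h, if_neg h5, if_pos (hrunE i h), add_zero]
      · rw [if_neg h, zero_add]
        by_cases h5 : i = v0
        · rw [if_pos h5, h5, if_pos hv0]
        · rw [if_neg h5]
          split_ifs
          · exact (hpos i).le
          · exact le_refl _
    have s2 : W0 (rs X n) G ≤ (n : ℝ) ^ 2 * X a := by
      unfold W0
      have : ∀ i j : Fin n, (if G.Adj i j then |rs X n i - rs X n j| else 0) ≤ X a := by
        intro i j
        split_ifs
        · show |X i - X j| ≤ X a
          rw [abs_le]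
          have := hXle i i.2
          have := hXle j j.2
          have := hX0 i i.2
          have := hX0 j j.2
          constructor <;> linarith
        · exact hXa.le
      calc (∑ i : Fin n, ∑ j : Fin n, if G.Adj i j then |rs X n i - rs X n j| else 0)
          ≤ ∑ i : Fin n, ∑ j : Fin n, X a :=
            Finset.sum_le_sum (fun i _ => Finset.sum_le_sum (fun j _ => this i j))
        _ = (n : ℝ) ^ 2 * X a := by simp; ring
    have s3 : 0 ≤ W0 (rs X n) (E.comap Fin.castSucc) := by
      unfold W0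
      apply Finset.sum_nonneg; intro i _
      apply Finset.sum_nonneg; intro j _
      split_ifs
      · exact abs_nonneg _
      · exact le_refl _
    have s4 := gr a ha
    have s5 := hXle v0 v0.2
    have s6 : ((n : ℝ) ^ 2 + 2) * X a ≤ X n := (mul_le_mul_of_nonneg_right hM hXa.le).trans s4
    have s7 : 0 ≤ (n : ℝ) ^ 2 * X a := mul_nonneg (sq_nonneg _) hXa.le
    nlinarith

theorem phase3 {X Y : ℕ → ℝ} {N : ℕ} {M : ℝ} (hM : (N : ℝ) ^ 2 + 2 ≤ M)
    (gp : ∀ a b c : ℕ, a < N → b < N → c < N → a ≠ b → a ≠ c → b ≠ c → ori X Y a b c ≠ 0)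
    (mono : ∀ i j : ℕ, i < j → j < N → X i < X j) (x0 : X 0 = 0)
    (gr : ∀ i, 1 ≤ i → i + 1 < N → M * X i ≤ X (i + 1))
    {n : ℕ} {G : SimpleGraph (Fin n)} {L R : List (Fin n)} (h : HG X Y n G L R) :
    n ≤ N → Hull X Y n L R ∧ TriC (rs X n) (rs Y n) G ∧
      ∀ E, TriC (rs X n) (rs Y n) E → E ≠ G → W0 (rs X n) G < W0 (rs X n) E := by
  induction h with
  | base h =>
    intro _
    have e1 : ori X Y 0 2 1 = ori X Y 1 0 2 := ori_rot X Y 1 0 2
    have e2 : ori X Y 2 1 0 = ori X Y 0 2 1 := ori_rot X Y 0 2 1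
    have share : ∀ a b c d : Fin 3, a ≠ b → c ≠ d → (a = c ∨ a = d ∨ b = c ∨ b = d) := by decide
    refine ⟨⟨?_, ?_, ?_⟩, ⟨?_, ?_⟩, ?_⟩
    · rw [List.isChain_cons_cons]
      refine ⟨⟨by decide, by decide, ?_⟩, by simp⟩
      intro c hc h1 h2
      have : c = 1 := by
        have h1' : c ≠ 0 := h1
        have h2' : c ≠ 2 := h2
        omega
      subst this
      show 0 < ori X Y 0 2 1
      rw [e1]; exact h
    · rw [List.isChain_cons_cons]
      refine ⟨⟨by decide, by decide, ?_⟩, by simp⟩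
      intro c hc h1 h2
      have : c = 0 := by
        have h1' : c ≠ 2 := h1
        have h2' : c ≠ 1 := h2
        omega
      subst this
      show 0 < ori X Y 2 1 0
      rw [e2, e1]; exact h
    · refine ⟨by norm_num, by norm_num, ?_⟩
      intro c hc h1 h2
      have : c = 2 := by omega
      subst this
      exact h
    · intro a b c d hab hcd
      exact not_Cr_share _ _ _ _ _ _ (share a b c d hab.ne hcd.ne)
    · intro a b hab _
      exact hab
    · intro E hE hne
      exfalso
      apply hne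
      ext a b
      constructor
      · intro hab; exact hab.ne
      · intro hab
        apply hE.2 a b hab
        intro c d hcd
        exact not_Cr_share _ _ _ _ _ _ (share a b c d hab hcd.ne)
  | @add n G S T A B u w h hne h1 h2 h3 h4 h5 ih =>
    intro hn
    obtain ⟨k1, k2, k3⟩ := ih (by omega)
    have I : Ins X Y n S T A B u w := ⟨h.facts, k1, hne, h1, h2, h3, h4, h5⟩
    have F3 := h.facts.three
    refine ⟨I.hull, I.tri ?_ k2, ?_⟩
    · intro a b c ha hb hc
      exact gp a b c (by omega) (by omega) (by omega)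
    · intro E hE hne'
      refine I.mn (M := M) ?_ ?_ x0 ?_ k3 E hE hne'
      · have : (n : ℝ) ≤ N := by exact_mod_cast (by omega : n ≤ N)
        nlinarith [Nat.cast_nonneg (α := ℝ) n]
      · intro i j hij hj
        exact mono i j hij (by omega)
      · intro a ha
        have := gr a (by omega) (by omega)
        rwa [ha] at this

end

end Pool.Agent.MP7a5e6c
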