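import Pool.Agent.MP7a5e6c.HC7

set_option autoImplicit false
open scoped Classical

namespace Pool.Agent.MP7a5e6c

/-- a strict flat minimum gives a strict minimum for honest lengths -/
theorem honest2 {V : Type} [Fintype V] {X Y : V → ℝ} {G : SimpleGraph V}
    (hgp : ∀ ε : ℝ, 0 < ε → GP X (fun v => ε * Y v)) (hG : TriC X Y G)
    (hmin : ∀ E, TriC X Y E → E ≠ G → W0 X G < W0 X E) :
    ∃ Y' : V → ℝ, GP X Y' ∧ TriC X Y' G ∧ ∀ E, TriC X Y' E → E ≠ G → wt X Y' G < wt X Y' E := by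
  obtain ⟨δ, hδ, hδ'⟩ : ∃ δ : ℝ, 0 < δ ∧ ∀ E, TriC X Y E → E ≠ G → W0 X G + δ ≤ W0 X E := by
    by_cases hne : {E : SimpleGraph V | TriC X Y E ∧ E ≠ G}.Nonempty
    · obtain ⟨E0, hE0, hE0'⟩ := Set.exists_min_image {E : SimpleGraph V | TriC X Y E ∧ E ≠ G}
        (fun E => W0 X E) (Set.toFinite _) hne
      refine ⟨W0 X E0 - W0 X G, by linarith [hmin E0 hE0.1 hE0.2], ?_⟩
      intro E h1 h2
      have := hE0' E ⟨h1, h2⟩
      linarith
    · refine ⟨1, one_pos, ?_⟩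
      intro E h1 h2
      exact absurd ⟨E, h1, h2⟩ hne
  set M := ∑ a : V, ∑ b : V, |Y a - Y b| with hM
  have hM0 : 0 ≤ M := by
    apply Finset.sum_nonneg; intro a _
    apply Finset.sum_nonneg; intro b _
    exact abs_nonneg _
  set ε := δ / (M + 1) with hε
  have hεp : 0 < ε := by positivity
  have hεM : ε * M < δ := by
    rw [hε, div_mul_eq_mul_div, div_lt_iff₀ (by linarith)]
    nlinarith
  refine ⟨fun v => ε * Y v, hgp ε hεp, (TriC_scale hεp G).2 hG, ?_⟩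
  intro E hE hne
  have h1 := hδ' E ((TriC_scale hεp E).1 hE) hne
  have h2 := wt_upper (X := X) (Y := Y) hεp G
  have h3 := wt_lower (X := X) (Y := fun v => ε * Y v) E
  linarith

theorem HCO.mw {n : ℕ} {G : SimpleGraph (Fin n)} {L R : List (Fin n)} (h : HCO n G L R) :
    ∃ X Y : Fin n → ℝ, GP X Y ∧ TriC X Y G ∧ ∀ E, TriC X Y E → E ≠ G → wt X Y G < wt X Y E := by
  set M : ℝ := (n : ℝ) ^ 2 + 2 with hM
  have hM2 : 2 ≤ M := by rw [hM]; nlinarith [sq_nonneg (n : ℝ)]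
  set D : ℕ → ℝ := fun m => (1 / (4 * M)) ^ m with hDdef
  have hq : 0 < 1 / (4 * M) := by positivity
  have hDp : ∀ m, 0 < D m := fun m => pow_pos hq m
  have hD1 : ∀ m, 4 * M * D (m + 1) = D m := by
    intro m
    rw [hDdef]
    simp only [pow_succ]
    field_simp
  have hD2 : ∀ m, D (m + 1) < D m := by
    intro m
    have := hD1 m
    have := hDp (m + 1)
    nlinarith
  have F := h.facts
  obtain ⟨a, ha, hLa⟩ := F.headL
  obtain ⟨a', ha', hRa⟩ := F.headR
  have haa : a' = a := Fin.ext (by omega)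
  subst haa
  obtain ⟨z, hz, hLz⟩ := F.lastL
  obtain ⟨o, ho, hRo⟩ := F.lastR
  have h3 := F.three
  obtain ⟨u', L', hL'⟩ := second hLa hLz (fun e => by have := congrArg Fin.val e; omega)
  obtain ⟨w', R', hR'⟩ := second hRa hRo (fun e => by have := congrArg Fin.val e; omega)
  obtain ⟨β₀, b1, b2, b3, b4⟩ := fillDown L.dropLast (fun _ => 0) (D a') (D a' - 1)
    (fun _ => by linarith) ((List.dropLast_sublist L).nodup F.ndL)
  obtain ⟨α₀, a1, a2, a3, a4⟩ := fillUp R.dropLast (fun _ => 0) 0 1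
    (fun _ => by norm_num) ((List.dropLast_sublist R).nodup F.ndR)
  have tv : TV D α₀ β₀ n L R := by
    refine ⟨b2, a2, ?_⟩
    intro x hx
    have : x = a' := Fin.ext (by omega)
    rw [this, b1 a' (u' :: L').dropLast (by rw [hL', List.dropLast_cons_cons]),
      a1 a' (w' :: R').dropLast (by rw [hR', List.dropLast_cons_cons]), sub_zero]
  obtain ⟨α, β, hs, _, _, _⟩ := slopes D hD2 h α₀ β₀ tv
  set τ : ℝ := (∑ m ∈ Finset.range n, |α m|) + M * D 2 with hτ
  have hτ' : ∀ m, 2 ≤ m → m < n → α m + M * D 2 ≤ τ := by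
    intro m _ hm
    have h1 : |α m| ≤ ∑ m ∈ Finset.range n, |α m| :=
      Finset.single_le_sum (f := fun m => |α m|) (fun i _ => abs_nonneg _) (Finset.mem_range.2 hm)
    have := le_abs_self (α m)
    rw [hτ]; linarith
  obtain ⟨X, Y, p, g⟩ := phase2 hM2 hDp (fun m => (hD1 m).le) n hτ' hs (le_refl n)
  obtain ⟨Y', g', gp⟩ := pert g p.mono
  obtain ⟨_, k2, k3⟩ := phase3 (N := n) (M := M) (le_refl _) gp p.mono p.x0 p.gr g' (le_refl n)
  have hgp : ∀ ε : ℝ, 0 < ε → GP (rs X n) (fun v => ε * rs Y' n v) := by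
    intro ε hε
    have hXne : ∀ a b : Fin n, a ≠ b → rs X n a ≠ rs X n b := by
      intro a b hab
      rcases lt_or_gt_of_ne (fun e => hab (Fin.ext e) : (a : ℕ) ≠ b) with h1 | h1
      · exact (p.mono a b h1 b.2).ne
      · exact (p.mono b a h1 a.2).ne'
    refine ⟨fun a b hab => Or.inl (hXne a b hab), ?_⟩
    intro a b c hab hac hbc
    rw [ori_scale]
    exact mul_ne_zero hε.ne' (gp a b c a.2 b.2 c.2 (fun e => hab (Fin.ext e))
      (fun e => hac (Fin.ext e)) (fun e => hbc (Fin.ext e)))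
  obtain ⟨Y2, q1, q2, q3⟩ := honest2 hgp k2 k3
  exact ⟨rs X n, Y2, q1, q2, q3⟩

end Pool.Agent.MP7a5e6c
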