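import Pool.Agent.MP7a5e6c.Defs

set_option autoImplicit false
open scoped Classical

namespace Pool.Agent.MP7a5e6c

/-- Graphs with a Hamiltonian canonical order. `HCO n G L R` says that `G`, a graph on `Fin n`, is
built by the rules below, its vertices being added in the order `0, 1, 2, ...`. The outer cycle of
`G` consists of the path `L` from the vertex added last to the vertex `0`, the edge `0 1`, and the
path `R` from the vertex added last to the vertex `1`.
* `base`: a triangle;
* `add`: if `L` is `S, u, A` and `R` is `T, w, B` (where `S`, `A`, `T`, `B` are lists, `S` and `T`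
  not both empty), a new vertex may be joined to exactly `u`, the vertices of `S` and `T`, and `w`:
  a run of at least two consecutive vertices of the outer path from `0` to `1` that contains the
  vertex added last. The new paths are `new, u, A` and `new, w, B`. -/
inductive HCO : (n : ℕ) → SimpleGraph (Fin n) → List (Fin n) → List (Fin n) → Prop
  | base : HCO 3 ⊤ [2, 0] [2, 1]
  | add {n : ℕ} {G : SimpleGraph (Fin n)} {S T A B : List (Fin n)} {u w : Fin n} :
      HCO n G (S ++ u :: A) (T ++ w :: B) → (S ≠ [] ∨ T ≠ []) →
      HCO (n + 1) (addVertex G (S ++ u :: (T ++ [w])))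
        (Fin.last n :: (u :: A).map Fin.castSucc) (Fin.last n :: (w :: B).map Fin.castSucc)

end Pool.Agent.MP7a5e6c
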