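import Pool.Agent.MP7a5e6c.Plane

set_option autoImplicit false
open scoped Classical

namespace Pool.Agent.MP7a5e6c

/-! ### configurations in which a higher vertex dominates -/

section
variable {V : Type} (X Y : V → ℝ) (h : V → ℕ)

/-- `Y` is so steep that the line from `c` to a higher vertex `d` is nearly vertical. -/
structure Cfg : Prop where
  left : ∀ a c d, h a < h d → h c < h d → X a < X c → 0 < ori X Y c d a
  right : ∀ a c d, h a < h d → h c < h d → X c < X a → ori X Y c d a < 0
  injX : Function.Injective X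
  injh : Function.Injective h

/-- the segment `a b` passes over `c` -/
def Over (a b c : V) : Prop :=
  ((X a < X c ∧ X c < X b) ∨ (X b < X c ∧ X c < X a)) ∧ (h c < h a ∨ h c < h b)

variable {X Y h}

lemma Over.swap {a b c : V} (o : Over X h a b c) : Over X h b a c := ⟨o.1.symm, o.2.symm⟩

lemma cross_iff (C : Cfg X Y h) {a b c d : V} (ha : h a < h d) (hb : h b < h d) (hc : h c < h d) :
    Cr X Y a b c d ↔ Over X h a b c := by
  by_cases hab : a = b
  · subst hab
    constructor
    · rintro ⟨h1, _⟩; simp at h1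
    · rintro ⟨h1 | h1, _⟩ <;> exfalso <;> linarith [h1.1, h1.2]
  by_cases hca : c = a
  · subst hca
    constructor
    · intro h1; exact absurd h1 (not_Cr_share _ _ _ _ _ _ (Or.inl rfl))
    · rintro ⟨h1 | h1, _⟩ <;> exfalso <;> linarith [h1.1, h1.2]
  by_cases hcb : c = b
  · subst hcb
    constructor
    · intro h1; exact absurd h1 (not_Cr_share _ _ _ _ _ _ (Or.inr (Or.inr (Or.inl rfl))))
    · rintro ⟨h1 | h1, _⟩ <;> exfalso <;> linarith [h1.1, h1.2]
  have xac : X a ≠ X c := fun e => hca (C.injX e).symm
  have xbc : X b ≠ X c := fun e => hcb (C.injX e).symm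
  have xab : X a ≠ X b := fun e => hab (C.injX e)
  -- signs
  have e3 : ori X Y a b d = ori X Y b d a := (ori_rot X Y a b d).symm
  -- the sign of ori a b c when c is below the line
  have key1 : (h c < h a ∨ h c < h b) → X a < X c → X c < X b → ori X Y a b c < 0 := by
    intro hh h1 h2
    rcases lt_or_ge (h a) (h b) with hab' | hab'
    · have hcb' : h c < h b := by rcases hh with hh | hh <;> omega
      exact C.right c a b hcb' hab' h1
    · have hab2 : h b < h a := lt_of_le_of_ne hab' (fun e => hab (C.injh e).symm)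
      have hca' : h c < h a := by rcases hh with hh | hh <;> omega
      have := C.right b c a hab2 hca' h2
      rw [← ori_rot X Y a b c, ← ori_rot X Y b c a]; exact this
  have key2 : (h c < h a ∨ h c < h b) → X b < X c → X c < X a → 0 < ori X Y a b c := by
    intro hh h1 h2
    rcases lt_or_ge (h a) (h b) with hab' | hab'
    · have hcb' : h c < h b := by rcases hh with hh | hh <;> omega
      exact C.left c a b hcb' hab' h2
    · have hab2 : h b < h a := lt_of_le_of_ne hab' (fun e => hab (C.injh e).symm)
      have hca' : h c < h a := by rcases hh with hh | hh <;> omega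
      have := C.left b c a hab2 hca' h1
      rw [← ori_rot X Y a b c, ← ori_rot X Y b c a]; exact this
  constructor
  · rintro ⟨h1, h2⟩
    have hbet : (X a < X c ∧ X c < X b) ∨ (X b < X c ∧ X c < X a) := by
      rcases lt_or_gt_of_ne xac with hac | hac <;> rcases lt_or_gt_of_ne xbc with hbc | hbc
      · have := C.left a c d ha hc hac
        have := C.left b c d hb hc hbc
        exfalso; nlinarith
      · exact Or.inl ⟨hac, hbc⟩
      · exact Or.inr ⟨hbc, hac⟩
      · have := C.right a c d ha hc hac
        have := C.right b c d hb hc hbc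
        exfalso; nlinarith
    refine ⟨hbet, ?_⟩
    by_contra hcon
    push Not at hcon
    have hac : h a < h c := lt_of_le_of_ne hcon.1 (fun e => hca (C.injh e).symm)
    have hbc : h b < h c := lt_of_le_of_ne hcon.2 (fun e => hcb (C.injh e).symm)
    have e4 : ori X Y a b c = ori X Y b c a := (ori_rot X Y a b c).symm
    rcases lt_or_gt_of_ne xab with hab' | hab'
    · have s1 := C.left a b d ha hb hab'
      have s2 := C.left a b c hac hbc hab'
      rw [e3, e4] at h1; nlinarith
    · have s1 := C.right a b d ha hb hab'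
      have s2 := C.right a b c hac hbc hab'
      rw [e3, e4] at h1; nlinarith
  · rintro ⟨hbet, hh⟩
    rcases hbet with ⟨h1, h2⟩ | ⟨h1, h2⟩
    · have s1 := C.left a b d ha hb (h1.trans h2)
      rw [← e3] at s1
      refine ⟨mul_neg_of_neg_of_pos (key1 hh h1 h2) s1,
        mul_neg_of_pos_of_neg (C.left a c d ha hc h1) (C.right b c d hb hc h2)⟩
    · have s1 := C.right a b d ha hb (h1.trans h2)
      rw [← e3] at s1
      refine ⟨mul_neg_of_pos_of_neg (key2 hh h1 h2) s1,
        mul_neg_of_neg_of_pos (C.right a c d ha hc h2) (C.left b c d hb hc h1)⟩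

end

/-- steep heights exist -/
lemma exists_cfg {V : Type} [Finite V] (X : V → ℝ) (h : V → ℕ) (hX : Function.Injective X)
    (hh : Function.Injective h) : ∃ Y : V → ℝ, Cfg X Y h := by
  have := Fintype.ofFinite V
  obtain ⟨W, hW⟩ : ∃ W : ℝ, ∀ a b, |X a - X b| ≤ W := by
    obtain ⟨W, hW⟩ := (Set.finite_range (fun p : V × V => |X p.1 - X p.2|)).bddAbove
    exact ⟨W, fun a b => hW ⟨(a, b), rfl⟩⟩
  obtain ⟨δ, hδ, hδ'⟩ : ∃ δ : ℝ, 0 < δ ∧ ∀ a b, a ≠ b → δ ≤ |X a - X b| := by
    have hfin : (Set.range (fun p : {p : V × V // p.1 ≠ p.2} => |X p.1.1 - X p.1.2|)).Finite :=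
      Set.finite_range _
    by_cases hne : (Set.range (fun p : {p : V × V // p.1 ≠ p.2} => |X p.1.1 - X p.1.2|)).Nonempty
    · obtain ⟨m, hm, hmin⟩ := Set.exists_min_image _ id hfin hne
      obtain ⟨p, hp⟩ := hm
      refine ⟨m, ?_, ?_⟩
      · rw [← hp]; exact abs_pos.2 (sub_ne_zero.2 (fun e => p.2 (hX e)))
      · intro a b hab
        exact hmin _ ⟨⟨(a, b), hab⟩, rfl⟩
    · refine ⟨1, one_pos, ?_⟩
      intro a b hab
      exact absurd ⟨_, ⟨⟨(a, b), hab⟩, rfl⟩⟩ hne
  set K : ℝ := 2 + |W| / δ with hK
  have hK1 : 1 < K := by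
    have : 0 ≤ |W| / δ := by positivity
    linarith
  have hKW : |W| < (K - 1) * δ := by
    have : |W| / δ * δ = |W| := by field_simp
    nlinarith
  have hWW : ∀ a b, |X a - X b| ≤ |W| := fun a b => (hW a b).trans (le_abs_self W)
  have main : ∀ a c d, h a < h d → h c < h d → a ≠ c →
      |(X d - X c) * (K ^ h a - K ^ h c)| < (K ^ h d - K ^ h c) * |X a - X c| := by
    intro a c d ha hc hac
    obtain ⟨e, he⟩ : ∃ e, h d = e + 1 := ⟨h d - 1, by omega⟩
    have ha' : K ^ h a ≤ K ^ e := pow_le_pow_right₀ hK1.le (by omega)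
    have hc' : K ^ h c ≤ K ^ e := pow_le_pow_right₀ hK1.le (by omega)
    have pa : 0 < K ^ h a := by positivity
    have pc : 0 < K ^ h c := by positivity
    have pe : 0 < K ^ e := by positivity
    have h1 : |K ^ h a - K ^ h c| ≤ K ^ e := by
      rw [abs_le]; constructor <;> linarith
    rw [abs_mul]
    have h2 : |X d - X c| * |K ^ h a - K ^ h c| ≤ |W| * K ^ e := by
      apply mul_le_mul (hWW d c) h1 (abs_nonneg _) (abs_nonneg _)
    have h3 : (K - 1) * K ^ e * δ ≤ (K ^ h d - K ^ h c) * |X a - X c| := by
      apply mul_le_mul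
      · rw [he, pow_succ]; nlinarith
      · exact hδ' a c hac
      · exact hδ.le
      · rw [he, pow_succ]; nlinarith
    have h4 : |W| * K ^ e < (K - 1) * K ^ e * δ := by
      have := mul_lt_mul_of_pos_right hKW pe
      linarith
    linarith
  refine ⟨fun v => K ^ h v, ?_, ?_, hX, hh⟩
  · intro a c d ha hc hac
    have hne : a ≠ c := by rintro rfl; exact lt_irrefl _ hac
    have := main a c d ha hc hne
    rw [abs_lt] at this
    have e : |X a - X c| = X c - X a := by rw [abs_of_neg (by linarith)]; ring
    rw [e] at this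
    unfold ori
    nlinarith [this.1]
  · intro a c d ha hc hac
    have hne : a ≠ c := by rintro rfl; exact lt_irrefl _ hac
    have := main a c d ha hc hne
    rw [abs_lt] at this
    have e : |X a - X c| = X a - X c := abs_of_pos (by linarith)
    rw [e] at this
    unfold ori
    nlinarith [this.2]

end Pool.Agent.MP7a5e6c
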