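import Mathlib

set_option autoImplicit false

namespace Pool.Agent.MP7a5e6c

variable {V : Type}

lemma chain_and {P Q : V → V → Prop} {l : List V} (h1 : l.IsChain P) (h2 : l.IsChain Q) :
    l.IsChain (fun s t => P s t ∧ Q s t) := by
  rw [List.isChain_iff_forall_rel_of_append_cons_cons] at *
  intro a b l1 l2 h
  exact ⟨h1 h, h2 h⟩

lemma mem_edge {P : V → V → Prop} : ∀ (S : List V) (a w i : V), (a :: (S ++ [w])).IsChain P →
    i ∈ a :: (S ++ [w]) → ∃ s t, P s t ∧ (i = s ∨ i = t)
  | [], a, w, i, h, hi => by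
    rw [List.nil_append, List.isChain_pair] at h
    simp only [List.nil_append, List.mem_cons, List.not_mem_nil, or_false] at hi
    exact ⟨a, w, h, hi⟩
  | b :: S, a, w, i, h, hi => by
    rw [List.cons_append, List.isChain_cons_cons] at h
    rw [List.cons_append, List.mem_cons] at hi
    rcases hi with hi | hi
    · exact ⟨a, b, h.1, Or.inl hi⟩
    · exact mem_edge S b w i h.2 hi

lemma sign_change {P : V → V → Prop} {g : V → ℝ} : ∀ (S : List V) (a w : V),
    (a :: (S ++ [w])).IsChain P → 0 < g a → g w < 0 → (∀ c ∈ a :: (S ++ [w]), g c ≠ 0) →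
    ∃ s t, P s t ∧ 0 < g s ∧ g t < 0
  | [], a, w, h, ha, hw, _ => by
    rw [List.nil_append, List.isChain_pair] at h
    exact ⟨a, w, h, ha, hw⟩
  | b :: S, a, w, h, ha, hw, hc => by
    rw [List.cons_append, List.isChain_cons_cons] at h
    rw [List.cons_append] at hc
    rcases lt_trichotomy (g b) 0 with hb | hb | hb
    · exact ⟨a, b, h.1, ha, hb⟩
    · exact absurd hb (hc b (by simp))
    · exact sign_change S b w h.2 hb hw (fun c hcm => hc c (List.mem_cons_of_mem _ hcm))

lemma exists_cons (S : List V) (w : V) : ∃ t S', S ++ [w] = t :: S' := by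
  cases S with
  | nil => exact ⟨w, [], rfl⟩
  | cons t S' => exact ⟨t, S' ++ [w], rfl⟩

lemma exists_snoc (w : V) (Q : List V) : ∃ Q' s, w :: Q = Q' ++ [s] := by
  rcases List.eq_nil_or_concat (w :: Q) with h | ⟨Q', s, h⟩
  · simp at h
  · exact ⟨Q', s, by simpa using h⟩

end Pool.Agent.MP7a5e6c
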