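import Pool.Agent.MP7a5e6c.Pot

set_option autoImplicit false
open scoped Classical
open Real

namespace Pool.Agent.MP7a5e6c

section
variable {V : Type} {X Y : V → ℝ} {h : V → ℕ} {E G : SimpleGraph V}

lemma J_le [Finite V] {w : V} {A N1 N2 B A' N1' N2' B' : List V}
    (S : Split X h E w A N1 N2 B) (S' : Split X h G w A' N1' N2' B') (g : GoodAt X h G w) :
    gl X w N1' + gr X w N2' - lk X N1' N2' ≤ gl X w N1 + gr X w N2 - lk X N1 N2 := by
  cases N1 with
  | nil =>
    cases N1' with
    | cons u' l' =>
      have := (S'.n1 u').1 (by simp)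
      exact absurd this.2.2 (S.e1 rfl u' this.2.1)
    | nil =>
      cases N2 with
      | nil =>
        cases N2' with
        | nil => simp [gl, gr, lk]
        | cons q' m' =>
          have := (S'.n2 q').1 (by simp)
          exact absurd this.2.2 (S.e2 rfl q' this.2.1)
      | cons q m =>
        cases N2' with
        | nil =>
          have := (S.n2 q).1 (by simp)
          exact absurd this.2.2 (S'.e2 rfl q this.2.1)
        | cons q' m' =>
          have h1 := S.e4 rfl q m rfl q' ((S'.n2 q').1 (by simp)).2.1
          have h2 := S'.e4 rfl q' m' rfl q ((S.n2 q).1 (by simp)).2.1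
          have e : X q = X q' := le_antisymm h1 h2
          simp only [gl, gr, lk, e]
          exact le_refl _
  | cons u l =>
    cases N1' with
    | nil =>
      have := (S.n1 u).1 (by simp)
      exact absurd this.2.2 (S'.e1 rfl u this.2.1)
    | cons u' l' =>
      have hp := (S.n1 _).1 (lst_mem u l)
      have hp' := (S'.n1 _).1 (lst_mem u' l')
      cases N2 with
      | nil =>
        cases N2' with
        | nil =>
          have h1 := S.e3 rfl u l rfl (lst u' l') hp'.2.1
          have h2 := S'.e3 rfl u' l' rfl (lst u l) hp.2.1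
          have e : X (lst u l) = X (lst u' l') := le_antisymm h2 h1
          simp only [gl, gr, lk, e]
          exact le_refl _
        | cons q' m' =>
          have := (S'.n2 q').1 (by simp)
          exact absurd this.2.2 (S.e2 rfl q' this.2.1)
      | cons q m =>
        cases N2' with
        | nil =>
          have := (S.n2 q).1 (by simp)
          exact absurd this.2.2 (S'.e2 rfl q this.2.1)
        | cons q' m' =>
          have hq := (S.n2 q).1 (by simp)
          have hq' := (S'.n2 q').1 (by simp)
          have h1 := good_near1 S' g (lst u l) hp.2.1 hp.2.2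
          have h2 := good_near2 S' g q hq.2.1 hq.2.2
          exact low_mono h1 hp'.2.2 hq'.2.2 h2

lemma J_eq [Finite V] (hX : Function.Injective X) {w : V} {A N1 N2 B A' N1' N2' B' : List V}
    (S : Split X h E w A N1 N2 B) (S' : Split X h G w A' N1' N2' B') (g : GoodAt X h G w)
    (he : gl X w N1 + gr X w N2 - lk X N1 N2 ≤ gl X w N1' + gr X w N2' - lk X N1' N2') :
    (∀ u l u' l', N1 = u :: l → N1' = u' :: l' → lst u l = lst u' l') ∧
    (∀ q l q' l', N2 = q :: l → N2' = q' :: l' → q = q') := by
  cases N1 with
  | nil =>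
    cases N1' with
    | cons u' l' =>
      have := (S'.n1 u').1 (by simp)
      exact absurd this.2.2 (S.e1 rfl u' this.2.1)
    | nil =>
      refine ⟨by simp, ?_⟩
      intro q m q' m' e1 e2
      subst e1; subst e2
      have h1 := S.e4 rfl q m rfl q' ((S'.n2 q').1 (by simp)).2.1
      have h2 := S'.e4 rfl q' m' rfl q ((S.n2 q).1 (by simp)).2.1
      exact hX (le_antisymm h1 h2)
  | cons u l =>
    cases N1' with
    | nil =>
      have := (S.n1 u).1 (by simp)
      exact absurd this.2.2 (S'.e1 rfl u this.2.1)
    | cons u' l' =>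
      have hp := (S.n1 _).1 (lst_mem u l)
      have hp' := (S'.n1 _).1 (lst_mem u' l')
      cases N2 with
      | nil =>
        cases N2' with
        | nil =>
          have h1 := S.e3 rfl u l rfl (lst u' l') hp'.2.1
          have h2 := S'.e3 rfl u' l' rfl (lst u l) hp.2.1
          have e : X (lst u l) = X (lst u' l') := le_antisymm h2 h1
          refine ⟨?_, by simp⟩
          intro a b a' b' e1 e2
          rw [List.cons.injEq] at e1 e2
          rw [← e1.1, ← e1.2, ← e2.1, ← e2.2]
          exact hX e
        | cons q' m' =>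
          have := (S'.n2 q').1 (by simp)
          exact absurd this.2.2 (S.e2 rfl q' this.2.1)
      | cons q m =>
        cases N2' with
        | nil =>
          have := (S.n2 q).1 (by simp)
          exact absurd this.2.2 (S'.e2 rfl q this.2.1)
        | cons q' m' =>
          have hq := (S.n2 q).1 (by simp)
          have hq' := (S'.n2 q').1 (by simp)
          have h1 := good_near1 S' g (lst u l) hp.2.1 hp.2.2
          have h2 := good_near2 S' g q hq.2.1 hq.2.2
          have h3 := low_mono_eq h1 hp'.2.2 hq'.2.2 h2 he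
          constructor
          · intro a b a' b' e1 e2
            rw [List.cons.injEq] at e1 e2
            rw [← e1.1, ← e1.2, ← e2.1, ← e2.2]
            exact hX h3.1
          · intro a b a' b' e1 e2
            rw [List.cons.injEq] at e1 e2
            rw [← e1.1, ← e2.1]
            exact hX h3.2

lemma cost_ge {w : V} {A N1 N2 B : List V} (S : Split X h E w A N1 N2 B) :
    gl X w N1 + gr X w N2 - lk X N1 N2 ≤ lgain X w N1 + rgain X w N2 - lk X N1 N2 := by
  have h1 := gl_le (w := w) S.s1 (fun a ha => ((S.n1 a).1 ha).2.2)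
  have h2 := gr_le (w := w) S.s2 (fun a ha => ((S.n2 a).1 ha).2.2)
  linarith

lemma cost_good {w : V} {A N1 N2 B : List V} (S : Split X h G w A N1 N2 B)
    (g : GoodAt X h G w) :
    lgain X w N1 + rgain X w N2 - lk X N1 N2 = gl X w N1 + gr X w N2 - lk X N1 N2 := by
  have h1 := gl_bal (w := w) S.s1 (fun a ha => ((S.n1 a).1 ha).2.2) (good_bal1 S g)
  have h2 := gr_bal (w := w) S.s2 (fun a ha => ((S.n2 a).1 ha).2.2) (good_bal2 S g)
  linarith

lemma split_uniq {w : V} : ∀ (l1 l2 r1 r2 : List V), w ∉ l1 → w ∉ l2 →
    l1 ++ w :: r1 = l2 ++ w :: r2 → l1 = l2 ∧ r1 = r2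
  | [], [], r1, r2, _, _, he => by simpa using he
  | [], b :: l2, r1, r2, _, h2, he => by
    simp only [List.nil_append, List.cons_append, List.cons.injEq] at he
    exact absurd (by rw [he.1]; simp) h2
  | a :: l1, [], r1, r2, h1, _, he => by
    simp only [List.nil_append, List.cons_append, List.cons.injEq] at he
    exact absurd (by rw [he.1]; simp) h1
  | a :: l1, b :: l2, r1, r2, h1, h2, he => by
    simp only [List.cons_append, List.cons.injEq] at he
    have := split_uniq l1 l2 r1 r2 (fun e => h1 (List.mem_cons_of_mem _ e))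
      (fun e => h2 (List.mem_cons_of_mem _ e)) he.2
    exact ⟨by rw [he.1, this.1], this.2⟩

lemma rev_step [Finite V] (hX : Function.Injective X) {w : V} {A N1 N2 B A' N1' N2' B' : List V}
    (S : Split X h E w A N1 N2 B) (S' : Split X h G w A' N1' N2' B') (g : GoodAt X h G w)
    (hn : pL A N1 ++ w :: pR B N2 = pL A' N1' ++ w :: pR B' N2')
    (he : lgain X w N1 + rgain X w N2 - lk X N1 N2 ≤ lgain X w N1' + rgain X w N2' - lk X N1' N2') :
    A = A' ∧ N1 = N1' ∧ N2 = N2' ∧ B = B' := by
  have c1 := cost_ge S
  have c2 := cost_good S' g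
  have c3 := J_le S S' g
  obtain ⟨j1, j2⟩ := J_eq hX S S' g (by linarith)
  have g1 := gl_le (w := w) S.s1 (fun a ha => ((S.n1 a).1 ha).2.2)
  have g2 := gr_le (w := w) S.s2 (fun a ha => ((S.n2 a).1 ha).2.2)
  have b1 := gl_eq (w := w) S.s1 (fun a ha => ((S.n1 a).1 ha).2.2) (by linarith)
  have b2 := gr_eq (w := w) S.s2 (fun a ha => ((S.n2 a).1 ha).2.2) (by linarith)
  have b1' := good_bal1 S' g
  have b2' := good_bal2 S' g
  have w1 : ∀ {E : SimpleGraph V} {A N1 N2 B : List V}, Split X h E w A N1 N2 B →
      w ∉ pL A N1 := by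
    intro E A N1 N2 B S hm
    cases N1 with
    | nil => simp [pL] at hm
    | cons u l =>
      simp only [pL, List.mem_append, List.mem_singleton] at hm
      rcases hm with hm | hm
      · exact lt_irrefl _ (S.aA w hm)
      · have := (S.n1 u).1 (by simp)
        rw [← hm] at this
        exact lt_irrefl _ this.2.2
  obtain ⟨hl, hr⟩ := split_uniq _ _ _ _ (w1 S) (w1 S') hn
  have fL : ∀ a b b' : V, X b - X a = X w - X b → X b' - X a = X w - X b' → b = b' :=
    fun a b b' e1 e2 => hX (by linarith)
  have fR : ∀ a b b' : V, X a - X w = X b - X a → X a - X w = X b' - X a → b = b' :=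
    fun a b b' e1 e2 => hX (by linarith)
  have L : A = A' ∧ N1 = N1' := by
    cases N1 with
    | nil =>
      cases N1' with
      | nil => exact ⟨by rw [S.nilA rfl, S'.nilA rfl], rfl⟩
      | cons u' l' =>
        have := (S'.n1 u').1 (by simp)
        exact absurd this.2.2 (S.e1 rfl u' this.2.1)
    | cons u l =>
      cases N1' with
      | nil =>
        have := (S.n1 u).1 (by simp)
        exact absurd this.2.2 (S'.e1 rfl u this.2.1)
      | cons u' l' =>
        simp only [pL] at hl
        obtain ⟨h1, h2⟩ := List.append_inj' hl rfl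
        simp only [List.cons.injEq, and_true] at h2
        subst h2
        refine ⟨h1, ?_⟩
        rw [chain_unique fL l l' u b1 b1' S.s1 S'.s1 (j1 u l u l' rfl rfl)]
  have R : N2 = N2' ∧ B = B' := by
    cases N2 with
    | nil =>
      cases N2' with
      | nil => exact ⟨rfl, by rw [S.nilB rfl, S'.nilB rfl]⟩
      | cons u' l' =>
        have := (S'.n2 u').1 (by simp)
        exact absurd this.2.2 (S.e2 rfl u' this.2.1)
    | cons q m =>
      cases N2' with
      | nil =>
        have := (S.n2 q).1 (by simp)
        exact absurd this.2.2 (S'.e2 rfl q this.2.1)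
      | cons q' m' =>
        simp only [pR, List.cons.injEq] at hr
        have := j2 q m q' m' rfl rfl
        subst this
        refine ⟨?_, hr.2⟩
        rw [chain_unique fR m m' q b2 b2' S.s2 S'.s2 hr.1]
  exact ⟨L.1, L.2, R.1, R.2⟩

/-- the main inequality -/
theorem main_ineq [Fintype V] (C : Cfg X Y h) (hE : TriC X Y E) (hG : TriC X Y G)
    (g : ∀ w, GoodAt X h G w) : ∀ t : ℕ, ∃ L L', IsVL X h E t L ∧ IsVL X h G t L' ∧
      Real.log 2 * Wt X h G t + 2 * chain X L' ≤ Real.log 2 * Wt X h E t + 2 * chain X L := by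
  intro t
  induction t with
  | zero =>
    refine ⟨[], [], ⟨by simp, ?_⟩, ⟨by simp, ?_⟩, ?_⟩
    · intro a
      simp only [List.not_mem_nil, false_iff]
      intro hv; exact absurd hv.1 (by omega)
    · intro a
      simp only [List.not_mem_nil, false_iff]
      intro hv; exact absurd hv.1 (by omega)
    · rw [Wt_zero, Wt_zero]
  | succ t ih =>
    obtain ⟨L, L', h1, h2, h3⟩ := ih
    by_cases hw : ∃ w, h w = t
    · obtain ⟨w, rfl⟩ := hw
      obtain ⟨A, N1, N2, B, rfl, S⟩ := exists_split C hE w h1
      obtain ⟨A', N1', N2', B', rfl, S'⟩ := exists_split C hG w h2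
      refine ⟨_, _, next_vl C hE S, next_vl C hG S', ?_⟩
      rw [pot_step C S, pot_step C S']
      have c1 := cost_ge S
      have c2 := cost_good S' (g w)
      have c3 := J_le S S' (g w)
      linarith
    · push Not at hw
      refine ⟨L, L', ⟨h1.1, ?_⟩, ⟨h2.1, ?_⟩, ?_⟩
      · intro a; rw [vis_skip E t hw a]; exact h1.2 a
      · intro a; rw [vis_skip G t hw a]; exact h2.2 a
      · rw [Wt_skip E t hw, Wt_skip G t hw]; exact h3

/-- the equality case -/
theorem main_eq [Fintype V] (C : Cfg X Y h) (hE : TriC X Y E) (hG : TriC X Y G)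
    (g : ∀ w, GoodAt X h G w) : ∀ (t : ℕ) (L : List V), IsVL X h E t L → IsVL X h G t L →
      Real.log 2 * Wt X h E t + 2 * chain X L ≤ Real.log 2 * Wt X h G t + 2 * chain X L →
      ∀ a b, h a < t → h b < t → (E.Adj a b ↔ G.Adj a b) := by
  intro t
  induction t with
  | zero => intro L _ _ _ a b ha; exact absurd ha (by omega)
  | succ t ih =>
    intro L hL hL' hle a b ha hb
    by_cases hw : ∃ w, h w = t
    · obtain ⟨w, rfl⟩ := hw
      obtain ⟨M, M', h1, h2, h3⟩ := main_ineq C hE hG g (h w)
      obtain ⟨A, N1, N2, B, rfl, S⟩ := exists_split C hE w h1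
      obtain ⟨A', N1', N2', B', rfl, S'⟩ := exists_split C hG w h2
      have e1 := (next_vl C hE S).unique C.injX hL
      have e2 := (next_vl C hG S').unique C.injX hL'
      have p1 := pot_step C S
      have p2 := pot_step C S'
      rw [e1] at p1
      rw [e2] at p2
      have c1 := cost_ge S
      have c2 := cost_good S' (g w)
      have c3 := J_le S S' (g w)
      obtain ⟨rfl, rfl, rfl, rfl⟩ := rev_step C.injX S S' (g w) (e1.trans e2.symm) (by linarith)
      have hlow := ih _ h1 h2 (by linarith)
      have hNb : ∀ u, h u < h w → (E.Adj u w ↔ G.Adj u w) := by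
        intro u hu
        rcases lt_trichotomy (X u) (X w) with h4 | h4 | h4
        · constructor
          · intro h5; exact ((S'.n1 u).1 ((S.n1 u).2 ⟨h5, hu, h4⟩)).1
          · intro h5; exact ((S.n1 u).1 ((S'.n1 u).2 ⟨h5, hu, h4⟩)).1
        · exact absurd (C.injX h4) (fun e => by rw [e] at hu; exact lt_irrefl _ hu)
        · constructor
          · intro h5; exact ((S'.n2 u).1 ((S.n2 u).2 ⟨h5, hu, h4⟩)).1
          · intro h5; exact ((S.n2 u).1 ((S'.n2 u).2 ⟨h5, hu, h4⟩)).1
      by_cases haw : a = w
      · subst haw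
        by_cases hba : b = a
        · subst hba
          exact ⟨fun e => absurd rfl e.ne, fun e => absurd rfl e.ne⟩
        · have hba' : h b < h a := lt_of_le_of_ne (Nat.lt_succ_iff.1 hb) (fun e => hba (C.injh e))
          rw [E.adj_comm, G.adj_comm]
          exact hNb b hba'
      · have haw' : h a < h w := lt_of_le_of_ne (Nat.lt_succ_iff.1 ha) (fun e => haw (C.injh e))
        by_cases hbw : b = w
        · subst hbw
          exact hNb a haw'
        · have hbw' : h b < h w := lt_of_le_of_ne (Nat.lt_succ_iff.1 hb) (fun e => hbw (C.injh e))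
          exact hlow a b haw' hbw'
    · push Not at hw
      have key : ∀ v, h v < t + 1 → h v < t := fun v hv => by have := hw v; omega
      apply ih L ⟨hL.1, fun a => by rw [← vis_skip E t hw a]; exact hL.2 a⟩
        ⟨hL'.1, fun a => by rw [← vis_skip G t hw a]; exact hL'.2 a⟩ ?_ a b (key a ha) (key b hb)
      rw [← Wt_skip E t hw, ← Wt_skip G t hw]; exact hle

end

end Pool.Agent.MP7a5e6c
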