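import Mathlib

set_option autoImplicit false
open scoped Classical

namespace Pool.Agent.MP7a5e6c

variable {V : Type}

/-- orientation determinant of the triple `a b c` of labelled points -/
def ori (X Y : V → ℝ) (a b c : V) : ℝ :=
  (X b - X a) * (Y c - Y a) - (Y b - Y a) * (X c - X a)

/-- the segments `a b` and `c d` cross properly -/
def Cr (X Y : V → ℝ) (a b c d : V) : Prop :=
  ori X Y a b c * ori X Y a b d < 0 ∧ ori X Y c d a * ori X Y c d b < 0

/-- combinatorial form of a straight-line triangulation for points in general position -/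
def TriC (X Y : V → ℝ) (E : SimpleGraph V) : Prop :=
  (∀ a b c d, E.Adj a b → E.Adj c d → ¬ Cr X Y a b c d) ∧
  (∀ a b, a ≠ b → (∀ c d, E.Adj c d → ¬ Cr X Y a b c d) → E.Adj a b)

noncomputable def len (X Y : V → ℝ) (a b : V) : ℝ := Real.sqrt ((X a - X b) ^ 2 + (Y a - Y b) ^ 2)

noncomputable def wt [Fintype V] (X Y : V → ℝ) (E : SimpleGraph V) : ℝ :=
  ∑ a, ∑ b, if E.Adj a b then len X Y a b else 0

def GP (X Y : V → ℝ) : Prop :=
  (∀ a b, a ≠ b → X a ≠ X b ∨ Y a ≠ Y b) ∧
  ∀ a b c, a ≠ b → a ≠ c → b ≠ c → ori X Y a b c ≠ 0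

def Del (X Y : V → ℝ) (a b : V) : Prop :=
  ∃ p q r : ℝ, (X a - p) ^ 2 + (Y a - q) ^ 2 = r ∧ (X b - p) ^ 2 + (Y b - q) ^ 2 = r ∧
    ∀ c, c ≠ a → c ≠ b → r < (X c - p) ^ 2 + (Y c - q) ^ 2

variable (X Y : V → ℝ)

lemma ori_swap (a b c : V) : ori X Y b a c = - ori X Y a b c := by
  unfold ori; ring

lemma ori_rot (a b c : V) : ori X Y b c a = ori X Y a b c := by
  unfold ori; ring

lemma ori_swap' (a b c : V) : ori X Y a c b = - ori X Y a b c := by
  unfold ori; ring

@[simp] lemma ori_aab (a b : V) : ori X Y a a b = 0 := by unfold ori; ring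
@[simp] lemma ori_aba (a b : V) : ori X Y a b a = 0 := by unfold ori; ring
@[simp] lemma ori_abb (a b : V) : ori X Y a b b = 0 := by unfold ori; ring

lemma Cr_swap1 (a b c d : V) : Cr X Y a b c d ↔ Cr X Y b a c d := by
  unfold Cr
  rw [ori_swap X Y a b c, ori_swap X Y a b d]
  constructor
  · rintro ⟨h1, h2⟩; exact ⟨by linarith [neg_mul_neg (ori X Y a b c) (ori X Y a b d)], by linarith [mul_comm (ori X Y c d a) (ori X Y c d b)]⟩
  · rintro ⟨h1, h2⟩; exact ⟨by linarith [neg_mul_neg (ori X Y a b c) (ori X Y a b d)], by linarith [mul_comm (ori X Y c d a) (ori X Y c d b)]⟩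

lemma Cr_symm (a b c d : V) : Cr X Y a b c d ↔ Cr X Y c d a b := by
  unfold Cr; exact and_comm

lemma Cr_swap2 (a b c d : V) : Cr X Y a b c d ↔ Cr X Y a b d c := by
  rw [Cr_symm, Cr_swap1, Cr_symm]

lemma not_Cr_of_eq1 (a b c : V) : ¬ Cr X Y a b a c := by
  rintro ⟨h, _⟩; simp at h

lemma not_Cr_share (a b c d : V) (h : a = c ∨ a = d ∨ b = c ∨ b = d) : ¬ Cr X Y a b c d := by
  rintro ⟨h1, _⟩
  rcases h with h | h | h | h <;> subst h <;> simp at h1

/-- affine dependency of four points, applied to the function `ori s t` -/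
lemma aff_dep (x i j k s t : V) :
    ori X Y i j k * ori X Y s t x - ori X Y x j k * ori X Y s t i
      + ori X Y x i k * ori X Y s t j - ori X Y x i j * ori X Y s t k = 0 := by
  unfold ori; ring

lemma not_Cr_of_sep (x i j k s t : V) (hj : 0 ≤ ori X Y s t j) (hk : 0 ≤ ori X Y s t k)
    (hi : ori X Y s t i ≤ 0) (hx : ori X Y s t x < 0) : ¬ Cr X Y x i j k := by
  rintro ⟨h1, h2⟩
  have h := aff_dep X Y x i j k s t
  have e1 : ori X Y i j k = ori X Y j k i := (ori_rot X Y i j k).symm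
  have e2 : ori X Y x j k = ori X Y j k x := (ori_rot X Y x j k).symm
  have hsum : ori X Y i j k - ori X Y x j k + ori X Y x i k - ori X Y x i j = 0 := by
    unfold ori; ring
  rw [e1, e2] at h hsum
  -- names
  set A := ori X Y j k i
  set B := ori X Y j k x
  set C := ori X Y x i k
  set D := ori X Y x i j
  rcases lt_trichotomy A 0 with hA | hA | hA
  · have hB : 0 < B := by nlinarith
    rcases lt_trichotomy C 0 with hC | hC | hC
    · have hD : 0 < D := by nlinarith
      nlinarith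
    · rw [hC] at h1; simp at h1
    · have hD : D < 0 := by nlinarith
      nlinarith [mul_pos_of_neg_of_neg hA hx, mul_nonneg hC.le hj, mul_nonneg_of_nonpos_of_nonpos hD.le (by linarith : (-ori X Y s t k) ≤ 0), mul_nonneg hB.le (by linarith : 0 ≤ -ori X Y s t i)]
  · rw [hA] at h2; simp at h2
  · have hB : B < 0 := by nlinarith
    rcases lt_trichotomy C 0 with hC | hC | hC
    · have hD : 0 < D := by nlinarith
      nlinarith [mul_neg_of_pos_of_neg hA hx, mul_nonneg (by linarith : 0 ≤ -C) hj, mul_nonneg hD.le hk, mul_nonneg (by linarith : 0 ≤ -B) (by linarith : 0 ≤ -ori X Y s t i)]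
    · rw [hC] at h1; simp at h1
    · have hD : D < 0 := by nlinarith
      nlinarith

lemma not_Cr_of_side (s t j k : V) (hj : 0 ≤ ori X Y s t j) (hk : 0 ≤ ori X Y s t k) :
    ¬ Cr X Y s t j k := by
  rintro ⟨h1, _⟩
  nlinarith [mul_nonneg hj hk]

lemma len_nonneg (a b : V) : 0 ≤ len X Y a b := Real.sqrt_nonneg _

lemma len_comm (a b : V) : len X Y a b = len X Y b a := by
  unfold len; congr 1; ring

end Pool.Agent.MP7a5e6c
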