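import Pool.Agent.MP7a5e6c.Move

set_option autoImplicit false
open scoped Classical
open Real

namespace Pool.Agent.MP7a5e6c

section
variable {V : Type}

/-- horizontal weight of the part of `E` below height `t` (every edge counted twice) -/
noncomputable def Wt [Fintype V] (X : V → ℝ) (h : V → ℕ) (E : SimpleGraph V) (t : ℕ) : ℝ :=
  ∑ a, ∑ b, if E.Adj a b ∧ h a < t ∧ h b < t then |X a - X b| else 0

variable {X Y : V → ℝ} {h : V → ℕ} {E : SimpleGraph V}

lemma Wt_skip [Fintype V] (E : SimpleGraph V) (t : ℕ) (hno : ∀ w, h w ≠ t) :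
    Wt X h E (t + 1) = Wt X h E t := by
  have key : ∀ v, h v < t + 1 ↔ h v < t := fun v => by have := hno v; omega
  unfold Wt
  simp only [key]

lemma Wt_zero [Fintype V] (E : SimpleGraph V) : Wt X h E 0 = 0 := by
  unfold Wt
  simp

lemma Wt_succ [Fintype V] (hinj : Function.Injective h) (E : SimpleGraph V) (w : V) :
    Wt X h E (h w + 1) = Wt X h E (h w) +
      2 * ∑ u, if E.Adj u w ∧ h u < h w then |X u - X w| else 0 := by
  set g : V → ℝ := fun u => if E.Adj u w ∧ h u < h w then |X u - X w| else 0 with hg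
  have key : ∀ a b, (if E.Adj a b ∧ h a < h w + 1 ∧ h b < h w + 1 then |X a - X b| else 0) =
      (if E.Adj a b ∧ h a < h w ∧ h b < h w then |X a - X b| else 0) +
      ((if a = w then g b else 0) + (if b = w then g a else 0)) := by
    intro a b
    by_cases hab : E.Adj a b
    swap
    · simp only [hab, false_and, if_false, zero_add]
      by_cases ha : a = w
      · subst ha
        have : ¬ E.Adj b a := fun e => hab e.symm
        by_cases hb : b = a
        · subst hb
          simp [hg]
        · simp [hg, this, hb]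
      · by_cases hb : b = w
        · subst hb
          simp [hg, hab, ha]
        · simp [ha, hb]
    have hne : a ≠ b := hab.ne
    by_cases ha : a = w
    · subst ha
      have hb : b ≠ a := fun e => hne e.symm
      have hhb : h b ≠ h a := fun e => hb (hinj e)
      have e1 : h b < h a + 1 ↔ h b < h a := by omega
      simp only [hg, hab, hab.symm, e1, if_true, hb, if_false, true_and, add_zero, lt_irrefl,
        false_and, zero_add, Nat.lt_succ_self]
      by_cases h3 : h b < h a
      · simp only [h3, if_true]; exact abs_sub_comm _ _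
      · simp only [h3, if_false]
    · by_cases hb : b = w
      · subst hb
        have hha : h a ≠ h b := fun e => ha (hinj e)
        have e1 : h a < h b + 1 ↔ h a < h b := by omega
        simp only [hg, hab, e1, if_true, ha, if_false, true_and, lt_irrefl,
          and_false, zero_add, Nat.lt_succ_self, and_true]
      · have hha : h a ≠ h w := fun e => ha (hinj e)
        have hhb : h b ≠ h w := fun e => hb (hinj e)
        have e1 : h a < h w + 1 ↔ h a < h w := by omega
        have e2 : h b < h w + 1 ↔ h b < h w := by omega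
        simp only [ha, hb, if_false, add_zero, e1, e2]
  unfold Wt
  simp only [key, Finset.sum_add_distrib]
  have s1 : ∑ a, ∑ b, (if a = w then g b else 0) = ∑ b, g b := by
    rw [Finset.sum_comm]
    simp
  have s2 : ∑ a, ∑ b, (if b = w then g a else 0) = ∑ b, g b := by
    simp
  rw [s1, s2]
  ring

lemma sum_nbrs [Fintype V] (hX : Function.Injective X) {w : V} {A N1 N2 B : List V}
    (S : Split X h E w A N1 N2 B) :
    (∑ u, if E.Adj u w ∧ h u < h w then |X u - X w| else 0) =
      (N1.map (fun a => X w - X a)).sum + (N2.map (fun a => X a - X w)).sum := by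
  have hs := S.srt
  rw [List.pairwise_append, List.pairwise_append, List.pairwise_append] at hs
  obtain ⟨⟨sA, sN1, cAN⟩, ⟨sN2, sB, cNB⟩, cc⟩ := hs
  set g : V → ℝ := fun u => if E.Adj u w ∧ h u < h w then |X u - X w| else 0 with hg
  have nd1 : N1.Nodup := sN1.imp (fun {a b} hab e => by rw [e] at hab; exact lt_irrefl _ hab)
  have nd2 : N2.Nodup := sN2.imp (fun {a b} hab e => by rw [e] at hab; exact lt_irrefl _ hab)
  have m1 : N1.map (fun a => X w - X a) = N1.map g := by
    apply List.map_congr_left
    intro a ha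
    have := (S.n1 a).1 ha
    simp only [hg, this.1, this.2.1, and_self, if_true]
    rw [abs_of_neg (by linarith)]; ring
  have m2 : N2.map (fun a => X a - X w) = N2.map g := by
    apply List.map_congr_left
    intro a ha
    have := (S.n2 a).1 ha
    simp only [hg, this.1, this.2.1, and_self, if_true]
    rw [abs_of_pos (by linarith)]
  rw [m1, m2, ← List.sum_toFinset _ nd1, ← List.sum_toFinset _ nd2, ← Finset.sum_union]
  · symm
    apply Finset.sum_subset (Finset.subset_univ _)
    intro u _ hu
    simp only [Finset.mem_union, List.mem_toFinset, not_or] at hu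
    show (if E.Adj u w ∧ h u < h w then |X u - X w| else 0) = 0
    rw [if_neg]
    rintro ⟨h1, h2⟩
    rcases lt_trichotomy (X u) (X w) with h3 | h3 | h3
    · exact hu.1 ((S.n1 u).2 ⟨h1, h2, h3⟩)
    · have := hX h3
      subst this
      exact lt_irrefl _ h2
    · exact hu.2 ((S.n2 u).2 ⟨h1, h2, h3⟩)
  · rw [Finset.disjoint_left]
    intro a h1 h2
    rw [List.mem_toFinset] at h1 h2
    have := (S.n1 a).1 h1
    have := (S.n2 a).1 h2
    linarith [((S.n1 a).1 h1).2.2, ((S.n2 a).1 h2).2.2]


/-! ### gains -/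

noncomputable def lgain (X : V → ℝ) (w : V) : List V → ℝ
  | [] => 0
  | u :: l => Real.log 2 * ((u :: l).map (fun a => X w - X a)).sum + negMulLog (X w - X u)
      - chain X (u :: l)

noncomputable def rgain (X : V → ℝ) (w : V) : List V → ℝ
  | [] => 0
  | q :: l => Real.log 2 * ((q :: l).map (fun a => X a - X w)).sum
      + negMulLog (X (lst q l) - X w) - chain X (q :: l)

noncomputable def gl (X : V → ℝ) (w : V) : List V → ℝ
  | [] => 0
  | u :: l => negMulLog (X w - X (lst u l)) + Real.log 2 * (X w - X (lst u l))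

noncomputable def gr (X : V → ℝ) (w : V) : List V → ℝ
  | [] => 0
  | q :: _ => negMulLog (X q - X w) + Real.log 2 * (X q - X w)

noncomputable def lk (X : V → ℝ) : List V → List V → ℝ
  | [], _ => 0
  | _, [] => 0
  | p :: l, q :: _ => negMulLog (X q - X (lst p l))

lemma lst_app (a : V) (A : List V) (u : V) (l : List V) : lst a (A ++ u :: l) = lst u l := by
  induction A generalizing a with
  | nil => simp
  | cons b A ih => rw [List.cons_append, lst_cons, ih]

lemma chain_link (p : V) (l : List V) (q : V) (m : List V) :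
    chain X ((p :: l) ++ q :: m) =
      chain X (p :: l) + negMulLog (X q - X (lst p l)) + chain X (q :: m) := by
  induction l generalizing p with
  | nil => simp [chain_cons2]
  | cons b l ih =>
    have := ih b
    simp only [List.cons_append, chain_cons2, lst_cons] at this ⊢
    rw [this]; ring

lemma chain_lst (q : V) (l B : List V) :
    chain X ((q :: l) ++ B) = chain X (q :: l) + chain X (lst q l :: B) := by
  cases B with
  | nil => simp
  | cons b B => rw [chain_link, chain_cons2]; ring

lemma step_eq {w : V} {A N1 N2 B : List V} (hA : N1 = [] → A = []) (hB : N2 = [] → B = []) :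
    chain X (pL A N1 ++ w :: pR B N2) - chain X ((A ++ N1) ++ (N2 ++ B)) +
      Real.log 2 * ((N1.map (fun a => X w - X a)).sum + (N2.map (fun a => X a - X w)).sum) =
      lgain X w N1 + rgain X w N2 - lk X N1 N2 := by
  have key : chain X ((A ++ N1) ++ (N2 ++ B)) = chain X (A ++ N1) + lk X N1 N2 + chain X (N2 ++ B) := by
    cases N1 with
    | nil =>
      rw [hA rfl]; simp [lk]
    | cons u l =>
      cases N2 with
      | nil => rw [hB rfl]; simp [lk]
      | cons q m =>
        cases A with
        | nil =>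
          exact chain_link u l q (m ++ B)
        | cons a A =>
          have h5 := chain_link (X := X) a (A ++ u :: l) q (m ++ B)
          rw [lst_app] at h5
          exact h5
  have key2 : chain X (pL A N1 ++ w :: pR B N2) = chain X (pL A N1 ++ [w]) + chain X (w :: pR B N2) :=
    chain_append X _ _ _
  have key3 : chain X (pL A N1 ++ [w]) - chain X (A ++ N1) +
      Real.log 2 * (N1.map (fun a => X w - X a)).sum = lgain X w N1 := by
    cases N1 with
    | nil => rw [hA rfl]; simp [pL, lgain]
    | cons u l =>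
      have e : pL A (u :: l) ++ [w] = A ++ u :: [w] := by simp [pL]
      rw [e, chain_append X A u [w], chain_append X A u l, chain_cons2, chain_single, lgain]
      ring
  have key4 : chain X (w :: pR B N2) - chain X (N2 ++ B) +
      Real.log 2 * (N2.map (fun a => X a - X w)).sum = rgain X w N2 := by
    cases N2 with
    | nil => rw [hB rfl]; simp [pR, rgain]
    | cons q m =>
      rw [chain_lst, pR, chain_cons2, rgain]
      ring
  rw [key, key2, ← key3, ← key4]
  ring

lemma gl_le {w : V} {N1 : List V} (hs : N1.Pairwise (fun a b => X a < X b))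
    (hw : ∀ a ∈ N1, X a < X w) : gl X w N1 ≤ lgain X w N1 := by
  cases N1 with
  | nil => simp [gl, lgain]
  | cons u l => exact gainL w l u hs hw

lemma gr_le {w : V} {N2 : List V} (hs : N2.Pairwise (fun a b => X a < X b))
    (hw : ∀ a ∈ N2, X w < X a) : gr X w N2 ≤ rgain X w N2 := by
  cases N2 with
  | nil => simp [gr, rgain]
  | cons u l => exact gainR w l u hs hw

lemma gl_bal {w : V} {N1 : List V} (hs : N1.Pairwise (fun a b => X a < X b))
    (hw : ∀ a ∈ N1, X a < X w) (hb : N1.IsChain (fun a b => X b - X a = X w - X b)) :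
    gl X w N1 = lgain X w N1 := by
  cases N1 with
  | nil => simp [gl, lgain]
  | cons u l => exact gainL_bal w l u hs hw hb

lemma gr_bal {w : V} {N2 : List V} (hs : N2.Pairwise (fun a b => X a < X b))
    (hw : ∀ a ∈ N2, X w < X a) (hb : N2.IsChain (fun a b => X a - X w = X b - X a)) :
    gr X w N2 = rgain X w N2 := by
  cases N2 with
  | nil => simp [gr, rgain]
  | cons u l => exact gainR_bal w l u hs hw hb

lemma gl_eq {w : V} {N1 : List V} (hs : N1.Pairwise (fun a b => X a < X b))
    (hw : ∀ a ∈ N1, X a < X w) (he : lgain X w N1 ≤ gl X w N1) :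
    N1.IsChain (fun a b => X b - X a = X w - X b) := by
  cases N1 with
  | nil => simp
  | cons u l => exact gainL_eq w l u hs hw he

lemma gr_eq {w : V} {N2 : List V} (hs : N2.Pairwise (fun a b => X a < X b))
    (hw : ∀ a ∈ N2, X w < X a) (he : rgain X w N2 ≤ gr X w N2) :
    N2.IsChain (fun a b => X a - X w = X b - X a) := by
  cases N2 with
  | nil => simp
  | cons u l => exact gainR_eq w l u hs hw he

lemma Split.nilA {w : V} {A N1 N2 B : List V} (S : Split X h E w A N1 N2 B) (hN : N1 = []) :
    A = [] := by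
  rw [List.eq_nil_iff_forall_not_mem]
  intro a ha
  have : VisT X h E (h w) a := (S.mem a).1 (by simp [ha])
  exact S.e1 hN a this.1 (S.aA a ha)

lemma Split.nilB {w : V} {A N1 N2 B : List V} (S : Split X h E w A N1 N2 B) (hN : N2 = []) :
    B = [] := by
  rw [List.eq_nil_iff_forall_not_mem]
  intro a ha
  have : VisT X h E (h w) a := (S.mem a).1 (by simp [ha])
  exact S.e2 hN a this.1 (S.aB a ha)

lemma Split.s1 {w : V} {A N1 N2 B : List V} (S : Split X h E w A N1 N2 B) :
    N1.Pairwise (fun a b => X a < X b) := by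
  have hs := S.srt
  rw [List.pairwise_append, List.pairwise_append, List.pairwise_append] at hs
  exact hs.1.2.1

lemma Split.s2 {w : V} {A N1 N2 B : List V} (S : Split X h E w A N1 N2 B) :
    N2.Pairwise (fun a b => X a < X b) := by
  have hs := S.srt
  rw [List.pairwise_append, List.pairwise_append, List.pairwise_append] at hs
  exact hs.2.1.1

/-- increment of the potential when `w` is added -/
lemma pot_step [Fintype V] (C : Cfg X Y h) {w : V} {A N1 N2 B : List V}
    (S : Split X h E w A N1 N2 B) :
    Real.log 2 * Wt X h E (h w + 1) + 2 * chain X (pL A N1 ++ w :: pR B N2) =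
      (Real.log 2 * Wt X h E (h w) + 2 * chain X ((A ++ N1) ++ (N2 ++ B))) +
      2 * (lgain X w N1 + rgain X w N2 - lk X N1 N2) := by
  rw [← step_eq S.nilA S.nilB, Wt_succ C.injh, sum_nbrs C.injX S]
  ring

/-- the local conditions that make `G` optimal at `w` -/
structure GoodAt (X : V → ℝ) (h : V → ℕ) (G : SimpleGraph V) (w : V) : Prop where
  nL : ∀ p, h p < h w → X p < X w → (∀ a, h a < h w → X a < X w → X a ≤ X p) → G.Adj p w
  nR : ∀ p, h p < h w → X w < X p → (∀ a, h a < h w → X w < X a → X p ≤ X a) → G.Adj p w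
  bL : ∀ a b, G.Adj a w → G.Adj b w → h a < h w → h b < h w → X a < X b → X b < X w →
    (∀ c, G.Adj c w → h c < h w → ¬ (X a < X c ∧ X c < X b)) → X b - X a = X w - X b
  bR : ∀ a b, G.Adj a w → G.Adj b w → h a < h w → h b < h w → X w < X a → X a < X b →
    (∀ c, G.Adj c w → h c < h w → ¬ (X a < X c ∧ X c < X b)) → X a - X w = X b - X a

lemma sorted_gaps : ∀ (l2 l1 : List V), (l1 ++ l2).Pairwise (fun a b => X a < X b) →
    l2.IsChain (fun a b => X a < X b ∧ ∀ c ∈ l1 ++ l2, ¬ (X a < X c ∧ X c < X b))
  | [], _, _ => by simp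
  | [a], _, _ => by simp
  | a :: b :: l, l1, hs => by
    rw [List.isChain_cons_cons]
    have hs' := hs
    rw [List.pairwise_append] at hs'
    obtain ⟨s1, s2, s3⟩ := hs'
    rw [List.pairwise_cons, List.pairwise_cons] at s2
    constructor
    · refine ⟨s2.1 b (by simp), ?_⟩
      rintro c hc ⟨h1, h2⟩
      rw [List.mem_append, List.mem_cons, List.mem_cons] at hc
      rcases hc with hc | rfl | rfl | hc
      · have := s3 c hc a (by simp); linarith
      · exact lt_irrefl _ h1
      · exact lt_irrefl _ h2
      · have := s2.2.1 c hc; linarith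
    · have e : l1 ++ a :: b :: l = (l1 ++ [a]) ++ (b :: l) := by simp
      have := sorted_gaps (b :: l) (l1 ++ [a]) (by rw [← e]; exact hs)
      rw [← e] at this
      exact this

lemma good_bal1 {G : SimpleGraph V} {w : V} {A N1 N2 B : List V} (S : Split X h G w A N1 N2 B)
    (g : GoodAt X h G w) : N1.IsChain (fun a b => X b - X a = X w - X b) := by
  have h1 := sorted_gaps N1 [] (by simpa using S.s1)
  rw [List.nil_append] at h1
  have h2 : N1.IsChain (fun a b => (X a < X b ∧ ∀ c ∈ N1, ¬ (X a < X c ∧ X c < X b)) ∧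
      a ∈ N1 ∧ b ∈ N1) := by
    rw [List.isChain_iff_getElem] at h1 ⊢
    intro i hi
    exact ⟨h1 i hi, List.getElem_mem _, List.getElem_mem _⟩
  refine h2.imp ?_
  rintro a b ⟨⟨hab, hc⟩, ha, hb⟩
  have ha' := (S.n1 a).1 ha
  have hb' := (S.n1 b).1 hb
  refine g.bL a b ha'.1 hb'.1 ha'.2.1 hb'.2.1 hab hb'.2.2 ?_
  intro c h3 h4 h5
  exact hc c ((S.n1 c).2 ⟨h3, h4, h5.2.trans hb'.2.2⟩) h5

lemma good_bal2 {G : SimpleGraph V} {w : V} {A N1 N2 B : List V} (S : Split X h G w A N1 N2 B)
    (g : GoodAt X h G w) : N2.IsChain (fun a b => X a - X w = X b - X a) := by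
  have h1 := sorted_gaps N2 [] (by simpa using S.s2)
  rw [List.nil_append] at h1
  have h2 : N2.IsChain (fun a b => (X a < X b ∧ ∀ c ∈ N2, ¬ (X a < X c ∧ X c < X b)) ∧
      a ∈ N2 ∧ b ∈ N2) := by
    rw [List.isChain_iff_getElem] at h1 ⊢
    intro i hi
    exact ⟨h1 i hi, List.getElem_mem _, List.getElem_mem _⟩
  refine h2.imp ?_
  rintro a b ⟨⟨hab, hc⟩, ha, hb⟩
  have ha' := (S.n2 a).1 ha
  have hb' := (S.n2 b).1 hb
  refine g.bR a b ha'.1 hb'.1 ha'.2.1 hb'.2.1 ha'.2.2 hab ?_
  intro c h3 h4 h5
  exact hc c ((S.n2 c).2 ⟨h3, h4, ha'.2.2.trans h5.1⟩) h5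

lemma good_near1 [Finite V] {G : SimpleGraph V} {w : V} {A N2 B : List V} {u : V} {l : List V}
    (S : Split X h G w A (u :: l) N2 B) (g : GoodAt X h G w) (a : V) (ha : h a < h w)
    (hx : X a < X w) : X a ≤ X (lst u l) := by
  obtain ⟨m, hm, hmax⟩ := Set.exists_max_image {a | h a < h w ∧ X a < X w} X (Set.toFinite _)
    ⟨a, ha, hx⟩
  have hadj := g.nL m hm.1 hm.2 (fun b h1 h2 => hmax b ⟨h1, h2⟩)
  exact (hmax a ⟨ha, hx⟩).trans (le_lst S.s1 m ((S.n1 m).2 ⟨hadj, hm.1, hm.2⟩))

lemma good_near2 [Finite V] {G : SimpleGraph V} {w : V} {A N1 B : List V} {q : V} {l : List V}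
    (S : Split X h G w A N1 (q :: l) B) (g : GoodAt X h G w) (a : V) (ha : h a < h w)
    (hx : X w < X a) : X q ≤ X a := by
  obtain ⟨m, hm, hmin⟩ := Set.exists_min_image {a | h a < h w ∧ X w < X a} X (Set.toFinite _)
    ⟨a, ha, hx⟩
  have hadj := g.nR m hm.1 hm.2 (fun b h1 h2 => hmin b ⟨h1, h2⟩)
  have hmem := (S.n2 m).2 ⟨hadj, hm.1, hm.2⟩
  have : X q ≤ X m := by
    rcases List.mem_cons.1 hmem with rfl | hmem
    · exact le_refl _
    · exact ((List.pairwise_cons.1 S.s2).1 m hmem).le
  exact this.trans (hmin a ⟨ha, hx⟩)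

end

end Pool.Agent.MP7a5e6c
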