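import Pool.Agent.MP7a5e6c.Ht

set_option autoImplicit false
open scoped Classical

namespace Pool.Agent.MP7a5e6c

section
variable {V : Type} {X Y : V → ℝ} {h : V → ℕ} {E : SimpleGraph V}

/-- `c` is visible from above in the part of `E` below height `t` -/
def VisT (X : V → ℝ) (h : V → ℕ) (E : SimpleGraph V) (t : ℕ) (c : V) : Prop :=
  h c < t ∧ ∀ a b, E.Adj a b → h a < t → h b < t → ¬ Over X h a b c

lemma cross_cases (C : Cfg X Y h) (hE : TriC X Y E) {c w : V} (hne : c ≠ w) (hcw : h c < h w)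
    (hna : ¬ E.Adj c w) :
    (∃ p q, E.Adj p q ∧ h p < h w ∧ h q < h w ∧ Over X h p q c) ∨
    (∃ a b, E.Adj a b ∧ h a < h w ∧ h w < h b ∧ Over X h c w a) := by
  have h1 : ∃ p q, E.Adj p q ∧ Cr X Y c w p q := by
    by_contra hcon
    push Not at hcon
    exact hna (hE.2 c w hne hcon)
  obtain ⟨p, q, hpq, hcr⟩ := h1
  have np : p ≠ w := by
    rintro rfl
    exact not_Cr_share _ _ _ _ _ _ (Or.inr (Or.inr (Or.inl rfl))) hcr
  have nq : q ≠ w := by
    rintro rfl
    exact not_Cr_share _ _ _ _ _ _ (Or.inr (Or.inr (Or.inr rfl))) hcr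
  have npq : h p ≠ h q := fun e => hpq.ne (C.injh e)
  have npw : h p ≠ h w := fun e => np (C.injh e)
  have nqw : h q ≠ h w := fun e => nq (C.injh e)
  by_cases hh : h p < h w ∧ h q < h w
  · left
    refine ⟨p, q, hpq, hh.1, hh.2, ?_⟩
    rw [Cr_symm] at hcr
    exact (cross_iff C hh.1 hh.2 hcw).1 hcr
  · right
    rcases lt_or_gt_of_ne npq with hlt | hlt
    · have hq : h w < h q := by
        rcases lt_or_gt_of_ne nqw with h1 | h1
        · exact absurd ⟨hlt.trans h1, h1⟩ hh
        · exact h1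
      have ho := (cross_iff C (hcw.trans hq) hq hlt).1 hcr
      have : h p < h w := by rcases ho.2 with h1 | h1 <;> omega
      exact ⟨p, q, hpq, this, hq, ho⟩
    · have hp : h w < h p := by
        rcases lt_or_gt_of_ne npw with h1 | h1
        · exact absurd ⟨h1, hlt.trans h1⟩ hh
        · exact h1
      rw [Cr_swap2] at hcr
      have ho := (cross_iff C (hcw.trans hp) hp hlt).1 hcr
      have : h q < h w := by rcases ho.2 with h1 | h1 <;> omega
      exact ⟨q, p, hpq.symm, this, hp, ho⟩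

lemma adj_vis (C : Cfg X Y h) (hE : TriC X Y E) {c w : V} (hcw : h c < h w) (ha : E.Adj c w) :
    VisT X h E (h w) c := by
  refine ⟨hcw, ?_⟩
  intro p q hpq hp hq ho
  exact hE.1 p q c w hpq ha ((cross_iff C hp hq hcw).2 ho)

lemma mono_adj (C : Cfg X Y h) (hE : TriC X Y E) {c u w : V} (hv : VisT X h E (h w) c)
    (hu : E.Adj u w) (huw : h u < h w)
    (hb : (X u < X c ∧ X c < X w) ∨ (X w < X c ∧ X c < X u)) : E.Adj c w := by
  by_contra hna
  have hne : c ≠ w := by
    rintro rfl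
    rcases hb with h1 | h1 <;> linarith [h1.1, h1.2]
  rcases cross_cases C hE hne hv.1 hna with ⟨p, q, hpq, hp, hq, ho⟩ | ⟨a, b, hab, haw, hwb, ho⟩
  · exact hv.2 p q hpq hp hq ho
  · have : Over X h u w a := by
      refine ⟨?_, Or.inr haw⟩
      rcases ho.1 with h1 | h1 <;> rcases hb with h2 | h2
      · exact Or.inl ⟨h2.1.trans h1.1, h1.2⟩
      · exfalso; linarith [h1.1, h1.2, h2.1, h2.2]
      · exfalso; linarith [h1.1, h1.2, h2.1, h2.2]
      · exact Or.inr ⟨h1.1, h1.2.trans h2.2⟩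
    exact hE.1 u w a b hu hab ((cross_iff C (huw.trans hwb) hwb (haw.trans hwb)).2 this)

lemma near_adj (C : Cfg X Y h) (hE : TriC X Y E) {c w : V} (hv : VisT X h E (h w) c)
    (hn : ∀ c', VisT X h E (h w) c' →
      ¬ ((X c < X c' ∧ X c' < X w) ∨ (X w < X c' ∧ X c' < X c))) : E.Adj c w := by
  by_contra hna
  have hne : c ≠ w := by
    rintro rfl
    exact lt_irrefl _ hv.1
  rcases cross_cases C hE hne hv.1 hna with ⟨p, q, hpq, hp, hq, ho⟩ | ⟨a, b, hab, haw, hwb, ho⟩
  · exact hv.2 p q hpq hp hq ho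
  · have hna' : ¬ VisT X h E (h w) a := fun hva => hn a hva ho.1
    unfold VisT at hna'
    push Not at hna'
    obtain ⟨p, q, hpq, hp, hq, hov⟩ := hna' haw
    exact hE.1 p q a b hpq hab
      ((cross_iff C (hp.trans hwb) (hq.trans hwb) (haw.trans hwb)).2 hov)

lemma vis_succ (C : Cfg X Y h) (hE : TriC X Y E) (w c : V) :
    VisT X h E (h w + 1) c ↔
      c = w ∨ (VisT X h E (h w) c ∧ ∀ u, E.Adj u w → h u < h w → ¬ Over X h u w c) := by
  constructor
  · rintro ⟨h1, h2⟩
    by_cases hcw : c = w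
    · exact Or.inl hcw
    · right
      have hlt : h c < h w := lt_of_le_of_ne (Nat.lt_succ_iff.1 h1) (fun e => hcw (C.injh e))
      refine ⟨⟨hlt, ?_⟩, ?_⟩
      · intro a b hab ha hb
        exact h2 a b hab (by omega) (by omega)
      · intro u hu huw
        exact h2 u w hu (by omega) (by omega)
  · rintro (rfl | ⟨⟨h1, h2⟩, h3⟩)
    · refine ⟨by omega, ?_⟩
      rintro a b hab ha hb ⟨_, ho⟩
      rcases ho with ho | ho <;> omega
    · refine ⟨by omega, ?_⟩
      intro a b hab ha hb ho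
      by_cases haw : a = w
      · subst haw
        have hbw : h b < h a := lt_of_le_of_ne (Nat.lt_succ_iff.1 hb) (fun e => hab.ne (C.injh e).symm)
        exact h3 b hab.symm hbw ho.swap
      by_cases hbw : b = w
      · subst hbw
        have haw' : h a < h b := lt_of_le_of_ne (Nat.lt_succ_iff.1 ha) (fun e => haw (C.injh e))
        exact h3 a hab haw' ho
      have ha' : h a < h w := lt_of_le_of_ne (Nat.lt_succ_iff.1 ha) (fun e => haw (C.injh e))
      have hb' : h b < h w := lt_of_le_of_ne (Nat.lt_succ_iff.1 hb) (fun e => hbw (C.injh e))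
      exact h2 a b hab ha' hb' ho

lemma vis_skip (E : SimpleGraph V) (t : ℕ) (hno : ∀ w, h w ≠ t) (c : V) :
    VisT X h E (t + 1) c ↔ VisT X h E t c := by
  have key : ∀ v, h v < t + 1 ↔ h v < t := fun v => by have := hno v; omega
  unfold VisT
  simp only [key]

end

end Pool.Agent.MP7a5e6c
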