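import Pool.Agent.MP7a5e6c.Far
import Pool.Agent.MP7a5e6c.Lists
import Pool.Agent.MP7a5e6c.Defs

set_option autoImplicit false
open scoped Classical
open Filter Topology

namespace Pool.Agent.MP7a5e6c

/-! ### general facts about Delaunay pairs -/
section gen
variable {V : Type} (X Y : V → ℝ)

lemma del_of_side (x i s t : V) (hi : i = s ∨ i = t) (hx : ori X Y s t x < 0)
    (hc : ∀ c, c ≠ x → 0 ≤ ori X Y s t c) (hne : ∀ c, c ≠ i → X c ≠ X i ∨ Y c ≠ Y i) :
    Del X Y x i := by
  set n1 := Y t - Y s with hn1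
  set n2 := -(X t - X s) with hn2
  set m := - ori X Y s t x with hm
  have hmpos : 0 < m := by rw [hm]; linarith
  have hform : ∀ c, (X c - X i) * n1 + (Y c - Y i) * n2 = - ori X Y s t c := by
    intro c
    rcases hi with h | h <;> subst h <;> simp only [hn1, hn2, ori] <;> ring
  set D := (X x - X i) ^ 2 + (Y x - Y i) ^ 2 with hD
  have hxi : x ≠ i := by
    rintro rfl
    rcases hi with h | h <;> subst h <;> simp at hx
  have hDpos : 0 < D := by
    rcases hne x hxi with h | h
    · have : 0 < (X x - X i) ^ 2 := by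
        have : X x - X i ≠ 0 := sub_ne_zero.2 h
        positivity
      have h2 : 0 ≤ (Y x - Y i) ^ 2 := sq_nonneg _
      linarith
    · have : 0 < (Y x - Y i) ^ 2 := by
        have : Y x - Y i ≠ 0 := sub_ne_zero.2 h
        positivity
      have h2 : 0 ≤ (X x - X i) ^ 2 := sq_nonneg _
      linarith
  set ρ := D / (2 * m) with hρ
  have hρpos : 0 < ρ := by positivity
  have hρm : 2 * ρ * m = D := by rw [hρ]; field_simp
  refine ⟨X i + ρ * n1, Y i + ρ * n2, ρ ^ 2 * (n1 ^ 2 + n2 ^ 2), ?_, ?_, ?_⟩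
  · have h := hform x
    have : (X x - (X i + ρ * n1)) ^ 2 + (Y x - (Y i + ρ * n2)) ^ 2 =
        D - 2 * ρ * ((X x - X i) * n1 + (Y x - Y i) * n2) + ρ ^ 2 * (n1 ^ 2 + n2 ^ 2) := by
      rw [hD]; ring
    rw [this, h, ← hm, hρm]; ring
  · ring
  · intro c hcx hci
    have h := hform c
    have h0 := hc c hcx
    have : (X c - (X i + ρ * n1)) ^ 2 + (Y c - (Y i + ρ * n2)) ^ 2 =
        ((X c - X i) ^ 2 + (Y c - Y i) ^ 2) - 2 * ρ * ((X c - X i) * n1 + (Y c - Y i) * n2)
          + ρ ^ 2 * (n1 ^ 2 + n2 ^ 2) := by ring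
    rw [this, h]
    have hpos : 0 < (X c - X i) ^ 2 + (Y c - Y i) ^ 2 := by
      rcases hne c hci with h | h
      · have : 0 < (X c - X i) ^ 2 := by
          have : X c - X i ≠ 0 := sub_ne_zero.2 h
          positivity
        have h2 : 0 ≤ (Y c - Y i) ^ 2 := sq_nonneg _
        linarith
      · have : 0 < (Y c - Y i) ^ 2 := by
          have : Y c - Y i ≠ 0 := sub_ne_zero.2 h
          positivity
        have h2 : 0 ≤ (X c - X i) ^ 2 := sq_nonneg _
        linarith
    have : 0 ≤ ρ * ori X Y s t c := mul_nonneg hρpos.le h0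
    nlinarith

lemma not_del_of_cross (x i s t : V) (h1 : 0 < ori X Y s t i) (h2 : ori X Y s t x < 0)
    (h3 : ori X Y x i t < 0) (h4 : 0 < ori X Y x i s)
    (hQ : 0 ≤ ori X Y s t i * ((X x - X i) ^ 2 + (Y x - Y i) ^ 2)
      + ori X Y x i t * ((X s - X i) ^ 2 + (Y s - Y i) ^ 2)
      - ori X Y x i s * ((X t - X i) ^ 2 + (Y t - Y i) ^ 2)) : ¬ Del X Y x i := by
  rintro ⟨p, q, r, hx, hi, hc⟩
  have hsx : s ≠ x := by rintro rfl; simp at h2
  have hsi : s ≠ i := by rintro rfl; simp at h1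
  have htx : t ≠ x := by rintro rfl; simp at h2
  have hti : t ≠ i := by rintro rfl; simp at h1
  have fs := hc s hsx hsi
  have ft := hc t htx hti
  have id : ori X Y s t i * ((X x - p) ^ 2 + (Y x - q) ^ 2 - r)
      - ori X Y s t x * ((X i - p) ^ 2 + (Y i - q) ^ 2 - r)
      + ori X Y x i t * ((X s - p) ^ 2 + (Y s - q) ^ 2 - r)
      - ori X Y x i s * ((X t - p) ^ 2 + (Y t - q) ^ 2 - r) =
      ori X Y s t i * ((X x - X i) ^ 2 + (Y x - Y i) ^ 2)
      + ori X Y x i t * ((X s - X i) ^ 2 + (Y s - Y i) ^ 2)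
      - ori X Y x i s * ((X t - X i) ^ 2 + (Y t - Y i) ^ 2) := by
    unfold ori; ring
  rw [← id, hx, hi] at hQ
  have e1 := mul_pos (by linarith : 0 < - ori X Y x i t) (by linarith : 0 < (X s - p) ^ 2 + (Y s - q) ^ 2 - r)
  have e2 := mul_pos h4 (by linarith : 0 < (X t - p) ^ 2 + (Y t - q) ^ 2 - r)
  nlinarith

end gen

/-! ### eventually lemmas -/

lemma ev_lin {a b : ℝ} (h : 0 < a) : ∀ᶠ R : ℝ in atTop, 0 < R * a + b := by
  filter_upwards [eventually_gt_atTop (-b / a)] with R hR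
  rw [div_lt_iff₀ h] at hR
  linarith

lemma ev_sq {a b c : ℝ} (h : 0 < a) : ∀ᶠ R : ℝ in atTop, 0 < a * R ^ 2 + b * R + c := by
  filter_upwards [eventually_gt_atTop ((|b| + |c|) / a), eventually_ge_atTop 1] with R hR h1
  rw [div_lt_iff₀ h] at hR
  have hb := neg_abs_le b
  have hc := neg_abs_le c
  have h2 : 0 < R * (R * a - (|b| + |c|)) := mul_pos (by linarith) (by linarith)
  have h3 : |c| ≤ R * |c| := by nlinarith [abs_nonneg c]
  nlinarith [abs_nonneg b]

/-! ### the extended configuration -/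
section ext
variable {n : ℕ} (X Y : Fin n → ℝ) (p q R : ℝ)

def ext (X : Fin n → ℝ) (z : ℝ) : Fin (n + 1) → ℝ := Fin.snoc (α := fun _ => ℝ) X z

@[simp] lemma ext_castSucc (z : ℝ) (i : Fin n) : ext X z i.castSucc = X i := by simp [ext]
@[simp] lemma ext_last (z : ℝ) : ext X z (Fin.last n) = z := by simp [ext]

lemma ori_old (i j k : Fin n) (z w : ℝ) :
    ori (ext X z) (ext Y w) i.castSucc j.castSucc k.castSucc = ori X Y i j k := by
  simp [ori]

lemma Cr_old (i j k l : Fin n) (z w : ℝ) :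
    Cr (ext X z) (ext Y w) i.castSucc j.castSucc k.castSucc l.castSucc ↔ Cr X Y i j k l := by
  simp [Cr, ori_old]

lemma ori_new (i j : Fin n) :
    ori (ext X (R * p)) (ext Y (R * q)) i.castSucc j.castSucc (Fin.last n) =
      R * crs X Y p q i j + (X i * Y j - X j * Y i) := by
  simp [ori, crs]; ring

lemma ev_ori : ∀ᶠ R : ℝ in atTop, ∀ i j : Fin n,
    (0 < crs X Y p q i j →
      0 < ori (ext X (R * p)) (ext Y (R * q)) i.castSucc j.castSucc (Fin.last n)) ∧
    (crs X Y p q i j < 0 →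
      ori (ext X (R * p)) (ext Y (R * q)) i.castSucc j.castSucc (Fin.last n) < 0) := by
  rw [eventually_all]; intro i
  rw [eventually_all]; intro j
  have h1 : ∀ᶠ R : ℝ in atTop, 0 < crs X Y p q i j →
      0 < R * crs X Y p q i j + (X i * Y j - X j * Y i) := by
    by_cases h : 0 < crs X Y p q i j
    · filter_upwards [ev_lin (b := (X i * Y j - X j * Y i)) h] with R hR _; exact hR
    · exact Eventually.of_forall (fun _ h' => absurd h' h)
  have h2 : ∀ᶠ R : ℝ in atTop, crs X Y p q i j < 0 →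
      R * crs X Y p q i j + (X i * Y j - X j * Y i) < 0 := by
    by_cases h : crs X Y p q i j < 0
    · filter_upwards [ev_lin (a := - crs X Y p q i j) (b := -(X i * Y j - X j * Y i)) (by linarith)] with R hR _
      linarith
    · exact Eventually.of_forall (fun _ h' => absurd h' h)
  filter_upwards [h1, h2] with R h1 h2
  rw [ori_new]
  exact ⟨h1, h2⟩

lemma ev_len (hpq : 0 < p ^ 2 + q ^ 2) (B : ℝ) (hB : 0 ≤ B) : ∀ᶠ R : ℝ in atTop, ∀ i : Fin n,
    B < len (ext X (R * p)) (ext Y (R * q)) (Fin.last n) i.castSucc := by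
  rw [eventually_all]; intro i
  filter_upwards [ev_sq (b := - 2 * (p * X i + q * Y i)) (c := X i ^ 2 + Y i ^ 2 - B ^ 2) hpq] with R hR
  unfold len
  rw [Real.lt_sqrt hB]
  simp
  nlinarith

lemma ev_del (hpq : 0 < p ^ 2 + q ^ 2) (i j : Fin n) (h : Del X Y i j) : ∀ᶠ R : ℝ in atTop,
    Del (ext X (R * p)) (ext Y (R * q)) i.castSucc j.castSucc := by
  obtain ⟨a, b, r, h1, h2, h3⟩ := h
  filter_upwards [ev_sq (b := - 2 * (p * a + q * b)) (c := a ^ 2 + b ^ 2 - r) hpq] with R hR
  refine ⟨a, b, r, by simpa using h1, by simpa using h2, ?_⟩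
  intro c
  refine Fin.lastCases ?_ (fun k => ?_) c
  · intro _ _
    simp
    nlinarith
  · intro hk1 hk2
    simp only [ext_castSucc]
    exact h3 k (fun h => hk1 (by rw [h])) (fun h => hk2 (by rw [h]))

lemma del_restrict (z w : ℝ) (i j : Fin n)
    (h : Del (ext X z) (ext Y w) i.castSucc j.castSucc) : Del X Y i j := by
  obtain ⟨a, b, r, h1, h2, h3⟩ := h
  refine ⟨a, b, r, by simpa using h1, by simpa using h2, ?_⟩
  intro c hc1 hc2
  have := h3 c.castSucc (fun h => hc1 (Fin.castSucc_injective _ h)) (fun h => hc2 (Fin.castSucc_injective _ h))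
  simpa using this

lemma ev_Q (hpq : 0 < p ^ 2 + q ^ 2) (i s t : Fin n) (h : 0 < ori X Y s t i) :
    ∀ᶠ R : ℝ in atTop,
      0 ≤ ori (ext X (R * p)) (ext Y (R * q)) s.castSucc t.castSucc i.castSucc *
          ((ext X (R * p) (Fin.last n) - ext X (R * p) i.castSucc) ^ 2
            + (ext Y (R * q) (Fin.last n) - ext Y (R * q) i.castSucc) ^ 2)
      + ori (ext X (R * p)) (ext Y (R * q)) (Fin.last n) i.castSucc t.castSucc *
          ((ext X (R * p) s.castSucc - ext X (R * p) i.castSucc) ^ 2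
            + (ext Y (R * q) s.castSucc - ext Y (R * q) i.castSucc) ^ 2)
      - ori (ext X (R * p)) (ext Y (R * q)) (Fin.last n) i.castSucc s.castSucc *
          ((ext X (R * p) t.castSucc - ext X (R * p) i.castSucc) ^ 2
            + (ext Y (R * q) t.castSucc - ext Y (R * q) i.castSucc) ^ 2) := by
  set o := ori X Y s t i with ho
  set As := (X s - X i) ^ 2 + (Y s - Y i) ^ 2 with hAs
  set At := (X t - X i) ^ 2 + (Y t - Y i) ^ 2 with hAt
  have hpos : 0 < o * (p ^ 2 + q ^ 2) := mul_pos h hpq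
  filter_upwards [ev_sq (b := - 2 * o * (p * X i + q * Y i) + crs X Y p q i t * As - crs X Y p q i s * At)
    (c := o * (X i ^ 2 + Y i ^ 2) + (X i * Y t - X t * Y i) * As - (X i * Y s - X s * Y i) * At) hpos] with R hR
  have e1 : ori (ext X (R * p)) (ext Y (R * q)) (Fin.last n) i.castSucc t.castSucc =
      R * crs X Y p q i t + (X i * Y t - X t * Y i) := by
    rw [← ori_new, ← ori_rot]
  have e2 : ori (ext X (R * p)) (ext Y (R * q)) (Fin.last n) i.castSucc s.castSucc =
      R * crs X Y p q i s + (X i * Y s - X s * Y i) := by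
    rw [← ori_new, ← ori_rot]
  rw [e1, e2, ori_old]
  simp only [ext_castSucc, ext_last]
  rw [← ho, ← hAs, ← hAt]
  nlinarith

/-- the weight splits -/
lemma wt_ext (z w : ℝ) (E : SimpleGraph (Fin (n + 1))) :
    wt (ext X z) (ext Y w) E = wt X Y (E.comap Fin.castSucc)
      + 2 * ∑ i : Fin n, if E.Adj (Fin.last n) i.castSucc then
          len (ext X z) (ext Y w) (Fin.last n) i.castSucc else 0 := by
  unfold wt
  rw [Fin.sum_univ_castSucc]
  simp only [Fin.sum_univ_castSucc, SimpleGraph.comap_adj, SimpleGraph.irrefl, if_false, add_zero]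
  rw [Finset.sum_add_distrib]
  have h1 : ∀ i : Fin n, (if E.Adj i.castSucc (Fin.last n) then
      len (ext X z) (ext Y w) i.castSucc (Fin.last n) else 0) =
      (if E.Adj (Fin.last n) i.castSucc then len (ext X z) (ext Y w) (Fin.last n) i.castSucc else 0) := by
    intro i
    rw [len_comm]
    simp only [E.adj_comm]
  have h2 : ∀ i j : Fin n, len (ext X z) (ext Y w) i.castSucc j.castSucc = len X Y i j := by
    intro i j; simp [len]
  simp only [h1, h2]
  ring

end ext

end Pool.Agent.MP7a5e6c
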