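import Pool.Agent.MP7a5e6c.Step

set_option autoImplicit false
open scoped Classical
open Filter Topology

namespace Pool.Agent.MP7a5e6c

section
variable {n : ℕ}

@[simp] lemma addVertex_old (G : SimpleGraph (Fin n)) (A : List (Fin n)) (i j : Fin n) :
    (addVertex G A).Adj i.castSucc j.castSucc ↔ G.Adj i j := by
  unfold addVertex
  simp only
  constructor
  · rintro (⟨i', j', ha, hb, h⟩ | ⟨ha, _⟩ | ⟨hb, _⟩)
    · rw [Fin.castSucc_injective _ ha, Fin.castSucc_injective _ hb]; exact h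
    · exact absurd ha (Fin.castSucc_lt_last i).ne
    · exact absurd hb (Fin.castSucc_lt_last j).ne
  · intro h; exact Or.inl ⟨i, j, rfl, rfl, h⟩

@[simp] lemma addVertex_new (G : SimpleGraph (Fin n)) (A : List (Fin n)) (i : Fin n) :
    (addVertex G A).Adj (Fin.last n) i.castSucc ↔ i ∈ A := by
  unfold addVertex
  simp only
  constructor
  · rintro (⟨i', j', ha, hb, h⟩ | ⟨ha, i', hi, hb⟩ | ⟨hb, _⟩)
    · exact absurd ha.symm (Fin.castSucc_lt_last i').ne
    · rw [Fin.castSucc_injective _ hb]; exact hi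
    · exact absurd hb (Fin.castSucc_lt_last i).ne
  · intro h; exact Or.inr (Or.inl ⟨trivial, i, h, rfl⟩)

@[simp] lemma addVertex_new' (G : SimpleGraph (Fin n)) (A : List (Fin n)) (i : Fin n) :
    (addVertex G A).Adj i.castSucc (Fin.last n) ↔ i ∈ A := by
  rw [SimpleGraph.adj_comm]; exact addVertex_new G A i

variable (X Y : Fin n → ℝ)

def Vis (p q : ℝ) (s t : Fin n) : Prop := crs X Y p q s t < 0
def Hid (p q : ℝ) (s t : Fin n) : Prop := 0 < crs X Y p q s t

structure Inv (G : SimpleGraph (Fin n)) (a : Fin n) (T : List (Fin n)) : Prop where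
  gp : GP X Y
  hull : (a :: (T ++ [a])).IsChain (HullRel X Y)
  dir : ∀ S w Q, T = S ++ w :: Q → ∃ p q, (a :: (S ++ [w])).IsChain (Vis X Y p q) ∧
    (w :: (Q ++ [a])).IsChain (Hid X Y p q)
  tri : TriC X Y G
  mw : ∀ E, TriC X Y E → E ≠ G → wt X Y G < wt X Y E
  del : ∀ a b, a ≠ b → (G.Adj a b ↔ Del X Y a b)

/-- the data used in one insertion step, for a generic direction -/
structure Data (G : SimpleGraph (Fin n)) (a : Fin n) (S : List (Fin n)) (w : Fin n)
    (Q : List (Fin n)) (p q : ℝ) : Prop where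
  gen : ∀ i j, i ≠ j → crs X Y p q i j ≠ 0
  vis : (a :: (S ++ [w])).IsChain (Vis X Y p q)
  hid : (w :: (Q ++ [a])).IsChain (Hid X Y p q)

lemma Inv.data {G : SimpleGraph (Fin n)} {a : Fin n} {S : List (Fin n)} {w : Fin n}
    {Q : List (Fin n)} (h : Inv X Y G a (S ++ w :: Q)) :
    ∃ p q, Data X Y G a S w Q p q := by
  obtain ⟨p, q, h1, h2⟩ := h.dir S w Q rfl
  obtain ⟨p', q', h3, h4, h5⟩ := perturb X Y h.gp.1 p q
  refine ⟨p', q', h3, ?_, ?_⟩
  · exact h1.imp (fun s t hst => h4 s t hst)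
  · exact h2.imp (fun s t hst => h5 s t hst)

variable {X Y}
variable {G : SimpleGraph (Fin n)} {a : Fin n} {S : List (Fin n)} {w : Fin n}
    {Q : List (Fin n)} {p q : ℝ}

lemma hull1 (h : Inv X Y G a (S ++ w :: Q)) : (a :: (S ++ [w])).IsChain (HullRel X Y) := by
  have := h.hull
  rw [List.append_assoc, List.cons_append] at this
  exact (List.isChain_cons_split.1 this).1

lemma hull2 (h : Inv X Y G a (S ++ w :: Q)) : (w :: (Q ++ [a])).IsChain (HullRel X Y) := by
  have := h.hull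
  rw [List.append_assoc, List.cons_append] at this
  exact (List.isChain_cons_split.1 this).2

/-- last visible edge and first hidden edge -/
lemma edges_at_w (h : Inv X Y G a (S ++ w :: Q)) (d : Data X Y G a S w Q p q) :
    (∃ s, HullRel X Y s w ∧ crs X Y p q s w < 0) ∧
    (∃ t, HullRel X Y w t ∧ 0 < crs X Y p q w t) := by
  constructor
  · obtain ⟨S', s, hs⟩ := exists_snoc a S
    have c := chain_and (hull1 h) d.vis
    have e : a :: (S ++ [w]) = S' ++ [s] ++ [w] := by rw [← hs]; simp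
    rw [e, List.append_assoc] at c
    have := (List.isChain_append_cons_cons.1 (by simpa using c : (S' ++ s :: w :: []).IsChain _)).2.1
    exact ⟨s, this.1, this.2⟩
  · obtain ⟨t, Q', ht⟩ := exists_cons Q a
    have c := chain_and (hull2 h) d.hid
    rw [ht, List.isChain_cons_cons] at c
    exact ⟨t, c.1.1, c.1.2⟩

lemma edges_at_a (h : Inv X Y G a (S ++ w :: Q)) (d : Data X Y G a S w Q p q) :
    (∃ s, HullRel X Y s a ∧ 0 < crs X Y p q s a) ∧
    (∃ t, HullRel X Y a t ∧ crs X Y p q a t < 0) := by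
  constructor
  · obtain ⟨Q', s, hs⟩ := exists_snoc w Q
    have c := chain_and (hull2 h) d.hid
    have e : w :: (Q ++ [a]) = Q' ++ [s] ++ [a] := by rw [← hs]; simp
    rw [e, List.append_assoc] at c
    have := (List.isChain_append_cons_cons.1 (by simpa using c : (Q' ++ s :: a :: []).IsChain _)).2.1
    exact ⟨s, this.1, this.2⟩
  · obtain ⟨t, S', ht⟩ := exists_cons S w
    have c := chain_and (hull1 h) d.vis
    rw [ht, List.isChain_cons_cons] at c
    exact ⟨t, c.1.1, c.1.2⟩

lemma w_ext (h : Inv X Y G a (S ++ w :: Q)) (d : Data X Y G a S w Q p q) (c : Fin n)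
    (hc : c ≠ w) : 0 < crs X Y p q w c := by
  obtain ⟨⟨s, hs1, hs2⟩, ⟨t, ht1, ht2⟩⟩ := edges_at_w h d
  exact extreme_pos X Y p q s w t c hs1 ht1 hs2 ht2 hc

lemma a_ext (h : Inv X Y G a (S ++ w :: Q)) (d : Data X Y G a S w Q p q) (c : Fin n)
    (hc : c ≠ a) : crs X Y p q a c < 0 := by
  obtain ⟨⟨s, hs1, hs2⟩, ⟨t, ht1, ht2⟩⟩ := edges_at_a h d
  exact extreme_neg X Y p q s a t c hs1 ht1 hs2 ht2 hc

lemma vis_edge (h : Inv X Y G a (S ++ w :: Q)) (d : Data X Y G a S w Q p q) (i : Fin n)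
    (hi : i ∈ a :: (S ++ [w])) : ∃ s t, HullRel X Y s t ∧ crs X Y p q s t < 0 ∧ (i = s ∨ i = t) := by
  obtain ⟨s, t, ⟨h1, h2⟩, h3⟩ := mem_edge S a w i (chain_and (hull1 h) d.vis) hi
  exact ⟨s, t, h1, h2, h3⟩

/-- a hidden vertex is separated from the new one by a visible hull edge -/
lemma blocked (h : Inv X Y G a (S ++ w :: Q)) (d : Data X Y G a S w Q p q) (i : Fin n)
    (hi : i ∉ a :: (S ++ [w])) : ∃ s t, HullRel X Y s t ∧ crs X Y p q s t < 0 ∧
      0 < crs X Y p q i s ∧ crs X Y p q i t < 0 ∧ i ≠ s ∧ i ≠ t := by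
  have hia : i ≠ a := by rintro rfl; simp at hi
  have hiw : i ≠ w := by rintro rfl; simp at hi
  obtain ⟨s, t, ⟨h1, h2⟩, h3, h4⟩ := sign_change (g := fun c => crs X Y p q i c) S a w
    (chain_and (hull1 h) d.vis)
    (by have := a_ext h d i hia; rw [crs_swap] at this; linarith)
    (by have := w_ext h d i hiw; rw [crs_swap] at this; linarith)
    (by
      intro c hc
      exact d.gen i c (fun e => hi (e ▸ hc)))
  refine ⟨s, t, h1, h2, h3, h4, ?_, ?_⟩
  · rintro rfl; simp [crs] at h3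
  · rintro rfl; simp [crs] at h4

lemma hull_adj (htri : TriC X Y G) {s t : Fin n} (hst : HullRel X Y s t) (hne : s ≠ t) : G.Adj s t := by
  apply htri.2 s t hne
  intro c e _
  apply not_Cr_of_side
  · by_cases hc : c = s
    · subst hc; simp
    by_cases hc' : c = t
    · subst hc'; simp
    exact (hst c hc hc').le
  · by_cases hc : e = s
    · subst hc; simp
    by_cases hc' : e = t
    · subst hc'; simp
    exact (hst e hc hc').le

lemma hull_nonneg {s t : Fin n} (hst : HullRel X Y s t) (c : Fin n) : 0 ≤ ori X Y s t c := by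
  by_cases hc : c = s
  · subst hc; simp
  by_cases hc' : c = t
  · subst hc'; simp
  exact (hst c hc hc').le

end

end Pool.Agent.MP7a5e6c
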