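import Pool.Agent.MP7a5e6c.Step2

set_option autoImplicit false
open scoped Classical
open Filter Topology

namespace Pool.Agent.MP7a5e6c

section
variable {n : ℕ} {X Y : Fin n → ℝ}
variable {G : SimpleGraph (Fin n)} {a : Fin n} {S : List (Fin n)} {w : Fin n}
    {Q : List (Fin n)} {p q : ℝ}

lemma perturbz (p q p0 q0 : ℝ) (hk : 0 ≤ p * q0 - q * p0) (hpq : 0 < p ^ 2 + q ^ 2) :
    ∃ p' q' : ℝ, 0 < p * q' - q * p' ∧
      (∀ i j : Fin n, crs X Y p0 q0 i j < 0 → crs X Y p' q' i j < 0) ∧
      (∀ i j : Fin n, 0 < crs X Y p0 q0 i j → 0 < crs X Y p' q' i j) := by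
  have key : ∀ (i j : Fin n) (ε : ℝ), crs X Y (p0 - ε * q) (q0 + ε * p) i j =
      crs X Y p0 q0 i j + (crs X Y (-q) p i j) * ε + 0 * ε ^ 2 := by
    intro i j ε; unfold crs; ring
  have h2 : ∀ᶠ ε : ℝ in 𝓝[>] 0, ∀ i j : Fin n, crs X Y p0 q0 i j < 0 →
      crs X Y (p0 - ε * q) (q0 + ε * p) i j < 0 := by
    rw [eventually_all]; intro i
    rw [eventually_all]; intro j
    by_cases hij : crs X Y p0 q0 i j < 0
    · filter_upwards [ev_neg (d := crs X Y (-q) p i j) (e := 0) hij] with ε hε _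
      rw [key]; exact hε
    · exact Eventually.of_forall (fun ε h => absurd h hij)
  obtain ⟨ε, h2, hε⟩ := (h2.and (self_mem_nhdsWithin (s := Set.Ioi (0:ℝ)))).exists
  have hpos : (0:ℝ) < ε := hε
  refine ⟨p0 - ε * q, q0 + ε * p, ?_, h2, ?_⟩
  · have : p * (q0 + ε * p) - q * (p0 - ε * q) = (p * q0 - q * p0) + ε * (p ^ 2 + q ^ 2) := by ring
    rw [this]
    have := mul_pos hpos hpq
    linarith
  · intro i j hij
    have := h2 j i (by rw [crs_swap]; linarith)
    rw [crs_swap] at this; linarith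

lemma pq_pos (h : Inv X Y G a (S ++ w :: Q)) (d : Data X Y G a S w Q p q) : 0 < p ^ 2 + q ^ 2 := by
  obtain ⟨⟨s, _, hs⟩, _⟩ := edges_at_w h d
  by_contra hc
  have h0 : p ^ 2 + q ^ 2 ≤ 0 := not_lt.1 hc
  have hp : p = 0 := by nlinarith [sq_nonneg p, sq_nonneg q]
  have hq : q = 0 := by nlinarith [sq_nonneg p, sq_nonneg q]
  subst hp; subst hq
  simp [crs] at hs

/-- a direction for every split of the new outer cycle -/
lemma new_dir (h : Inv X Y G a (S ++ w :: Q)) (d : Data X Y G a S w Q p q)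
    (S1 : List (Fin n)) (w1 : Fin n) (Q1 : List (Fin n)) (he : w :: (Q ++ [a]) = S1 ++ w1 :: Q1) :
    ∃ p' q' : ℝ, 0 < p * q' - q * p' ∧ (S1 ++ [w1]).IsChain (Vis X Y p' q') ∧
      (w1 :: Q1).IsChain (Hid X Y p' q') := by
  have hpq := pq_pos h d
  cases S1 with
  | nil =>
    rw [List.nil_append] at he
    obtain ⟨rfl, rfl⟩ := List.cons_eq_cons.1 he
    obtain ⟨p', q', h1, h2, h3⟩ := perturbz (X := X) (Y := Y) p q p q (by linarith) hpq
    refine ⟨p', q', h1, by simp, ?_⟩
    exact d.hid.imp (fun s t hst => h3 s t hst)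
  | cons v S2 =>
    rw [List.cons_append] at he
    obtain ⟨hwv, he2⟩ := List.cons_eq_cons.1 he
    subst hwv
    clear he
    have he := he2
    rcases List.eq_nil_or_concat Q1 with hQ1 | ⟨Q2, b, hQ1⟩
    · subst hQ1
      have he' : Q = S2 ∧ a = w1 := by
        have := List.append_inj' (s₁ := Q) (s₂ := S2) (t₁ := [a]) (t₂ := [w1]) he rfl
        exact ⟨this.1, by simpa using this.2⟩
      obtain ⟨rfl, rfl⟩ := he'
      obtain ⟨p', q', h1, h2, h3⟩ := perturbz (X := X) (Y := Y) p q (-p) (-q) (by linarith) hpq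
      refine ⟨p', q', h1, ?_, by simp⟩
      refine d.hid.imp (fun s t hst => h2 s t ?_)
      have : crs X Y (-p) (-q) s t = - crs X Y p q s t := by unfold crs; ring
      rw [this]; have : 0 < crs X Y p q s t := hst
      linarith
    · rw [List.concat_eq_append] at hQ1
      subst hQ1
      have he' : Q = S2 ++ w1 :: Q2 ∧ a = b := by
        have := List.append_inj' (s₁ := Q) (s₂ := S2 ++ w1 :: Q2) (t₁ := [a]) (t₂ := [b])
          (by simpa using he) rfl
        exact ⟨this.1, by simpa using this.2⟩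
      obtain ⟨hQ, rfl⟩ := he'
      obtain ⟨p', q', h1, h2⟩ := h.dir (S ++ w :: S2) w1 Q2 (by rw [hQ]; simp)
      refine ⟨p', q', ?_, ?_, h2⟩
      · -- positivity of the turn
        obtain ⟨S', s, hs⟩ := exists_snoc a S
        obtain ⟨t, Q', ht⟩ := exists_cons S2 w1
        -- edge (s,w)
        have c1 := chain_and (hull1 h) d.vis
        have e1 : a :: (S ++ [w]) = S' ++ [s] ++ [w] := by rw [← hs]; simp
        rw [e1, List.append_assoc] at c1
        have f1 := (List.isChain_append_cons_cons.1 (by simpa using c1 : (S' ++ s :: w :: []).IsChain _)).2.1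
        have e2 : a :: ((S ++ w :: S2) ++ [w1]) = S' ++ s :: w :: t :: Q' := by
          have : a :: ((S ++ w :: S2) ++ [w1]) = (a :: S) ++ w :: (S2 ++ [w1]) := by simp
          rw [this, hs, ht]; simp
        rw [e2] at h1
        have f2 := (List.isChain_append_cons_cons.1 h1).2
        have f3 := (List.isChain_cons_cons.1 f2.2).1
        -- edge (w,t) hidden for (p,q)
        have c2 := chain_and (hull2 h) d.hid
        have e3 : w :: (Q ++ [a]) = w :: t :: (Q' ++ Q2 ++ [a]) := by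
          rw [hQ]
          have : S2 ++ w1 :: Q2 ++ [a] = (S2 ++ [w1]) ++ (Q2 ++ [a]) := by simp
          rw [this, ht]; simp
        rw [e3, List.isChain_cons_cons] at c2
        have g1 : 0 ≤ ori X Y s w t := hull_nonneg f1.1 t
        have g2 : crs X Y p q s w < 0 := f1.2
        have g3 : crs X Y p' q' s w < 0 := f2.1
        have g4 : crs X Y p' q' w t < 0 := f3
        have g5 : 0 < crs X Y p q w t := c2.1.2
        have id : ori X Y s w t * (p * q' - q * p') =
            crs X Y p q s w * crs X Y p' q' w t - crs X Y p' q' s w * crs X Y p q w t := by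
          unfold ori crs; ring
        have hp1 := mul_pos_of_neg_of_neg g2 g4
        have hp2 := mul_pos (by linarith : 0 < - crs X Y p' q' s w) g5
        have hp3 : 0 < ori X Y s w t * (p * q' - q * p') := by rw [id]; nlinarith
        rcases g1.lt_or_eq with g | g
        · exact (mul_pos_iff_of_pos_left g).1 hp3
        · rw [← g] at hp3; simp at hp3
      · have e : a :: ((S ++ w :: S2) ++ [w1]) = (a :: S) ++ (w :: (S2 ++ [w1])) := by simp
        rw [e] at h1
        exact h1.right_of_append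

/-- the eventual form of the direction condition -/
lemma ev_dir (h : Inv X Y G a (S ++ w :: Q)) (d : Data X Y G a S w Q p q) :
    ∀ᶠ R : ℝ in atTop, ∀ S1 w1 Q1, w :: (Q ++ [a]) = S1 ++ w1 :: Q1 → ∃ p' q' : ℝ,
      0 < p * q' - q * p' ∧
      (S1 ++ [w1]).IsChain (Vis X Y p' q') ∧ (w1 :: Q1).IsChain (Hid X Y p' q') ∧
      (∀ i : Fin n, (X i - R * p) * q' - (Y i - R * q) * p' < 0) := by
  have key : ∀ k ∈ Finset.range (w :: (Q ++ [a])).length, ∀ᶠ R : ℝ in atTop, ∀ S1 w1 Q1,
      w :: (Q ++ [a]) = S1 ++ w1 :: Q1 → S1.length = k → ∃ p' q' : ℝ,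
      0 < p * q' - q * p' ∧
      (S1 ++ [w1]).IsChain (Vis X Y p' q') ∧ (w1 :: Q1).IsChain (Hid X Y p' q') ∧
      (∀ i : Fin n, (X i - R * p) * q' - (Y i - R * q) * p' < 0) := by
    intro k _
    by_cases hk : ∃ S1 w1 Q1, w :: (Q ++ [a]) = S1 ++ w1 :: Q1 ∧ S1.length = k
    · obtain ⟨S1, w1, Q1, he, hl⟩ := hk
      obtain ⟨p', q', h1, h2, h3⟩ := new_dir h d S1 w1 Q1 he
      have h4 : ∀ᶠ R : ℝ in atTop, ∀ i : Fin n, (X i - R * p) * q' - (Y i - R * q) * p' < 0 := by
        rw [eventually_all]; intro i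
        filter_upwards [ev_lin (b := -(X i * q' - Y i * p')) h1] with R hR
        linarith
      filter_upwards [h4] with R hR
      intro S1' w1' Q1' he' hl'
      rw [he] at he'
      have := List.append_inj he' (by rw [hl, hl'])
      obtain ⟨rfl, h5⟩ := this
      obtain ⟨rfl, rfl⟩ := List.cons_eq_cons.1 h5
      exact ⟨p', q', h1, h2, h3, hR⟩
    · refine Eventually.of_forall (fun R S1 w1 Q1 he hl => absurd ⟨S1, w1, Q1, he, hl⟩ hk)
  have := (eventually_all_finset _).2 key
  filter_upwards [this] with R hR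
  intro S1 w1 Q1 he
  refine hR S1.length ?_ S1 w1 Q1 he rfl
  rw [he]; simp

end

end Pool.Agent.MP7a5e6c
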