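import Pool.Agent.MP7a5e6c.Step3

set_option autoImplicit false
open scoped Classical
open Filter Topology

namespace Pool.Agent.MP7a5e6c

lemma Del_comm {V : Type} (X Y : V → ℝ) (a b : V) : Del X Y a b ↔ Del X Y b a := by
  unfold Del
  constructor
  · rintro ⟨p, q, r, h1, h2, h3⟩; exact ⟨p, q, r, h2, h1, fun c h h' => h3 c h' h⟩
  · rintro ⟨p, q, r, h1, h2, h3⟩; exact ⟨p, q, r, h2, h1, fun c h h' => h3 c h' h⟩

section
variable {n : ℕ} {X Y : Fin n → ℝ}
variable {G : SimpleGraph (Fin n)} {a : Fin n} {S : List (Fin n)} {w : Fin n}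
    {Q : List (Fin n)} {p q : ℝ}

/-- everything that is needed about the far radius `R` -/
structure Good (X Y : Fin n → ℝ) (G : SimpleGraph (Fin n)) (a w : Fin n) (Q : List (Fin n))
    (p q R : ℝ) : Prop where
  o : ∀ i j : Fin n,
    (0 < crs X Y p q i j →
      0 < ori (ext X (R * p)) (ext Y (R * q)) i.castSucc j.castSucc (Fin.last n)) ∧
    (crs X Y p q i j < 0 →
      ori (ext X (R * p)) (ext Y (R * q)) i.castSucc j.castSucc (Fin.last n) < 0)
  l : ∀ i : Fin n, wt X Y G < len (ext X (R * p)) (ext Y (R * q)) (Fin.last n) i.castSucc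
  dl : ∀ i j : Fin n, Del X Y i j →
    Del (ext X (R * p)) (ext Y (R * q)) i.castSucc j.castSucc
  Qd : ∀ i s t : Fin n, 0 < ori X Y s t i →
      0 ≤ ori (ext X (R * p)) (ext Y (R * q)) s.castSucc t.castSucc i.castSucc *
          ((ext X (R * p) (Fin.last n) - ext X (R * p) i.castSucc) ^ 2
            + (ext Y (R * q) (Fin.last n) - ext Y (R * q) i.castSucc) ^ 2)
      + ori (ext X (R * p)) (ext Y (R * q)) (Fin.last n) i.castSucc t.castSucc *
          ((ext X (R * p) s.castSucc - ext X (R * p) i.castSucc) ^ 2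
            + (ext Y (R * q) s.castSucc - ext Y (R * q) i.castSucc) ^ 2)
      - ori (ext X (R * p)) (ext Y (R * q)) (Fin.last n) i.castSucc s.castSucc *
          ((ext X (R * p) t.castSucc - ext X (R * p) i.castSucc) ^ 2
            + (ext Y (R * q) t.castSucc - ext Y (R * q) i.castSucc) ^ 2)
  dr : ∀ S1 w1 Q1, w :: (Q ++ [a]) = S1 ++ w1 :: Q1 → ∃ p' q' : ℝ,
      0 < p * q' - q * p' ∧
      (S1 ++ [w1]).IsChain (Vis X Y p' q') ∧ (w1 :: Q1).IsChain (Hid X Y p' q') ∧
      (∀ i : Fin n, (X i - R * p) * q' - (Y i - R * q) * p' < 0)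

lemma wt_nonneg {V : Type} [Fintype V] (X Y : V → ℝ) (E : SimpleGraph V) : 0 ≤ wt X Y E := by
  unfold wt
  apply Finset.sum_nonneg; intro a _
  apply Finset.sum_nonneg; intro b _
  split_ifs
  · exact len_nonneg X Y a b
  · exact le_refl _

lemma exists_good (h : Inv X Y G a (S ++ w :: Q)) (d : Data X Y G a S w Q p q) :
    ∃ R : ℝ, Good X Y G a w Q p q R := by
  have hpq := pq_pos h d
  have e1 := ev_ori X Y p q
  have e2 := ev_len X Y p q hpq (wt X Y G) (wt_nonneg X Y G)
  have e3 : ∀ᶠ R : ℝ in atTop, ∀ i j : Fin n, Del X Y i j →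
      Del (ext X (R * p)) (ext Y (R * q)) i.castSucc j.castSucc := by
    rw [eventually_all]; intro i
    rw [eventually_all]; intro j
    by_cases hd : Del X Y i j
    · filter_upwards [ev_del X Y p q hpq i j hd] with R hR _; exact hR
    · exact Eventually.of_forall (fun _ h' => absurd h' hd)
  have e4 : ∀ᶠ R : ℝ in atTop, ∀ i s t : Fin n, 0 < ori X Y s t i →
      0 ≤ ori (ext X (R * p)) (ext Y (R * q)) s.castSucc t.castSucc i.castSucc *
          ((ext X (R * p) (Fin.last n) - ext X (R * p) i.castSucc) ^ 2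
            + (ext Y (R * q) (Fin.last n) - ext Y (R * q) i.castSucc) ^ 2)
      + ori (ext X (R * p)) (ext Y (R * q)) (Fin.last n) i.castSucc t.castSucc *
          ((ext X (R * p) s.castSucc - ext X (R * p) i.castSucc) ^ 2
            + (ext Y (R * q) s.castSucc - ext Y (R * q) i.castSucc) ^ 2)
      - ori (ext X (R * p)) (ext Y (R * q)) (Fin.last n) i.castSucc s.castSucc *
          ((ext X (R * p) t.castSucc - ext X (R * p) i.castSucc) ^ 2
            + (ext Y (R * q) t.castSucc - ext Y (R * q) i.castSucc) ^ 2) := by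
    rw [eventually_all]; intro i
    rw [eventually_all]; intro s
    rw [eventually_all]; intro t
    by_cases ho : 0 < ori X Y s t i
    · filter_upwards [ev_Q X Y p q hpq i s t ho] with R hR _; exact hR
    · exact Eventually.of_forall (fun _ h' => absurd h' ho)
  have e5 := ev_dir h d
  obtain ⟨R, h1, h2, h3, h4, h5⟩ := (e1.and (e2.and (e3.and (e4.and e5)))).exists
  exact ⟨R, h1, h2, h3, h4, h5⟩

variable {R : ℝ}

/-- the new edges cross nothing -/
lemma new_not_Cr (h : Inv X Y G a (S ++ w :: Q)) (d : Data X Y G a S w Q p q)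
    (g : Good X Y G a w Q p q R) (i : Fin n) (hi : i ∈ a :: (S ++ [w])) (c e : Fin (n + 1)) :
    ¬ Cr (ext X (R * p)) (ext Y (R * q)) (Fin.last n) i.castSucc c e := by
  refine Fin.lastCases ?_ (fun j => ?_) c
  · exact not_Cr_share _ _ _ _ _ _ (Or.inl rfl)
  refine Fin.lastCases ?_ (fun k => ?_) e
  · exact not_Cr_share _ _ _ _ _ _ (Or.inr (Or.inl rfl))
  obtain ⟨s, t, h1, h2, h3⟩ := vis_edge h d i hi
  apply not_Cr_of_sep _ _ _ _ _ _ s.castSucc t.castSucc
  · rw [ori_old]; exact hull_nonneg h1 j
  · rw [ori_old]; exact hull_nonneg h1 k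
  · rw [ori_old]
    rcases h3 with h3 | h3 <;> subst h3 <;> simp
  · exact (g.o s t).2 h2

/-- hidden vertices are cut off by an old hull edge -/
lemma hidden_Cr (h : Inv X Y G a (S ++ w :: Q)) (d : Data X Y G a S w Q p q)
    (g : Good X Y G a w Q p q R) (i : Fin n) (hi : i ∉ a :: (S ++ [w])) :
    ∃ s t, HullRel X Y s t ∧ s ≠ t ∧ 
      0 < ori (ext X (R * p)) (ext Y (R * q)) s.castSucc t.castSucc i.castSucc ∧
      ori (ext X (R * p)) (ext Y (R * q)) s.castSucc t.castSucc (Fin.last n) < 0 ∧
      ori (ext X (R * p)) (ext Y (R * q)) (Fin.last n) i.castSucc t.castSucc < 0 ∧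
      0 < ori (ext X (R * p)) (ext Y (R * q)) (Fin.last n) i.castSucc s.castSucc := by
  obtain ⟨s, t, h1, h2, h3, h4, h5, h6⟩ := blocked h d i hi
  refine ⟨s, t, h1, ?_, ?_, (g.o s t).2 h2, ?_, ?_⟩
  · rintro rfl; simp [crs] at h2
  · rw [ori_old]; exact h1 i h5 h6
  · rw [← ori_rot]; exact (g.o i t).2 h4
  · rw [← ori_rot]; exact (g.o i s).1 h3

lemma step_tri (h : Inv X Y G a (S ++ w :: Q)) (d : Data X Y G a S w Q p q)
    (g : Good X Y G a w Q p q R) :
    TriC (ext X (R * p)) (ext Y (R * q)) (addVertex G (a :: (S ++ [w]))) := by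
  set G' := addVertex G (a :: (S ++ [w])) with hG'
  have key : ∀ (b : Fin (n + 1)) (c e : Fin (n + 1)), G'.Adj (Fin.last n) b →
      ¬ Cr (ext X (R * p)) (ext Y (R * q)) (Fin.last n) b c e := by
    intro b c e
    refine Fin.lastCases ?_ (fun i => ?_) b
    · intro hh; exact absurd rfl hh.ne
    · intro hh
      rw [hG', addVertex_new] at hh
      exact new_not_Cr h d g i hh c e
  constructor
  · intro b1 b2 b3 b4
    refine Fin.lastCases ?_ (fun i => ?_) b1
    · intro h12 _; exact key _ _ _ h12
    refine Fin.lastCases ?_ (fun j => ?_) b2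
    · intro h12 _; rw [Cr_swap1]; exact key _ _ _ h12.symm
    refine Fin.lastCases ?_ (fun k => ?_) b3
    · intro _ h34; rw [Cr_symm]; exact key _ _ _ h34
    refine Fin.lastCases ?_ (fun l => ?_) b4
    · intro _ h34; rw [Cr_symm, Cr_swap1]; exact key _ _ _ h34.symm
    intro h12 h34
    rw [Cr_old]
    rw [hG', addVertex_old] at h12 h34
    exact h.tri.1 i j k l h12 h34
  · have key2 : ∀ i : Fin n, (∀ c e, G'.Adj c e →
        ¬ Cr (ext X (R * p)) (ext Y (R * q)) (Fin.last n) i.castSucc c e) →
        G'.Adj (Fin.last n) i.castSucc := by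
      intro i hi
      rw [hG', addVertex_new]
      by_contra hc
      obtain ⟨s, t, h1, hst, h2, h3, h4, h5⟩ := hidden_Cr h d g i hc
      apply hi s.castSucc t.castSucc
      · rw [hG', addVertex_old]; exact hull_adj h.tri h1 hst
      · refine ⟨?_, ?_⟩
        · exact mul_neg_of_pos_of_neg h5 h4
        · exact mul_neg_of_neg_of_pos h3 h2
    intro b1 b2
    refine Fin.lastCases ?_ (fun i => ?_) b1
    · refine Fin.lastCases ?_ (fun j => ?_) b2
      · intro hh; exact absurd rfl hh
      · intro _ hh; exact key2 j hh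
    refine Fin.lastCases ?_ (fun j => ?_) b2
    · intro _ hh
      apply SimpleGraph.Adj.symm
      apply key2
      intro c e hce hcr
      exact hh c e hce ((Cr_swap1 _ _ _ _ _ _).1 hcr)
    · intro hij hh
      rw [hG', addVertex_old]
      apply h.tri.2 i j (fun e => hij (by rw [e]))
      intro c e hce hcr
      apply hh c.castSucc e.castSucc
      · rw [hG', addVertex_old]; exact hce
      · rw [Cr_old]; exact hcr

lemma step_del (h : Inv X Y G a (S ++ w :: Q)) (d : Data X Y G a S w Q p q)
    (g : Good X Y G a w Q p q R) (hgp : GP (ext X (R * p)) (ext Y (R * q))) :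
    ∀ b1 b2, b1 ≠ b2 → ((addVertex G (a :: (S ++ [w]))).Adj b1 b2 ↔
      Del (ext X (R * p)) (ext Y (R * q)) b1 b2) := by
  set G' := addVertex G (a :: (S ++ [w])) with hG'
  have key : ∀ i : Fin n, (G'.Adj (Fin.last n) i.castSucc ↔
      Del (ext X (R * p)) (ext Y (R * q)) (Fin.last n) i.castSucc) := by
    intro i
    rw [hG', addVertex_new]
    constructor
    · intro hi
      obtain ⟨s, t, h1, h2, h3⟩ := vis_edge h d i hi
      apply del_of_side _ _ _ _ s.castSucc t.castSucc
      · rcases h3 with h3 | h3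
        · exact Or.inl (by rw [h3])
        · exact Or.inr (by rw [h3])
      · exact (g.o s t).2 h2
      · intro c
        refine Fin.lastCases ?_ (fun k => ?_) c
        · intro hh; exact absurd rfl hh
        · intro _; rw [ori_old]; exact hull_nonneg h1 k
      · intro c hc; exact hgp.1 c _ hc
    · intro hdel
      by_contra hc
      obtain ⟨s, t, h1, hst, h2, h3, h4, h5⟩ := hidden_Cr h d g i hc
      refine not_del_of_cross _ _ _ _ s.castSucc t.castSucc h2 h3 h4 h5 ?_ hdel
      apply g.Qd
      rw [ori_old] at h2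
      exact h2
  intro b1 b2
  refine Fin.lastCases ?_ (fun i => ?_) b1
  · refine Fin.lastCases ?_ (fun j => ?_) b2
    · intro hh; exact absurd rfl hh
    · intro _; exact key j
  refine Fin.lastCases ?_ (fun j => ?_) b2
  · intro _
    rw [SimpleGraph.adj_comm, Del_comm]; exact key i
  · intro hij
    rw [hG', addVertex_old, h.del i j (fun e => hij (by rw [e]))]
    exact ⟨g.dl i j, del_restrict X Y _ _ i j⟩

lemma step_gp (h : Inv X Y G a (S ++ w :: Q)) (d : Data X Y G a S w Q p q)
    (g : Good X Y G a w Q p q R) : GP (ext X (R * p)) (ext Y (R * q)) := by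
  have key : ∀ i : Fin n, ext X (R * p) (Fin.last n) ≠ ext X (R * p) i.castSucc ∨
      ext Y (R * q) (Fin.last n) ≠ ext Y (R * q) i.castSucc := by
    intro i
    by_contra hc
    push Not at hc
    have h1 := g.l i
    have h2 := wt_nonneg X Y G
    have h3 : len (ext X (R * p)) (ext Y (R * q)) (Fin.last n) i.castSucc = 0 := by
      unfold len
      rw [hc.1, hc.2]; simp
    linarith
  have key2 : ∀ i j : Fin n, i ≠ j →
      ori (ext X (R * p)) (ext Y (R * q)) i.castSucc j.castSucc (Fin.last n) ≠ 0 := by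
    intro i j hij
    rcases lt_or_gt_of_ne (d.gen i j hij) with h1 | h1
    · exact ((g.o i j).2 h1).ne
    · exact ((g.o i j).1 h1).ne'
  constructor
  · intro b1 b2
    refine Fin.lastCases ?_ (fun i => ?_) b1
    · refine Fin.lastCases ?_ (fun j => ?_) b2
      · intro hh; exact absurd rfl hh
      · intro _; exact key j
    refine Fin.lastCases ?_ (fun j => ?_) b2
    · intro _
      rcases key i with h1 | h1
      · exact Or.inl (Ne.symm h1)
      · exact Or.inr (Ne.symm h1)
    · intro hij
      simp only [ext_castSucc]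
      exact h.gp.1 i j (fun e => hij (by rw [e]))
  · intro b1 b2 b3
    refine Fin.lastCases ?_ (fun i => ?_) b1
    · refine Fin.lastCases ?_ (fun j => ?_) b2
      · intro hh; exact absurd rfl hh
      · refine Fin.lastCases ?_ (fun k => ?_) b3
        · intro _ hh; exact absurd rfl hh
        · intro _ _ hh
          rw [← ori_rot]
          exact key2 j k (fun e => hh (by rw [e]))
    · refine Fin.lastCases ?_ (fun j => ?_) b2
      · refine Fin.lastCases ?_ (fun k => ?_) b3
        · intro _ _ hh; exact absurd rfl hh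
        · intro _ hh _
          rw [← ori_rot, ← ori_rot]
          exact key2 k i (fun e => hh (by rw [e]))
      · refine Fin.lastCases ?_ (fun k => ?_) b3
        · intro hh _ _
          exact key2 i j (fun e => hh (by rw [e]))
        · intro h1 h2 h3
          rw [ori_old]
          exact h.gp.2 i j k (fun e => h1 (by rw [e])) (fun e => h2 (by rw [e])) (fun e => h3 (by rw [e]))

lemma step_hull (h : Inv X Y G a (S ++ w :: Q)) (d : Data X Y G a S w Q p q)
    (g : Good X Y G a w Q p q R) :
    (Fin.last n :: ((w :: (Q ++ [a])).map Fin.castSucc ++ [Fin.last n])).IsChain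
      (HullRel (ext X (R * p)) (ext Y (R * q))) := by
  have c1 : HullRel (ext X (R * p)) (ext Y (R * q)) (Fin.last n) w.castSucc := by
    intro c
    refine Fin.lastCases ?_ (fun k => ?_) c
    · intro hh; exact absurd rfl hh
    · intro _ hk
      rw [← ori_rot]
      exact (g.o w k).1 (w_ext h d k (fun e => hk (by rw [e])))
  have c2 : HullRel (ext X (R * p)) (ext Y (R * q)) a.castSucc (Fin.last n) := by
    intro c
    refine Fin.lastCases ?_ (fun k => ?_) c
    · intro _ hh; exact absurd rfl hh
    · intro hk _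
      have := (g.o a k).2 (a_ext h d k (fun e => hk (by rw [e])))
      rw [ori_swap']; linarith
  have c3 : ((w :: (Q ++ [a])).map Fin.castSucc).IsChain
      (HullRel (ext X (R * p)) (ext Y (R * q))) := by
    rw [List.isChain_map]
    have := chain_and (hull2 h) d.hid
    refine this.imp ?_
    rintro s t ⟨h1, h2⟩ c
    refine Fin.lastCases ?_ (fun k => ?_) c
    · intro _ _; exact (g.o s t).1 h2
    · intro hk1 hk2
      rw [ori_old]
      exact h1 k (fun e => hk1 (by rw [e])) (fun e => hk2 (by rw [e]))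
  have e : Fin.last n :: ((w :: (Q ++ [a])).map Fin.castSucc ++ [Fin.last n]) =
      Fin.last n :: w.castSucc :: ((Q.map Fin.castSucc) ++ a.castSucc :: Fin.last n :: []) := by simp
  rw [e, List.isChain_cons_cons]
  refine ⟨c1, ?_⟩
  have e' : w.castSucc :: ((Q.map Fin.castSucc) ++ a.castSucc :: Fin.last n :: []) =
     (w.castSucc :: (Q.map Fin.castSucc)) ++ a.castSucc :: Fin.last n :: [] := by simp
  rw [e', List.isChain_append_cons_cons]
  refine ⟨?_, c2, by simp⟩
  have e'' : (w.castSucc :: (Q.map Fin.castSucc)) ++ [a.castSucc] =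
    (w :: (Q ++ [a])).map Fin.castSucc := by simp
  rw [e'']; exact c3

lemma step_dir (h : Inv X Y G a (S ++ w :: Q)) (d : Data X Y G a S w Q p q)
    (g : Good X Y G a w Q p q R) :
    ∀ S1 w1 Q1, (w :: (Q ++ [a])).map Fin.castSucc = S1 ++ w1 :: Q1 → ∃ p' q',
      (Fin.last n :: (S1 ++ [w1])).IsChain (Vis (ext X (R * p)) (ext Y (R * q)) p' q') ∧
      (w1 :: (Q1 ++ [Fin.last n])).IsChain (Hid (ext X (R * p)) (ext Y (R * q)) p' q') := by
  intro S1 w1 Q1 he
  rw [List.map_eq_append_iff] at he
  obtain ⟨S2, L, he1, rfl, he2⟩ := he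
  rw [List.map_eq_cons_iff] at he2
  obtain ⟨w2, Q2, rfl, rfl, rfl⟩ := he2
  obtain ⟨p', q', h1, h2, h3, h4⟩ := g.dr S2 w2 Q2 he1
  refine ⟨p', q', ?_, ?_⟩
  · have : S2.map Fin.castSucc ++ [w2.castSucc] = (S2 ++ [w2]).map Fin.castSucc := by simp
    rw [this]
    obtain ⟨t, S', hS'⟩ := exists_cons S2 w2
    have h2' : ((S2 ++ [w2]).map Fin.castSucc).IsChain (Vis (ext X (R * p)) (ext Y (R * q)) p' q') := by
      rw [List.isChain_map]
      refine h2.imp ?_
      intro s t hst
      have : crs (ext X (R * p)) (ext Y (R * q)) p' q' s.castSucc t.castSucc = crs X Y p' q' s t := by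
        simp [crs]
      unfold Vis; rw [this]; exact hst
    rw [hS', List.map_cons, List.isChain_cons_cons]
    rw [hS', List.map_cons] at h2'
    refine ⟨?_, h2'⟩
    unfold Vis crs
    simp only [ext_castSucc, ext_last]
    exact h4 t
  · obtain ⟨Q', s, hs⟩ := exists_snoc w2 Q2
    have h3' : ((w2 :: Q2).map Fin.castSucc).IsChain (Hid (ext X (R * p)) (ext Y (R * q)) p' q') := by
      rw [List.isChain_map]
      refine h3.imp ?_
      intro s t hst
      have : crs (ext X (R * p)) (ext Y (R * q)) p' q' s.castSucc t.castSucc = crs X Y p' q' s t := by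
        simp [crs]
      unfold Hid; rw [this]; exact hst
    have e : w2.castSucc :: (Q2.map Fin.castSucc ++ [Fin.last n]) =
      (w2 :: Q2).map Fin.castSucc ++ [Fin.last n] := by simp
    rw [e]
    rw [hs] at h3' ⊢
    rw [List.map_append, List.map_cons, List.map_nil, List.append_assoc]
    have e' : [s.castSucc] ++ [Fin.last n] = s.castSucc :: Fin.last n :: [] := by simp
    rw [e', List.isChain_append_cons_cons]
    refine ⟨by simpa using h3', ?_, by simp⟩
    unfold Hid crs
    simp only [ext_castSucc, ext_last]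
    have := h4 s
    linarith

lemma step_mw (h : Inv X Y G a (S ++ w :: Q)) (d : Data X Y G a S w Q p q)
    (g : Good X Y G a w Q p q R) :
    ∀ E, TriC (ext X (R * p)) (ext Y (R * q)) E → E ≠ addVertex G (a :: (S ++ [w])) →
      wt (ext X (R * p)) (ext Y (R * q)) (addVertex G (a :: (S ++ [w]))) <
        wt (ext X (R * p)) (ext Y (R * q)) E := by
  intro E hE hne
  have hA : ∀ i ∈ a :: (S ++ [w]), E.Adj (Fin.last n) i.castSucc := by
    intro i hi
    apply hE.2
    · exact (Fin.castSucc_lt_last i).ne'
    · intro c e _; exact new_not_Cr h d g i hi c e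
  rw [wt_ext, wt_ext]
  have hcomap : (addVertex G (a :: (S ++ [w]))).comap Fin.castSucc = G := by
    ext i j; simp
  rw [hcomap]
  set L : Fin n → ℝ := fun i => len (ext X (R * p)) (ext Y (R * q)) (Fin.last n) i.castSucc with hL
  have hLpos : ∀ i, 0 ≤ L i := fun i => len_nonneg _ _ _ _
  have hsimp : ∀ i : Fin n, (if (addVertex G (a :: (S ++ [w]))).Adj (Fin.last n) i.castSucc then
      len (ext X (R * p)) (ext Y (R * q)) (Fin.last n) i.castSucc else 0) =
      (if i ∈ a :: (S ++ [w]) then L i else 0) := by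
    intro i; rw [hL]; simp only [addVertex_new]
  simp only [hsimp]
  by_cases hc : ∀ i : Fin n, E.Adj (Fin.last n) i.castSucc → i ∈ a :: (S ++ [w])
  · have hiff : ∀ i : Fin n, E.Adj (Fin.last n) i.castSucc ↔ i ∈ a :: (S ++ [w]) :=
      fun i => ⟨hc i, hA i⟩
    have hsum : ∀ i : Fin n, (if E.Adj (Fin.last n) i.castSucc then
        len (ext X (R * p)) (ext Y (R * q)) (Fin.last n) i.castSucc else 0) =
        (if i ∈ a :: (S ++ [w]) then L i else 0) := by
      intro i; rw [hL]; simp only [hiff i]
    simp only [hsum]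
    have hneG : E.comap Fin.castSucc ≠ G := by
      intro he
      apply hne
      ext b1 b2
      refine Fin.lastCases ?_ (fun i => ?_) b1
      · refine Fin.lastCases ?_ (fun j => ?_) b2
        · simp
        · rw [addVertex_new]; exact hiff j
      refine Fin.lastCases ?_ (fun j => ?_) b2
      · rw [addVertex_new', SimpleGraph.adj_comm]; exact hiff i
      · rw [addVertex_old, ← he]; rfl
    have htri : TriC X Y (E.comap Fin.castSucc) := by
      constructor
      · intro i j k l h1 h2 h3
        exact hE.1 i.castSucc j.castSucc k.castSucc l.castSucc h1 h2 ((Cr_old X Y i j k l _ _).2 h3)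
      · intro i j hij hh
        show E.Adj i.castSucc j.castSucc
        apply hE.2
        · exact fun e => hij (Fin.castSucc_injective _ e)
        · intro c e
          refine Fin.lastCases ?_ (fun k => ?_) c
          · refine Fin.lastCases ?_ (fun l => ?_) e
            · intro hh; exact absurd rfl hh.ne
            · intro hl; rw [Cr_symm]
              exact new_not_Cr h d g l (hc l hl) _ _
          refine Fin.lastCases ?_ (fun l => ?_) e
          · intro hk; rw [Cr_symm, Cr_swap1]
            exact new_not_Cr h d g k (hc k hk.symm) _ _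
          · intro hkl
            rw [Cr_old]
            exact hh k l hkl
    have := h.mw _ htri hneG
    linarith
  · push Not at hc
    obtain ⟨i0, h0, h0'⟩ := hc
    have hl := g.l i0
    have hw0 := wt_nonneg X Y G
    have hw1 := wt_nonneg X Y (E.comap Fin.castSucc)
    have hsum : (∑ i : Fin n, if i ∈ a :: (S ++ [w]) then L i else 0) + L i0 ≤
        ∑ i : Fin n, if E.Adj (Fin.last n) i.castSucc then
          len (ext X (R * p)) (ext Y (R * q)) (Fin.last n) i.castSucc else 0 := by
      have e1 : L i0 = ∑ i : Fin n, if i = i0 then L i0 else 0 := by simp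
      rw [e1, ← Finset.sum_add_distrib]
      apply Finset.sum_le_sum
      intro i _
      by_cases hi : i = i0
      · subst hi
        rw [if_neg h0', if_pos rfl, if_pos h0]
        simp [hL]
      · rw [if_neg hi, add_zero]
        by_cases hi2 : i ∈ a :: (S ++ [w])
        · rw [if_pos hi2, if_pos (hA i hi2)]
        · rw [if_neg hi2]
          split_ifs
          · exact hLpos i
          · exact le_refl _
    have hl' : wt X Y G < L i0 := hl
    linarith

theorem step (h : Inv X Y G a (S ++ w :: Q)) :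
    ∃ X' Y' : Fin (n + 1) → ℝ, Inv X' Y' (addVertex G (a :: (S ++ [w]))) (Fin.last n)
      ((w :: (Q ++ [a])).map Fin.castSucc) := by
  obtain ⟨p, q, d⟩ := h.data
  obtain ⟨R, g⟩ := exists_good h d
  have hgp := step_gp h d g
  exact ⟨ext X (R * p), ext Y (R * q), hgp, step_hull h d g, step_dir h d g, step_tri h d g,
    step_mw h d g, step_del h d g hgp⟩

end

end Pool.Agent.MP7a5e6c
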