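import Mathlib

set_option autoImplicit false
open scoped Classical

namespace Pool.Agent.MP7a5e6c

/-- Binary trees. A binary tree with `n` leaves is used as a code for a triangulation of the convex
polygon with the vertices `0, 1, ..., n`: `leaf` is the polygon with the two vertices `0, 1` (a
single edge), and `node l r` is the polygon with the vertices `0, ..., l.size + r.size` in which
the triangle at the edge `0, l.size + r.size` has the apex `l.size`, with `l` and `r` glued to the
other two sides of this triangle. -/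
inductive BT : Type
  | leaf : BT
  | node : BT → BT → BT

namespace BT

/-- number of leaves -/
def size : BT → ℕ
  | leaf => 1
  | node l r => l.size + r.size

/-- `T.Edge s i k`: in the triangulated polygon `T`, with its vertices renamed `s, ..., s + size`,
the vertices `i < k` are joined by an edge (a side or a diagonal) -/
def Edge : BT → ℕ → ℕ → ℕ → Prop
  | leaf, s, i, k => i = s ∧ k = s + 1
  | node l r, s, i, k => (i = s ∧ k = s + (l.size + r.size)) ∨ l.Edge s i k ∨
      r.Edge (s + l.size) i k

/-- `T.Tri s i m k`: in the triangulated polygon `T`, with its vertices renamed `s, ..., s + size`,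
there is a triangle with the vertices `i < m < k` -/
def Tri : BT → ℕ → ℕ → ℕ → ℕ → Prop
  | leaf, _, _, _, _ => False
  | node l r, s, i, m, k => (i = s ∧ m = s + l.size ∧ k = s + (l.size + r.size)) ∨
      l.Tri s i m k ∨ r.Tri (s + l.size) i m k

lemma size_pos : ∀ T : BT, 1 ≤ T.size
  | leaf => le_refl _
  | node l r => by
    have := size_pos l
    have := size_pos r
    simp only [size]; omega

lemma edge_range : ∀ (T : BT) (s i k : ℕ), T.Edge s i k → s ≤ i ∧ i < k ∧ k ≤ s + T.size
  | leaf, s, i, k, h => by simp only [Edge, size] at *; omega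
  | node l r, s, i, k, h => by
    have h1 := size_pos l
    have h2 := size_pos r
    simp only [Edge, size] at *
    rcases h with h | h | h
    · omega
    · have := edge_range l s i k h; omega
    · have := edge_range r _ i k h; omega

lemma edge_top : ∀ (T : BT) (s : ℕ), T.Edge s s (s + T.size)
  | leaf, s => ⟨rfl, rfl⟩
  | node l r, s => Or.inl ⟨rfl, rfl⟩

lemma edge_path : ∀ (T : BT) (s i : ℕ), s ≤ i → i < s + T.size → T.Edge s i (i + 1)
  | leaf, s, i, h1, h2 => by simp only [Edge, size] at *; omega
  | node l r, s, i, h1, h2 => by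
    simp only [Edge, size] at *
    by_cases h3 : i < s + l.size
    · exact Or.inr (Or.inl (edge_path l s i h1 h3))
    · exact Or.inr (Or.inr (edge_path r _ i (by omega) (by omega)))

lemma tri_edges : ∀ (T : BT) (s i m k : ℕ), T.Tri s i m k →
    T.Edge s i k ∧ T.Edge s i m ∧ T.Edge s m k
  | leaf, s, i, m, k, h => h.elim
  | node l r, s, i, m, k, h => by
    rcases h with ⟨rfl, rfl, rfl⟩ | h | h
    · refine ⟨Or.inl ⟨rfl, rfl⟩, Or.inr (Or.inl (edge_top l _)), Or.inr (Or.inr ?_)⟩
      have := edge_top r (i + l.size)
      rwa [Nat.add_assoc] at this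
    · have := tri_edges l s i m k h
      exact ⟨Or.inr (Or.inl this.1), Or.inr (Or.inl this.2.1), Or.inr (Or.inl this.2.2)⟩
    · have := tri_edges r _ i m k h
      exact ⟨Or.inr (Or.inr this.1), Or.inr (Or.inr this.2.1), Or.inr (Or.inr this.2.2)⟩

lemma edge_split : ∀ (T : BT) (s i k : ℕ), T.Edge s i k → k = i + 1 ∨ ∃ m, T.Tri s i m k
  | leaf, s, i, k, h => by simp only [Edge] at h; left; omega
  | node l r, s, i, k, h => by
    rcases h with ⟨rfl, rfl⟩ | h | h
    · exact Or.inr ⟨i + l.size, Or.inl ⟨rfl, rfl, rfl⟩⟩
    · rcases edge_split l s i k h with h1 | ⟨m, h1⟩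
      · exact Or.inl h1
      · exact Or.inr ⟨m, Or.inr (Or.inl h1)⟩
    · rcases edge_split r _ i k h with h1 | ⟨m, h1⟩
      · exact Or.inl h1
      · exact Or.inr ⟨m, Or.inr (Or.inr h1)⟩

lemma laminar : ∀ (T : BT) (s a b c d : ℕ), T.Edge s a b → T.Edge s c d →
    ¬ (a < c ∧ c < b ∧ b < d)
  | leaf, s, a, b, c, d, h1, h2 => by simp only [Edge] at *; omega
  | node l r, s, a, b, c, d, h1, h2 => by
    rcases h1 with h1 | h1 | h1 <;> rcases h2 with h2 | h2 | h2
    · omega
    · have := edge_range l _ _ _ h2; omega
    · have := edge_range r _ _ _ h2; omega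
    · have := edge_range l _ _ _ h1; omega
    · exact laminar l s a b c d h1 h2
    · have := edge_range l _ _ _ h1
      have := edge_range r _ _ _ h2; omega
    · have := edge_range r _ _ _ h1; omega
    · have := edge_range r _ _ _ h1
      have := edge_range l _ _ _ h2; omega
    · exact laminar r _ a b c d h1 h2

lemma smallest : ∀ (T : BT) (s lo hi : ℕ), s ≤ lo → lo < hi → hi ≤ s + T.size →
    T.Edge s lo hi ∨ ∃ p m q, T.Tri s p m q ∧ p ≤ lo ∧ lo < m ∧ m < hi ∧ hi ≤ q
  | leaf, s, lo, hi, h1, h2, h3 => by simp only [Edge, size] at *; left; omega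
  | node l r, s, lo, hi, h1, h2, h3 => by
    simp only [size] at h3
    by_cases h4 : hi ≤ s + l.size
    · rcases smallest l s lo hi h1 h2 h4 with h5 | ⟨p, m, q, h5, h6⟩
      · exact Or.inl (Or.inr (Or.inl h5))
      · exact Or.inr ⟨p, m, q, Or.inr (Or.inl h5), h6⟩
    · by_cases h5 : s + l.size ≤ lo
      · rcases smallest r _ lo hi h5 h2 (by omega) with h6 | ⟨p, m, q, h6, h7⟩
        · exact Or.inl (Or.inr (Or.inr h6))
        · exact Or.inr ⟨p, m, q, Or.inr (Or.inr h6), h7⟩
      · exact Or.inr ⟨s, s + l.size, s + (l.size + r.size), Or.inl ⟨rfl, rfl, rfl⟩, h1,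
          by omega, by omega, h3⟩

/-- dyadic positions: every triangle `i < m < k` of the tree has `m` at the midpoint -/
noncomputable def pos : BT → ℕ → ℝ → ℝ → ℕ → ℝ
  | leaf, s, x, y, j => if j ≤ s then x else y
  | node l r, s, x, y, j => if j ≤ s + l.size then l.pos s x ((x + y) / 2) j else
      r.pos (s + l.size) ((x + y) / 2) y j

lemma pos_left : ∀ (T : BT) (s : ℕ) (x y : ℝ), T.pos s x y s = x
  | leaf, s, x, y => by simp [pos]
  | node l r, s, x, y => by
    simp only [pos]
    rw [if_pos (by omega)]
    exact pos_left l s x _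

lemma pos_right : ∀ (T : BT) (s : ℕ) (x y : ℝ), T.pos s x y (s + T.size) = y
  | leaf, s, x, y => by simp [pos, size]
  | node l r, s, x, y => by
    have h1 := size_pos r
    have h2 := pos_right r (s + l.size) ((x + y) / 2) y
    rw [Nat.add_assoc] at h2
    rw [show (node l r).size = l.size + r.size from rfl, pos, if_neg (by omega)]
    exact h2

lemma pos_node_right (l r : BT) (s : ℕ) (x y : ℝ) (j : ℕ) (hj : s + l.size ≤ j) :
    (node l r).pos s x y j = r.pos (s + l.size) ((x + y) / 2) y j := by
  simp only [pos]
  by_cases h : j ≤ s + l.size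
  · have : j = s + l.size := le_antisymm h hj
    subst this
    rw [if_pos (le_refl _), pos_right, pos_left]
  · rw [if_neg h]

lemma pos_node_left (l r : BT) (s : ℕ) (x y : ℝ) (j : ℕ) (hj : j ≤ s + l.size) :
    (node l r).pos s x y j = l.pos s x ((x + y) / 2) j := by
  simp only [pos]
  rw [if_pos hj]

lemma pos_succ : ∀ (T : BT) (s : ℕ) (x y : ℝ) (j : ℕ), x < y → s ≤ j → j < s + T.size →
    T.pos s x y j < T.pos s x y (j + 1)
  | leaf, s, x, y, j, hxy, h1, h2 => by
    simp only [size] at h2
    have : j = s := by omega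
    subst this
    simp only [pos]
    rw [if_pos (le_refl _), if_neg (by omega)]
    exact hxy
  | node l r, s, x, y, j, hxy, h1, h2 => by
    simp only [size] at h2
    by_cases h3 : j < s + l.size
    · rw [pos_node_left _ _ _ _ _ _ (by omega), pos_node_left _ _ _ _ _ _ (by omega)]
      exact pos_succ l s x _ j (by linarith) h1 h3
    · rw [pos_node_right _ _ _ _ _ _ (by omega), pos_node_right _ _ _ _ _ _ (by omega)]
      exact pos_succ r _ _ y j (by linarith) (by omega) (by omega)

lemma pos_lt (T : BT) (s : ℕ) (x y : ℝ) (hxy : x < y) (i k : ℕ) (h1 : s ≤ i) (h2 : i < k)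
    (h3 : k ≤ s + T.size) : T.pos s x y i < T.pos s x y k := by
  induction k, h2 using Nat.le_induction with
  | base => exact pos_succ T s x y i hxy h1 (by omega)
  | succ k hk ih => exact (ih (by omega)).trans (pos_succ T s x y k hxy (by omega) (by omega))

lemma pos_mid : ∀ (T : BT) (s : ℕ) (x y : ℝ) (i m k : ℕ), T.Tri s i m k →
    T.pos s x y m - T.pos s x y i = T.pos s x y k - T.pos s x y m
  | leaf, s, x, y, i, m, k, h => h.elim
  | node l r, s, x, y, i, m, k, h => by
    rcases h with ⟨rfl, rfl, rfl⟩ | h | h
    · have e1 := pos_left (node l r) i x y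
      have e2 := pos_right (node l r) i x y
      have e3 := pos_node_left l r i x y (i + l.size) (le_refl _)
      rw [pos_right] at e3
      simp only [size] at e2
      rw [e1, e2, e3]
      ring
    · have h1 := tri_edges l s i m k h
      have r1 := edge_range l s i k h1.1
      have r2 := edge_range l s i m h1.2.1
      rw [pos_node_left _ _ _ _ _ _ (by omega), pos_node_left _ _ _ _ _ _ (by omega),
        pos_node_left _ _ _ _ _ _ (by omega)]
      exact pos_mid l s x _ i m k h
    · have h1 := tri_edges r _ i m k h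
      have r1 := edge_range r _ i k h1.1
      have r2 := edge_range r _ i m h1.2.1
      rw [pos_node_right _ _ _ _ _ _ (by omega), pos_node_right _ _ _ _ _ _ (by omega),
        pos_node_right _ _ _ _ _ _ (by omega)]
      exact pos_mid r _ _ y i m k h

end BT

end Pool.Agent.MP7a5e6c
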