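import Pool.Agent.MP7a5e6c.VOpt

set_option autoImplicit false
open scoped Classical
open Real

namespace Pool.Agent.MP7a5e6c

/-! ### the edges passing over kinks, processed from left to right -/

section
variable {n : ℕ} {h : Fin n → ℕ} {E : SimpleGraph (Fin n)}

/-- no edge without kinks passes over `c` -/
def VF (h : Fin n → ℕ) (E : SimpleGraph (Fin n)) (c : Fin n) : Prop :=
  ∀ p q, E.Adj p q → NK h p q → p < c → c < q → ¬ (h c < h p ∨ h c < h q)

/-- `c < k` is visible from above among the vertices `< k` -/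
def VC (h : Fin n → ℕ) (E : SimpleGraph (Fin n)) (k : ℕ) (c : Fin n) : Prop :=
  (c : ℕ) < k ∧ VF h E c ∧ ∀ p q, E.Adj p q → ¬ NK h p q → p < c → c < q → ¬ ((q : ℕ) < k)

lemma nNK_lt {u w : Fin n} (hk : ¬ NK h u w) : u < w := by
  by_contra hcon
  exact hk (NK_rev (not_lt.1 hcon))

lemma nNK_mono {u w a b : Fin n} (hk : ¬ NK h u w) (h1 : a ≤ u) (h2 : w ≤ b) : ¬ NK h a b :=
  fun h3 => hk (h3.sub h1 h2)

lemma cross_vfl (hE : TriU h E) {u w : Fin n} (e : E.Adj u w) (hk : ¬ NK h u w) : VF h E u := by
  intro p q epq hkpq h1 h2 h3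
  rcases lt_trichotomy q w with h4 | h4 | h4
  · exact nx hE h1 h2 h4 epq e (Or.inr h3) (U_k hk)
  · subst h4; exact hk (hkpq.sub h1.le (le_refl _))
  · exact hk (hkpq.sub h1.le h4.le)

lemma cross_vfr (hE : TriU h E) {u w : Fin n} (e : E.Adj u w) (hk : ¬ NK h u w) : VF h E w := by
  intro p q epq hkpq h1 h2 h3
  rcases lt_trichotomy u p with h4 | h4 | h4
  · exact nx hE h4 h1 h2 e epq (U_k hk) (Or.inr h3)
  · subst h4; exact hk (hkpq.sub (le_refl _) h2.le)
  · exact hk (hkpq.sub h4.le h2.le)

/-- the last vertex before `w` that is visible among the edges without kinks -/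
def IsPred (h : Fin n → ℕ) (E : SimpleGraph (Fin n)) (p w : Fin n) : Prop :=
  VF h E p ∧ p < w ∧ ∀ c, VF h E c → c < w → c ≤ p

lemma pred_vc (hE : TriU h E) {p w : Fin n} (hp : IsPred h E p w) : VC h E w p := by
  refine ⟨hp.2.1, hp.1, ?_⟩
  intro a b e hk h1 h2 h3
  have := hp.2.2 b (cross_vfr hE e hk) h3
  exact absurd h2 (not_lt.2 this)

lemma cross_vc (hE : TriU h E) {u w : Fin n} (e : E.Adj u w) (hk : ¬ NK h u w) : VC h E w u := by
  refine ⟨nNK_lt hk, cross_vfl hE e hk, ?_⟩
  intro p q epq hkpq h1 h2 h3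
  exact nx hE h1 h2 h3 epq e (U_k hkpq) (U_k hk)

lemma cross_next (hE : TriU h E) {u w c p : Fin n} (e : E.Adj u w) (hk : ¬ NK h u w)
    (hp : IsPred h E p w) (hc : VC h E w c) (huc : u < c) (hcp : c ≠ p) :
    E.Adj c w ∧ ¬ NK h c w := by
  have hcw : c < w := hc.1
  by_cases hkc : NK h c w
  · exfalso
    have hcp' : c < p := lt_of_le_of_ne (hp.2.2 c hc.2.1 hcw) hcp
    obtain ⟨u', hu', hmax⟩ := Set.exists_max_image {u | E.Adj u w ∧ ¬ NK h u w} id
      (Set.toFinite _) ⟨u, e, hk⟩
    obtain ⟨e', hk'⟩ := hu'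
    simp only [id] at hmax
    have hu'c : u' < c := by
      by_contra hcon
      exact hk' (hkc.sub (not_lt.1 hcon) (le_refl _))
    have hkp : ¬ NK h u' p := by
      intro h1
      apply hk'
      intro z h2 h3
      by_cases h4 : z < p
      · exact h1 z h2 h4
      · exact hkc z (hcp'.trans_le (not_lt.1 h4)) h3
    have hup : u' < p := hu'c.trans hcp'
    have eup : E.Adj u' p := by
      apply hE.2 _ _ hup
      rintro a b hab eab (⟨h1, h2, h3, hu⟩ | ⟨h1, h2, h3, hu⟩ | ⟨h1, h2, h3, hu⟩ |
        ⟨h1, h2, h3, hu⟩)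
      · -- u' < a < p < b
        have h4 := hu.1 (U_k hkp)
        by_cases h5 : NK h a b
        · rcases h4 with h4 | h4
          · exact h4 h5
          · exact hp.1 a b eab h5 h2 h3 h4
        · rcases lt_trichotomy b w with h6 | h6 | h6
          · have := hp.2.2 b (cross_vfr hE eab h5) h6
            exact absurd h3 (not_lt.2 this)
          · subst h6
            have := hmax a ⟨eab, h5⟩
            exact absurd h1 (not_lt.2 this)
          · exact nx hE h1 (h2.trans hp.2.1) h6 e' eab (U_k hk') (U_k h5)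
      · -- a < u' < b < p
        exact nx hE h1 h2 (h3.trans hp.2.1) eab e' (hu.2 (U_k hkp)) (U_k hk')
      · exact hu (iff_of_true (U_k hkp) (U_k hkp))
      · exact hu (iff_of_true (U_k (nNK_mono hkp h1.le h3.le)) (U_k (nNK_mono hkp h1.le h3.le)))
    exact hc.2.2 u' p eup hkp hu'c hcp' hp.2.1
  · refine ⟨?_, hkc⟩
    apply hE.2 _ _ hcw
    rintro a b hab eab (⟨h1, h2, h3, hu⟩ | ⟨h1, h2, h3, hu⟩ | ⟨h1, h2, h3, hu⟩ | ⟨h1, h2, h3, hu⟩)
    · -- c < a < w < b
      exact nx hE (huc.trans h1) h2 h3 e eab (U_k hk) (hu.1 (U_k hkc))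
    · -- a < c < b < w
      have h4 := hu.2 (U_k hkc)
      by_cases h5 : NK h a b
      · rcases h4 with h4 | h4
        · exact h4 h5
        · exact hc.2.1 a b eab h5 h1 h2 h4
      · exact hc.2.2 a b eab h5 h1 h2 h3
    · exact hu (iff_of_true (U_k hkc) (U_k hkc))
    · exact hu (iff_of_true (U_k (nNK_mono hkc h1.le h3.le)) (U_k (nNK_mono hkc h1.le h3.le)))

lemma vc_succ {w c : Fin n} (hw : VF h E w) :
    VC h E ((w : ℕ) + 1) c ↔ c = w ∨ (VC h E w c ∧ ∀ u, E.Adj u w → ¬ NK h u w → ¬ u < c) := by
  constructor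
  · rintro ⟨h1, h2, h3⟩
    by_cases hcw : c = w
    · exact Or.inl hcw
    · right
      have hlt : c < w := by rw [Fin.lt_def]; have : (c : ℕ) ≠ w := fun e => hcw (Fin.ext e); omega
      refine ⟨⟨hlt, h2, ?_⟩, ?_⟩
      · intro p q e hk h4 h5 h6
        exact h3 p q e hk h4 h5 (by omega)
      · intro u e hk hu
        exact h3 u w e hk hu hlt (by omega)
  · rintro (rfl | ⟨⟨h1, h2, h3⟩, h4⟩)
    · refine ⟨by omega, hw, ?_⟩
      intro p q _ _ _ h5 h6
      have : (c : ℕ) < q := h5
      omega
    · refine ⟨by omega, h2, ?_⟩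
      intro p q e hk h5 h6 h7
      by_cases hqw : q = w
      · subst hqw; exact h4 p e hk h5
      · have : (q : ℕ) ≠ w := fun e => hqw (Fin.ext e)
        exact h3 p q e hk h5 h6 (by omega)

lemma vc_skip (hE : TriU h E) {w c : Fin n} (hw : ¬ VF h E w) :
    VC h E ((w : ℕ) + 1) c ↔ VC h E w c := by
  constructor
  · rintro ⟨h1, h2, h3⟩
    have hcw : (c : ℕ) ≠ w := by
      intro e
      have := Fin.ext e
      subst this
      exact hw h2
    refine ⟨by omega, h2, ?_⟩
    intro p q e hk h4 h5 h6
    exact h3 p q e hk h4 h5 (by omega)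
  · rintro ⟨h1, h2, h3⟩
    refine ⟨by omega, h2, ?_⟩
    intro p q e hk h4 h5 h6
    by_cases hqw : q = w
    · subst hqw; exact hw (cross_vfr hE e hk)
    · have : (q : ℕ) ≠ w := fun e => hqw (Fin.ext e)
      exact h3 p q e hk h4 h5 (by omega)

/-! ### lists -/

/-- sorted list of the visible vertices at time `k` -/
def CL (X : Fin n → ℝ) (h : Fin n → ℕ) (E : SimpleGraph (Fin n)) (k : ℕ) (L : List (Fin n)) : Prop :=
  L.Pairwise (fun a b => X a < X b) ∧ ∀ a, a ∈ L ↔ VC h E k a

/-- sorted list of the vertices `< k` that are visible among the edges without kinks -/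
def ML (X : Fin n → ℝ) (h : Fin n → ℕ) (E : SimpleGraph (Fin n)) (k : ℕ) (L : List (Fin n)) : Prop :=
  L.Pairwise (fun a b => X a < X b) ∧ ∀ a, a ∈ L ↔ ((a : ℕ) < k ∧ VF h E a)

/-- horizontal weight of the edges over kinks ending before `k` -/
noncomputable def SC (X : Fin n → ℝ) (h : Fin n → ℕ) (E : SimpleGraph (Fin n)) (k : ℕ) : ℝ :=
  ∑ w : Fin n, ∑ u : Fin n, if (w : ℕ) < k ∧ E.Adj u w ∧ ¬ NK h u w then X w - X u else 0

variable {X : Fin n → ℝ}

/-- the situation when the vertex `w` is processed -/
structure CS (X : Fin n → ℝ) (h : Fin n → ℕ) (E : SimpleGraph (Fin n)) (w : Fin n)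
    (A : List (Fin n)) (x : Fin n) (l M : List (Fin n)) : Prop where
  old : CL X h E w (A ++ x :: l)
  new : CL X h E (w + 1) (A ++ [x, w])
  mold : ML X h E w (M ++ [lst x l])
  mnew : ML X h E (w + 1) ((M ++ [lst x l]) ++ [w])
  nb : ∀ u, (E.Adj u w ∧ ¬ NK h u w) ↔ (u ∈ x :: l ∧ u ≠ lst x l)
  pr : IsPred h E (lst x l) w

lemma exists_cs (hX : ∀ a b, a < b → X a < X b) (hE : TriU h E) {w : Fin n} (hw : VF h E w)
    {L M' : List (Fin n)} (hL : CL X h E w L) (hM : ML X h E w M') (hne : M' ≠ []) :
    ∃ A x l M, L = A ++ x :: l ∧ M' = M ++ [lst x l] ∧ CS X h E w A x l M := by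
  obtain ⟨M, p, rfl⟩ : ∃ M p, M' = M ++ [p] := ⟨M'.dropLast, M'.getLast hne,
    (List.dropLast_append_getLast hne).symm⟩
  have hs := hM.1
  rw [List.pairwise_append] at hs
  have hp : IsPred h E p w := by
    have h1 := (hM.2 p).1 (by simp)
    refine ⟨h1.2, h1.1, ?_⟩
    intro c hc hcw
    have h2 := (hM.2 c).2 ⟨hcw, hc⟩
    rw [List.mem_append, List.mem_singleton] at h2
    rcases h2 with h2 | h2
    · exact ((xlt hX).1 (hs.2.2 c h2 p (by simp))).le
    · exact h2.le
  obtain ⟨A, N, hAN, hA, hN⟩ := split_mono (P := fun c => (E.Adj c w ∧ ¬ NK h c w) ∨ c = p) L (by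
    refine List.Pairwise.imp_of_mem ?_ hL.1
    intro a b ha hb hab hPa
    have hb' := (hL.2 b).1 hb
    have hab' : a < b := (xlt hX).1 hab
    rcases hPa with hPa | hPa
    · by_cases hbp : b = p
      · exact Or.inr hbp
      · exact Or.inl (cross_next hE hPa.1 hPa.2 hp hb' hab' hbp)
    · have := hp.2.2 b hb'.2.1 hb'.1
      rw [hPa] at hab'
      exact absurd hab' (not_lt.2 this))
  have hpN : p ∈ N := by
    have h1 : p ∈ L := (hL.2 p).2 (pred_vc hE hp)
    rw [hAN, List.mem_append] at h1
    rcases h1 with h1 | h1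
    · exact absurd (Or.inr rfl) (hA p h1)
    · exact h1
  cases N with
  | nil => simp at hpN
  | cons x l =>
    have hsL := hL.1
    rw [hAN, List.pairwise_append] at hsL
    obtain ⟨sA, sN, cAN⟩ := hsL
    have hlp : lst x l = p := by
      have h1 := le_lst sN p hpN
      have h2 : lst x l ∈ L := by rw [hAN]; exact List.mem_append_right _ (lst_mem x l)
      have h3 := (hL.2 _).1 h2
      have h4 := hp.2.2 _ h3.2.1 h3.1
      rcases lt_or_eq_of_le h4 with h5 | h5
      · exact absurd (hX _ _ h5) (not_lt.2 h1)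
      · exact h5
    have nb : ∀ u, (E.Adj u w ∧ ¬ NK h u w) ↔ (u ∈ x :: l ∧ u ≠ lst x l) := by
      intro u
      rw [hlp]
      constructor
      · rintro ⟨h1, h2⟩
        have h3 : u ∈ L := (hL.2 u).2 (cross_vc hE h1 h2)
        rw [hAN, List.mem_append] at h3
        constructor
        · rcases h3 with h3 | h3
          · exact absurd (Or.inl ⟨h1, h2⟩) (hA u h3)
          · exact h3
        · intro hup
          subst hup
          apply h2
          intro z h4 h5
          by_contra h6
          have hz : VF h E z := by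
            intro a b _ hk h7 h8
            have := hk z h7 h8
            omega
          exact absurd h4 (not_lt.2 (hp.2.2 z hz h5))
      · rintro ⟨h1, h2⟩
        rcases hN u h1 with h3 | h3
        · exact h3
        · exact absurd h3 h2
    refine ⟨A, x, l, M, hAN, by rw [hlp], ?_, ?_, ?_, ?_, nb, by rw [hlp]; exact hp⟩
    · rw [← hAN]; exact hL
    · have hxL : x ∈ L := by rw [hAN]; simp
      have hxw : x < w := ((hL.2 x).1 hxL).1
      constructor
      · rw [List.pairwise_append]
        refine ⟨sA, ?_, ?_⟩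
        · simp [hX x w hxw]
        · intro a ha b hb
          simp only [List.mem_cons, List.not_mem_nil, or_false] at hb
          rcases hb with rfl | rfl
          · exact cAN a ha _ (by simp)
          · exact (cAN a ha x (by simp)).trans (hX _ _ hxw)
      · intro c
        rw [vc_succ hw]
        simp only [List.mem_append, List.mem_cons, List.not_mem_nil, or_false]
        constructor
        · rintro (hc | rfl | rfl)
          · right
            refine ⟨(hL.2 c).1 (by rw [hAN]; simp [hc]), ?_⟩
            intro u e hk huc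
            have h1 : u ∈ x :: l := ((nb u).1 ⟨e, hk⟩).1
            have h2 := cAN c hc u h1
            exact absurd huc (not_lt.2 ((xlt hX).1 h2).le)
          · right
            refine ⟨(hL.2 c).1 hxL, ?_⟩
            intro u e hk huc
            have h1 : u ∈ c :: l := ((nb u).1 ⟨e, hk⟩).1
            rcases List.mem_cons.1 h1 with h2 | h2
            · exact absurd h2 huc.ne
            · have := (List.pairwise_cons.1 sN).1 u h2
              exact absurd huc (not_lt.2 ((xlt hX).1 this).le)
          · exact Or.inl rfl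
        · rintro (rfl | ⟨hc, hno⟩)
          · exact Or.inr (Or.inr rfl)
          · have h1 := (hL.2 c).2 hc
            rw [hAN, List.mem_append, List.mem_cons] at h1
            rcases h1 with h1 | h1 | h1
            · exact Or.inl h1
            · exact Or.inr (Or.inl h1)
            · exfalso
              have h2 := (List.pairwise_cons.1 sN).1 c h1
              have h3 : x ≠ lst x l := by
                intro h4
                have h5 := le_lst sN c (List.mem_cons_of_mem _ h1)
                rw [← h4] at h5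
                linarith
              have h6 := (nb x).2 ⟨by simp, h3⟩
              exact hno x h6.1 h6.2 ((xlt hX).1 h2)
    · rw [hlp]; exact hM
    · rw [hlp]
      constructor
      · rw [List.pairwise_append]
        refine ⟨hM.1, by simp, ?_⟩
        intro a ha b hb
        rw [List.mem_singleton] at hb
        rw [hb]
        exact hX _ _ ((hM.2 a).1 ha).1
      · intro a
        rw [List.mem_append, List.mem_singleton, hM.2 a]
        constructor
        · rintro (⟨h1, h2⟩ | rfl)
          · exact ⟨by omega, h2⟩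
          · exact ⟨by omega, hw⟩
        · rintro ⟨h1, h2⟩
          by_cases haw : a = w
          · exact Or.inr haw
          · have : (a : ℕ) ≠ w := fun e => haw (Fin.ext e)
            exact Or.inl ⟨by omega, h2⟩

lemma SC_succ {w : Fin n} {A : List (Fin n)} {x : Fin n} {l M : List (Fin n)}
    (S : CS X h E w A x l M) :
    SC X h E (w + 1) = SC X h E w + ((x :: l).map (fun a => X w - X a)).sum -
      (X w - X (lst x l)) := by
  have hs := S.old.1
  rw [List.pairwise_append] at hs
  have sN := hs.2.1
  have nd : (x :: l).Nodup := sN.imp (fun {a b} hab e => by rw [e] at hab; exact lt_irrefl _ hab)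
  have e1 : SC X h E (w + 1) = SC X h E w +
      ∑ u, (if E.Adj u w ∧ ¬ NK h u w then X w - X u else 0) := by
    unfold SC
    have key : ∀ v u : Fin n, (if (v : ℕ) < w + 1 ∧ E.Adj u v ∧ ¬ NK h u v then X v - X u else 0) =
        (if (v : ℕ) < w ∧ E.Adj u v ∧ ¬ NK h u v then X v - X u else 0) +
        (if v = w then (if E.Adj u w ∧ ¬ NK h u w then X w - X u else 0) else 0) := by
      intro v u
      by_cases hv : v = w
      · subst hv
        simp
      · have : (v : ℕ) ≠ w := fun e => hv (Fin.ext e)
        have e2 : (v : ℕ) < w + 1 ↔ (v : ℕ) < w := by omega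
        simp only [hv, if_false, add_zero, e2]
    simp only [key, Finset.sum_add_distrib]
    congr 1
    rw [Finset.sum_comm]
    apply Finset.sum_congr rfl
    intro u _
    simp
  rw [e1]
  have e2 : ∑ u, (if E.Adj u w ∧ ¬ NK h u w then X w - X u else 0) +
      (X w - X (lst x l)) = ((x :: l).map (fun a => X w - X a)).sum := by
    rw [← List.sum_toFinset _ nd]
    have e3 : ∑ u, (if E.Adj u w ∧ ¬ NK h u w then X w - X u else 0) =
        ∑ u ∈ (x :: l).toFinset.erase (lst x l), (X w - X u) := by
      rw [← Finset.sum_filter]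
      apply Finset.sum_congr
      · ext u
        simp only [Finset.mem_filter, Finset.mem_univ, true_and, Finset.mem_erase,
          List.mem_toFinset]
        rw [S.nb u]
        exact and_comm
      · intro u _; rfl
    rw [e3]
    exact Finset.sum_erase_add _ _ (List.mem_toFinset.2 (lst_mem x l))
  linarith

/-- increment of the second potential -/
lemma pot2_step {w : Fin n} {A : List (Fin n)} {x : Fin n}
    {l M : List (Fin n)} (S : CS X h E w A x l M) :
    Real.log 2 * SC X h E (w + 1) + chain X (A ++ [x, w]) - chain X ((M ++ [lst x l]) ++ [w]) =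
      (Real.log 2 * SC X h E w + chain X (A ++ x :: l) - chain X (M ++ [lst x l])) +
      ((Real.log 2 * ((x :: l).map (fun a => X w - X a)).sum + negMulLog (X w - X x)
        - chain X (x :: l)) -
      (negMulLog (X w - X (lst x l)) + Real.log 2 * (X w - X (lst x l)))) := by
  rw [SC_succ S]
  have e1 := chain_append X A x [w]
  have e2 := chain_append X A x l
  have e3 : (M ++ [lst x l]) ++ [w] = M ++ lst x l :: [w] := by simp
  have e4 := chain_append X M (lst x l) [w]
  rw [e3, e1, e2, e4, chain_cons2, chain_cons2, chain_single]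
  ring

end

end Pool.Agent.MP7a5e6c
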