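import Pool.Agent.MP7a5e6c.Flat

set_option autoImplicit false
open scoped Classical

namespace Pool.Agent.MP7a5e6c

/-! ### configurations with kinks at the vertices of height zero -/

section
variable {n : ℕ}

/-- no vertex of height zero strictly between `a` and `b` -/
def NK (h : Fin n → ℕ) (a b : Fin n) : Prop := ∀ z, a < z → z < b → 0 < h z

lemma NK.sub {n : ℕ} {h : Fin n → ℕ} {a b c d : Fin n} (hk : NK h a b) (h1 : a ≤ c) (h2 : d ≤ b) :
    NK h c d := fun z h3 h4 => hk z (h1.trans_lt h3) (h4.trans_le h2)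

/-- `b` lies below the segment `a c` (for `a < b < c`) -/
def U (h : Fin n → ℕ) (a b c : Fin n) : Prop := ¬ NK h a c ∨ h b < h a ∨ h b < h c

structure CV (X Y : Fin n → ℝ) (h : Fin n → ℕ) : Prop where
  mono : ∀ a b, a < b → X a < X b
  pinj : ∀ a b, h a = h b → a = b ∨ h a = 0
  und : ∀ a b c, a < b → b < c → U h a b c → 0 < ori X Y a b c
  abv : ∀ a b c, a < b → b < c → ¬ U h a b c → ori X Y a b c < 0

/-- the segments `a b` and `c d` cross (for `a < b`, `c < d`) -/
def CrU (h : Fin n → ℕ) (a b c d : Fin n) : Prop :=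
  (a < c ∧ c < b ∧ b < d ∧ (U h a c b ↔ U h c b d)) ∨
  (c < a ∧ a < d ∧ d < b ∧ (U h c a d ↔ U h a d b)) ∨
  (a < c ∧ c < d ∧ d < b ∧ ¬ (U h a c b ↔ U h a d b)) ∨
  (c < a ∧ a < b ∧ b < d ∧ ¬ (U h c a d ↔ U h c b d))

def TriU (h : Fin n → ℕ) (E : SimpleGraph (Fin n)) : Prop :=
  (∀ a b c d, a < b → c < d → E.Adj a b → E.Adj c d → ¬ CrU h a b c d) ∧
  (∀ a b, a < b → (∀ c d, c < d → E.Adj c d → ¬ CrU h a b c d) → E.Adj a b)

variable {X Y : Fin n → ℝ} {h : Fin n → ℕ}

lemma CV.sgn (C : CV X Y h) {a b c : Fin n} (h1 : a < b) (h2 : b < c) :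
    (U h a b c ∧ 0 < ori X Y a b c) ∨ (¬ U h a b c ∧ ori X Y a b c < 0) := by
  by_cases hu : U h a b c
  · exact Or.inl ⟨hu, C.und a b c h1 h2 hu⟩
  · exact Or.inr ⟨hu, C.abv a b c h1 h2 hu⟩

section
variable (X Y)
lemma idA (p q r s : Fin n) : (X r - X p) * ori X Y p q s =
    (X s - X p) * ori X Y p q r + (X q - X p) * ori X Y p r s := by unfold ori; ring
lemma idB (p q r s : Fin n) : (X s - X q) * ori X Y p r s =
    (X s - X p) * ori X Y q r s + (X s - X r) * ori X Y p q s := by unfold ori; ring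
lemma idC (p q r s : Fin n) : (X r - X q) * ori X Y p r s =
    (X r - X p) * ori X Y q r s + (X s - X r) * ori X Y p q r := by unfold ori; ring
lemma idD (p q r s : Fin n) : (X r - X q) * ori X Y p q s =
    (X s - X q) * ori X Y p q r + (X q - X p) * ori X Y q r s := by unfold ori; ring
end

lemma pos_of_mul {x y : ℝ} (hx : 0 < x) (h : 0 < x * y) : 0 < y := by
  by_contra hy
  have := mul_nonpos_of_nonneg_of_nonpos hx.le (not_lt.1 hy)
  linarith

lemma neg_of_mul {x y : ℝ} (hx : 0 < x) (h : x * y < 0) : y < 0 := by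
  by_contra hy
  have := mul_nonneg hx.le (not_lt.1 hy)
  linarith

lemma cr_inter (C : CV X Y h) {p q r s : Fin n} (h1 : p < q) (h2 : q < r) (h3 : r < s) :
    Cr X Y p r q s ↔ (U h p q r ↔ U h q r s) := by
  have e1 : ori X Y p r q = - ori X Y p q r := ori_swap' X Y p q r
  have e2 : ori X Y q s p = ori X Y p q s := ori_rot X Y p q s
  have e3 : ori X Y q s r = - ori X Y q r s := ori_swap' X Y q r s
  unfold Cr
  rw [e1, e2, e3]
  have x12 := C.mono p q h1
  have x23 := C.mono q r h2
  have x34 := C.mono r s h3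
  have A := idA X Y p q r s
  have Ci := idC X Y p q r s
  have D := idD X Y p q r s
  have k13 : 0 < X r - X p := by linarith
  have k14 : 0 < X s - X p := by linarith
  have k12 : 0 < X q - X p := by linarith
  have k23 : 0 < X r - X q := by linarith
  have k24 : 0 < X s - X q := by linarith
  have k34 : 0 < X s - X r := by linarith
  rcases C.sgn h1 h2 with ⟨u1, s1⟩ | ⟨u1, s1⟩ <;> rcases C.sgn h2 h3 with ⟨u4, s4⟩ | ⟨u4, s4⟩
  · have s3 : 0 < ori X Y p r s := pos_of_mul k23 (by rw [Ci]; positivity)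
    have s2 : 0 < ori X Y p q s := pos_of_mul k23 (by rw [D]; positivity)
    simp only [u1, u4, iff_self, iff_true]
    constructor <;> nlinarith [mul_pos s1 s3, mul_pos s2 s4]
  · simp only [u1, u4, iff_false, not_true_eq_false, iff_false]
    rintro ⟨c1, c2⟩
    have s3 : 0 < ori X Y p r s := pos_of_mul s1 (by linarith)
    have s2 : 0 < ori X Y p q s := pos_of_mul k13 (by rw [A]; positivity)
    nlinarith [mul_pos_of_neg_of_neg s4 (neg_neg_of_pos s2)]
  · simp only [u1, u4, false_iff, not_true_eq_false, iff_false]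
    rintro ⟨c1, c2⟩
    have s3 : ori X Y p r s < 0 := by
      by_contra hcon
      have := mul_nonneg (by linarith : 0 ≤ - ori X Y p q r) (not_lt.1 hcon)
      linarith
    have s2 : ori X Y p q s < 0 := neg_of_mul k13 (by
      rw [A]; nlinarith [mul_neg_of_pos_of_neg k14 s1, mul_neg_of_pos_of_neg k12 s3])
    nlinarith [mul_neg_of_neg_of_pos s2 s4]
  · have s3 : ori X Y p r s < 0 := neg_of_mul k23 (by
      rw [Ci]; nlinarith [mul_neg_of_pos_of_neg k13 s4, mul_neg_of_pos_of_neg k34 s1])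
    have s2 : ori X Y p q s < 0 := neg_of_mul k23 (by
      rw [D]; nlinarith [mul_neg_of_pos_of_neg k24 s1, mul_neg_of_pos_of_neg k12 s4])
    simp only [u1, u4, iff_self, iff_true]
    constructor <;> nlinarith [mul_pos_of_neg_of_neg s1 s3, mul_pos_of_neg_of_neg s2 s4]

lemma cr_nest (C : CV X Y h) {p q r s : Fin n} (h1 : p < q) (h2 : q < r) (h3 : r < s) :
    Cr X Y p s q r ↔ ¬ (U h p q s ↔ U h p r s) := by
  have e1 : ori X Y p s q = - ori X Y p q s := ori_swap' X Y p q s
  have e2 : ori X Y p s r = - ori X Y p r s := ori_swap' X Y p r s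
  have e3 : ori X Y q r p = ori X Y p q r := ori_rot X Y p q r
  unfold Cr
  rw [e1, e2, e3]
  have x12 := C.mono p q h1
  have x23 := C.mono q r h2
  have x34 := C.mono r s h3
  have A := idA X Y p q r s
  have B := idB X Y p q r s
  have k13 : 0 < X r - X p := by linarith
  have k14 : 0 < X s - X p := by linarith
  have k12 : 0 < X q - X p := by linarith
  have k23 : 0 < X r - X q := by linarith
  have k24 : 0 < X s - X q := by linarith
  have k34 : 0 < X s - X r := by linarith
  rcases C.sgn h1 (h2.trans h3) with ⟨u2, s2⟩ | ⟨u2, s2⟩ <;>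
    rcases C.sgn (h1.trans h2) h3 with ⟨u3, s3⟩ | ⟨u3, s3⟩
  · simp only [u2, u3, not_true_eq_false, iff_false]
    rintro ⟨c1, _⟩
    nlinarith [mul_pos s2 s3]
  · simp only [u2, u3, iff_false, not_false_eq_true, iff_true, not_true_eq_false]
    have s1 : 0 < ori X Y p q r := pos_of_mul k14 (by
      nlinarith [mul_pos k13 s2, mul_neg_of_pos_of_neg k12 s3])
    have s4 : ori X Y q r s < 0 := neg_of_mul k14 (by
      nlinarith [mul_pos k34 s2, mul_neg_of_pos_of_neg k24 s3])
    constructor
    · nlinarith [mul_neg_of_pos_of_neg s2 s3]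
    · exact mul_neg_of_pos_of_neg s1 s4
  · simp only [u2, u3, false_iff, not_false_eq_true, iff_true, not_true_eq_false]
    have s1 : ori X Y p q r < 0 := neg_of_mul k14 (by
      nlinarith [mul_pos k12 s3, mul_neg_of_pos_of_neg k13 s2])
    have s4 : 0 < ori X Y q r s := pos_of_mul k14 (by
      nlinarith [mul_pos k24 s3, mul_neg_of_pos_of_neg k34 s2])
    constructor
    · nlinarith [mul_neg_of_neg_of_pos s2 s3]
    · exact mul_neg_of_neg_of_pos s1 s4
  · simp only [u2, u3, not_true_eq_false, iff_false]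
    rintro ⟨c1, _⟩
    nlinarith [mul_pos_of_neg_of_neg s2 s3]

lemma cr_disj (C : CV X Y h) {p q r s : Fin n} (h1 : p < q) (h2 : q < r) (h3 : r < s) :
    ¬ Cr X Y p q r s := by
  have e1 : ori X Y r s p = ori X Y p r s := ori_rot X Y p r s
  have e2 : ori X Y r s q = ori X Y q r s := ori_rot X Y q r s
  unfold Cr
  rw [e1, e2]
  rintro ⟨c1, c2⟩
  have x12 := C.mono p q h1
  have x23 := C.mono q r h2
  have x34 := C.mono r s h3
  have A := idA X Y p q r s
  have D := idD X Y p q r s
  have k13 : 0 < X r - X p := by linarith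
  have k14 : 0 < X s - X p := by linarith
  have k12 : 0 < X q - X p := by linarith
  have k23 : 0 < X r - X q := by linarith
  have k24 : 0 < X s - X q := by linarith
  rcases C.sgn h1 h2 with ⟨_, s1⟩ | ⟨_, s1⟩
  · have s2 : ori X Y p q s < 0 := neg_of_mul s1 c1
    have s4 : ori X Y q r s < 0 := neg_of_mul k12 (by
      nlinarith [mul_pos k24 s1, mul_neg_of_pos_of_neg k23 s2])
    have s3 : 0 < ori X Y p r s := by
      by_contra hcon
      have := mul_nonneg_of_nonpos_of_nonpos (not_lt.1 hcon) s4.le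
      linarith
    nlinarith [mul_pos k14 s1, mul_pos k12 s3, mul_neg_of_pos_of_neg k13 s2]
  · have s2 : 0 < ori X Y p q s := by
      by_contra hcon
      have := mul_nonneg_of_nonpos_of_nonpos s1.le (not_lt.1 hcon)
      linarith
    have s4 : 0 < ori X Y q r s := pos_of_mul k12 (by
      nlinarith [mul_pos k23 s2, mul_neg_of_pos_of_neg k24 s1])
    have s3 : ori X Y p r s < 0 := by
      by_contra hcon
      have := mul_nonneg (not_lt.1 hcon) s4.le
      linarith
    nlinarith [mul_pos k13 s2, mul_neg_of_pos_of_neg k14 s1, mul_neg_of_pos_of_neg k12 s3]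

lemma Cr_iff (C : CV X Y h) {a b c d : Fin n} (hab : a < b) (hcd : c < d) :
    Cr X Y a b c d ↔ CrU h a b c d := by
  by_cases h0 : a = c ∨ a = d ∨ b = c ∨ b = d
  · constructor
    · intro hcr; exact absurd hcr (not_Cr_share _ _ _ _ _ _ h0)
    · intro hcr
      exfalso
      unfold CrU at hcr
      rcases h0 with rfl | rfl | rfl | rfl <;> rcases hcr with ⟨h1, h2, h3, _⟩ | ⟨h1, h2, h3, _⟩ |
        ⟨h1, h2, h3, _⟩ | ⟨h1, h2, h3, _⟩ <;> omega
  push Not at h0
  obtain ⟨n1, n2, n3, n4⟩ := h0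
  rcases lt_or_gt_of_ne n1 with h1 | h1
  · rcases lt_or_gt_of_ne n3 with h2 | h2
    · -- a < b < c < d
      constructor
      · intro hcr; exact absurd hcr (cr_disj C hab h2 hcd)
      · rintro (⟨h3, h4, h5, _⟩ | ⟨h3, h4, h5, _⟩ | ⟨h3, h4, h5, _⟩ | ⟨h3, h4, h5, _⟩) <;>
          exfalso <;> omega
    · rcases lt_or_gt_of_ne n4 with h3 | h3
      · -- a < c < b < d
        rw [cr_inter C h1 h2 h3]
        constructor
        · intro hh; exact Or.inl ⟨h1, h2, h3, hh⟩
        · rintro (⟨h4, h5, h6, hh⟩ | ⟨h4, h5, h6, _⟩ | ⟨h4, h5, h6, _⟩ | ⟨h4, h5, h6, _⟩)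
          · exact hh
          all_goals exfalso; omega
      · -- a < c < d < b
        rw [cr_nest C h1 hcd h3]
        constructor
        · intro hh; exact Or.inr (Or.inr (Or.inl ⟨h1, hcd, h3, hh⟩))
        · rintro (⟨h4, h5, h6, _⟩ | ⟨h4, h5, h6, _⟩ | ⟨h4, h5, h6, hh⟩ | ⟨h4, h5, h6, _⟩)
          · exfalso; omega
          · exfalso; omega
          · exact hh
          · exfalso; omega
  · rcases lt_or_gt_of_ne n2 with h2 | h2
    · rcases lt_or_gt_of_ne n4 with h3 | h3
      · -- c < a < b < d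
        rw [Cr_symm, cr_nest C h1 hab h3]
        constructor
        · intro hh; exact Or.inr (Or.inr (Or.inr ⟨h1, hab, h3, hh⟩))
        · rintro (⟨h4, h5, h6, _⟩ | ⟨h4, h5, h6, _⟩ | ⟨h4, h5, h6, _⟩ | ⟨h4, h5, h6, hh⟩)
          · exfalso; omega
          · exfalso; omega
          · exfalso; omega
          · exact hh
      · -- c < a < d < b
        rw [Cr_symm, cr_inter C h1 h2 h3]
        constructor
        · intro hh; exact Or.inr (Or.inl ⟨h1, h2, h3, hh⟩)
        · rintro (⟨h4, h5, h6, _⟩ | ⟨h4, h5, h6, hh⟩ | ⟨h4, h5, h6, _⟩ | ⟨h4, h5, h6, _⟩)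
          · exfalso; omega
          · exact hh
          · exfalso; omega
          · exfalso; omega
    · -- c < d < a < b
      constructor
      · intro hcr; rw [Cr_symm] at hcr; exact absurd hcr (cr_disj C hcd h2 hab)
      · rintro (⟨h3, h4, h5, _⟩ | ⟨h3, h4, h5, _⟩ | ⟨h3, h4, h5, _⟩ | ⟨h3, h4, h5, _⟩) <;>
          exfalso <;> omega

lemma tri_iff (C : CV X Y h) (E : SimpleGraph (Fin n)) : TriC X Y E ↔ TriU h E := by
  constructor
  · rintro ⟨h1, h2⟩
    refine ⟨?_, ?_⟩
    · intro a b c d hab hcd e1 e2 hcr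
      exact h1 a b c d e1 e2 ((Cr_iff C hab hcd).2 hcr)
    · intro a b hab hno
      apply h2 a b hab.ne
      intro c d hcd hcr
      rcases lt_or_gt_of_ne hcd.ne with h3 | h3
      · exact hno c d h3 hcd ((Cr_iff C hab h3).1 hcr)
      · exact hno d c h3 hcd.symm ((Cr_iff C hab h3).1 ((Cr_swap2 _ _ _ _ _ _).1 hcr))
  · rintro ⟨h1, h2⟩
    refine ⟨?_, ?_⟩
    · intro a b c d e1 e2 hcr
      rcases lt_or_gt_of_ne e1.ne with h3 | h3 <;> rcases lt_or_gt_of_ne e2.ne with h4 | h4
      · exact h1 a b c d h3 h4 e1 e2 ((Cr_iff C h3 h4).1 hcr)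
      · exact h1 a b d c h3 h4 e1 e2.symm ((Cr_iff C h3 h4).1 ((Cr_swap2 _ _ _ _ _ _).1 hcr))
      · exact h1 b a c d h3 h4 e1.symm e2 ((Cr_iff C h3 h4).1 ((Cr_swap1 _ _ _ _ _ _).1 hcr))
      · exact h1 b a d c h3 h4 e1.symm e2.symm
          ((Cr_iff C h3 h4).1 ((Cr_swap1 _ _ _ _ _ _).1 ((Cr_swap2 _ _ _ _ _ _).1 hcr)))
    · intro a b hne hno
      rcases lt_or_gt_of_ne hne with h3 | h3
      · apply h2 a b h3
        intro c d h4 hcd hcr
        exact hno c d hcd ((Cr_iff C h3 h4).2 hcr)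
      · apply SimpleGraph.Adj.symm
        apply h2 b a h3
        intro c d h4 hcd hcr
        exact hno c d hcd ((Cr_swap1 _ _ _ _ _ _).1 ((Cr_iff C h3 h4).2 hcr))

lemma CV.ori_ne (C : CV X Y h) {a b c : Fin n} (hab : a ≠ b) (hac : a ≠ c) (hbc : b ≠ c) :
    ori X Y a b c ≠ 0 := by
  have key : ∀ a b c : Fin n, a < b → b < c → ori X Y a b c ≠ 0 := by
    intro a b c h1 h2
    rcases C.sgn h1 h2 with ⟨_, s⟩ | ⟨_, s⟩
    · exact s.ne'
    · exact s.ne
  rcases lt_or_gt_of_ne hab with h1 | h1 <;> rcases lt_or_gt_of_ne hac with h2 | h2 <;>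
    rcases lt_or_gt_of_ne hbc with h3 | h3
  · exact key a b c h1 h3
  · have := key a c b h2 h3; rw [ori_swap'] at this; exact fun e => this (by rw [e]; simp)
  · exfalso; omega
  · rw [← ori_rot X Y a b c, ← ori_rot X Y b c a]; exact key c a b h2 h1
  · rw [ori_swap X Y b a c]; exact neg_ne_zero.2 (key b a c h1 h2)
  · exfalso; omega
  · rw [← ori_rot X Y a b c]; exact key b c a h3 h2
  · intro e
    apply key c b a h3 h1
    have e2 : ori X Y c b a = - ori X Y a b c := by unfold ori; ring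
    rw [e2, e]; simp

lemma CV.gp (C : CV X Y h) {ε : ℝ} (hε : 0 < ε) : GP X (fun v => ε * Y v) := by
  refine ⟨fun a b hab => Or.inl (fun e => ?_), ?_⟩
  · rcases lt_or_gt_of_ne hab with h1 | h1
    · exact (C.mono _ _ h1).ne e
    · exact (C.mono _ _ h1).ne e.symm
  intro a b c hab hac hbc
  rw [ori_scale]
  exact mul_ne_zero hε.ne' (C.ori_ne hab hac hbc)

/-! ### existence -/

lemma ori_add_mul {X F H : Fin n → ℝ} (M : ℝ) (a b c : Fin n) :
    ori X (fun v => M * F v + H v) a b c = M * ori X F a b c + ori X H a b c := by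
  unfold ori; ring

lemma ori_sum {X : Fin n → ℝ} (S : Finset (Fin n)) (F : Fin n → Fin n → ℝ) (a b c : Fin n) :
    ori X (fun v => ∑ z ∈ S, F z v) a b c = ∑ z ∈ S, ori X (F z) a b c := by
  unfold ori
  rw [Finset.sum_sub_distrib, ← Finset.mul_sum, ← Finset.sum_mul, Finset.sum_sub_distrib,
    Finset.sum_sub_distrib]

lemma ori_abs {X : Fin n → ℝ} (t : ℝ) {a b c : Fin n} (h1 : X a < X b) (h2 : X b < X c) :
    0 ≤ ori X (fun v => |X v - t|) a b c := by
  unfold ori
  rcases le_or_gt t (X b) with h3 | h3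
  · have e1 : |X b - t| = X b - t := abs_of_nonneg (by linarith)
    have e2 : |X c - t| = X c - t := abs_of_nonneg (by linarith)
    have e3 : X a - t ≤ |X a - t| := le_abs_self _
    simp only [e1, e2]
    nlinarith
  · have e1 : |X b - t| = t - X b := by rw [abs_of_neg (by linarith)]; ring
    have e2 : |X a - t| = t - X a := by rw [abs_of_neg (by linarith)]; ring
    have e3 : -(X c - t) ≤ |X c - t| := neg_le_abs _
    have e4 : X c - t ≤ |X c - t| := le_abs_self _
    simp only [e1, e2]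
    nlinarith

lemma ori_abs_pos {X : Fin n → ℝ} (t : ℝ) {a b c : Fin n} (h1 : X a < X b) (h2 : X b < X c)
    (h3 : X a < t) (h4 : t < X c) : 0 < ori X (fun v => |X v - t|) a b c := by
  unfold ori
  have e2 : |X a - t| = t - X a := by rw [abs_of_neg (by linarith)]; ring
  have e3 : |X c - t| = X c - t := abs_of_pos (by linarith)
  rcases le_or_gt t (X b) with h5 | h5
  · have e1 : |X b - t| = X b - t := abs_of_nonneg (by linarith)
    simp only [e1, e2, e3]
    nlinarith [mul_pos (sub_pos.2 h3) (sub_pos.2 h2)]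
  · have e1 : |X b - t| = t - X b := by rw [abs_of_neg (by linarith)]; ring
    simp only [e1, e2, e3]
    nlinarith [mul_pos (sub_pos.2 h4) (sub_pos.2 h1)]

lemma ori_abs_zero {X : Fin n → ℝ} (t : ℝ) {a b c : Fin n} (h1 : X a < X b) (h2 : X b < X c)
    (h3 : t ≤ X a ∨ X c ≤ t) : ori X (fun v => |X v - t|) a b c = 0 := by
  unfold ori
  rcases h3 with h3 | h3
  · have e1 : |X b - t| = X b - t := abs_of_nonneg (by linarith)
    have e2 : |X a - t| = X a - t := abs_of_nonneg (by linarith)
    have e3 : |X c - t| = X c - t := abs_of_nonneg (by linarith)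
    simp only [e1, e2, e3]; ring
  · have e1 : |X b - t| = t - X b := by rw [abs_of_nonpos (by linarith)]; ring
    have e2 : |X a - t| = t - X a := by rw [abs_of_nonpos (by linarith)]; ring
    have e3 : |X c - t| = t - X c := by rw [abs_of_nonpos (by linarith)]; ring
    simp only [e1, e2, e3]; ring

/-- a configuration with prescribed heights and kinks exists -/
lemma exists_cv (X : Fin n → ℝ) (h : Fin n → ℕ) (hX : ∀ a b, a < b → X a < X b)
    (hh : ∀ a b, h a = h b → a = b ∨ h a = 0) : ∃ Y : Fin n → ℝ, CV X Y h := by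
  have hXi : Function.Injective X := by
    intro a b e
    rcases lt_trichotomy a b with h1 | h1 | h1
    · exact absurd e (hX _ _ h1).ne
    · exact h1
    · exact absurd e (hX _ _ h1).ne'
  obtain ⟨W, hW⟩ : ∃ W : ℝ, ∀ a b, |X a - X b| ≤ W := by
    obtain ⟨W, hW⟩ := (Set.finite_range (fun p : Fin n × Fin n => |X p.1 - X p.2|)).bddAbove
    exact ⟨W, fun a b => hW ⟨(a, b), rfl⟩⟩
  obtain ⟨δ, hδ, hδ'⟩ : ∃ δ : ℝ, 0 < δ ∧ ∀ a b, a ≠ b → δ ≤ |X a - X b| := by
    have hfin : (Set.range (fun p : {p : Fin n × Fin n // p.1 ≠ p.2} =>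
      |X p.1.1 - X p.1.2|)).Finite := Set.finite_range _
    by_cases hne : (Set.range (fun p : {p : Fin n × Fin n // p.1 ≠ p.2} =>
      |X p.1.1 - X p.1.2|)).Nonempty
    · obtain ⟨m, hm, hmin⟩ := Set.exists_min_image _ id hfin hne
      obtain ⟨p, hp⟩ := hm
      refine ⟨m, ?_, ?_⟩
      · rw [← hp]; exact abs_pos.2 (sub_ne_zero.2 (fun e => p.2 (hXi e)))
      · intro a b hab
        exact hmin _ ⟨⟨(a, b), hab⟩, rfl⟩
    · refine ⟨1, one_pos, ?_⟩
      intro a b hab
      exact absurd ⟨_, ⟨⟨(a, b), hab⟩, rfl⟩⟩ hne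
  set K : ℝ := 2 + |W| / δ with hK
  have hK1 : 1 < K := by
    have : 0 ≤ |W| / δ := by positivity
    linarith
  have hKW : |W| < (K - 1) * δ := by
    have : |W| / δ * δ = |W| := by field_simp
    nlinarith
  have hWW : ∀ a b, |X a - X b| ≤ |W| := fun a b => (hW a b).trans (le_abs_self W)
  have main : ∀ a c d, h a < h d → h c < h d → a ≠ c →
      |(X d - X c) * (K ^ h a - K ^ h c)| < (K ^ h d - K ^ h c) * |X a - X c| := by
    intro a c d ha hc hac
    obtain ⟨e, he⟩ : ∃ e, h d = e + 1 := ⟨h d - 1, by omega⟩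
    have ha' : K ^ h a ≤ K ^ e := pow_le_pow_right₀ hK1.le (by omega)
    have hc' : K ^ h c ≤ K ^ e := pow_le_pow_right₀ hK1.le (by omega)
    have pa : 0 < K ^ h a := by positivity
    have pc : 0 < K ^ h c := by positivity
    have pe : 0 < K ^ e := by positivity
    have h1 : |K ^ h a - K ^ h c| ≤ K ^ e := by
      rw [abs_le]; constructor <;> linarith
    rw [abs_mul]
    have h2 : |X d - X c| * |K ^ h a - K ^ h c| ≤ |W| * K ^ e := by
      apply mul_le_mul (hWW d c) h1 (abs_nonneg _) (abs_nonneg _)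
    have h3 : (K - 1) * K ^ e * δ ≤ (K ^ h d - K ^ h c) * |X a - X c| := by
      apply mul_le_mul
      · rw [he, pow_succ]; nlinarith
      · exact hδ' a c hac
      · exact hδ.le
      · rw [he, pow_succ]; nlinarith
    have h4 : |W| * K ^ e < (K - 1) * K ^ e * δ := by
      have := mul_lt_mul_of_pos_right hKW pe
      linarith
    linarith
  set H : Fin n → ℝ := fun v => K ^ h v with hH
  -- the highest vertex `d` decides; `a`, `c` are the others
  have left : ∀ a c d, h a < h d → h c < h d → X a < X c → 0 < ori X H c d a := by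
    intro a c d ha hc hac
    have hne : a ≠ c := by rintro rfl; exact lt_irrefl _ hac
    have := main a c d ha hc hne
    rw [abs_lt] at this
    have e : |X a - X c| = X c - X a := by rw [abs_of_neg (by linarith)]; ring
    rw [e] at this
    unfold ori
    simp only [hH]
    nlinarith [this.1]
  have right : ∀ a c d, h a < h d → h c < h d → X c < X a → ori X H c d a < 0 := by
    intro a c d ha hc hac
    have hne : a ≠ c := by rintro rfl; exact lt_irrefl _ hac
    have := main a c d ha hc hne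
    rw [abs_lt] at this
    have e : |X a - X c| = X a - X c := abs_of_pos (by linarith)
    rw [e] at this
    unfold ori
    simp only [hH]
    nlinarith [this.2]
  -- the convex function
  set S : Finset (Fin n) := Finset.univ.filter (fun z => h z = 0) with hS
  set F : Fin n → ℝ := fun v => ∑ z ∈ S, |X v - X z| with hF
  have hFori : ∀ a b c, ori X F a b c = ∑ z ∈ S, ori X (fun v => |X v - X z|) a b c :=
    fun a b c => ori_sum S (fun z v => |X v - X z|) a b c
  have F0 : ∀ a b c, a < b → b < c → NK h a c → ori X F a b c = 0 := by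
    intro a b c h1 h2 hk
    rw [hFori]
    apply Finset.sum_eq_zero
    intro z hz
    have hz0 : h z = 0 := by simpa [hS] using hz
    apply ori_abs_zero _ (hX _ _ h1) (hX _ _ h2)
    by_contra hcon
    push Not at hcon
    have g1 : a < z := by
      by_contra hc
      rcases lt_or_eq_of_le (not_lt.1 hc) with h5 | h5
      · linarith [hX _ _ h5]
      · rw [h5] at hcon; linarith
    have g2 : z < c := by
      by_contra hc
      rcases lt_or_eq_of_le (not_lt.1 hc) with h5 | h5
      · linarith [hX _ _ h5]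
      · rw [h5] at hcon; linarith
    have := hk z g1 g2
    omega
  have F1 : ∀ a b c, a < b → b < c → ¬ NK h a c → 0 < ori X F a b c := by
    intro a b c h1 h2 hk
    unfold NK at hk
    push Not at hk
    obtain ⟨z, g1, g2, g3⟩ := hk
    rw [hFori]
    apply Finset.sum_pos'
    · intro i _; exact ori_abs _ (hX _ _ h1) (hX _ _ h2)
    · refine ⟨z, by simp [hS]; omega, ori_abs_pos _ (hX _ _ h1) (hX _ _ h2) (hX _ _ g1) (hX _ _ g2)⟩
  obtain ⟨M, hM0, hM⟩ : ∃ M : ℝ, 0 < M ∧ ∀ a b c, a < b → b < c → ¬ NK h a c →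
      0 < M * ori X F a b c + ori X H a b c := by
    obtain ⟨M, hM⟩ := (Set.finite_range (fun p : Fin n × Fin n × Fin n =>
      |ori X H p.1 p.2.1 p.2.2| / ori X F p.1 p.2.1 p.2.2)).bddAbove
    refine ⟨|M| + 1, by positivity, ?_⟩
    intro a b c h1 h2 hk
    have hp := F1 a b c h1 h2 hk
    have h3 : |ori X H a b c| / ori X F a b c ≤ M := hM ⟨(a, b, c), rfl⟩
    rw [div_le_iff₀ hp] at h3
    have h4 : M * ori X F a b c ≤ |M| * ori X F a b c :=
      mul_le_mul_of_nonneg_right (le_abs_self M) hp.le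
    have h5 := neg_abs_le (ori X H a b c)
    nlinarith
  refine ⟨fun v => M * F v + H v, hX, hh, ?_, ?_⟩
  · intro a b c h1 h2 hu
    rw [ori_add_mul]
    by_cases hk : NK h a c
    · rw [F0 a b c h1 h2 hk, mul_zero, zero_add]
      have hb := hk b h1 h2
      have nab : h a ≠ h b := by
        intro e
        rcases hh a b e with h3 | h3
        · exact h1.ne h3
        · omega
      have ncb : h c ≠ h b := by
        intro e
        rcases hh c b e with h3 | h3
        · exact h2.ne' h3
        · omega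
      have hu' : h b < h a ∨ h b < h c := by
        rcases hu with hu | hu
        · exact absurd hk hu
        · exact hu
      rcases lt_trichotomy (h a) (h c) with h3 | h3 | h3
      · have := right b a c (by omega) h3 (hX _ _ h1)
        have e : ori X H a b c = - ori X H a c b := by unfold ori; ring
        rw [e]; linarith
      · rcases hh a c h3 with h4 | h4
        · exact absurd h4 (h1.trans h2).ne
        · omega
      · have := left b c a (by omega) h3 (hX _ _ h2)
        rwa [ori_rot, ori_rot] at this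
    · exact hM a b c h1 h2 hk
  · intro a b c h1 h2 hu
    unfold U at hu
    push Not at hu
    obtain ⟨hk, h3, h4⟩ := hu
    rw [ori_add_mul, F0 a b c h1 h2 hk, mul_zero, zero_add]
    have hb := hk b h1 h2
    have nab : h a ≠ h b := by
      intro e
      rcases hh a b e with h3 | h3
      · exact h1.ne h3
      · omega
    have ncb : h c ≠ h b := by
      intro e
      rcases hh c b e with h3 | h3
      · exact h2.ne' h3
      · omega
    have := right c a b (by omega) (by omega) (hX _ _ (h1.trans h2))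
    exact this

/-- a strict flat minimum gives a strict minimum for honest lengths -/
theorem honestV (C : CV X Y h) {G : SimpleGraph (Fin n)} (hG : TriC X Y G)
    (hmin : ∀ E, TriC X Y E → E ≠ G → W0 X G < W0 X E) :
    ∃ Y' : Fin n → ℝ, GP X Y' ∧ TriC X Y' G ∧
      ∀ E, TriC X Y' E → E ≠ G → wt X Y' G < wt X Y' E := by
  obtain ⟨δ, hδ, hδ'⟩ : ∃ δ : ℝ, 0 < δ ∧ ∀ E, TriC X Y E → E ≠ G → W0 X G + δ ≤ W0 X E := by
    by_cases hne : {E : SimpleGraph (Fin n) | TriC X Y E ∧ E ≠ G}.Nonempty
    · obtain ⟨E0, hE0, hE0'⟩ := Set.exists_min_image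
        {E : SimpleGraph (Fin n) | TriC X Y E ∧ E ≠ G} (fun E => W0 X E) (Set.toFinite _) hne
      refine ⟨W0 X E0 - W0 X G, by linarith [hmin E0 hE0.1 hE0.2], ?_⟩
      intro E h1 h2
      have := hE0' E ⟨h1, h2⟩
      linarith
    · refine ⟨1, one_pos, ?_⟩
      intro E h1 h2
      exact absurd ⟨E, h1, h2⟩ hne
  set M := ∑ a : Fin n, ∑ b : Fin n, |Y a - Y b| with hM
  have hM0 : 0 ≤ M := by
    apply Finset.sum_nonneg; intro a _
    apply Finset.sum_nonneg; intro b _
    exact abs_nonneg _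
  set ε := δ / (M + 1) with hε
  have hεp : 0 < ε := by positivity
  have hεM : ε * M < δ := by
    rw [hε, div_mul_eq_mul_div, div_lt_iff₀ (by linarith)]
    nlinarith
  refine ⟨fun v => ε * Y v, C.gp hεp, (TriC_scale hεp G).2 hG, ?_⟩
  intro E hE hne
  have h1 := hδ' E ((TriC_scale hεp E).1 hE) hne
  have h2 := wt_upper (X := X) (Y := Y) hεp G
  have h3 := wt_lower (X := X) (Y := fun v => ε * Y v) E
  linarith

end

end Pool.Agent.MP7a5e6c
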