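import Pool.Agent.MP7a5e6c.VStage
import Pool.Agent.MP7a5e6c.Move

set_option autoImplicit false
open scoped Classical
open Real

namespace Pool.Agent.MP7a5e6c

section
variable {V : Type} {X : V → ℝ} {h : V → ℕ} {E : SimpleGraph V}

lemma vis_succV {w : V} (uq : ∀ a, h a = h w → a = w) (c : V) :
    VisT X h E (h w + 1) c ↔
      c = w ∨ (VisT X h E (h w) c ∧ ∀ u, E.Adj u w → h u < h w → ¬ Over X h u w c) := by
  constructor
  · rintro ⟨h1, h2⟩
    by_cases hcw : c = w
    · exact Or.inl hcw
    · right
      have hlt : h c < h w := lt_of_le_of_ne (Nat.lt_succ_iff.1 h1) (fun e => hcw (uq c e))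
      refine ⟨⟨hlt, ?_⟩, ?_⟩
      · intro a b hab ha hb
        exact h2 a b hab (by omega) (by omega)
      · intro u hu huw
        exact h2 u w hu (by omega) (by omega)
  · rintro (rfl | ⟨⟨h1, h2⟩, h3⟩)
    · refine ⟨by omega, ?_⟩
      rintro a b hab ha hb ⟨_, ho⟩
      rcases ho with ho | ho <;> omega
    · refine ⟨by omega, ?_⟩
      intro a b hab ha hb ho
      by_cases haw : a = w
      · subst haw
        have hbw : h b < h a := lt_of_le_of_ne (Nat.lt_succ_iff.1 hb) (fun e => hab.ne (uq b e).symm)
        exact h3 b hab.symm hbw ho.swap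
      by_cases hbw : b = w
      · subst hbw
        have haw' : h a < h b := lt_of_le_of_ne (Nat.lt_succ_iff.1 ha) (fun e => haw (uq a e))
        exact h3 a hab haw' ho
      have ha' : h a < h w := lt_of_le_of_ne (Nat.lt_succ_iff.1 ha) (fun e => haw (uq a e))
      have hb' : h b < h w := lt_of_le_of_ne (Nat.lt_succ_iff.1 hb) (fun e => hbw (uq b e))
      exact h2 a b hab ha' hb' ho

lemma adj_leftV [Finite V] {w : V} (S0 : Stg X h E w) (a : V) (h1 : h a < h w)
    (h2 : X a < X w) : ∃ c, E.Adj c w ∧ h c < h w ∧ X c < X w ∧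
      ∀ c', VisT X h E (h w) c' → X c' < X w → X c' ≤ X c := by
  obtain ⟨m, hm, hmin⟩ := Set.exists_min_image {a | h a < h w} X (Set.toFinite _) ⟨a, h1⟩
  have hmv : VisT X h E (h w) m := by
    refine ⟨hm, ?_⟩
    rintro p q hpq hp hq ⟨ho | ho, _⟩
    · exact absurd ho.1 (not_lt.2 (hmin p hp))
    · exact absurd ho.1 (not_lt.2 (hmin q hq))
  obtain ⟨c, hc, hmax⟩ := Set.exists_max_image {c | VisT X h E (h w) c ∧ X c < X w} X
    (Set.toFinite _) ⟨m, hmv, (hmin a h1).trans_lt h2⟩
  have hadj : E.Adj c w := by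
    apply S0.na c hc.1
    rintro c' hc' (ho | ho)
    · exact absurd ho.1 (not_lt.2 (hmax c' ⟨hc', ho.2⟩))
    · linarith [ho.1, ho.2, hc.2]
  exact ⟨c, hadj, hc.1.1, hc.2, fun c' h3 h4 => hmax c' ⟨h3, h4⟩⟩

lemma adj_rightV [Finite V] {w : V} (S0 : Stg X h E w) (a : V) (h1 : h a < h w)
    (h2 : X w < X a) : ∃ c, E.Adj c w ∧ h c < h w ∧ X w < X c ∧
      ∀ c', VisT X h E (h w) c' → X w < X c' → X c ≤ X c' := by
  obtain ⟨m, hm, hmin⟩ := Set.exists_max_image {a | h a < h w} X (Set.toFinite _) ⟨a, h1⟩
  have hmv : VisT X h E (h w) m := by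
    refine ⟨hm, ?_⟩
    rintro p q hpq hp hq ⟨ho | ho, _⟩
    · exact absurd ho.2 (not_lt.2 (hmin q hq))
    · exact absurd ho.2 (not_lt.2 (hmin p hp))
  obtain ⟨c, hc, hmax⟩ := Set.exists_min_image {c | VisT X h E (h w) c ∧ X w < X c} X
    (Set.toFinite _) ⟨m, hmv, h2.trans_le (hmin a h1)⟩
  have hadj : E.Adj c w := by
    apply S0.na c hc.1
    rintro c' hc' (ho | ho)
    · linarith [ho.1, ho.2, hc.2]
    · exact absurd ho.2 (not_lt.2 (hmax c' ⟨hc', ho.1⟩))
  exact ⟨c, hadj, hc.1.1, hc.2, fun c' h3 h4 => hmax c' ⟨h3, h4⟩⟩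

lemma exists_splitV [Finite V] {w : V} (S0 : Stg X h E w) {L : List V}
    (hL : IsVL X h E (h w) L) :
    ∃ A N1 N2 B, L = (A ++ N1) ++ (N2 ++ B) ∧ Split X h E w A N1 N2 B := by
  obtain ⟨hs, hm⟩ := hL
  obtain ⟨L1, L2, hL12, hL1, hL2⟩ := split_mono (P := fun a => X w < X a) L
    (hs.imp (fun {a b} hab ha => lt_trans ha hab))
  have hlow : ∀ a ∈ L, h a < h w := fun a ha => ((hm a).1 ha).1
  have hne : ∀ a ∈ L, a ≠ w := fun a ha e => by have := hlow a ha; rw [e] at this; omega
  have hL1' : ∀ a ∈ L1, X a < X w := by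
    intro a ha
    have haL : a ∈ L := by rw [hL12]; exact List.mem_append_left _ ha
    rcases lt_trichotomy (X a) (X w) with h3 | h3 | h3
    · exact h3
    · exact absurd (S0.injX h3) (hne a haL)
    · exact absurd h3 (hL1 a ha)
  have hs1 : L1.Pairwise (fun a b => X a < X b) := by
    rw [hL12] at hs; exact (List.pairwise_append.1 hs).1
  have hs2 : L2.Pairwise (fun a b => X a < X b) := by
    rw [hL12] at hs; exact (List.pairwise_append.1 hs).2.1
  obtain ⟨A, N1, hAN, hA, hN1⟩ := split_mono (P := fun a => E.Adj a w) L1 (by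
    refine List.Pairwise.imp_of_mem ?_ hs1
    intro a b ha hb hab haw
    have hbL : b ∈ L := by rw [hL12]; exact List.mem_append_left _ hb
    have haL : a ∈ L := by rw [hL12]; exact List.mem_append_left _ ha
    exact S0.ma b a ((hm b).1 hbL) haw (hlow a haL) (Or.inl ⟨hab, hL1' b hb⟩))
  obtain ⟨N2, B, hNB, hN2, hB⟩ := split_mono (P := fun a => ¬ E.Adj a w) L2 (by
    refine List.Pairwise.imp_of_mem ?_ hs2
    intro a b ha hb hab haw hbw
    apply haw
    have hbL : b ∈ L := by rw [hL12]; exact List.mem_append_right _ hb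
    have haL : a ∈ L := by rw [hL12]; exact List.mem_append_right _ ha
    exact S0.ma a b ((hm a).1 haL) hbw (hlow b hbL) (Or.inr ⟨hL2 a ha, hab⟩))
  have hLe : L = (A ++ N1) ++ (N2 ++ B) := by rw [hL12, hAN, hNB]
  have hAL1 : ∀ a ∈ A, a ∈ L1 := fun a ha => by rw [hAN]; exact List.mem_append_left _ ha
  have hN1L1 : ∀ a ∈ N1, a ∈ L1 := fun a ha => by rw [hAN]; exact List.mem_append_right _ ha
  have hN2L2 : ∀ a ∈ N2, a ∈ L2 := fun a ha => by rw [hNB]; exact List.mem_append_left _ ha
  have hBL2 : ∀ a ∈ B, a ∈ L2 := fun a ha => by rw [hNB]; exact List.mem_append_right _ ha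
  have n1 : ∀ a, a ∈ N1 ↔ (E.Adj a w ∧ h a < h w ∧ X a < X w) := by
    intro a
    constructor
    · intro ha
      refine ⟨hN1 a ha, hlow a ?_, hL1' a (hN1L1 a ha)⟩
      rw [hL12]; exact List.mem_append_left _ (hN1L1 a ha)
    · rintro ⟨h1, h2, h3⟩
      have haL : a ∈ L := (hm a).2 (S0.av a h2 h1)
      rw [hL12, List.mem_append] at haL
      rcases haL with haL | haL
      · rw [hAN, List.mem_append] at haL
        rcases haL with haL | haL
        · exact absurd h1 (hA a haL)
        · exact haL
      · exact absurd (hL2 a haL) (not_lt.2 h3.le)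
  have n2 : ∀ a, a ∈ N2 ↔ (E.Adj a w ∧ h a < h w ∧ X w < X a) := by
    intro a
    constructor
    · intro ha
      refine ⟨not_not.1 (hN2 a ha), hlow a ?_, hL2 a (hN2L2 a ha)⟩
      rw [hL12]; exact List.mem_append_right _ (hN2L2 a ha)
    · rintro ⟨h1, h2, h3⟩
      have haL : a ∈ L := (hm a).2 (S0.av a h2 h1)
      rw [hL12, List.mem_append] at haL
      rcases haL with haL | haL
      · exact absurd (hL1' a haL) (not_lt.2 h3.le)
      · rw [hNB, List.mem_append] at haL
        rcases haL with haL | haL
        · exact haL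
        · exact absurd h1 (hB a haL)
  have e1 : N1 = [] → ∀ a, h a < h w → ¬ X a < X w := by
    intro he a ha hxa
    obtain ⟨c, h1, h2, h3, _⟩ := adj_leftV S0 a ha hxa
    have : c ∈ N1 := (n1 c).2 ⟨h1, h2, h3⟩
    rw [he] at this
    simp at this
  have e2 : N2 = [] → ∀ a, h a < h w → ¬ X w < X a := by
    intro he a ha hxa
    obtain ⟨c, h1, h2, h3, _⟩ := adj_rightV S0 a ha hxa
    have : c ∈ N2 := (n2 c).2 ⟨h1, h2, h3⟩
    rw [he] at this
    simp at this
  refine ⟨A, N1, N2, B, hLe, ?_, ?_, n1, n2, ?_, ?_, e1, e2, ?_, ?_⟩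
  · rw [← hLe]; exact hs
  · rw [← hLe]; exact hm
  · intro a ha; exact hL1' a (hAL1 a ha)
  · intro a ha; exact hL2 a (hBL2 a ha)
  · intro he p l hN a ha
    obtain ⟨r, hr, hmax⟩ := Set.exists_max_image {a | h a < h w} X (Set.toFinite _) ⟨a, ha⟩
    have hrw : X r < X w := by
      rcases lt_trichotomy (X r) (X w) with h3 | h3 | h3
      · exact h3
      · have := S0.injX h3
        subst this
        exact absurd (show h r < h r from hr) (lt_irrefl _)
      · exact absurd h3 (e2 he r hr)
    have hrv : VisT X h E (h w) r := by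
      refine ⟨hr, ?_⟩
      rintro p q hpq hp hq ⟨ho | ho, _⟩
      · exact absurd ho.2 (not_lt.2 (hmax q hq))
      · exact absurd ho.2 (not_lt.2 (hmax p hp))
    obtain ⟨c, h1, h2, h3, h4⟩ := adj_leftV S0 r hr hrw
    have hc : c ∈ p :: l := by rw [← hN]; exact (n1 c).2 ⟨h1, h2, h3⟩
    have hsN : (p :: l).Pairwise (fun a b => X a < X b) := by
      rw [← hN]
      rw [hAN] at hs1
      exact (List.pairwise_append.1 hs1).2.1
    exact (hmax a ha).trans ((h4 r hrv hrw).trans (le_lst hsN c hc))
  · intro he q l hN a ha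
    obtain ⟨r, hr, hmax⟩ := Set.exists_min_image {a | h a < h w} X (Set.toFinite _) ⟨a, ha⟩
    have hrw : X w < X r := by
      rcases lt_trichotomy (X r) (X w) with h3 | h3 | h3
      · exact absurd h3 (e1 he r hr)
      · have := S0.injX h3
        subst this
        exact absurd (show h r < h r from hr) (lt_irrefl _)
      · exact h3
    have hrv : VisT X h E (h w) r := by
      refine ⟨hr, ?_⟩
      rintro p q hpq hp hq ⟨ho | ho, _⟩
      · exact absurd ho.1 (not_lt.2 (hmax p hp))
      · exact absurd ho.1 (not_lt.2 (hmax q hq))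
    obtain ⟨c, h1, h2, h3, h4⟩ := adj_rightV S0 r hr hrw
    have hc : c ∈ q :: l := by rw [← hN]; exact (n2 c).2 ⟨h1, h2, h3⟩
    have hsN : (q :: l).Pairwise (fun a b => X a < X b) := by
      rw [← hN]
      rw [hNB] at hs2
      exact (List.pairwise_append.1 hs2).1
    have hqc : X q ≤ X c := by
      rcases List.mem_cons.1 hc with rfl | hc
      · exact le_refl _
      · exact ((List.pairwise_cons.1 hsN).1 c hc).le
    exact hqc.trans ((h4 r hrv hrw).trans (hmax a ha))

lemma next_vlV [Finite V] {w : V} (hX : Function.Injective X) (uq : ∀ a, h a = h w → a = w) {A N1 N2 B : List V}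
    (S : Split X h E w A N1 N2 B) : IsVL X h E (h w + 1) (pL A N1 ++ w :: pR B N2) := by
  have hs := S.srt
  rw [List.pairwise_append, List.pairwise_append, List.pairwise_append] at hs
  obtain ⟨⟨sA, sN1, cAN⟩, ⟨sN2, sB, cNB⟩, cc⟩ := hs
  have memL : ∀ c, c ∈ pL A N1 ↔ (VisT X h E (h w) c ∧ X c < X w ∧
      ∀ u, E.Adj u w → h u < h w → ¬ Over X h u w c) := by
    intro c
    constructor
    · intro hc
      cases N1 with
      | nil => simp [pL] at hc
      | cons u l =>
        simp only [pL, List.mem_append, List.mem_singleton] at hc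
        have hcL : c ∈ A ++ (u :: l) := by
          rcases hc with hc | rfl
          · simp [hc]
          · simp
        have hcw : X c < X w := by
          rcases hc with hc | rfl
          · exact S.aA c hc
          · exact ((S.n1 c).1 (by simp)).2.2
        refine ⟨(S.mem c).1 (List.mem_append_left _ hcL), hcw, ?_⟩
        rintro v hv hvw ⟨ho | ho, _⟩
        · have hvN : v ∈ u :: l := (S.n1 v).2 ⟨hv, hvw, ho.1.trans ho.2⟩
          have : X c ≤ X v := by
            rcases hc with hc | rfl
            · exact (cAN c hc v hvN).le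
            · rcases List.mem_cons.1 hvN with rfl | hvN
              · exact le_refl _
              · exact ((List.pairwise_cons.1 sN1).1 v hvN).le
          linarith [ho.1]
        · linarith [ho.1]
    · rintro ⟨hv, hcw, ho⟩
      have hcL := (S.mem c).2 hv
      rw [List.mem_append] at hcL
      rcases hcL with hcL | hcL
      · cases N1 with
        | nil => exact absurd hcw (S.e1 rfl c hv.1)
        | cons u l =>
          simp only [pL, List.mem_append, List.mem_singleton]
          rw [List.mem_append, List.mem_cons] at hcL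
          rcases hcL with hcL | hcL | hcL
          · exact Or.inl hcL
          · exact Or.inr hcL
          · exfalso
            have hu := (S.n1 u).1 (by simp)
            exact ho u hu.1 hu.2.1 ⟨Or.inl ⟨(List.pairwise_cons.1 sN1).1 c hcL, hcw⟩, Or.inr hv.1⟩
      · exfalso
        rw [List.mem_append] at hcL
        rcases hcL with hcL | hcL
        · linarith [((S.n2 c).1 hcL).2.2]
        · linarith [S.aB c hcL]
  have memR : ∀ c, c ∈ pR B N2 ↔ (VisT X h E (h w) c ∧ X w < X c ∧
      ∀ u, E.Adj u w → h u < h w → ¬ Over X h u w c) := by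
    intro c
    constructor
    · intro hc
      cases N2 with
      | nil => simp [pR] at hc
      | cons q l =>
        simp only [pR, List.mem_cons] at hc
        have hcL : c ∈ (q :: l) ++ B := by
          rcases hc with rfl | hc
          · exact List.mem_append_left _ (lst_mem q l)
          · exact List.mem_append_right _ hc
        have hcw : X w < X c := by
          rcases hc with rfl | hc
          · exact ((S.n2 _).1 (lst_mem q l)).2.2
          · exact S.aB c hc
        refine ⟨(S.mem c).1 (List.mem_append_right _ hcL), hcw, ?_⟩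
        rintro v hv hvw ⟨ho | ho, _⟩
        · linarith [ho.2]
        · have hvN : v ∈ q :: l := (S.n2 v).2 ⟨hv, hvw, ho.1.trans ho.2⟩
          have : X v ≤ X c := by
            rcases hc with rfl | hc
            · exact le_lst sN2 v hvN
            · exact (cNB v hvN c hc).le
          linarith [ho.2]
    · rintro ⟨hv, hcw, ho⟩
      have hcL := (S.mem c).2 hv
      rw [List.mem_append] at hcL
      rcases hcL with hcL | hcL
      · exfalso
        rw [List.mem_append] at hcL
        rcases hcL with hcL | hcL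
        · linarith [S.aA c hcL]
        · linarith [((S.n1 c).1 hcL).2.2]
      · cases N2 with
        | nil => exact absurd hcw (S.e2 rfl c hv.1)
        | cons q l =>
          simp only [pR, List.mem_cons]
          rw [List.mem_append] at hcL
          rcases hcL with hcL | hcL
          · left
            by_contra hne
            have h1 := le_lst sN2 c hcL
            have h2 : X c < X (lst q l) := lt_of_le_of_ne h1 (fun e => hne (hX e))
            have hu := (S.n2 _).1 (lst_mem q l)
            exact ho _ hu.1 hu.2.1 ⟨Or.inr ⟨hcw, h2⟩, Or.inr hv.1⟩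
          · exact Or.inr hcL
  constructor
  · rw [List.pairwise_append, List.pairwise_cons]
    refine ⟨?_, ⟨?_, ?_⟩, ?_⟩
    · cases N1 with
      | nil => simp [pL]
      | cons u l =>
        simp only [pL]
        rw [List.pairwise_append]
        refine ⟨sA, by simp, ?_⟩
        intro a ha b hb
        simp only [List.mem_singleton] at hb
        subst hb
        exact cAN a ha _ (by simp)
    · intro c hc
      exact ((memR c).1 hc).2.1
    · cases N2 with
      | nil => simp [pR]
      | cons q l =>
        simp only [pR]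
        rw [List.pairwise_cons]
        exact ⟨fun c hc => cNB _ (lst_mem q l) c hc, sB⟩
    · intro a ha b hb
      have h1 := ((memL a).1 ha).2.1
      rcases List.mem_cons.1 hb with rfl | hb
      · exact h1
      · exact h1.trans ((memR b).1 hb).2.1
  · intro c
    rw [vis_succV uq c, List.mem_append, List.mem_cons, memL, memR]
    constructor
    · rintro (⟨h1, _, h3⟩ | rfl | ⟨h1, _, h3⟩)
      · exact Or.inr ⟨h1, h3⟩
      · exact Or.inl rfl
      · exact Or.inr ⟨h1, h3⟩
    · rintro (rfl | ⟨h1, h3⟩)
      · exact Or.inr (Or.inl rfl)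
      · rcases lt_trichotomy (X c) (X w) with h4 | h4 | h4
        · exact Or.inl ⟨h1, h4, h3⟩
        · exact Or.inr (Or.inl (hX h4))
        · exact Or.inr (Or.inr ⟨h1, h4, h3⟩)

end

end Pool.Agent.MP7a5e6c
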