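import Pool.Agent.MP7a5e6c.VMove
import Pool.Agent.MP7a5e6c.Opt

set_option autoImplicit false
open scoped Classical
open Real

namespace Pool.Agent.MP7a5e6c

section
variable {V : Type} {X : V → ℝ} {h : V → ℕ} {E G : SimpleGraph V}

lemma Wt_succV [Fintype V] (E : SimpleGraph V) {w : V} (uq : ∀ a, h a = h w → a = w) :
    Wt X h E (h w + 1) = Wt X h E (h w) +
      2 * ∑ u, if E.Adj u w ∧ h u < h w then |X u - X w| else 0 := by
  set g : V → ℝ := fun u => if E.Adj u w ∧ h u < h w then |X u - X w| else 0 with hg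
  have key : ∀ a b, (if E.Adj a b ∧ h a < h w + 1 ∧ h b < h w + 1 then |X a - X b| else 0) =
      (if E.Adj a b ∧ h a < h w ∧ h b < h w then |X a - X b| else 0) +
      ((if a = w then g b else 0) + (if b = w then g a else 0)) := by
    intro a b
    by_cases hab : E.Adj a b
    swap
    · simp only [hab, false_and, if_false, zero_add]
      by_cases ha : a = w
      · subst ha
        have : ¬ E.Adj b a := fun e => hab e.symm
        by_cases hb : b = a
        · subst hb
          simp [hg]
        · simp [hg, this, hb]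
      · by_cases hb : b = w
        · subst hb
          simp [hg, hab, ha]
        · simp [ha, hb]
    have hne : a ≠ b := hab.ne
    by_cases ha : a = w
    · subst ha
      have hb : b ≠ a := fun e => hne e.symm
      have hhb : h b ≠ h a := fun e => hb (uq b e)
      have e1 : h b < h a + 1 ↔ h b < h a := by omega
      simp only [hg, hab, hab.symm, e1, if_true, hb, if_false, true_and, add_zero, lt_irrefl,
        false_and, zero_add, Nat.lt_succ_self]
      by_cases h3 : h b < h a
      · simp only [h3, if_true]; exact abs_sub_comm _ _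
      · simp only [h3, if_false]
    · by_cases hb : b = w
      · subst hb
        have hha : h a ≠ h b := fun e => ha (uq a e)
        have e1 : h a < h b + 1 ↔ h a < h b := by omega
        simp only [hg, hab, e1, if_true, ha, if_false, true_and, lt_irrefl,
          and_false, zero_add, Nat.lt_succ_self, and_true]
      · have hha : h a ≠ h w := fun e => ha (uq a e)
        have hhb : h b ≠ h w := fun e => hb (uq b e)
        have e1 : h a < h w + 1 ↔ h a < h w := by omega
        have e2 : h b < h w + 1 ↔ h b < h w := by omega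
        simp only [ha, hb, if_false, add_zero, e1, e2]
  unfold Wt
  simp only [key, Finset.sum_add_distrib]
  have s1 : ∑ a, ∑ b, (if a = w then g b else 0) = ∑ b, g b := by
    rw [Finset.sum_comm]
    simp
  have s2 : ∑ a, ∑ b, (if b = w then g a else 0) = ∑ b, g b := by
    simp
  rw [s1, s2]
  ring

/-- increment of the potential when `w` is added -/
lemma pot_stepV [Fintype V] (hX : Function.Injective X) {w : V} (uq : ∀ a, h a = h w → a = w) {A N1 N2 B : List V}
    (S : Split X h E w A N1 N2 B) :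
    Real.log 2 * Wt X h E (h w + 1) + 2 * chain X (pL A N1 ++ w :: pR B N2) =
      (Real.log 2 * Wt X h E (h w) + 2 * chain X ((A ++ N1) ++ (N2 ++ B))) +
      2 * (lgain X w N1 + rgain X w N2 - lk X N1 N2) := by
  rw [← step_eq S.nilA S.nilB, Wt_succV E uq, sum_nbrs hX S]
  ring


lemma vis_one (c : V) : VisT X h E 1 c ↔ h c = 0 := by
  constructor
  · rintro ⟨h1, _⟩; omega
  · intro h1
    refine ⟨by omega, ?_⟩
    rintro a b _ ha hb ⟨_, ho⟩
    rcases ho with ho | ho <;> omega

lemma vl_one {L : List V} : IsVL X h E 1 L ↔ IsVL X h G 1 L := by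
  unfold IsVL
  simp only [vis_one]

lemma Wt_one [Fintype V] (hz : ∀ a b, h a = 0 → h b = 0 → (E.Adj a b ↔ G.Adj a b)) :
    Wt X h E 1 = Wt X h G 1 := by
  unfold Wt
  apply Finset.sum_congr rfl; intro a _
  apply Finset.sum_congr rfl; intro b _
  have key : (E.Adj a b ∧ h a < 1 ∧ h b < 1) ↔ (G.Adj a b ∧ h a < 1 ∧ h b < 1) := by
    constructor
    · rintro ⟨h1, h2, h3⟩; exact ⟨(hz a b (by omega) (by omega)).1 h1, h2, h3⟩
    · rintro ⟨h1, h2, h3⟩; exact ⟨(hz a b (by omega) (by omega)).2 h1, h2, h3⟩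
  simp only [key]

/-- the main inequality -/
theorem main_ineqV [Fintype V] (hX : Function.Injective X) (SE : ∀ w, 0 < h w → Stg X h E w)
    (SG : ∀ w, 0 < h w → Stg X h G w) (g : ∀ w, 0 < h w → GoodAt X h G w)
    (hz : ∀ a b, h a = 0 → h b = 0 → (E.Adj a b ↔ G.Adj a b)) (hL0 : ∃ L, IsVL X h E 1 L) :
    ∀ t : ℕ, ∃ L L', IsVL X h E (t + 1) L ∧ IsVL X h G (t + 1) L' ∧
      Real.log 2 * Wt X h G (t + 1) + 2 * chain X L' ≤
      Real.log 2 * Wt X h E (t + 1) + 2 * chain X L := by
  intro t
  induction t with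
  | zero =>
    obtain ⟨L, hL⟩ := hL0
    refine ⟨L, L, hL, vl_one.1 hL, ?_⟩
    rw [Wt_one hz]
  | succ t ih =>
    obtain ⟨L, L', h1, h2, h3⟩ := ih
    by_cases hw : ∃ w, h w = t + 1
    · obtain ⟨w, hw⟩ := hw
      have hw0 : 0 < h w := by omega
      rw [← hw] at h1 h2 h3 ⊢
      obtain ⟨A, N1, N2, B, rfl, S⟩ := exists_splitV (SE w hw0) h1
      obtain ⟨A', N1', N2', B', rfl, S'⟩ := exists_splitV (SG w hw0) h2
      refine ⟨_, _, next_vlV hX (SE w hw0).uniq S, next_vlV hX (SG w hw0).uniq S', ?_⟩
      rw [pot_stepV hX (SE w hw0).uniq S, pot_stepV hX (SG w hw0).uniq S']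
      have c1 := cost_ge S
      have c2 := cost_good S' (g w hw0)
      have c3 := J_le S S' (g w hw0)
      linarith
    · push Not at hw
      refine ⟨L, L', ⟨h1.1, ?_⟩, ⟨h2.1, ?_⟩, ?_⟩
      · intro a; rw [vis_skip E (t + 1) hw a]; exact h1.2 a
      · intro a; rw [vis_skip G (t + 1) hw a]; exact h2.2 a
      · rw [Wt_skip E (t + 1) hw, Wt_skip G (t + 1) hw]; exact h3

/-- the equality case -/
theorem main_eqV [Fintype V] (hX : Function.Injective X) (SE : ∀ w, 0 < h w → Stg X h E w)
    (SG : ∀ w, 0 < h w → Stg X h G w) (g : ∀ w, 0 < h w → GoodAt X h G w)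
    (hz : ∀ a b, h a = 0 → h b = 0 → (E.Adj a b ↔ G.Adj a b)) (hL0 : ∃ L, IsVL X h E 1 L) :
    ∀ (t : ℕ) (L : List V), IsVL X h E (t + 1) L → IsVL X h G (t + 1) L →
      Real.log 2 * Wt X h E (t + 1) + 2 * chain X L ≤
      Real.log 2 * Wt X h G (t + 1) + 2 * chain X L →
      ∀ a b, h a < t + 1 → h b < t + 1 → (E.Adj a b ↔ G.Adj a b) := by
  intro t
  induction t with
  | zero => intro L _ _ _ a b ha hb; exact hz a b (by omega) (by omega)
  | succ t ih =>
    intro L hL hL' hle a b ha hb
    by_cases hw : ∃ w, h w = t + 1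
    · obtain ⟨w, hw⟩ := hw
      have hw0 : 0 < h w := by omega
      obtain ⟨M, M', h1, h2, h3⟩ := main_ineqV hX SE SG g hz hL0 t
      rw [← hw] at h1 h2 h3 hL hL' hle ha hb ih
      obtain ⟨A, N1, N2, B, rfl, S⟩ := exists_splitV (SE w hw0) h1
      obtain ⟨A', N1', N2', B', rfl, S'⟩ := exists_splitV (SG w hw0) h2
      have e1 := (next_vlV hX (SE w hw0).uniq S).unique hX hL
      have e2 := (next_vlV hX (SG w hw0).uniq S').unique hX hL'
      have p1 := pot_stepV hX (SE w hw0).uniq S
      have p2 := pot_stepV hX (SG w hw0).uniq S'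
      rw [e1] at p1
      rw [e2] at p2
      have c1 := cost_ge S
      have c2 := cost_good S' (g w hw0)
      have c3 := J_le S S' (g w hw0)
      obtain ⟨rfl, rfl, rfl, rfl⟩ := rev_step hX S S' (g w hw0) (e1.trans e2.symm) (by linarith)
      have hlow := ih _ h1 h2 (by linarith)
      have hNb : ∀ u, h u < h w → (E.Adj u w ↔ G.Adj u w) := by
        intro u hu
        rcases lt_trichotomy (X u) (X w) with h4 | h4 | h4
        · constructor
          · intro h5; exact ((S'.n1 u).1 ((S.n1 u).2 ⟨h5, hu, h4⟩)).1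
          · intro h5; exact ((S.n1 u).1 ((S'.n1 u).2 ⟨h5, hu, h4⟩)).1
        · exact absurd (hX h4) (fun e => by rw [e] at hu; exact lt_irrefl _ hu)
        · constructor
          · intro h5; exact ((S'.n2 u).1 ((S.n2 u).2 ⟨h5, hu, h4⟩)).1
          · intro h5; exact ((S.n2 u).1 ((S'.n2 u).2 ⟨h5, hu, h4⟩)).1
      have uq := (SE w hw0).uniq
      by_cases haw : a = w
      · subst haw
        by_cases hba : b = a
        · subst hba
          exact ⟨fun e => absurd rfl e.ne, fun e => absurd rfl e.ne⟩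
        · have hba' : h b < h a := lt_of_le_of_ne (Nat.lt_succ_iff.1 hb) (fun e => hba (uq b e))
          rw [E.adj_comm, G.adj_comm]
          exact hNb b hba'
      · have haw' : h a < h w := lt_of_le_of_ne (Nat.lt_succ_iff.1 ha) (fun e => haw (uq a e))
        by_cases hbw : b = w
        · subst hbw
          exact hNb a haw'
        · have hbw' : h b < h w := lt_of_le_of_ne (Nat.lt_succ_iff.1 hb) (fun e => hbw (uq b e))
          exact hlow a b haw' hbw'
    · push Not at hw
      have key : ∀ v, h v < t + 1 + 1 → h v < t + 1 := fun v hv => by have := hw v; omega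
      apply ih L ⟨hL.1, fun a => by rw [← vis_skip E (t + 1) hw a]; exact hL.2 a⟩
        ⟨hL'.1, fun a => by rw [← vis_skip G (t + 1) hw a]; exact hL'.2 a⟩ ?_ a b (key a ha)
          (key b hb)
      rw [← Wt_skip E (t + 1) hw, ← Wt_skip G (t + 1) hw]; exact hle

end

end Pool.Agent.MP7a5e6c
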