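import Pool.Agent.MP7a5e6c.VCross

set_option autoImplicit false
open scoped Classical
open Real

namespace Pool.Agent.MP7a5e6c

section
variable {n : ℕ} {h : Fin n → ℕ} {E G : SimpleGraph (Fin n)} {X : Fin n → ℝ}

lemma vc_self {w : Fin n} : VC h E ((w : ℕ) + 1) w ↔ VF h E w := by
  constructor
  · exact fun h1 => h1.2.1
  · intro h1
    refine ⟨by omega, h1, ?_⟩
    intro p q _ _ _ h5 h6
    have : (w : ℕ) < q := h5
    omega

lemma vf_zero {c : Fin n} (hc : (c : ℕ) = 0) : VF h E c := by
  intro p q _ _ h1 _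
  have : (p : ℕ) < c := h1
  omega

lemma vf_kink {z : Fin n} (hz : h z = 0) : VF h E z := by
  intro p q _ hk h1 h2
  have := hk z h1 h2
  omega

lemma pred_NK {p w : Fin n} (hp : IsPred h E p w) : NK h p w := by
  intro z h1 h2
  by_contra h3
  exact absurd h1 (not_lt.2 (hp.2.2 z (vf_kink (by omega)) h2))

lemma CL.uniq {k : ℕ} {L L' : List (Fin n)} (hX : Function.Injective X) (h1 : CL X h E k L)
    (h2 : CL X h E k L') : L = L' :=
  sorted_ext hX L L' h1.1 h2.1 (fun a => (h1.2 a).trans (h2.2 a).symm)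

lemma ML.uniq {k : ℕ} {L L' : List (Fin n)} (hX : Function.Injective X) (h1 : ML X h E k L)
    (h2 : ML X h E k L') : L = L' :=
  sorted_ext hX L L' h1.1 h2.1 (fun a => (h1.2 a).trans (h2.2 a).symm)

lemma SC_skip {w : Fin n} (hno : ∀ u, ¬ (E.Adj u w ∧ ¬ NK h u w)) :
    SC X h E (w + 1) = SC X h E w := by
  unfold SC
  apply Finset.sum_congr rfl; intro v _
  apply Finset.sum_congr rfl; intro u _
  have key : ((v : ℕ) < w + 1 ∧ E.Adj u v ∧ ¬ NK h u v) ↔ ((v : ℕ) < w ∧ E.Adj u v ∧ ¬ NK h u v) := by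
    constructor
    · rintro ⟨h1, h2⟩
      refine ⟨?_, h2⟩
      by_contra h3
      have : v = w := Fin.ext (by omega)
      subst this
      exact hno u h2
    · rintro ⟨h1, h2⟩
      exact ⟨by omega, h2⟩
  simp only [key]

lemma SC_zero : SC X h E 0 = 0 := by
  unfold SC; simp

lemma cl_zero : CL X h E 0 [] := by
  refine ⟨by simp, ?_⟩
  intro a
  simp only [List.not_mem_nil, false_iff]
  intro h1; exact absurd h1.1 (by omega)

lemma ml_zero : ML X h E 0 [] := by
  refine ⟨by simp, ?_⟩
  intro a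
  simp only [List.not_mem_nil, false_iff]
  intro h1; exact absurd h1.1 (by omega)

lemma cl_one {w : Fin n} (hw : (w : ℕ) = 0) : CL X h E 1 [w] := by
  refine ⟨by simp, ?_⟩
  intro a
  rw [List.mem_singleton]
  constructor
  · rintro rfl
    have := (vc_self (h := h) (E := E) (w := a)).2 (vf_zero hw)
    rwa [hw] at this
  · rintro ⟨h1, _⟩
    exact Fin.ext (by omega)

lemma ml_one {w : Fin n} (hw : (w : ℕ) = 0) : ML X h E 1 [w] := by
  refine ⟨by simp, ?_⟩
  intro a
  rw [List.mem_singleton]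
  constructor
  · rintro rfl
    exact ⟨by omega, vf_zero hw⟩
  · rintro ⟨h1, _⟩
    exact Fin.ext (by omega)

lemma no_cross_zero {w : Fin n} (hw : (w : ℕ) = 0) (u : Fin n) : ¬ (E.Adj u w ∧ ¬ NK h u w) := by
  rintro ⟨_, h1⟩
  have : (u : ℕ) < w := nNK_lt h1
  omega

lemma cl_skip (hE : TriU h E) {w : Fin n} (hw : ¬ VF h E w) {L : List (Fin n)} :
    CL X h E (w + 1) L ↔ CL X h E w L := by
  unfold CL
  simp only [vc_skip hE hw]

lemma ml_skip {w : Fin n} (hw : ¬ VF h E w) {L : List (Fin n)} :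
    ML X h E (w + 1) L ↔ ML X h E w L := by
  have key : ∀ a : Fin n, ((a : ℕ) < w + 1 ∧ VF h E a) ↔ ((a : ℕ) < w ∧ VF h E a) := by
    intro a
    constructor
    · rintro ⟨h1, h2⟩
      refine ⟨?_, h2⟩
      by_contra h3
      have : a = w := Fin.ext (by omega)
      subst this
      exact hw h2
    · rintro ⟨h1, h2⟩
      exact ⟨by omega, h2⟩
  unfold ML
  simp only [key]

lemma CS.sorted {w : Fin n} {A : List (Fin n)} {x : Fin n} {l M : List (Fin n)}
    (S : CS X h E w A x l M) : (x :: l).Pairwise (fun a b => X a < X b) := by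
  have hs := S.old.1
  rw [List.pairwise_append] at hs
  exact hs.2.1

lemma CS.lt {w : Fin n} {A : List (Fin n)} {x : Fin n} {l M : List (Fin n)}
    (hX : ∀ a b, a < b → X a < X b) (S : CS X h E w A x l M) : ∀ a ∈ x :: l, X a < X w := by
  intro a ha
  exact hX _ _ ((S.old.2 a).1 (List.mem_append_right _ ha)).1

lemma CS.inc_nonneg {w : Fin n} {A : List (Fin n)} {x : Fin n} {l M : List (Fin n)}
    (hX : ∀ a b, a < b → X a < X b) (S : CS X h E w A x l M) :
    0 ≤ (Real.log 2 * ((x :: l).map (fun a => X w - X a)).sum + negMulLog (X w - X x)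
        - chain X (x :: l)) -
      (negMulLog (X w - X (lst x l)) + Real.log 2 * (X w - X (lst x l))) := by
  have := gainL w l x S.sorted (S.lt hX)
  linarith

theorem pot2_ge (hX : ∀ a b, a < b → X a < X b) (hE : TriU h E) : ∀ k : ℕ, k ≤ n →
    ∃ L M, CL X h E k L ∧ ML X h E k M ∧ (0 < k → M ≠ []) ∧
      chain X M ≤ Real.log 2 * SC X h E k + chain X L := by
  intro k
  induction k with
  | zero =>
    intro _
    exact ⟨[], [], cl_zero, ml_zero, fun h1 => absurd h1 (lt_irrefl _), by rw [SC_zero]; simp⟩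
  | succ k ih =>
    intro hk
    obtain ⟨L, M, h1, h2, h3, h4⟩ := ih (by omega)
    obtain ⟨w, hw⟩ : ∃ w : Fin n, (w : ℕ) = k := ⟨⟨k, by omega⟩, rfl⟩
    subst hw
    by_cases hv : VF h E w
    · by_cases hw0 : (w : ℕ) = 0
      · refine ⟨[w], [w], ?_, ?_, fun _ => by simp, ?_⟩
        · rw [hw0]; exact cl_one hw0
        · rw [hw0]; exact ml_one hw0
        · rw [SC_skip (no_cross_zero hw0), hw0, SC_zero]; simp
      · obtain ⟨A, x, l, M0, rfl, rfl, S⟩ := exists_cs hX hE hv h1 h2 (h3 (by omega))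
        refine ⟨_, _, S.new, S.mnew, fun _ => by simp, ?_⟩
        have e1 := pot2_step S
        have e2 := S.inc_nonneg hX
        linarith
    · refine ⟨L, M, (cl_skip hE hv).2 h1, (ml_skip hv).2 h2, ?_, ?_⟩
      · intro _
        apply h3
        by_contra h5
        exact hv (vf_zero (by omega))
      · rw [SC_skip]
        · exact h4
        · rintro u ⟨e, hk⟩
          exact hv (cross_vfr hE e hk)

/-- the balance condition for the edges over kinks -/
def Bal (X : Fin n → ℝ) (h : Fin n → ℕ) (G : SimpleGraph (Fin n)) : Prop :=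
  ∀ w A x l M, CS X h G w A x l M → (x :: l).IsChain (fun a b => X b - X a = X w - X b)

theorem pot2_good (hX : ∀ a b, a < b → X a < X b) (hG : TriU h G) (g : Bal X h G) : ∀ k : ℕ, k ≤ n →
    ∃ L M, CL X h G k L ∧ ML X h G k M ∧ (0 < k → M ≠ []) ∧
      chain X M = Real.log 2 * SC X h G k + chain X L := by
  intro k
  induction k with
  | zero =>
    intro _
    exact ⟨[], [], cl_zero, ml_zero, fun h1 => absurd h1 (lt_irrefl _), by rw [SC_zero]; simp⟩
  | succ k ih =>
    intro hk
    obtain ⟨L, M, h1, h2, h3, h4⟩ := ih (by omega)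
    obtain ⟨w, hw⟩ : ∃ w : Fin n, (w : ℕ) = k := ⟨⟨k, by omega⟩, rfl⟩
    subst hw
    by_cases hv : VF h G w
    · by_cases hw0 : (w : ℕ) = 0
      · refine ⟨[w], [w], ?_, ?_, fun _ => by simp, ?_⟩
        · rw [hw0]; exact cl_one hw0
        · rw [hw0]; exact ml_one hw0
        · rw [SC_skip (no_cross_zero hw0), hw0, SC_zero]; simp
      · obtain ⟨A, x, l, M0, rfl, rfl, S⟩ := exists_cs hX hG hv h1 h2 (h3 (by omega))
        refine ⟨_, _, S.new, S.mnew, fun _ => by simp, ?_⟩
        have e1 := pot2_step S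
        have e2 := gainL_bal w l x S.sorted (S.lt hX) (g _ _ _ _ _ S)
        linarith
    · refine ⟨L, M, (cl_skip hG hv).2 h1, (ml_skip hv).2 h2, ?_, ?_⟩
      · intro _
        apply h3
        by_contra h5
        exact hv (vf_zero (by omega))
      · rw [SC_skip]
        · exact h4
        · rintro u ⟨e, hk⟩
          exact hv (cross_vfr hG e hk)

lemma chain_cmp {V : Type} {R : V → V → Prop} (hfun : ∀ a b b', R a b → R a b' → b = b') :
    ∀ (l l' : List V) (u : V), (u :: l).IsChain R → (u :: l').IsChain R →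
      l = l' ∨ (∃ b r, l' = l ++ b :: r) ∨ (∃ b r, l = l' ++ b :: r)
  | [], [], _, _, _ => Or.inl rfl
  | [], b :: l', _, _, _ => Or.inr (Or.inl ⟨b, l', rfl⟩)
  | b :: l, [], _, _, _ => Or.inr (Or.inr ⟨b, l, rfl⟩)
  | b :: l, b' :: l', u, h1, h2 => by
    rw [List.isChain_cons_cons] at h1 h2
    have e := hfun u b b' h1.1 h2.1
    subst e
    rcases chain_cmp hfun l l' b h1.2 h2.2 with h3 | ⟨c, r, h3⟩ | ⟨c, r, h3⟩
    · exact Or.inl (by rw [h3])
    · exact Or.inr (Or.inl ⟨c, r, by rw [h3]; rfl⟩)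
    · exact Or.inr (Or.inr ⟨c, r, by rw [h3]; rfl⟩)

/-- if `x :: l` is a proper beginning of `x :: l'`, its last vertex is not the last of `l'` -/
lemma lst_ne {x b : Fin n} {l r : List (Fin n)}
    (hs : (x :: (l ++ b :: r)).Pairwise (fun a b => X a < X b)) :
    lst x l ∈ x :: (l ++ b :: r) ∧ lst x l ≠ lst x (l ++ b :: r) := by
  have e : x :: (l ++ b :: r) = (x :: l) ++ b :: r := by simp
  constructor
  · rw [e]; exact List.mem_append_left _ (lst_mem x l)
  · rw [lst_app]
    rw [e, List.pairwise_append] at hs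
    intro h1
    have h2 := hs.2.2 (lst x l) (lst_mem x l) (lst b r) (lst_mem b r)
    rw [h1] at h2
    exact lt_irrefl _ h2

theorem pot2_rev (hX : ∀ a b, a < b → X a < X b) (hE : TriU h E) (hG : TriU h G)
    (g : Bal X h G) : ∀ k : ℕ, k ≤ n → ∀ L M, CL X h E k L → CL X h G k L → ML X h E k M →
      Real.log 2 * SC X h E k + chain X L ≤ chain X M → ∀ w : Fin n, (w : ℕ) < k →
      (VF h E w ↔ VF h G w) ∧ ∀ u, ((E.Adj u w ∧ ¬ NK h u w) ↔ (G.Adj u w ∧ ¬ NK h u w)) := by
  have hXi := xinj hX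
  intro k
  induction k with
  | zero => intro _ L M _ _ _ _ w hw; exact absurd hw (by omega)
  | succ k ih =>
    intro hk L M c1 c2 m1 hle v hvk
    obtain ⟨w, hw⟩ : ∃ w : Fin n, (w : ℕ) = k := ⟨⟨k, by omega⟩, rfl⟩
    subst hw
    have hiff : VF h E w ↔ VF h G w := by
      rw [← vc_self (E := E), ← vc_self (E := G), ← c1.2 w, ← c2.2 w]
    by_cases hv : VF h E w
    · have hv' := hiff.1 hv
      by_cases hw0 : (w : ℕ) = 0
      · have : v = w := Fin.ext (by omega)
        subst this
        exact ⟨hiff, fun u => iff_of_false (no_cross_zero hw0 u) (no_cross_zero hw0 u)⟩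
      · obtain ⟨L1, M1, a1, a2, a3, a4⟩ := pot2_ge hX hE w (by omega)
        obtain ⟨L2, M2, b1, b2, b3, b4⟩ := pot2_ge hX hG w (by omega)
        obtain ⟨A, x, l, M0, rfl, rfl, S⟩ := exists_cs hX hE hv a1 a2 (a3 (by omega))
        obtain ⟨A', x', l', M0', rfl, rfl, S'⟩ := exists_cs hX hG hv' b1 b2 (b3 (by omega))
        have e1 := c1.uniq hXi S.new
        have e2 := c2.uniq hXi S'.new
        have e3 := m1.uniq hXi S.mnew
        rw [e1] at e2
        have e4 : A ++ [x] ++ [w] = A' ++ [x'] ++ [w] := by simpa using e2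
        obtain ⟨e5, _⟩ := List.append_inj' e4 rfl
        obtain ⟨e6, e7⟩ := List.append_inj' e5 rfl
        simp only [List.cons.injEq, and_true] at e7
        subst e6
        subst e7
        have p1 := pot2_step S
        have p2 := S.inc_nonneg hX
        rw [e1, e3] at hle
        have bE := gainL_eq w l x S.sorted (S.lt hX) (by linarith)
        have bG := g _ _ _ _ _ S'
        have fL : ∀ a b b' : Fin n, X b - X a = X w - X b → X b' - X a = X w - X b' → b = b' :=
          fun a b b' e1 e2 => hXi (by linarith)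
        have hll : l = l' := by
          rcases chain_cmp fL l l' x bE bG with h1 | ⟨b, r, h1⟩ | ⟨b, r, h1⟩
          · exact h1
          · exfalso
            have hs := S'.sorted
            have nb := S'.nb (lst x l)
            rw [h1] at hs nb
            exact (nb.2 (lst_ne hs)).2 (pred_NK S.pr)
          · exfalso
            have hs := S.sorted
            have nb := S.nb (lst x l')
            rw [h1] at hs nb
            exact (nb.2 (lst_ne hs)).2 (pred_NK S'.pr)
        subst hll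
        have rc := ih (by omega) _ _ a1 b1 a2 (by linarith)
        by_cases hvw : (v : ℕ) < w
        · exact rc v hvw
        · have : v = w := Fin.ext (by omega)
          subst this
          exact ⟨hiff, fun u => (S.nb u).trans (S'.nb u).symm⟩
    · have hv' : ¬ VF h G w := fun e => hv (hiff.2 e)
      have n1 : ∀ u, ¬ (E.Adj u w ∧ ¬ NK h u w) := fun u e => hv (cross_vfr hE e.1 e.2)
      have n2 : ∀ u, ¬ (G.Adj u w ∧ ¬ NK h u w) := fun u e => hv' (cross_vfr hG e.1 e.2)
      rw [SC_skip n1] at hle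
      have rc := ih (by omega) L M ((cl_skip hE hv).1 c1) ((cl_skip hG hv').1 c2)
        ((ml_skip hv).1 m1) hle
      by_cases hvw : (v : ℕ) < w
      · exact rc v hvw
      · have : v = w := Fin.ext (by omega)
        subst this
        exact ⟨hiff, fun u => iff_of_false (n1 u) (n2 u)⟩

end

end Pool.Agent.MP7a5e6c
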