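import Pool.Agent.MP7a5e6c.VGeo
import Pool.Agent.MP7a5e6c.Stage

set_option autoImplicit false
open scoped Classical

namespace Pool.Agent.MP7a5e6c

/-- the facts about one stage that are used by the potential argument -/
structure Stg {V : Type} (X : V → ℝ) (h : V → ℕ) (E : SimpleGraph V) (w : V) : Prop where
  injX : Function.Injective X
  uniq : ∀ a, h a = h w → a = w
  av : ∀ c, h c < h w → E.Adj c w → VisT X h E (h w) c
  ma : ∀ c u, VisT X h E (h w) c → E.Adj u w → h u < h w →
    ((X u < X c ∧ X c < X w) ∨ (X w < X c ∧ X c < X u)) → E.Adj c w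
  na : ∀ c, VisT X h E (h w) c → (∀ c', VisT X h E (h w) c' →
      ¬ ((X c < X c' ∧ X c' < X w) ∨ (X w < X c' ∧ X c' < X c))) → E.Adj c w

section
variable {n : ℕ} {h : Fin n → ℕ}

/-- the edges that do not pass over a vertex of height zero -/
def inP (h : Fin n → ℕ) (E : SimpleGraph (Fin n)) : SimpleGraph (Fin n) where
  Adj a b := E.Adj a b ∧ NK h a b ∧ NK h b a
  symm := ⟨fun _ _ hab => ⟨hab.1.symm, hab.2.2, hab.2.1⟩⟩
  loopless := ⟨fun _ hab => E.irrefl hab.1⟩

lemma NK_rev {a b : Fin n} (hab : a ≤ b) : NK h b a := by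
  intro z h1 h2
  exact absurd (h1.trans h2) (not_lt.2 hab)

lemma U_l {a b c : Fin n} (h1 : h b < h a) : U h a b c := Or.inr (Or.inl h1)
lemma U_r {a b c : Fin n} (h1 : h b < h c) : U h a b c := Or.inr (Or.inr h1)
lemma U_k {a b c : Fin n} (h1 : ¬ NK h a c) : U h a b c := Or.inl h1
lemma nU {a b c : Fin n} (h1 : NK h a c) (h2 : h a ≤ h b) (h3 : h c ≤ h b) : ¬ U h a b c := by
  rintro (h4 | h4 | h4)
  · exact h4 h1
  · omega
  · omega

variable {E : SimpleGraph (Fin n)}

lemma nx (hE : TriU h E) {a b c d : Fin n} (h1 : a < c) (h2 : c < b) (h3 : b < d)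
    (e1 : E.Adj a b) (e2 : E.Adj c d) (u1 : U h a c b) (u2 : U h c b d) : False :=
  hE.1 a b c d (h1.trans h2) (h2.trans h3) e1 e2 (Or.inl ⟨h1, h2, h3, iff_of_true u1 u2⟩)

lemma nn1 (hE : TriU h E) {a b c d : Fin n} (h1 : a < c) (h2 : c < d) (h3 : d < b)
    (e1 : E.Adj a b) (e2 : E.Adj c d) (u1 : U h a c b) (u2 : ¬ U h a d b) : False :=
  hE.1 a b c d ((h1.trans h2).trans h3) h2 e1 e2
    (Or.inr (Or.inr (Or.inl ⟨h1, h2, h3, fun e => u2 (e.1 u1)⟩)))

lemma nn2 (hE : TriU h E) {a b c d : Fin n} (h1 : a < c) (h2 : c < d) (h3 : d < b)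
    (e1 : E.Adj a b) (e2 : E.Adj c d) (u1 : ¬ U h a c b) (u2 : U h a d b) : False :=
  hE.1 a b c d ((h1.trans h2).trans h3) h2 e1 e2
    (Or.inr (Or.inr (Or.inl ⟨h1, h2, h3, fun e => u1 (e.2 u2)⟩)))

/-- an edge from a vertex `a` below the segment `r s` cannot go to a vertex that is higher than
`r` and `s`, nor pass over a kink -/
lemma pass (hE : TriU h E) {r s a b : Fin n} (ers : E.Adj r s) (hk : NK h r s) (h1 : r < a)
    (h2 : a < s) (ho : h a < h r ∨ h a < h s) (eab : E.Adj a b)
    (hb : (h r < h b ∧ h s < h b) ∨ ¬ (NK h a b ∧ NK h b a)) : False := by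
  have hU : U h r a s := Or.inr ho
  rcases lt_trichotomy b r with h3 | h3 | h3
  · -- b < r < a < s
    refine nx hE h3 h1 h2 eab.symm ers ?_ hU
    rcases hb with hb | hb
    · exact U_l hb.1
    · apply U_k
      intro hk'
      exact hb ⟨NK_rev (h3.trans h1).le, hk'⟩
  · subst h3
    rcases hb with hb | hb
    · omega
    · exact hb ⟨NK_rev h1.le, fun z h4 h5 => hk z h4 (h5.trans h2)⟩
  · rcases lt_trichotomy b s with h4 | h4 | h4
    · have hk' : NK h a b ∧ NK h b a :=
        ⟨fun z h5 h6 => hk z (h1.trans h5) (h6.trans h4),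
          fun z h5 h6 => hk z (h3.trans h5) (h6.trans h2)⟩
      have hb' : h r < h b ∧ h s < h b := by
        rcases hb with hb | hb
        · exact hb
        · exact absurd hk' hb
      have hnU : ¬ U h r b s := nU hk hb'.1.le hb'.2.le
      rcases lt_trichotomy a b with h5 | h5 | h5
      · exact nn1 hE h1 h5 h4 ers eab hU hnU
      · exact eab.ne h5
      · exact nn2 hE h3 h5 h2 ers eab.symm hnU hU
    · subst h4
      rcases hb with hb | hb
      · omega
      · exact hb ⟨fun z h5 h6 => hk z (h1.trans h5) h6, NK_rev h2.le⟩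
    · refine nx hE h1 h2 h4 ers eab hU ?_
      rcases hb with hb | hb
      · exact U_r hb.2
      · apply U_k
        intro hk'
        exact hb ⟨hk', NK_rev (h2.trans h4).le⟩

/-- how a missing edge to the left of `w` can be blocked -/
lemma block_left (hh : ∀ a b, h a = h b → a = b ∨ h a = 0) (hE : TriU h E) {c w : Fin n}
    (hcw : c < w) (hk : NK h c w) (hlt : h c < h w) (hna : ¬ E.Adj c w) :
    (∃ p q, E.Adj p q ∧ NK h p q ∧ p < c ∧ c < q ∧ h p < h w ∧ h q < h w ∧
      (h c < h p ∨ h c < h q)) ∨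
    (∃ a b, E.Adj a b ∧ c < a ∧ a < w ∧ h a < h w ∧ (h w < h b ∨ ¬ (NK h a b ∧ NK h b a))) := by
  have hex : ∃ p q, p < q ∧ E.Adj p q ∧ CrU h c w p q := by
    by_contra hcon
    push Not at hcon
    exact hna (hE.2 c w hcw (fun p q h1 h2 => hcon p q h1 h2))
  obtain ⟨p, q, hpq, epq, hcr⟩ := hex
  have uw : ∀ a, a ≠ w → h a ≠ h w := by
    intro a ha e
    rcases hh a w e with h1 | h1
    · exact ha h1
    · omega
  rcases hcr with ⟨h1, h2, h3, hu⟩ | ⟨h1, h2, h3, hu⟩ | ⟨h1, h2, h3, hu⟩ | ⟨h1, h2, h3, hu⟩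
  · -- c < p < w < q
    right
    rcases lt_or_gt_of_ne (uw p h2.ne) with h4 | h4
    · have h5 := hu.1 (U_r h4)
      refine ⟨p, q, epq, h1, h2, h4, ?_⟩
      rcases h5 with h5 | h5 | h5
      · exact Or.inr (fun e => h5 e.1)
      · omega
      · exact Or.inl h5
    · exact absurd (hu.2 (U_l h4)) (nU hk (by omega) h4.le)
  · -- p < c < q < w
    rcases lt_or_gt_of_ne (uw q h3.ne) with h4 | h4
    · have h5 := hu.2 (U_r h4)
      by_cases hk' : NK h p q
      · rcases lt_or_gt_of_ne (uw p (h1.trans hcw).ne) with h6 | h6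
        · left
          refine ⟨p, q, epq, hk', h1, h2, h6, h4, ?_⟩
          rcases h5 with h5 | h5
          · exact absurd hk' h5
          · exact h5
        · right
          exact ⟨q, p, epq.symm, h2, h3, h4, Or.inl h6⟩
      · right
        exact ⟨q, p, epq.symm, h2, h3, h4, Or.inr (fun e => hk' e.2)⟩
    · exact absurd (hu.1 (U_r (by omega))) (nU hk (by omega) h4.le)
  · -- c < p < q < w
    right
    rcases lt_or_gt_of_ne (uw p (h2.trans h3).ne) with h4 | h4 <;>
      rcases lt_or_gt_of_ne (uw q h3.ne) with h5 | h5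
    · exact absurd (iff_of_true (U_r h4) (U_r h5)) hu
    · exact ⟨p, q, epq, h1, h2.trans h3, h4, Or.inl h5⟩
    · exact ⟨q, p, epq.symm, h1.trans h2, h3, h5, Or.inl h4⟩
    · exact absurd (iff_of_false (nU hk (by omega) h4.le) (nU hk (by omega) h5.le)) hu
  · -- p < c < w < q
    left
    by_cases hk' : NK h p q
    swap
    · exact absurd (iff_of_true (U_k hk') (U_k hk')) hu
    have hnw : ¬ U h p w q := by
      intro hw
      apply hu
      refine iff_of_true ?_ hw
      rcases hw with hw | hw | hw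
      · exact absurd hk' hw
      · exact U_l (by omega)
      · exact U_r (by omega)
    have hc : U h p c q := by
      by_contra hc
      exact hu (iff_of_false hc hnw)
    have h4 : h p < h w := by
      rcases lt_or_gt_of_ne (uw p (h1.trans h2).ne) with h4 | h4
      · exact h4
      · exact absurd (U_l h4) hnw
    have h5 : h q < h w := by
      rcases lt_or_gt_of_ne (uw q h3.ne') with h5 | h5
      · exact h5
      · exact absurd (U_r h5) hnw
    refine ⟨p, q, epq, hk', h1, h2.trans h3, h4, h5, ?_⟩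
    rcases hc with hc | hc
    · exact absurd hk' hc
    · exact hc

lemma block_right (hh : ∀ a b, h a = h b → a = b ∨ h a = 0) (hE : TriU h E) {c w : Fin n}
    (hcw : w < c) (hk : NK h w c) (hlt : h c < h w) (hna : ¬ E.Adj c w) :
    (∃ p q, E.Adj p q ∧ NK h p q ∧ p < c ∧ c < q ∧ h p < h w ∧ h q < h w ∧
      (h c < h p ∨ h c < h q)) ∨
    (∃ a b, E.Adj a b ∧ w < a ∧ a < c ∧ h a < h w ∧ (h w < h b ∨ ¬ (NK h a b ∧ NK h b a))) := by
  have hex : ∃ p q, p < q ∧ E.Adj p q ∧ CrU h w c p q := by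
    by_contra hcon
    push Not at hcon
    exact hna (hE.2 w c hcw (fun p q h1 h2 => hcon p q h1 h2)).symm
  obtain ⟨p, q, hpq, epq, hcr⟩ := hex
  have uw : ∀ a, a ≠ w → h a ≠ h w := by
    intro a ha e
    rcases hh a w e with h1 | h1
    · exact ha h1
    · omega
  rcases hcr with ⟨h1, h2, h3, hu⟩ | ⟨h1, h2, h3, hu⟩ | ⟨h1, h2, h3, hu⟩ | ⟨h1, h2, h3, hu⟩
  · -- w < p < c < q
    rcases lt_or_gt_of_ne (uw p h1.ne') with h4 | h4
    · have h5 := hu.1 (U_l h4)
      by_cases hk' : NK h p q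
      · rcases lt_or_gt_of_ne (uw q (hcw.trans h3).ne') with h6 | h6
        · left
          refine ⟨p, q, epq, hk', h2, h3, h4, h6, ?_⟩
          rcases h5 with h5 | h5
          · exact absurd hk' h5
          · exact h5
        · right
          exact ⟨p, q, epq, h1, h2, h4, Or.inl h6⟩
      · right
        exact ⟨p, q, epq, h1, h2, h4, Or.inr (fun e => hk' e.1)⟩
    · exact absurd (hu.2 (U_l (by omega))) (nU hk h4.le (by omega))
  · -- p < w < q < c
    right
    rcases lt_or_gt_of_ne (uw q h2.ne') with h4 | h4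
    · have h5 := hu.2 (U_l h4)
      refine ⟨q, p, epq.symm, h2, h3, h4, ?_⟩
      rcases h5 with h5 | h5 | h5
      · exact Or.inr (fun e => h5 e.2)
      · exact Or.inl h5
      · omega
    · exact absurd (hu.1 (U_r h4)) (nU hk h4.le (by omega))
  · -- w < p < q < c
    right
    rcases lt_or_gt_of_ne (uw p h1.ne') with h4 | h4 <;>
      rcases lt_or_gt_of_ne (uw q (h1.trans h2).ne') with h5 | h5
    · exact absurd (iff_of_true (U_l h4) (U_l h5)) hu
    · exact ⟨p, q, epq, h1, h2.trans h3, h4, Or.inl h5⟩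
    · exact ⟨q, p, epq.symm, h1.trans h2, h3, h5, Or.inl h4⟩
    · exact absurd (iff_of_false (nU hk h4.le (by omega)) (nU hk h5.le (by omega))) hu
  · -- p < w < c < q
    left
    by_cases hk' : NK h p q
    swap
    · exact absurd (iff_of_true (U_k hk') (U_k hk')) hu
    have hnw : ¬ U h p w q := by
      intro hw
      apply hu
      refine iff_of_true hw ?_
      rcases hw with hw | hw | hw
      · exact absurd hk' hw
      · exact U_l (by omega)
      · exact U_r (by omega)
    have hc : U h p c q := by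
      by_contra hc
      exact hu (iff_of_false hnw hc)
    have h4 : h p < h w := by
      rcases lt_or_gt_of_ne (uw p h1.ne) with h4 | h4
      · exact h4
      · exact absurd (U_l h4) hnw
    have h5 : h q < h w := by
      rcases lt_or_gt_of_ne (uw q (h2.trans h3).ne') with h5 | h5
      · exact h5
      · exact absurd (U_r h5) hnw
    refine ⟨p, q, epq, hk', h1.trans h2, h3, h4, h5, ?_⟩
    rcases hc with hc | hc
    · exact absurd hk' hc
    · exact hc

lemma xlt {X : Fin n → ℝ} (hX : ∀ a b, a < b → X a < X b) {a b : Fin n} : X a < X b ↔ a < b := by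
  constructor
  · intro h1
    rcases lt_trichotomy a b with h2 | h2 | h2
    · exact h2
    · rw [h2] at h1; exact absurd h1 (lt_irrefl _)
    · exact absurd (hX _ _ h2) (not_lt.2 h1.le)
  · exact hX a b

lemma xinj {X : Fin n → ℝ} (hX : ∀ a b, a < b → X a < X b) : Function.Injective X := by
  intro a b e
  rcases lt_trichotomy a b with h2 | h2 | h2
  · exact absurd e (hX _ _ h2).ne
  · exact h2
  · exact absurd e (hX _ _ h2).ne'

/-- visibility without abscissas -/
lemma vis_iff {X : Fin n → ℝ} (hX : ∀ a b, a < b → X a < X b) (t : ℕ) (c : Fin n) :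
    VisT X h (inP h E) t c ↔ h c < t ∧ ∀ p q, E.Adj p q → NK h p q → p < c → c < q →
      h p < t → h q < t → ¬ (h c < h p ∨ h c < h q) := by
  unfold VisT Over
  constructor
  · rintro ⟨h1, h2⟩
    refine ⟨h1, ?_⟩
    intro p q e hk h3 h4 h5 h6 h7
    exact h2 p q ⟨e, hk, NK_rev (h3.trans h4).le⟩ h5 h6 ⟨Or.inl ⟨hX _ _ h3, hX _ _ h4⟩, h7⟩
  · rintro ⟨h1, h2⟩
    refine ⟨h1, ?_⟩
    rintro a b ⟨e, k1, k2⟩ h3 h4 ⟨ho | ho, h5⟩
    · exact h2 a b e k1 ((xlt hX).1 ho.1) ((xlt hX).1 ho.2) h3 h4 h5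
    · exact h2 b a e.symm k2 ((xlt hX).1 ho.1) ((xlt hX).1 ho.2) h4 h3 h5.symm

/-- the stage facts hold for the edges without kinks below them -/
lemma stg {X : Fin n → ℝ} (hX : ∀ a b, a < b → X a < X b)
    (hh : ∀ a b, h a = h b → a = b ∨ h a = 0) (hE : TriU h E) (w : Fin n) (hw : 0 < h w) :
    Stg X h (inP h E) w := by
  have uq : ∀ a, h a = h w → a = w := by
    intro a e
    rcases hh a w e with h1 | h1
    · exact h1
    · omega
  refine ⟨xinj hX, uq, ?_, ?_, ?_⟩
  · intro c hc ⟨ecw, k1, k2⟩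
    rw [vis_iff hX]
    refine ⟨hc, ?_⟩
    intro p q e hk h1 h2 h3 h4 h5
    exact pass hE e hk h1 h2 h5 ecw (Or.inl ⟨h3, h4⟩)
  · intro c u hv hu huw hb
    rw [vis_iff hX] at hv
    obtain ⟨euw, k1, k2⟩ := hu
    simp only [xlt hX] at hb
    rcases hb with ⟨h1, h2⟩ | ⟨h1, h2⟩
    · have hkc : NK h c w := k1.sub h1.le (le_refl _)
      by_contra hcon
      have hna : ¬ E.Adj c w := fun e => hcon ⟨e, hkc, NK_rev h2.le⟩
      rcases block_left hh hE h2 hkc hv.1 hna with ⟨p, q, e, hk, h3, h4, h5, h6, h7⟩ |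
        ⟨a, b, e, h3, h4, h5, h6⟩
      · exact hv.2 p q e hk h3 h4 h5 h6 h7
      · refine pass hE euw k1 (h1.trans h3) h4 (Or.inr h5) e ?_
        rcases h6 with h6 | h6
        · exact Or.inl ⟨by omega, h6⟩
        · exact Or.inr h6
    · have hkc : NK h w c := k2.sub (le_refl _) h2.le
      by_contra hcon
      have hna : ¬ E.Adj c w := fun e => hcon ⟨e, NK_rev h1.le, hkc⟩
      rcases block_right hh hE h1 hkc hv.1 hna with ⟨p, q, e, hk, h3, h4, h5, h6, h7⟩ |
        ⟨a, b, e, h3, h4, h5, h6⟩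
      · exact hv.2 p q e hk h3 h4 h5 h6 h7
      · refine pass hE euw.symm k2 h3 (h4.trans h2) (Or.inl h5) e ?_
        rcases h6 with h6 | h6
        · exact Or.inl ⟨h6, by omega⟩
        · exact Or.inr h6
  · intro c hv hno
    rw [vis_iff hX] at hv
    have hzv : ∀ z, h z = 0 → VisT X h (inP h E) (h w) z := by
      intro z hz
      rw [vis_iff hX]
      refine ⟨by omega, ?_⟩
      intro p q _ hk h1 h2
      have := hk z h1 h2
      omega
    -- an invisible vertex between `c` and `w`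
    have inv : ∀ a b, E.Adj a b → ((c < a ∧ a < w) ∨ (w < a ∧ a < c)) → h a < h w →
        (h w < h b ∨ ¬ (NK h a b ∧ NK h b a)) → False := by
      intro a b e hb ha hab
      have hnv : ¬ VisT X h (inP h E) (h w) a := by
        intro hva
        apply hno a hva
        simp only [xlt hX]
        exact hb
      rw [vis_iff hX] at hnv
      push Not at hnv
      obtain ⟨r, s, ers, hk, h1, h2, h3, h4, h5⟩ := hnv ha
      refine pass hE ers hk h1 h2 h5 e ?_
      rcases hab with h6 | h6
      · exact Or.inl ⟨by omega, by omega⟩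
      · exact Or.inr h6
    have hne : c ≠ w := by
      rintro rfl
      exact lt_irrefl _ hv.1
    rcases lt_or_gt_of_ne hne with h1 | h1
    · have hkc : NK h c w := by
        intro z h2 h3
        by_contra hz
        apply hno z (hzv z (by omega))
        simp only [xlt hX]
        exact Or.inl ⟨h2, h3⟩
      by_contra hcon
      have hna : ¬ E.Adj c w := fun e => hcon ⟨e, hkc, NK_rev h1.le⟩
      rcases block_left hh hE h1 hkc hv.1 hna with ⟨p, q, e, hk, h3, h4, h5, h6, h7⟩ |
        ⟨a, b, e, h3, h4, h5, h6⟩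
      · exact hv.2 p q e hk h3 h4 h5 h6 h7
      · exact inv a b e (Or.inl ⟨h3, h4⟩) h5 h6
    · have hkc : NK h w c := by
        intro z h2 h3
        by_contra hz
        apply hno z (hzv z (by omega))
        simp only [xlt hX]
        exact Or.inr ⟨h2, h3⟩
      by_contra hcon
      have hna : ¬ E.Adj c w := fun e => hcon ⟨e, NK_rev h1.le, hkc⟩
      rcases block_right hh hE h1 hkc hv.1 hna with ⟨p, q, e, hk, h3, h4, h5, h6, h7⟩ |
        ⟨a, b, e, h3, h4, h5, h6⟩
      · exact hv.2 p q e hk h3 h4 h5 h6 h7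
      · exact inv a b e (Or.inr ⟨h3, h4⟩) h5 h6

end

end Pool.Agent.MP7a5e6c
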